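import Mathlib
import Pool.Agent.H76.S.Last

namespace Pool.Agent.H48.CYT

section SBase

/-- The models over the local ring of one prime divisor `b` of the base. -/
structure Germ (P Lam : Type) [AddCommGroup P] [AddCommGroup Lam] where
  /-- the small modifications of one model which are isomorphisms on the generic fibre -/
  Mo : Type
  /-- the restriction to the geometric generic fibre -/
  rho : Lam →+ P
  /-- nef over the base -/
  Nef : Mo → Lam → Prop
  /-- Cartier -/
  Car : Mo → Lam → Prop
  /-- some positive multiple is Cartier and its restriction to the special fibre `X_b` is semiample -/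
  SA : Mo → Lam → Prop
  /-- the dimension of `H^i(X_b, O(x))`, for Cartier classes `x` -/
  h : Mo → ℕ → Lam → ℕ

namespace Germ

variable {P Lam : Type} [AddCommGroup P] [AddCommGroup Lam]

/-- `RΓ(X_b, O(x)) = 0` for the class `x` on the model `mu` -/
def Acyclic (g : Germ P Lam) (mu : g.Mo) (x : Lam) : Prop := ∀ i, g.h mu i x = 0

end Germ

/-- additive maps -/
def Add {A B : Type} [AddCommGroup A] [AddCommGroup B] (f : A → B) : Prop :=
  ∀ x y, f (x + y) = f x + f y

/-!
`Y` is a simply connected projective threefold with canonical singularities, trivial canonical class
and `H^1(O) = H^2(O) = 0`: the threefold `X` itself, or an irreducible special fibre `X_b` of a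
degeneration of `X` (type F), over the complex numbers (choose an isomorphism of the algebraic closure
of the residue field with the complex numbers). `P` is the Picard group of `Y`, `H` a very ample class,
`S = S_j` a very general member of `|(j + 1) H|`, a surface with Du Val singularities which contains no
curve of the singular locus of `Y`, and `S'` its minimal resolution. These data are used to prove: if
`x` is nef, not zero and some `H^i(Y, x)` is not zero, then `x` is semiample.
-/

/-- The data of the canonical threefold `Y`. -/
structure Shape (P : Type) [AddCommGroup P] where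
  /-- the divisor class group -/
  C : Type
  /-- locally free sheaves of rank two -/
  BY : Type
  /-- the Picard group of `S'` -/
  G : ℕ → Type
  /-- the divisor class group of `S` -/
  K : ℕ → Type
  /-- locally free sheaves of rank two on `S'` -/
  B : ℕ → Type
  [grpC : AddCommGroup C]
  [grpG : ∀ j, AddCommGroup (G j)]
  [grpK : ∀ j, AddCommGroup (K j)]
  /-- the intersection form -/
  T : P → P → P → ℤ
  /-- the linear form of the Riemann-Roch theorem (the second Chern class of a crepant terminal
  model) -/
  c : P → ℤ
  /-- the dimension of `H^i(Y, x)` -/
  h : Fin 4 → P → ℕ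
  /-- nef classes -/
  Nef : P → Prop
  /-- semiample classes -/
  SA : P → Prop
  /-- a very ample class -/
  H : P
  /-- the Weil divisor class of a line bundle -/
  incl : P → C
  /-- the degree `H^2.y` of a Weil divisor class -/
  deg : C → ℤ
  /-- effective Weil divisor classes -/
  EffC : C → Prop
  /-- the first Chern class -/
  c1 : BY → P
  /-- the degree `c_2(E).H` -/
  c2H : BY → ℤ
  /-- slope stability with respect to `H` -/
  Stable : BY → Prop
  /-- the pull-back of line bundles from `Y` to `S'` -/
  res : ∀ j, P → G j
  /-- the pull-back of sheaves from `Y` to `S'` -/
  resB : ∀ j, BY → B j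
  /-- the intersection form of `S'` -/
  I : ∀ j, G j → G j → ℤ
  /-- effective classes of `S'` -/
  Eff : ∀ j, G j → Prop
  /-- the direct image of divisors from `S'` to `S` -/
  push : ∀ j, G j → K j
  /-- the restriction of Weil divisors from `Y` to `S` -/
  resC : ∀ j, C → K j
  /-- effective classes of `S` -/
  EffK : ∀ j, K j → Prop
  /-- the second Chern class of a sheaf on `S'` -/
  c2 : ∀ j, B j → ℤ
  /-- `Sub j E N F w`: `c_1(E) = N` and there is an exact sequence `0 → O(F) → E → I_W(N - F) → 0` on
  `S'`, `W` of length `w` -/
  Sub : ∀ j, B j → G j → G j → ℕ → Prop

attribute [instance] Shape.grpC Shape.grpG Shape.grpK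

/-- Restriction of divisors to the surfaces `S` and `S'`. -/
structure Shape.Restriction {P : Type} [AddCommGroup P] (Y : Shape P) : Prop where
  add_push : ∀ j, Add (Y.push j)
  add_resC : ∀ j, Add (Y.resC j)
  form : ∀ j x y, Y.I j (Y.res j x) (Y.res j y) = (j + 1) * Y.T Y.H x y
  compat : ∀ j x, Y.push j (Y.res j x) = Y.resC j (Y.incl x)
  /-- Lefschetz theorem for the pair `(Y - Sing Y, S - Sing Y)` (Goresky and MacPherson; Ravindra and
  Srinivas): the restriction of divisor classes is injective -/
  inj : ∀ j y, Y.resC j y = 0 → y = 0
  /-- the same theorem for the first and second cohomology groups of `Y - Sing Y` with coefficients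
  `ℤ / k`, and the Kummer sequence: the cokernel of the restriction is torsion free -/
  sat : ∀ j (k : ℤ) z y, k ≠ 0 → k • z = Y.resC j y → ∃ y', z = Y.resC j y'

/-- Divisors on the surfaces `S` and `S'`. -/
structure Shape.Surfaces {P : Type} [AddCommGroup P] (Y : Shape P) : Prop where
  add_I : ∀ j x, Add (Y.I j x)
  symm : ∀ j x y, Y.I j x y = Y.I j y x
  /-- Hodge index theorem; `H^1(S', O) = 0`, so numerically trivial classes are torsion -/
  index : ∀ j F, Y.I j (Y.res j Y.H) F = 0 → 0 ≤ Y.I j F F → ∃ k : ℤ, k ≠ 0 ∧ k • F = 0
  nef_eff : ∀ j x F, Y.Nef x → Y.Eff j F → 0 ≤ Y.I j (Y.res j x) F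
  /-- an effective torsion class is zero -/
  eff_tors : ∀ j F (k : ℤ), Y.Eff j F → k ≠ 0 → k • F = 0 → F = 0
  push_eff : ∀ j F, Y.Eff j F → Y.EffK j (Y.push j F)
  /-- Chern classes of the sheaves in the exact sequence -/
  chern : ∀ j E N F w, Y.Sub j E N F w → Y.c2 j E = Y.I j F (N - F) + w

/-- Line bundles on `Y`. -/
structure Shape.Lines {P : Type} [AddCommGroup P] (Y : Shape P) : Prop where
  add_T : ∀ x y, Add (Y.T x y)
  add_c : Add Y.c
  symm12 : ∀ x y z, Y.T x y z = Y.T y x z
  symm23 : ∀ x y z, Y.T x y z = Y.T x z y
  nef_H : Y.Nef Y.H
  nef_mul : ∀ (k : ℤ) x, 0 < k → (Y.Nef (k • x) ↔ Y.Nef x)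
  sa_mul : ∀ (k : ℤ) x, 0 < k → (Y.SA (k • x) ↔ Y.SA x)
  sa_zero : Y.SA 0
  /-- intersection numbers of nef classes are not negative -/
  nonneg : ∀ x y z, Y.Nef x → Y.Nef y → Y.Nef z → 0 ≤ Y.T x y z
  /-- Hodge index theorem and Lefschetz theorem; the Picard group is torsion free because `Y` is
  simply connected -/
  index : ∀ z, Y.T Y.H Y.H z = 0 → Y.T Y.H z z = 0 → z = 0
  /-- Miyaoka -/
  miyaoka : ∀ x, Y.Nef x → 0 ≤ Y.c x

/-- Cohomology of line bundles on `Y`. -/
structure Shape.Cohomology {P : Type} [AddCommGroup P] (Y : Shape P) : Prop where
  /-- Riemann-Roch theorem -/
  rr : ∀ x, 12 * ((Y.h 0 x : ℤ) - Y.h 1 x + Y.h 2 x - Y.h 3 x) = 2 * Y.T x x x + Y.c x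
  /-- Serre duality -/
  serre : ∀ i x, Y.h i (-x) = Y.h (Fin.rev i) x
  h0_neg : ∀ x, Y.Nef x → x ≠ 0 → Y.h 0 (-x) = 0
  /-- Kawamata-Viehweg vanishing theorem -/
  kv : ∀ x, Y.Nef x → Y.T Y.H x x ≠ 0 → Y.h 2 x = 0
  /-- Keel, Matsuki and McKernan: effective nef classes -/
  kmm : ∀ x, Y.Nef x → Y.h 0 x ≠ 0 → Y.SA x

/-- Weil divisors on `Y`. -/
structure Shape.Weil {P : Type} [AddCommGroup P] (Y : Shape P) : Prop where
  add_incl : Add Y.incl
  add_deg : Add Y.deg
  deg_incl : ∀ x, Y.deg (Y.incl x) = Y.T Y.H Y.H x
  /-- the divisor class group is finitely generated -/
  tors_fin : {y : Y.C | ∃ k : ℤ, k ≠ 0 ∧ k • y = 0}.Finite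
  eff_mul : ∀ (k : ℤ) y, 0 < k → Y.EffC y → Y.EffC (k • y)
  eff_incl : ∀ x, Y.EffC (Y.incl x) → Y.h 0 x ≠ 0
  /-- Serre, Enriques, Severi and Zariski: `H^1(Y, O(y - (j + 1) H)) = 0` for large `j`; `S` does not
  contain the finitely many points where `O(y)` is not Cohen-Macaulay -/
  lift : ∀ y, ∃ j0 : ℕ, ∀ j, j0 ≤ j → Y.EffK j (Y.resC j y) → Y.EffC y

/-- Vector bundles of rank two on `Y`. -/
structure Shape.Bundles {P : Type} [AddCommGroup P] (Y : Shape P) : Prop where
  c2_res : ∀ j E, Y.c2 j (Y.resB j E) = (j + 1) * Y.c2H E
  /-- Bogomolov, Donaldson, Uhlenbeck and Yau on a resolution `m : Y' → Y`: for a small `ε > 0` and an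
  exceptional divisor `Γ ≥ 0` with `- Γ` relatively ample the pull-back `E'` of a stable `E` is stable
  for the ample class `m^*H - ε Γ`, and `c_1(E')^2.Γ = c_2(E').Γ = 0` (projection formula); so in the
  case of equality `E'` is projectively flat, hence `End E'` is trivial, because `Y'` is simply
  connected (Takayama), and `E` is not simple (compare Greb, Kebekus and Peternell) -/
  bog : ∀ E, Y.Stable E → Y.T Y.H (Y.c1 E) (Y.c1 E) < 4 * Y.c2H E
  /-- the restriction of a destabilising subsheaf of rank one to `S`, pulled back to `S'` and
  saturated -/
  unstable : ∀ E, ¬ Y.Stable E → ∀ j, ∃ F w, Y.Sub j (Y.resB j E) (Y.res j (Y.c1 E)) F w ∧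
    Y.I j (Y.res j Y.H) (Y.res j (Y.c1 E)) ≤ 2 * Y.I j (Y.res j Y.H) F
  /-- a nonzero element of `H^1(Y, -x)` is a nonsplit extension `E` of `O(x)` by `O`; its restriction
  to `S'` is not split (Kawamata-Viehweg: `H^1(Y, -x - (j + 1) H) = 0`); a subsheaf `O(F)` of positive
  degree maps to `O(x)`, this map is not zero and not an isomorphism -/
  ext : ∀ x, Y.Nef x → Y.h 1 (-x) ≠ 0 → ∃ E, Y.c1 E = x ∧ Y.c2H E = 0 ∧
    ∀ j F w, Y.Sub j (Y.resB j E) (Y.res j x) F w → 0 < Y.I j (Y.res j Y.H) F →
      Y.Eff j (Y.res j x - F) ∧ Y.res j x ≠ F

/-- A simply connected canonical threefold with `K = 0` and `H^1(O) = H^2(O) = 0`. -/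
structure CY (P : Type) [AddCommGroup P] extends Shape P where
  restriction : toShape.Restriction
  surfaces : toShape.Surfaces
  lines : toShape.Lines
  coh : toShape.Cohomology
  weil : toShape.Weil
  bundles : toShape.Bundles

/-- A germ of type F: for every model the special fibre is irreducible with canonical singularities,
`K = 0` and `H^1(O) = H^2(O) = 0`, and simply connected, since the generic member is simply
connected. (The models are small modifications of one terminal model, so their special fibres have
the same components; inversion of adjunction.) -/
structure TypeF {P Lam : Type} [AddCommGroup P] [AddCommGroup Lam] (g : Germ P Lam) where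
  /-- the rank of the Picard group of the special fibre, which is torsion free -/
  rk : g.Mo → ℕ
  /-- the special fibre of the model -/
  fib : ∀ mu, CY (FreeAbelianGroup (Fin (rk mu)))
  /-- the restriction of Cartier classes to the special fibre -/
  cls : ∀ mu, Lam → FreeAbelianGroup (Fin (rk mu))
  cls_mul : ∀ mu x (j : ℕ), g.Car mu x → g.Car mu (j • x) → cls mu (j • x) = (j : ℤ) • cls mu x
  h_eq : ∀ mu x (i : Fin 4), g.Car mu x → g.h mu i x = (fib mu).h i (cls mu x)
  /-- the special fibre has dimension three -/
  h_top : ∀ mu x i, 4 ≤ i → g.h mu i x = 0
  nef : ∀ mu x, g.Car mu x → g.Nef mu x → (fib mu).Nef (cls mu x)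
  sa : ∀ mu x, g.Car mu x → (fib mu).SA (cls mu x) → g.SA mu x

end SBase

/-! ## Interior -/

section SInterior

/-- The interior divisors of the base. The base is a finite covering of a compactification of the
moduli space of the smooth deformations of `X` polarised by `A`, and the interior divisors are those
which meet the open part. `Inn b`: `b` is an interior divisor, `NefB b L`: the class `L` is nef on the
fibre over the general point of `b`. The intersection form of the smooth fibres is the form of `X`. -/
structure Interior {P : Type} [AddCommGroup P] (X : CY P) (B : Type) (NefG : P → Prop)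
    (Inn : B → Prop) (NefB : B → P → Prop) where
  /-- a class which is ample on all the smooth fibres -/
  A : P
  /-- only finitely many divisors of the base are not interior -/
  bdry : {b : B | ¬ Inn b}.Finite
  /-- `Ruled b E l` : the smooth fibre over a very general point of `b` contains a surface `E`
  ruled over a curve of positive genus with general fibre `l`, which does not deform to the generic
  fibre -/
  Ruled : B → P → (P → ℤ) → Prop
  /-- the degree of curves -/
  add : ∀ b E l, Ruled b E l → Add l
  /-- Wilson: the nef cone jumps only through such surfaces -/
  wilson : ∀ b L, Inn b → NefG L → ¬ NefB b L → ∃ E l, Ruled b E l ∧ l L < 0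
  /-- a surface has positive degree -/
  pos : ∀ b E l, Ruled b E l → 0 < X.T A A E
  /-- flop of the total space along `E` and semicontinuity: `L + (L.l) E` is pseudoeffective on
  the fibre over `b`, and a pseudoeffective class has nonnegative degree -/
  pseff : ∀ b L E l, Inn b → NefG L → Ruled b E l → l L < 0 → 0 ≤ X.T A A (L + l L • E)
  /-- boundedness of the Chow variety: surfaces of bounded degree which do not deform to the
  generic fibre lie over finitely many divisors of the base -/
  chow : ∀ n : ℤ, {b | Inn b ∧ ∃ E l, Ruled b E l ∧ X.T A A E ≤ n}.Finite

end SInterior

section SHodge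

/-!
# MP_5ee2d0_ag: which boundary divisors meet the Hodge bundle

For a prime divisor `b` of the base let `N` be the logarithm of the local monodromy and `Gr_j` the
graded pieces of the limit mixed Hodge structure on `H^3`. The line `F^3` lies in exactly one
`Gr_(3 + kind b)`, in the primitive part of it, a polarised variation of Hodge structure over an
open part of `b`; `P` is the smallest rational subvariation which contains `F^3`.
-/

/-- Hodge theory of the prime divisors `b` of the base, which has dimension `h`; `wt b` is the
intersection number of `b` with the power `h - 1` of the Hodge bundle. -/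
structure HodgeTypes (h : ℕ) (B : Type) (wt : B → ℚ) where
  /-- `F^3` lies in `Gr_(3 + kind b)` -/
  kind : B → ℕ
  /-- the Hodge numbers of the smallest rational subvariation `P` of `Gr_(3 + kind b)` which contains
  `F^3` -/
  hn : B → ℕ → ℕ → ℕ
  /-- the rank of the period map of the line `F^3` of `P` at a general point of `b` -/
  rk : B → ℕ
  symm : ∀ b p q, hn b p q = hn b q p
  /-- Hodge numbers of a limit mixed Hodge structure of weight three -/
  le_three : ∀ b p q, 3 < p → hn b p q = 0
  line : ∀ b, hn b 3 (kind b) = 1
  /-- Griffiths: the derivative of the period map of `F^3` has values in `Hom (F^3, F^2 / F^3)` -/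
  rk_le : ∀ b, rk b ≤ hn b 2 (kind b + 1)
  /-- Cattani, Kaplan and Schmid; Kollár: the intersection number is the integral of the power
  `h - 1` of the curvature of the line `F^3` of `P` -/
  rank : ∀ b, wt b ≠ 0 → h ≤ rk b + 1
  /-- for `kind b = 1` the double surface of the special fibre is a surface of abelian type: an
  abelian surface or a quotient of one -/
  Abel : B → Prop
  /-- Fujino, Kollár, Nicaise, Xu; Steenbrink: for `kind b = 1` the special fibre of a dlt model is a
  chain, `P`, being simple, embeds by the residue in the transcendental part of the second cohomology
  of the minimal resolution of its double surface; this resolution is a K3 surface (second Betti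
  number 22) or an abelian surface -/
  k3 : ∀ b, kind b = 1 → hn b 1 3 + hn b 2 2 + hn b 3 1 + 1 ≤ 22
  /-- for the surfaces of abelian type `P` embeds in the second cohomology of an abelian surface -/
  abel : ∀ b, kind b = 1 → Abel b → hn b 1 3 + hn b 2 2 + hn b 3 1 + 1 ≤ 6

end SHodge

section STerm

/-!
# MP_5ee2d0_ag: termination over one prime divisor of the base, all types of special fibres

`Δ` is the local ring of a prime divisor `b` of the base (of `Mbar`), or a smooth curve germ;
`YY_0 → Δ` is projective, `YY_0` is `Q`-factorial and terminal of relative dimension three, its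
canonical class is trivial, the special fibre `F_0 = Σ V_i` is reduced and `(YY_0, F_0)` is log
canonical. (A `Q`-factorial dlt model `(XX, X_b)` with trivial canonical class and reduced `X_b` is of
this kind; in general take a `Q`-factorial terminalisation.) `L` is an integral class which is nef on
the generic fibre, `s_i` are real numbers, `H` is nef and big (the pull back of an ample class of `XX`),
`N = L - Σ s_i V_i`, and `N + d H` is a limit of movable classes for all `d > 0`.

On the generic fibre `N + d H` is nef, so the locus of each step lies in the special fibre. The steps of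
the minimal model program for `N + d H`, `d` decreasing to zero, are small and trivial
for `K` (flops), all `YY_j` are `Q`-factorial terminal, and `(YY_j, F_j)` is log canonical. We show that
there are only finitely many steps. The proof looks at the prime divisors `E` over `YY_j` with
discrepancy one: the blow up of a surface `G` of `YY_j` is such an `E` since a terminal variety is
smooth in codimension two. As long as its centre is a surface, `E` can only lose integral multiples of
the `1` and `s_i`; and almost all of them lose less than the smallest positive number of this kind.
So after finitely many steps no surface is created, and the classical argument of Kawamata, Matsuda and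
Matsuki applies.
-/

open Filter Topology

/-- An infinite sequence of steps `YY_0 ⇢ YY_1 ⇢ ...`. -/
structure Run where
  /-- the threshold of step `j`: it is trivial on `N + d_j H` and negative on `N` -/
  d : ℕ → ℝ
  pos : ∀ j, 0 < d j
  anti : Antitone d
  /-- Birkar, Cascini, Hacon, McKernan: `N + d H` is big, so above a positive number there are only
  finitely many thresholds -/
  lim : Tendsto d atTop (𝓝 0)
  /-- the components `V_i` of the special fibre and their coefficients in `N` -/
  I : Type
  [fin : Fintype I]
  s : I → ℝ
  /-- the exceptional prime divisors over `YY_j` with centre in `F_j` and discrepancy one; they are the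
  same for all `j` since the steps are small and trivial for `K` -/
  A : Type
  /-- the centre of `E` on `YY_j` is a surface -/
  Surf : ℕ → A → Prop
  /-- the centre of `E` on `YY_j` lies in the locus of step `j`; equivalently, its centre on
  `YY_(j+1)` lies in the locus created by the step -/
  Inv : ℕ → A → Prop
  /-- the multiplicities along `E` of the pull backs of (the strict transforms on `YY_j` of) one
  integral divisor in the class `L`, of the `V_i`, and of a divisor in the class `H` -/
  ordL : ℕ → A → ℝ
  ordV : ℕ → A → I → ℝ
  ordH : ℕ → A → ℝ
  /-- a terminal variety is smooth in codimension two, so divisors are Cartier at the general point of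
  a surface -/
  intL : ∀ j E, Surf j E → ∃ z : ℤ, ordL j E = z
  /-- the log discrepancy of `E` for `(YY_j, F_j)` is `2 - Σ ord_E(V_i) ≥ 0` -/
  intV : ∀ j E i, Surf j E → ∃ z : ℤ, ordV j E i = z ∧ 0 ≤ z ∧ z ≤ 2
  /-- negativity lemma: `p^*N_j - q^*N_(j+1)` is effective and its support is the preimage of the locus
  of the step -/
  drop : ∀ j E, ordL (j + 1) E - ∑ i, s i * ordV (j + 1) E i ≤ ordL j E - ∑ i, s i * ordV j E i
  drop_lt : ∀ j E, Inv j E →
    ordL (j + 1) E - ∑ i, s i * ordV (j + 1) E i < ordL j E - ∑ i, s i * ordV j E i
  /-- the step is trivial on `N + d_j H` -/
  triv : ∀ j E, ordL (j + 1) E - ∑ i, s i * ordV (j + 1) E i + d j * ordH (j + 1) E =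
    ordL j E - ∑ i, s i * ordV j E i + d j * ordH j E
  /-- outside its locus the step is an isomorphism -/
  keep : ∀ j E, ¬ Inv j E → Surf j E → Surf (j + 1) E
  /-- Let `W` be a log resolution of `YY_0`, an isomorphism over the regular locus, with a divisor as
  exceptional locus. The discrepancies of the exceptional divisors of `W` are positive integers, so a
  divisor which is exceptional over `W` has discrepancy at least two if its centre lies in the
  exceptional locus, and also if it is a centre of codimension at least three in a regular point. -/
  off : {E | ¬ Surf 0 E}.Finite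
  /-- the centre of `E` on `YY_0` lies in `V_i` -/
  On : A → I → Prop
  on : ∀ E, ∃ i, On E i
  /-- the degrees of `N_0` and of `H_0` on `V_i`, with respect to the square of a very ample divisor of
  `YY_0` -/
  n : I → ℝ
  h : I → ℝ
  /-- `M = N_j + d_j H_j` is nef on `YY_j`, so its strict transform on `YY_0` is a limit of classes of
  effective divisors which do not contain `V_i` and the degree of which on `V_i` is at least the sum of
  their multiplicities along the surfaces in `V_i` (surfaces have degree at least one). The
  multiplicities are the coefficients of the pull back of `N_0 + d_j H_0` minus the pull back of `M`. -/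
  bound : ∀ i j (S : Finset A), (∀ E ∈ S, Surf 0 E ∧ On E i) →
    ∑ E ∈ S, ((ordL 0 E - ∑ k, s k * ordV 0 E k + d j * ordH 0 E) -
      (ordL j E - ∑ k, s k * ordV j E k + d j * ordH j E)) ≤ n i + d j * h i
  /-- Zariski's lemma: on a resolution `W` of `YY_0` on which `E` is a divisor, the pull back of
  `N_0 + d_j H_0` minus the (push forward to `W` of the) pull back of `M` has nonnegative coefficients,
  which are zero for the `V_i`, and `M.Γ.A^2 ≥ 0` for the components `Γ` of the connected special fibre
  of `W` and an ample divisor `A` of `W` -/
  zariski : ∀ E, ∃ c : ℝ, ∀ j, ((ordL 0 E - ∑ i, s i * ordV 0 E i + d j * ordH 0 E) -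
      (ordL j E - ∑ i, s i * ordV j E i + d j * ordH j E)) ≤ c
  /-- the dimension of the span of the classes of surfaces in `H_4(F_j, Q)` (after an embedding of the
  residue field in the complex numbers) -/
  rk : ℕ → ℕ
  /-- Kawamata, Matsuda, Matsuki 1987, 5-1-15 to 5-1-17, and Matsuki 1991 for flops: if the locus created
  by step `j` in `YY_(j+1)` contains no surface then the locus of the step contains a surface, and the
  dimension drops. If it contains a surface `G`, let `E` be the blow up of `G`. -/
  kmm : ∀ j, (∀ E, Inv j E → ¬ Surf (j + 1) E) → rk (j + 1) < rk j

attribute [instance] Run.fin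

end STerm

section SNefModel

/-!
# MP_5ee2d0_ag: a nef class of the generic fibre has a nef extension on some model; all types

The models `XX → Δ` are projective and `Q`-factorial with trivial canonical class, the special fibre
`Σ V_i` is reduced and `(XX, Σ V_i)` is log canonical. They are terminal, or the special fibre has two
components which meet in a surface `D` which is not uniruled and they are canonical and terminal
outside of `D`. There is no other assumption on the number of the components, on their
intersections or on the monodromy.
-/

open Filter Topology

/-- Movable and nef classes of the models over the local ring of one prime divisor of the base. `N` is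
the space of the real classes of divisors up to numerical equivalence over the base, the same space
for all small modifications. -/
structure NefGerm {P Lam : Type} [AddCommGroup P] [AddCommGroup Lam] (g : Germ P Lam)
    (NefG : P → Prop) (N : Type) [NormedAddCommGroup N] [NormedSpace ℝ N] where
  /-- the number of the components of the special fibre minus one -/
  n : ℕ
  /-- the classes of the components, all but one of them; the special fibre is connected and the sum
  of all its components is zero -/
  V : Fin n → Lam
  /-- the components do not meet the generic fibre -/
  rho_V : ∀ i, g.rho (V i) = 0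
  cl : Lam →+ N
  /-- an ample class of one model -/
  H : N
  /-- the real class `x - Σ s_i V_i + d H` -/
  tw : Lam → (Fin n → ℝ) → ℝ → N
  tw_eq : ∀ x s d, tw x s d = cl x - ∑ i, s i • cl (V i) + d • H
  /-- the closed movable cone: limits of classes of divisors a multiple of which has no fixed
  components -/
  Mov : Set N
  closed : IsClosed Mov
  add_mem : ∀ x y, x ∈ Mov → y ∈ Mov → x + y ∈ Mov
  smul_mem : ∀ (r : ℝ) x, 0 ≤ r → x ∈ Mov → r • x ∈ Mov
  H_mem : H ∈ Mov
  /-- Zariski's lemma (negativity lemma): a movable class with support in the special fibre is zero;
  otherwise its restriction to a component with the largest coefficient is not pseudoeffective -/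
  neg : ∀ s, tw 0 s 0 ∈ Mov → ∀ i, s i = 0
  /-- `L + (1/n) H` is ample on the generic fibre; so the fixed components of a large multiple of it
  are components of the special fibre -/
  gen : ∀ x, NefG (g.rho x) → ∀ n : ℕ, 0 < n → ∃ s, tw x s (1 / n) ∈ Mov
  /-- nef classes of the models -/
  NefR : g.Mo → N → Prop
  nef_cl : ∀ mu x, NefR mu (cl x) → g.Nef mu x
  nef_smul : ∀ mu (r : ℝ) x, 0 ≤ r → NefR mu x → NefR mu (r • x)
  /-- Birkar, Cascini, Hacon and McKernan: the minimal model program for `N = x - Σ s_i V_i + d H`, `d`
  tending to zero, has only small steps since these classes are in the interior of the movable cone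
  (they are the sum of the movable class `x - Σ s_i V_i + (d/2) H` and of `(d/2) H`), and only finitely many of them over an interval bounded away from zero. If it stops then `N` is nef
  on the last model; otherwise its infinitely many steps have the properties listed in `Run`, all of
  them published facts. That there is no infinite sequence is not assumed but proved (`Run.false`).
  (If the models are canonical and not terminal then the steps lift to steps on `Q`-factorial
  terminalisations, whose exceptional divisors have the centre `D`: the fibres of the contractions of the
  steps are rationally chain connected (Hacon, McKernan), so `D` is in the locus of no step.) -/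
  mmp : ∀ x s, NefG (g.rho x) → (∀ d : ℝ, 0 < d → tw x s d ∈ Mov) →
    (∃ mu, NefR mu (tw x s 0)) ∨ Nonempty Run
  /-- rational curves in the special fibre of a model `mu` which generate extremal rays on which some
  component is not zero, one curve of minimal degree for each of these extremal rays -/
  Ray : g.Mo → Type
  /-- the intersection number -/
  deg : ∀ mu, Ray mu → N → ℝ
  deg_add : ∀ mu C x y, deg mu C (x + y) = deg mu C x + deg mu C y
  deg_smul : ∀ mu C (r : ℝ) x, deg mu C (r • x) = r * deg mu C x
  deg_nef : ∀ mu C x, NefR mu x → 0 ≤ deg mu C x
  /-- Cone theorem (Kawamata, Kollár, Mori, Shokurov): `N' = x - Σ t_i V_i` is numerically the sum of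
  the nef class `x - Σ s_i V_i` and an effective combination `D` of all components, and `(mu, ε D)` is
  klt for small `ε > 0`. So if `N'` is not nef then it is negative on an extremal ray on which `D`
  is negative. -/
  cone : ∀ mu x s t, NefR mu (tw x s 0) → (∀ C, 0 ≤ deg mu C (tw x t 0)) → NefR mu (tw x t 0)
  /-- the model is `Q`-factorial, the group of classes is finitely generated -/
  ind : g.Mo → ℕ
  ind_pos : ∀ mu, 0 < ind mu
  int : ∀ mu C x, ∃ z : ℤ, ind mu * deg mu C (cl x) = z
  /-- Kawamata 1991: let `D` be the sum of the components (of all components) which are negative on the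
  curve; the pairs `(mu, c D)`, `c < 1`, are klt, so the degree of `- D` is at most twice the dimension
  of the fibres of the contraction. The sum of all components is zero. -/
  bound : ∀ mu C i, |deg mu C (cl (V i))| ≤ 6

end SNefModel

section SWeightsAll

/-!
# MP_5ee2d0_ag, Theorem M/N: lifting one section, all types of prime divisors `b`

`pi : XX -> Delta` is a `K`-trivial model over a transversal disc through a very general point of a
prime divisor `b` of the base of the family, with slc special fibre `X_b`; `h^1(O_(X_b)) =
h^2(O_(X_b)) = 0`. Let `x` be a Cartier class on `XX` which is semiample on `X_b` and `s` a section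
of a multiple `k x` on `X_b` whose divisor `R` is a general member of a base point free linear
system. If `λ^(h-1).b ≠ 0` or if `b` is an interior divisor, then `s` lifts to all orders, so a
multiple of the restriction of `x` to the generic member is effective.

Lemma W: cup product with the localised Chern class of `(k x, s)` is a morphism of mixed Hodge
structures `c : H^1(R)(-1) -> ker M`, `M` the logarithm of the monodromy on the limit of `H^3(X_t)`.
The functions `f_a` on `Delta` which are the images of `c(a)` under `H^3(XX) -> R^3 pi_* O = O` are
zero as soon as `c = 0`, and their Taylor coefficients are the obstructions. The three reasons for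
`c = 0` are `NoClassOne` (`X_b` is irreducible with canonical singularities: `H^1(R)` is a pure Hodge
structure without coinvariants under the monodromy of the linear system of `R`), `NoClassTwo` (`F^3`
in `Gr_4`: rational classes of type `(1,1)` in the simple Hodge structure `Gr_2`) and `NoClassThree`
(`F^3` in `Gr_5`, `h = 2`: weights). Numerical dimension one and two are treated together, nothing
is used about the double surfaces of `X_b`.
-/

/-- A section `s` of a Cartier class (a multiple of `x`) on the special fibre `X_b`, with divisor
`R`, and the obstructions to lifting it; `Eff` says that the class is effective on the geometric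
generic member. -/
structure Sect (Eff : Prop) where
  /-- `H^1(R, ℂ)` -/
  A : Type
  /-- `H^1(R, O_R)` -/
  O1 : Type
  /-- `H^1(X_b, O(x))`; it is `H^1(R, ω_R)`, because `ω_(X_b)` is trivial, `ω_R` is the restriction
  of `O(x)` (adjunction) and `H^1(O_(X_b)) = H^2(O_(X_b)) = 0` -/
  Ob : Type
  [zeroOb : Zero Ob]
  /-- the Hodge component `H^1(R, ℂ) -> H^1(R, O_R)` -/
  red : A → O1
  /-- `R` is a general member of a base point free linear system on the slc variety `X_b`, so it is
  slc, hence Du Bois (Kollár, Kovács) -/
  du_bois : ∀ u, ∃ a, red a = u
  /-- cup product and trace `H^1(R, ω_R) x H^1(R, O_R) -> H^2(R, ω_R) -> H^3(X_b, O) = ℂ`, multiplied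
  by a non-zero constant -/
  pair : Ob → O1 → ℂ
  /-- Serre duality on `R` -/
  serre : ∀ o, (∀ u, pair o u = 0) → o = 0
  /-- Taylor coefficients of the holomorphic function `f_a` on `Delta` which is the image of the
  product of `a` and the localised Chern class of `(x, s)`, an element of
  `H^3_R(X_b) -> H^3(X_b) = H^3(XX, ℂ)`, under `H^3(XX, ℂ) -> R^3 pi_* O = O` -/
  coef : ℕ → A → ℂ
  /-- sections on `X_b` modulo `t^(n+1)` which restrict to `s` -/
  Lift : ℕ → Type
  trunc : ∀ n, Lift (n + 1) → Lift n
  s : Lift 0
  /-- the obstruction to lifting one step further -/
  ob : ∀ n, Lift n → Ob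
  lift : ∀ n x, ob n x = 0 → ∃ y : Lift (n + 1), trunc n y = x
  /-- if `s` is lifted modulo `t^(n+1)`, the coefficient of `t^(n+1)` is given by the obstruction
  (Bloch 1972, Ran 1993, Buchweitz and Flenner 2003: semiregularity). For a divisor it is the
  exponential sequence with supports in `R`: the localised Chern class of `(x, s)` is zero in
  `H^2_R(O / t^(n+1))` and `t^(n+1) (ob / s)` in `H^2_R(O / t^(n+2))`, up to the image of
  `H^1_R(O / t^(n+1))`, which the product with `H^1(R, ℂ)` sends to zero in `H^3(O / t^(n+2))` -/
  taylor : ∀ n x a, coef (n + 1) a = pair (ob n x) (red a)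
  /-- Grothendieck: a section over the formal completion, not zero on `X_b` -/
  algebraize : (∃ x : ∀ n, Lift n, x 0 = s ∧ ∀ n, trunc n (x (n + 1)) = x n) → Eff

attribute [instance] Sect.zeroOb

/-- `X_b` irreducible with canonical singularities (`F^3` in `Gr_3`; in particular `b` interior).
`R` has Du Val singularities, so `H^1(R)` is pure; the fundamental group of the complement of the
discriminant in the linear system acts on it. -/
structure NoClassOne {Eff : Prop} (F : Sect Eff) where
  [add : AddCommGroup F.A]
  coef_add : ∀ n a b, F.coef n (a + b) = F.coef n a + F.coef n b
  Gam : Type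
  act : Gam → F.A → F.A
  /-- `a` and `g a` have the same image in `H^3(X_b)` -/
  coef_act : ∀ n g a, F.coef n (act g a) = F.coef n a
  /-- Deligne: the monodromy representation on `H^1(R)` is semisimple, its invariants are the image
  of `H^1` of a resolution of the incidence variety, which is `H^1(X_b) = 0`; so there are no
  coinvariants -/
  coinv : ∀ a, a ∈ AddSubgroup.closure {c | ∃ g b, c = act g b - b}

/-- `F^3` in `Gr_4` (`X_b` is a chain) and `λ^(h-1).b ≠ 0`: the smallest subvariation `P` of `Gr_4`
which contains `F^3` has rank `h + 1` at least, so the limit of `H^3(X_t)`, of dimension `2 h + 2`,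
is `Gr_4 + Gr_2`, `Gr_4 = P`, `Gr_2 = P(1)`, and the period map of `P` is dominant. -/
structure NoClassTwo {Eff : Prop} (F : Sect Eff) where
  /-- `H^1(R, ℚ)` -/
  AQ : Type
  incl : AQ → F.A
  /-- `H^1(R, ℚ)` spans `H^1(R, ℂ)`, `a ↦ f_a` is linear -/
  span : ∀ n, (∀ a, F.coef n (incl a) = 0) → ∀ a, F.coef n a = 0
  m : ℕ
  /-- the image of `a` in `ker M = Gr_2`, coordinates with respect to a rational basis -/
  cls : AQ → Fin m → ℚ
  coef_zero : ∀ a, cls a = 0 → ∀ n, F.coef n (incl a) = 0
  /-- the linear form on `Gr_2` given by the line `H^(2,0)` and the polarisation -/
  per : Fin m → ℂ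
  /-- `H^1(R)(-1)` has weights 2 and 3 and its part of weight 2 is of type `(1,1)`: by strictness the
  image in the pure Hodge structure `Gr_2` is of type `(1,1)` -/
  hodge : ∀ a, ∑ i, (cls a i : ℂ) * per i = 0
  /-- at a very general point of `b` the period point of `P` is not orthogonal to a rational class:
  the period map of `P` is dominant, and a rational class orthogonal to `F^3` on all of `b` is
  orthogonal to the smallest subvariation `P` which contains `F^3` -/
  very_general : ∀ v : Fin m → ℚ, ∑ i, (v i : ℂ) * per i = 0 → v = 0

/-- `F^3` in `Gr_5` and `h = 2`; `M` is the logarithm of the (unipotent) monodromy on the limit `H`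
of `H^3(X_t, ℂ)`, of dimension six. -/
structure NoClassThree {Eff : Prop} (F : Sect Eff) where
  M : Matrix (Fin 6) (Fin 6) ℂ
  /-- weights `1, .., 5`, monodromy theorem -/
  cube : M ^ 3 = 0
  /-- `M^2` maps `Gr_5` isomorphically to `Gr_1`, and `Gr_5` contains `F^3` and its conjugate
  (Schmid; Steenbrink) -/
  two : 2 ≤ (M ^ 2).rank
  /-- product with the localised Chern class, then `H^3_R(X_b) -> H^3(X_b) -> H` -/
  gysin : F.A → Fin 6 → ℂ
  /-- classes which come from `X_b` are invariant under monodromy -/
  inv : ∀ a, M.mulVec (gysin a) = 0
  /-- `gysin` is a morphism of mixed Hodge structures `H^1(R)(-1) -> H` (Deligne; Steenbrink), the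
  source has weights 2 and 3, the image of `M^2` has weight one: strictness -/
  strict : ∀ a w, (M ^ 2).mulVec w = gysin a → gysin a = 0
  coef_zero : ∀ a, gysin a = 0 → ∀ n, F.coef n a = 0

/-- Lifting of sections at a prime divisor `b` with `wt = λ^(h-1).b`, `F^3` in `Gr_(3 + kind)`.
`Semi L` says that over a finite extension of the local ring of `b` there are a projective model with
trivial canonical class and reduced, semi log canonical special fibre and a class on it, whose
restriction to the generic fibre is a positive multiple of `L` and whose restriction to the special
fibre is semiample. (A finite extension multiplies `wt` by a positive number and does not change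
`kind`.) `R` is the divisor of a general section of a multiple without base points on the special
fibre. For `kind = 0` the special fibre of every such model is irreducible with canonical
singularities. -/
structure SectAt {P : Type} [AddCommGroup P] (Semi : P → Prop) (h : ℕ) (wt : ℚ) (kind : ℕ)
    (hG : ℕ → P → ℕ) where
  zero : kind = 0 → ∀ L, Semi L → ∃ k : ℕ, 0 < k ∧ ∃ F : Sect (0 < hG 0 (k • L)),
    Nonempty (NoClassOne F)
  one : kind = 1 → wt ≠ 0 → ∀ L, Semi L → ∃ k : ℕ, 0 < k ∧ ∃ F : Sect (0 < hG 0 (k • L)),
    Nonempty (NoClassTwo F)
  two : kind = 2 → h = 2 → ∀ L, Semi L → ∃ k : ℕ, 0 < k ∧ ∃ F : Sect (0 < hG 0 (k • L)),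
    Nonempty (NoClassThree F)

end SWeightsAll

section SOneDefs

/-!
# MP_5ee2d0_ag, Theorem N: special fibres with two components, classes of numerical dimension one

The special fibre is `X_b = V_0 ∪ V_1`. All models are `Q`-factorial with canonical singularities, the
`V_i` are klt, `D = V_0 ∩ V_1` is a normal surface with Du Val singularities and `K_D = 0`, the pairs
`(V_i, D)` are plt and `K + D ~ 0` on `V_i`. The double surface `D` is an abelian surface, or its
minimal resolution is a K3 surface; nothing is assumed on its orbifold Euler number.
-/

/-- `x + y` -/
def pl {C : Type} [AddCommGroup C] (x y : C) : C := x + y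

/-- `x - y` -/
def mi {C : Type} [AddCommGroup C] (x y : C) : C := x - y

/-- `-x` -/
def ng {C : Type} [AddCommGroup C] (x : C) : C := -x

/-- `n x` -/
def ml {C : Type} [AddCommGroup C] (n : ℕ) (x : C) : C := n • x

/-- `z` is zero -/
def Zr {C : Type} [AddCommGroup C] (z : C) : Prop := z = 0

/-- `z` is a torsion element -/
def Tor {C : Type} [AddCommGroup C] (z : C) : Prop := ∃ k : ℕ, 0 < k ∧ k • z = 0

/-- finitely many elements represent all classes modulo the centre of the group -/
def FinMod (G : Type) [Group G] : Prop :=
  ∃ S : Finset G, ∀ u : G, ∃ v ∈ S, ∀ w, (v⁻¹ * u) * w = w * (v⁻¹ * u)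

/-- the square of `l` is trivial -/
def Two {G : Type} [Group G] (l : G) : Prop := l * l = 1

/-- a positive power of the product of `a` and `b` is trivial -/
def Fin2 {G : Type} [Group G] (a b : G) : Prop := ∃ k : ℕ, 0 < k ∧ (a * b) ^ k = 1

/-- the restriction of `x` to the geometric generic fibre -/
def Germ.gen {P Lam : Type} [AddCommGroup P] [AddCommGroup Lam] (g : Germ P Lam) (x : Lam) : P := g.rho x

/-- The double surface `D`. -/
structure Surf where
  /-- the group of Weil divisor classes -/
  P : Type
  [grp : AddCommGroup P]
  /-- numerically trivial classes -/
  Null : P → Prop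
  null_add : ∀ w w', Null w → Null w' → Null (pl w w')
  null_neg : ∀ w, Null w → Null (ng w)
  /-- the dimension of `H^q(D, O(w))` -/
  h : P → ℕ → ℕ
  /-- `D` is an abelian surface -/
  Ab : Prop
  /-- Mumford, Abelian Varieties, II.8 -/
  null_acyclic : Ab → ∀ w, Null w → ¬ Zr w → ∀ q, h w q = 0
  /-- otherwise `H^1(D, O) = 0` -/
  null_tor : ¬ Ab → ∀ w, Null w → Tor w

attribute [instance] Surf.grp

/-- A component `V` of the special fibre. -/
structure Comp (S : Surf) where
  /-- the group of the classes of Weil divisors of `V` which have a Cartier multiple -/
  C : Type
  [grp : AddCommGroup C]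
  /-- the dimension of `H^q(V, O(z))` -/
  h : C → ℕ → ℕ
  /-- the class of `D` -/
  D : C
  /-- the restriction to `D` (the double surface of the same model); `V` is smooth and `D` is Cartier
  at all but finitely many points of `D` because `K + D` is Cartier -/
  r : C → S.P
  r_add : ∀ z y, r (pl z y) = pl (r z) (r y)
  /-- the subgroup `Pic^0(V)`: it is zero if `D` is not abelian, and the pull back of `Pic^0` of the
  Albanese curve otherwise -/
  Pic0 : C → Prop
  pic0_add : ∀ z y, Pic0 z → Pic0 y → Pic0 (pl z y)
  pic0_neg : ∀ z, Pic0 z → Pic0 (ng z)
  pic0_null : ∀ z, Pic0 z → S.Null (r z)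
  /-- `H^1(V, O) → H^1(D, O)` is injective, so `Pic^0(V) → Pic^0(D)` has a finite kernel -/
  pic0_ker : ∀ z, Pic0 z → Tor (r z) → Tor z
  /-- the cohomology sequence of `O(z - D) → O(z) → O_D(z)` (the sheaves `O(z)` are Cohen-Macaulay
  since `V` is klt) -/
  seq : ∀ z, (∀ q, S.h (r z) q = 0) → (∀ q, h (mi z D) q = 0) → ∀ q, h z q = 0
  /-- A class of `Pic^0(V)` which is not torsion has no cohomology. Then `D` is abelian and `Pic^0(V)`
  has dimension one. Simpson: the locus of `h^2` is a union of translates of abelian subvarieties by
  torsion points; it does not contain `0` since `h^2(V, O) = 0`, so it consists of torsion points.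
  Outside of it `h^0 = h^3 = 0`, and `h^1 = 0` because `χ(V, O) = 0`. -/
  simpson : ∀ z, Pic0 z → ¬ Tor z → ∀ q, h z q = 0
  /-- there is an effective divisor of class `z` which does not meet `D` -/
  Sec : C → Prop
  /-- if `z` is trivial on `D` and `H^1(V, O(z - D)) = 0` then the section `1` on `D` lifts; such a `z`
  is Cartier along `D` (index one covering of the plt pair `(V, D)`) -/
  sec : ∀ z, Zr (r z) → h (mi z D) 1 = 0 → Sec z
  /-- If `kD - z`, `k > 0`, `z` in `Pic^0(V)`, is the class of an effective divisor `D'` disjoint from
  `D`, then for small `u > 0` the pair `(V, (1 - u) D + (u / k) D')` is klt and its log canonical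
  divisor is `-(u / k) z`, numerically trivial, and so torsion (Kawamata, Nakayama, Ambro). -/
  abundance : ∀ (k : ℕ) z, 0 < k → Pic0 z → Sec (mi (ml k D) z) → Tor z

attribute [instance] Comp.grp

/-- The germ of the family at a prime divisor of the base with special fibre `X_b = V_0 ∪ V_1`;
`V_i` is `V false`, `V true`. `One L` says that `L` has numerical dimension one. `Semi L` says that
there is a `K`-trivial model over a finite extension of the local ring of `b` and a class `x` on it,
whose restriction to the generic fibre is a positive multiple of `L`, such that `x` is nef and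
semiample on the special fibre. -/
structure OneGerm {P Lam : Type} [AddCommGroup P] [AddCommGroup Lam] (g : Germ P Lam) (One Semi : P → Prop) where
  /-- the double surface of the model; its minimal resolution does not depend on the model -/
  S : g.Mo → Surf
  /-- The components. If `D` is abelian then `h^1(V_i, O) = 1`: since `h^1(X_b, O) = h^2(X_b, O) = 0`,
  `H^1(D, O)` is the direct sum of the `H^1(V_i, O)`; if `h^1(V_i, O) = 2` then `V_i` is a conic bundle
  over its Albanese surface, `D` is an etale double cover of it, but the residues of the holomorphic
  3-form with a simple pole on `D` at the two points of a conic are opposite. -/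
  comp : ∀ mu, Bool → Comp (S mu)
  /-- the normal bundles of `D` in `V_0` and `V_1` are dual to each other: the total space is given by
  `x y = t^m` at all but finitely many points of `D` -/
  normal : ∀ mu, (comp mu true).r (comp mu true).D = ng ((comp mu false).r (comp mu false).D)
  /-- the restriction to `V_i` of a Cartier class -/
  res : ∀ mu i, Lam → (comp mu i).C
  res_nsmul : ∀ mu i x (n : ℕ), g.Car mu x → res mu i (ml n x) = ml n (res mu i x)
  res_D : ∀ mu x, g.Car mu x →
    (comp mu false).r (res mu false x) = (comp mu true).r (res mu true x)
  /-- `H^1(V_0, O) ∩ H^1(V_1, O) = 0` in `H^1(D, O)` because `H^1(X_b, O) = 0` -/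
  direct : ∀ mu p p', (comp mu false).Pic0 p → (comp mu true).Pic0 p' →
    Tor (mi ((comp mu false).r p) ((comp mu true).r p')) → Tor p ∧ Tor p'
  /-- Mayer-Vietoris sequence -/
  mayer : ∀ mu x, g.Car mu x → (∀ i q, (comp mu i).h (res mu i x) q = 0) →
    (∀ q, (S mu).h ((comp mu false).r (res mu false x)) q = 0) → g.Acyclic mu x
  /-- Suppose that the normal bundle is torsion and that a multiple of `x` is on `V_i` a multiple of
  `D`, for both `i`. After a base change `XX` is locally at `D` of the form: the index one covering of
  `V_0` (as a divisor of `XX`), of order `r`, is flat over the plane with coordinates `u`, `v`, `V_0` and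
  `V_1` are `u = 0` and `v = 0`, the fibre over the origin is a covering `D'` of `D` with Du Val
  singularities, and the covering group acts on the plane by `(ζ u, ζ^(-1) v)`. So the blow up of a
  suitable monomial ideal has the special fibre `V_0 ∪ W ∪ V_1`, `W` is locally the quotient of
  `D' × P^1` by the group, with the disjoint sections `D_0`, `D_1`. If `x` is `c_i D` on `V_i` there is a
  rational combination `N = x + b_0 V_0 + b_1 V_1` which is trivial on `V_0` and on `V_1` and equal to
  `c_0 D_0 + c_1 D_1` on `W` (up to torsion). The difference of `D_0` and `D_1` is the pull back of the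
  normal bundle, torsion: multiples of `D_0` and `D_1` are linearly equivalent and span a pencil without
  base points on `W`; a power of the line bundle given by `N` has sections which are constant on `D_0`
  and on `D_1`, extend to `V_0 ∪ W ∪ V_1`, and have no common zeros. -/
  insert : ∀ mu x, g.Nef mu x → g.Car mu x → Tor ((comp mu false).r (comp mu false).D) →
    (∀ i, ∃ n a : ℕ, 0 < n ∧ 0 < a ∧ ml n (res mu i x) = ml a (comp mu i).D) → Semi (g.gen x)
  /-- the classes of the components of `X_b`, which is a principal divisor -/
  V : Bool → Lam
  V_add : Zr (pl (V false) (V true))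
  rho_V : ∀ i, Zr (g.gen (V i))
  nef_add : ∀ mu x y, g.Nef mu x → g.Nef mu y → g.Nef mu (pl x y)
  /-- the intersection numbers `x.y.A.V_i`, `A` ample on the model -/
  q : g.Mo → Bool → Lam → Lam → ℚ
  q_add : ∀ mu i x y z, q mu i (pl x y) z = q mu i x z + q mu i y z
  q_symm : ∀ mu i x y, q mu i x y = q mu i y x
  q_nonneg : ∀ mu i x, g.Nef mu x → 0 ≤ q mu i x x
  /-- the sum is the intersection number on the generic fibre -/
  q_sum : ∀ mu x, One (g.gen x) → q mu false x x + q mu true x x = 0
  /-- the intersection numbers `x.A.A.V_i` -/
  d : g.Mo → Bool → Lam → ℚ
  d_add : ∀ mu i x y, d mu i (pl x y) = d mu i x + d mu i y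
  d_nonneg : ∀ mu i x, g.Nef mu x → 0 ≤ d mu i x
  d_neg : ∀ mu i, d mu i (V i) < 0
  /-- Hodge index theorem on a general surface in the class `A` on `V_i`: a multiple of the nef class
  `y` is numerically equivalent on `V_i` to a multiple of `D`, nonzero if `y.A.A.V_i ≠ 0`, and then
  `D` is numerically trivial on itself -/
  hodge : ∀ mu i y, g.Nef mu y → q mu i y y = 0 → q mu i y (V i) = 0 → q mu i (V i) (V i) = 0 →
    d mu i y ≠ 0 → (S mu).Null ((comp mu i).r (comp mu i).D) ∧ ∃ (n a : ℕ) (p : (comp mu i).C),
      0 < n ∧ 0 < a ∧ (comp mu i).Pic0 p ∧ (∀ j : ℕ, g.Car mu (ml j (ml n y))) ∧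
        res mu i (ml n y) = pl (ml a (comp mu i).D) p
  /-- after flops of curves of degree zero, `V_i` has a Mori fibration `V_i → Y` (the anticanonical
  divisor, which is linearly equivalent to `D`, is relatively ample), and `x` is on `V_i` the pull back
  of a nef class of `Y` -/
  Fib : Bool → Lam → Prop
  /-- cone theorem, existence of flips (Birkar, Cascini, Hacon and McKernan) and termination for the
  threefold `V_i`: if `j x + V_i` is not nef for all `j`, on all models on which `x` is nef, then
  there is such a Mori fibration -/
  mmp : ∀ mu i x, g.Nef mu x →
    (∀ mu', g.Nef mu' x → ∀ j : ℕ, ¬ g.Nef mu' (pl (ml j x) (V i))) → Fib i x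
  fib_nsmul : ∀ i x (k : ℕ), Fib i x → Fib i (ml k x)
  /-- `D` is mapped onto `Y`, so the cohomology of a line bundle of `Y` injects into the cohomology of
  its pull back to `D` (the degree of `D → Y` is two if `Y` is a surface, and the fibres are connected
  curves if `Y` is a curve), and is equal to the cohomology of its pull back to `V_i` (Kawamata,
  Viehweg; `V_i` has rational singularities); flops of curves of degree zero do not change these
  cohomology groups -/
  fib_acyclic : ∀ mu i x, g.Nef mu x → g.Car mu x → Fib i x →
    (∀ q, (S mu).h ((comp mu false).r (res mu false x)) q = 0) → ∀ q, (comp mu i).h (res mu i x) q = 0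
  /-- the restriction of `x` to `D` is semiample -/
  SAD : g.Mo → Lam → Prop
  /-- Mumford, Abelian Varieties: a nef class of square zero on an abelian surface is semiample or
  all its positive multiples are acyclic; nef classes on K3 surfaces are semiample; `x` has square
  zero on `D` if it has square zero on `V_0` -/
  mumford : ∀ mu x, g.Nef mu x → q mu false x x = 0 → (∀ j : ℕ, g.Car mu (ml j x)) →
    (∀ j : ℕ, 0 < j → ∀ q, (S mu).h ((comp mu false).r (res mu false (ml j x))) q = 0) ∨ SAD mu x
  /-- A multiple of the semiample class `x` on `D` is the pull back of an ample line bundle of the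
  image `B` of `D`. The group of the automorphisms of `B` with this line bundle which are induced by
  automorphisms of the minimal resolution of `D`. -/
  Lin : g.Mo → Lam → Type
  [grp : ∀ mu x, Group (Lin mu x)]
  /-- If `x` has numerical dimension one then `B` is a curve (`x` is not numerically trivial on `D`,
  otherwise it would be on `V_0` and `V_1`), and the group is finite modulo the
  scalars, which are central: `B` is an elliptic curve, or `B` is the projective line and the group
  preserves the set of the critical values, of which there are at least three (with at most two the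
  elliptic fibration would be isotrivial and its Euler number at most 20, but it is 24). -/
  lin_fin : ∀ mu x, g.Nef mu x → SAD mu x → One (g.gen x) → (∀ i, Fib i x) → FinMod (Lin mu x)
  /-- `l` is induced by the covering involution of `D → Y` if `Y` is a surface, and the identity if `Y`
  is a curve -/
  Cover : ∀ mu, Bool → ∀ x, Lin mu x → Prop
  cover : ∀ mu i x, g.Nef mu x → SAD mu x → Fib i x → ∃ l, Cover mu i x l ∧ Two l
  /-- Kollár: gluing by a finite equivalence relation; `x` is semiample on `Y` because it is on `D`,
  and `D` is mapped onto the image of `X_b`, which is a curve -/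
  glue : ∀ mu x, g.Nef mu x → SAD mu x → One (g.gen x) → (∀ i, Fib i x) →
    ∀ l : Bool → Lin mu x, (∀ i, Cover mu i x (l i)) → Fin2 (l false) (l true) → Semi (g.gen x)

attribute [instance] OneGerm.grp

end SOneDefs

section SThree

/-!
# MP_5ee2d0_ag, boundary divisors of type III, `h^(2,1) = 2`, classes of numerical dimension one

`YY → Δ` is a `K`-trivial model over a transversal disc through a very general point of the prime
divisor `b` of the base, the Hodge bundle is not trivial on `b`; `N` is a nef class on it whose
restriction to the generic fibre is a positive multiple of `L`, `L` of numerical dimension one. After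
a base change there is a crepant modification `XX → YY` with `K_XX ~ 0` and dlt special fibre `X_b`,
the reduced sum of the components `V_v`. The dual complex `K` of `X_b` is a triangulated disc, because
`X_t` is simply connected and `H^i(X_b, O) = 0` for `i = 1, 2`. Its edges are the double surfaces `D_e`,
its triangles the triple curves `E_p`, all isomorphic to one elliptic curve `E`. `XX` is smooth and `X_b`
has normal crossings along the `E_p` and at all but finitely many points of the `D_e`: `K + Diff = 0` on
these strata, with an integral different, so the local index one coverings of the `V_v` are etale there.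
`K + Δ_v ~ 0` on `V_v`, where `Δ_v` is the sum of the `D_e` in `V_v`, and `K + ∑ E_p ~ 0` on `D_e`. If
`e` lies on two triangles then `D_e` is ruled over `E`, with the two triple curves as sections; if `e`
is in the boundary of `K` then `D_e` is rational. `N^2` is numerically trivial on the `V_v` and `D_e`. An
edge is called active if the restriction of `N` to `D_e` is not numerically trivial.
-/

/-- the rational span of the complex numbers `w1` and `w2` -/
def Span (w1 w2 x : ℂ) : Prop := ∃ a b : ℚ, x = a * w1 + b * w2

/-- The homology group `H_3(X_t, ℚ)`, of dimension six, the monodromy, and the limits of the periods of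
the holomorphic 3-forms on the fibres, for a generator of `K_XX + X_b`. -/
structure Periods where
  /-- the logarithm of the (unipotent) monodromy -/
  M : Matrix (Fin 6) (Fin 6) ℚ
  /-- weights `1, .., 5`, monodromy theorem -/
  cube : M ^ 3 = 0
  /-- `M^2` induces an isomorphism between the graded pieces of the lowest and the highest weight, of
  dimension two at least, since `F^3` of the limit is in the piece of weight five (Schmid) -/
  two : 2 ≤ (M ^ 2).rank
  /-- the limit of the period map, a linear form; its value on an invariant class is the limit of the
  integrals -/
  om : Fin 6 → ℂ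
  /-- the periods of the iterated residue on `E` -/
  w1 : ℂ
  w2 : ℂ
  indep : ∀ a b : ℝ, (a : ℂ) * w1 + b * w2 = 0 → a = 0 ∧ b = 0
  /-- `E` has no complex multiplication: the Hodge bundle is not trivial on `b` -/
  noCM : ∀ d : ℂ, Span w1 w2 (d * w1) → Span w1 w2 (d * w2) → ∃ q : ℚ, d = q
  /-- the products of the vanishing torus of dimension two at a triple curve with two cycles of it are
  invariant; the limit of the period is the integral of the iterated residue -/
  c1 : Fin 6 → ℚ
  c2 : Fin 6 → ℚ
  inv1 : M.mulVec c1 = 0
  inv2 : M.mulVec c2 = 0
  per1 : ∑ i, (c1 i : ℂ) * om i = (2 * Real.pi * Complex.I) ^ 2 * w1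
  per2 : ∑ i, (c2 i : ℂ) * om i = (2 * Real.pi * Complex.I) ^ 2 * w2

/-- `c` is the limit of the period of a class which is invariant under the monodromy -/
def Periods.Per (D : Periods) (c : ℂ) : Prop :=
  ∃ v : Fin 6 → ℚ, D.M.mulVec v = 0 ∧ ∑ i, (v i : ℂ) * D.om i = c

/-- The case `N.E_p = r > 0` for all `p`; all double surfaces are active. `E` is the group of the
points of the elliptic curve. -/
structure Moves (E : Type) [AddCommGroup E] (r : ℤ) (Map : Prop) where
  /-- The moves: the isomorphisms `E_p → E_q` given by the rulings of the double surfaces with two
  triple curves, and the involutions of the triple curve of a rational double surface `D_e` over the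
  base of the pencil `D_e → T_e` given by `N` (of degree two on the triple curve). -/
  I : Type
  fin : Finite I
  /-- Identify all the triple curves with `E` such that the class of `N`, of degree `r`, becomes
  `r [0]` up to torsion; this is possible because `E` is divisible. The moves preserve the class of
  `N`, so `r t` is torsion. Since `E` has no complex multiplication a move becomes `x ↦ x + t` (`true`) or `x ↦ t - x` (`false`). -/
  sgn : I → Bool
  t : I → E
  /-- it preserves `r [0]` up to torsion -/
  keep : ∀ i, ∃ k : ℕ, 0 < k ∧ k • (r • t i) = 0
  /-- The class `N` is semiample on `V_v`, which gives `V_v → C_v`, `C_v` a curve, with general fibre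
  `Z`. The curve `Z ∩ Δ_v` consists of rational curves, `h^1(O_Z) = 0`, and
  `0 → K_Z → O_Z → O_(Z ∩ Δ_v) → 0` shows that it is connected, a cycle. So two points of the triple
  curves of `V_v` have the same image in `C_v` if and only if they are joined by moves on `V_v`. If the
  classes of the relation generated by all the moves, as maps of `E`, are finite, then the group `G`
  generated by the moves is finite (a countable group with finite orbits on a curve), and the maps
  `V_v → C_v → E / G` agree on the double surfaces. They give a morphism on `X_b`, which is seminormal
  (Kollár). -/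
  glue : (∀ x, {y | Relation.EqvGen (fun x y => ∃ i, y = if sgn i then x + t i else t i - x)
    x y}.Finite) → Map

/-- The case `N.E_p = 0` for all `p`. If `e` is active, `N` is semiample on `D_e` and gives an elliptic
fibration `D_e → T_e`, `T_e` a projective line; the triple curves of `D_e` are in different fibres.
The relatively minimal model is a rational elliptic surface with `-K = E'`, a fibre divided by its
multiplicity, or it is a ruled surface over `E`. If a double surface in `V_v` is active then `N` is
semiample on `V_v` and gives `V_v → C_v`, `C_v` a curve, with general fibre `Z`; the curve `Z ∩ Δ_v`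
consists of elliptic curves, fibres of the active `D_e → T_e`, and
`0 → K_Z → O_Z → O_(Z ∩ Δ_v) → 0` shows that it is one curve and `Z` is rational, or that `Z` is
ruled over an elliptic curve and there are two curves, both sections. So the degrees of `T_e → C_v` for
the active `D_e` in `V_v` are one (free end), two (fold), or one and one (pass: the two surfaces are
birational, and both are rational or both are irrational). -/
structure Bands (D : Periods) (Map : Prop) where
  /-- the pairs `f = (D_e, V_v)` with `D_e` active, contained in `V_v` -/
  F : Type
  fin : Finite F
  /-- the same surface, the other component -/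
  alpha : F → F
  alpha_alpha : ∀ f, alpha (alpha f) = f
  /-- the other active surface in the same component if there is one, the same surface otherwise -/
  beta : F → F
  beta_beta : ∀ f, beta (beta f) = f
  /-- `D_e` is rational -/
  Rat : F → Prop
  rat_alpha : ∀ f, Rat f → Rat (alpha f)
  rat_beta : ∀ f, Rat f → Rat (beta f)
  /-- Choose a coordinate on every `T_e`: if `D_e` is rational then infinity is the point under its
  triple curve, if not then `0` and infinity are the points under its two triple curves. `phi f` is the
  map `T_e → T_e'` over `C_v` if `beta f = (D_e', V_v)`, the identity at a free end, the involution of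
  `T_e` over `C_v` at a fold (and `phi f 0 = 0`, for convenience, if `D_e` is not rational). The special
  points are preserved because the maps are induced by birational maps of the double surfaces, which
  preserve the residues of the meromorphic 3-form up to sign. (The point infinity is left out; in Lean
  `c / 0 = 0`.) -/
  phi : F → Equiv.Perm ℂ
  phi_beta : ∀ f z, phi (beta f) (phi f z) = z
  affine : ∀ f, Rat f → ∃ a b : ℂ, ∀ z, phi f z = a * z + b
  mono : ∀ f, ¬ Rat f → ∃ c : ℂ, c ≠ 0 ∧ ((∀ z, phi f z = c * z) ∨ ∀ z, phi f z = c / z)
  /-- the finite critical values of the relatively minimal fibration of the rational surface `D_e`;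
  there are at least two: the Euler number is twelve and at most ten for a fibre, the Picard number is
  ten -/
  crit : F → Finset ℂ
  crit_alpha : ∀ f, crit (alpha f) = crit f
  crit_two : ∀ f, Rat f → 2 ≤ (crit f).card
  crit_beta : ∀ f, Rat f → ∀ z ∈ crit f, phi f z ∈ crit (beta f)
  /-- `v` is an inner vertex of `K` and `h^1(V_v, O) = 1`; otherwise `v` is in the boundary and
  `h^1(V_v, O) = 0`, as follows from the Mayer-Vietoris sequence of `X_b` and `H^2(V_v, O) = 0` -/
  In : F → Prop
  /-- at a pass of irrational surfaces `V_v` is a fibration in rational curves over an irrational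
  surface -/
  link : ∀ f, ¬ Rat f → beta f ≠ f → In f
  /-- Free end: the identity. At a fold `D_e` is a double covering of the base `W` of a fibration of
  `V_v` in rational curves, and its involution changes the sign of the 2-form `dx dz / z`, `x` the
  coordinate of `E`. If `h^1(V_v, O) = 0` then `W` is regular, the sign of `dx` is changed, the form
  `dz / z` is preserved. -/
  fold : ∀ f, ¬ Rat f → beta f = f → ¬ In f → ∃ a : ℂ, a * a = 1 ∧ ∀ z, phi f z = a * z
  /-- A closed sequence of irrational active double surfaces, all components with `h^1(V_v, O) = 1`,
  and the map `z ↦ lam z` which it induces. There is no free end: the `D_e` in such a `V_v` form a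
  cycle, so if only one of them is active then its two triple curves lie over one point of `C_v`. Let
  `γ` be a loop on the general fibre of `D_e` over `z`; the circle bundle over `γ` is a torus in `X_t`;
  move it through all the components of the sequence, over the annuli in the rulings of the surfaces
  `Z`, until it arrives over `lam z`, and close by the circle bundle over `γ` moved along a path from
  `z` to `lam z` (residue formula for tubes: Clemens, Carlson). The loop comes back to itself in `H_1` with rational coefficients, because these
  groups are the same for all the irrational `D_e` and all the `V_v` with `h^1(V_v, O) = 1`, which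
  correspond to the inner cells of the disc, a simply connected space. This 3-cycle consists of orbits
  of the circles which are rotated by the monodromy, so
  it is invariant. The 3-form is zero on the surfaces `Z`, and the residue on `D_e` is `dx dz / (m z)`:
  the limit period is `2 π i (mu / m) w_i` for a suitable `γ` with rational coefficients. -/
  cyc : ∀ f (n : ℕ) (lam : ℂ), ¬ Rat f → 0 < n →
    (∀ k : ℕ, In ((fun f => alpha (beta f))^[k] f)) →
    (∀ z, (fun x : F × ℂ => (alpha (beta x.1), phi x.1 x.2))^[n] (f, z) = (f, lam * z)) →
    ∃ (mu : ℂ) (m : ℕ), 0 < m ∧ Complex.exp mu = lam ∧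
      D.Per (2 * Real.pi * Complex.I * (mu / m * D.w1)) ∧
      D.Per (2 * Real.pi * Complex.I * (mu / m * D.w2))
  /-- Suppose that the classes of the relation on the curves `T_e` given by the `C_v` are finite; then it
  is given by finite groups of automorphisms of the `T_e`, because a countable group with finite orbits
  on a curve is finite. Take
  one connected set `P` of active surfaces. The maps from the `C_v`, `v` in `P`, to the quotient curve
  `R` agree on the active surfaces. A double surface which is not active, in such a `V_v`, goes to one
  point of `R`; let `B` be the curve `R` with finitely many of its points identified: those of two such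
  `V_v` for the same double surface, and those for double surfaces in one connected component of the
  union of all the other components of `X_b`. This gives a morphism from `X_b` to `B`, constant on the
  other components; `X_b` is seminormal (Kollár), `N` is numerically trivial on the fibres over the
  general points of `B`. -/
  glue : (∀ x : F × ℂ, {y | Relation.EqvGen
    (fun x y => y = (alpha x.1, x.2) ∨ y = (beta x.1, phi x.1 x.2)) x y}.Finite) → Map

/-- The dlt model `XX` and the nef class `N`, `N.N.A = 0`; `N` may be numerically trivial on all double
surfaces, the fields which need an active surface say so. `q x y` is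
the intersection number `x.y.A` on the generic fibre, `A` ample. `Semi M` says that over a finite
extension of the local ring of `b` there are a `K`-trivial model and a class whose restriction to the
generic fibre is a positive multiple of `M`, and which is semiample on the special fibre. -/
structure Fibre {P : Type} [AddCommGroup P] (q : P → P → ℤ) (A : P) (Semi : P → Prop)
    (L : P) where
  D : Periods
  /-- the components, the double surfaces and the triple curves -/
  V : Type
  Ed : Type
  T : Type
  finV : Fintype V
  In : Ed → V → Prop
  On : T → Ed → Prop
  /-- every double surface contains a triple curve -/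
  tri : ∀ e, ∃ p, On p e
  /-- the disc is connected through edges -/
  conn : ∀ p p', Relation.ReflTransGen (fun p p' => ∃ e, On p e ∧ On p' e) p p'
  /-- there is an edge in the boundary -/
  bdy : ∃ e, ∀ p p', On p e → On p' e → p = p'
  act : Ed → Prop
  /-- the degree of `N` on `E_p`, a nonnegative number, and a point of `ℂ` over the class of `N` in
  `Pic^0(E_p) ⊗ ℚ = ℂ / (ℚ w1 + ℚ w2)` if the degree is zero -/
  deg : T → ℤ
  aj : T → ℂ
  deg_nonneg : ∀ p, 0 ≤ deg p
  /-- numerically trivial on `D_e` -/
  act_of : ∀ e p, On p e → 0 < deg p → act e
  /-- If the degree is not zero on the triple curves of `D_e`, `N` is a multiple of the fibre of a pencil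
  of rational curves on `D_e` because `N^2 = 0` and `N.K < 0`; if there are two triple curves it is the
  ruling over `E`, of which they are sections. -/
  level : ∀ e p p', On p e → On p' e → deg p = deg p'
  /-- Let `N` have degree zero on the triple curve of the rational surface `D_e`, which is orthogonal to
  `N`: so the class of `N` is represented by a 2-cycle on the complement. Its circle bundle in `X_t` is
  invariant, and the limit period is, up to sign, the integral of the residue over the 2-cycle times
  `2 π i`, given by the class of `N` on the triple curve (Carlson; Looijenga). -/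
  aj_one : ∀ e p, On p e → (∀ p', On p' e → p' = p) → deg p = 0 →
    ∃ s, Span D.w1 D.w2 s ∧ D.Per ((2 * Real.pi * Complex.I) ^ 2 * (aj p + s))
  /-- the same for two triple curves, identified by the ruling -/
  aj_two : ∀ e p p', On p e → On p' e → p ≠ p' → deg p = 0 → deg p' = 0 →
    ∃ s, Span D.w1 D.w2 s ∧ D.Per ((2 * Real.pi * Complex.I) ^ 2 * (aj p - aj p' + s))
  /-- the number of the triple curves on `D_e`, and the dimensions of `H^0(D_e, n N)`, `H^1(D_e, n N)` -/
  cnt : Ed → ℕ
  h0 : Ed → ℕ → ℕ
  h1 : Ed → ℕ → ℕ
  /-- Riemann-Roch: `χ(O) = 2 - cnt`, `N^2 = N.K = 0`; `H^2(D_e, n N)` is zero -/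
  rr : ∀ e n, act e → (∀ p, On p e → deg p = 0) → 0 < n → h0 e n + cnt e = h1 e n + 2
  /-- `H^1(n N)` is mapped onto `H^1` of the trivial bundles on the triple curves, because `H^2` of
  `n N - ∑ E_p = n N + K` is zero -/
  onto : ∀ e, act e → (∀ p, On p e → deg p = 0 ∧ Span D.w1 D.w2 (aj p)) →
    ∃ n, 0 < n ∧ cnt e ≤ h1 e n
  /-- the restriction of `N` to `D_e` is semiample and not trivial -/
  Pen : Ed → Prop
  pen_pos : ∀ e p, On p e → 0 < deg p → Pen e
  /-- nef divisors of square zero with two sections are semiample (Hodge index theorem, Zariski) -/
  pen_zero : ∀ e n, act e → 0 < n → 2 ≤ h0 e n → Pen e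
  /-- the intersection numbers `N.N.A` and `N.Δ_v.A` on `V_v`, `A` ample on the model; the sum of the
  first ones is `L.L.A` on the generic fibre, zero because `L` is nef and `q L L = 0` (Hodge index) -/
  nn : V → ℚ
  nd : V → ℚ
  nn_nonneg : ∀ v, 0 ≤ nn v
  nn_sum : ∑ v, nn v = 0
  nd_pos : ∀ e v, In e v → act e → 0 < nd v
  /-- `n N - Δ_v` is pseudoeffective; then its product with the movable class `N.A` is not negative -/
  Psef : V → ℕ → Prop
  psef : ∀ v n, Psef v n → 0 ≤ n * nn v - nd v
  /-- `N` is on `V_v` the pull back of an ample class of a curve `C_v` -/
  Fib : V → Prop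
  /-- `N` is not numerically trivial on `V_v`, and `N^2` is. The program for `K + (1 - ε) Δ_v + n N`,
  `n` large (cone theorem with the bound for the lengths; Birkar, Cascini, Hacon, McKernan) consists of
  steps of degree zero for `N` and ends with a Mori fibration over a variety `T`; `N` comes from `T`, a
  component `D_e` of `Δ_v` is mapped onto `T`, so it is active, and `N` is semiample on it. -/
  fib : ∀ v, (∃ e, In e v ∧ act e) → (∀ n, ¬ Psef v n) → (∀ e, In e v → act e → Pen e) → Fib v
  /-- there is a nonconstant morphism from `X_b` to a curve such that `N` is numerically trivial on the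
  general fibres -/
  Map : Prop
  /-- see `Moves` -/
  pos : ∀ r : ℤ, 0 < r → (∀ p, deg p = r) → (∀ e, Pen e) → (∀ e v, In e v → Fib v) →
    ∃ (E : Type) (_ : AddCommGroup E), Nonempty (Moves E r Map)
  /-- see `Bands` -/
  zero : (∀ p, deg p = 0) → (∀ e, act e → Pen e) → (∀ e v, In e v → act e → Fib v) →
    (∃ e, act e) → Nonempty (Bands D Map)
  /-- The pull back of an ample line bundle of the curve extends to the model because `H^2(X_b, O) = 0`;
  `M` is the restriction to the generic fibre, nef and not zero, since the pull back is. -/
  lift : Map → ∃ M, (∀ k : ℕ, 0 < k → Semi (k • M)) ∧ q M M = 0 ∧ q M L = 0 ∧ 0 < q M A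

attribute [instance] Fibre.finV

end SThree

section SVert

/-!
# MP_5ee2d0_ag, boundary divisors of type III: a nef extension which is not trivial on all double
surfaces

`b` is a prime divisor of the base over which the models `YY → Δ` (as in `Run`) have special
fibres `F = Σ V_i` of type III: the dual complex of a dlt modification is a disc. `L` is a nef class
of the generic fibre, not numerically trivial. We show that there are a model `YY` and a nef
extension `N` of a multiple of `L` such that `N` is not numerically trivial on all double surfaces
of a dlt modification of `YY` (base change, then crepant modification, reduced special fibre).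

The new argument. The set `K` of the vertical coefficients `s` for which `N_s = L - Σ s_i V_i` is
movable is compact and convex, and closed under the minimum of functions. So it has least elements
`c(k)` with `k`-th coefficient zero. Suppose all nef extensions are trivial on all double surfaces.
For `N_c(k)` all components `V_i`, `i ≠ k`, are covered by curves of degree zero, so the class is zero
there; so it is not zero on `V_k`, which is not covered: the `k`-th coefficient can be lowered. This
holds for all `k`, so `K` has interior points. By Baire's theorem one model is good for an open set of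
`s`, hence all components `V_i` are numerically trivial on all double surfaces of its dlt
modification. This contradicts the connectedness of the boundary of a component which meets two other
ones.
-/

open Filter Topology

/-- Double surfaces and covering families. `J` is the set of the components of the special fibres of
the models, `XX → YY_mu` a dlt modification of (a base change of) the model `mu`. -/
structure VertGerm {P Lam : Type} [AddCommGroup P] [AddCommGroup Lam] (g : Germ P Lam)
    (NefG : P → Prop) (Nonzero : P → Prop) (N : Type) [NormedAddCommGroup N] [NormedSpace ℝ N]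
    extends NefGerm g NefG N where
  /-- the classes of all components, their sum is zero -/
  W : Option (Fin n) → Lam
  W_some : ∀ i, W (some i) = V i
  W_none : W none + ∑ i, V i = 0
  /-- the real class `x - Σ t_i V_i`, the sum over all components -/
  tf : Lam → (Option (Fin n) → ℝ) → N
  tf_eq : ∀ x t, tf x t = tw x (fun i => t (some i) - t none) 0
  /-- a model is determined by an integral class which is ample on it -/
  cnt : Countable g.Mo
  /-- the nef cone is closed -/
  nef_closed : ∀ mu, IsClosed {y | NefR mu y}
  /-- nonzero sections of the classes for `t` and `t'` give sections of the class for the minimum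
  without a common vertical component -/
  inf_mem : ∀ x t t', tf x t ∈ Mov → tf x t' ∈ Mov → tf x (fun i => min (t i) (t' i)) ∈ Mov
  /-- `y` is numerically trivial on the component `V_k` of the model `mu` -/
  Null : g.Mo → Option (Fin n) → N → Prop
  /-- the degree of a class which is not numerically trivial is constant in the family; `Nonzero L` says
  that `L` is not numerically trivial on the generic fibre -/
  not_null : ∀ mu x t, Nonzero (g.rho x) → NefR mu (tf x t) → ∃ k, ¬ Null mu k (tf x t)
  /-- the curves in the double surfaces of the dlt modification of `mu` -/
  CurD : g.Mo → Type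
  degD : ∀ mu, CurD mu → N → ℝ
  degD_add : ∀ mu C x y, degD mu C (x + y) = degD mu C x + degD mu C y
  degD_smul : ∀ mu C (r : ℝ) x, degD mu C (r • x) = r * degD mu C x
  degD_nef : ∀ mu C x, NefR mu x → 0 ≤ degD mu C x
  /-- the model is `Q`-factorial (base changes keep the index of a class) -/
  intD : ∀ mu C x, ∃ z : ℤ, ind mu * degD mu C (cl x) = z
  /-- Let `y = x - Σ t_i V_i` be nef on `mu`, and `y + ε V_k` not movable for all `ε > 0`. Then (cone
  theorem, Birkar, Cascini, Hacon, McKernan) after steps of degree zero for `y` the component `V_k` is
  contracted along curves of degree zero; the sum of the other components is ample on the fibres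
  of this contraction `V_k → T`, and `y` is on `V_k` the pull back of a class of `T` (a real nef class
  is here a positive combination of rational ones which are nef on `mu` and zero on the same extremal
  rays, see `exists_rational`). If `y` is not numerically trivial on `V_k` then it is not on
  a surface in the intersection of `V_k` with another component, a log canonical centre. Since the
  steps have degree zero for `y`, it is not on the centre in the dlt modification of `mu` of a log
  canonical place over this surface which lies in the edge of the two components; this centre is a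
  double surface or a triple curve. (If the centre on `mu` is smaller, note that the fibres of a
  component of the dlt modification over its centre in `mu` are rationally chain connected, so that
  its boundary dominates the centre.) -/
  cover : ∀ mu x t k, NefR mu (tf x t) →
    (∀ t', t' k < t k → (∀ i, i ≠ k → t' i = t i) → tf x t' ∉ Mov) →
    (∀ C, degD mu C (tf x t) = 0) → Null mu k (tf x t)
  /-- the double surfaces of the dlt modification of `mu` on the strict transform of `V_j` -/
  E : g.Mo → Option (Fin n) → Type
  /-- the coefficient of the double surface `e` in the restriction to the strict transform of `V_j` of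
  the pull back of the component `V_l`, `l ≠ j` -/
  a : ∀ mu j, Option (Fin n) → E mu j → ℝ
  a_nonneg : ∀ mu j l e, l ≠ j → 0 ≤ a mu j l e
  /-- two double surfaces on `V_j` meet in a triple curve -/
  Adj : ∀ mu j, E mu j → E mu j → Prop
  /-- the boundary of `V_j` is connected (minimal log canonical centres are linked, Kollár) -/
  conn : ∀ mu j e e', Relation.ReflTransGen (Adj mu j) e e'
  /-- the restriction of the pull back of `V_l` to the double surface `e` is the sum of the other
  double surfaces on `V_j`, with their coefficients, if the coefficient of `e` is zero: it has positive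
  degree on an ample curve of `e` if one of them meets `e` in a triple curve and has positive
  coefficient -/
  pos : ∀ mu j l e e', l ≠ j → Adj mu j e e' ∨ Adj mu j e' e → a mu j l e = 0 → 0 < a mu j l e' →
    ∃ C : CurD mu, degD mu C (cl (W l)) ≠ 0
  /-- One of the models is dlt (the end of the minimal model program of a semistable model is terminal
  and dlt) and has three components through a triple curve, so there are at least
  three components, on every model, and the special fibre is connected. So some `V_j` meets two others
  `V_i` and `V_l`. A surface in `V_j ∩ V_i` is not contained in `V_l`, since at most two components contain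
  a surface of a log canonical model, and `V_j` meets `V_l`. -/
  link : ∀ mu, ∃ j l, l ≠ j ∧ (∃ e, a mu j l e = 0) ∧ ∃ e, 0 < a mu j l e

end SVert

/-! ## ThreeOne -/

section SThreeOne

/-- The models over a prime divisor `b` of type III, `h^(2,1) = 2`. `q x y` is the intersection number
`x.y.A` on the generic fibre, `Big L` says that `L` is not zero. -/
structure ThreeOne {P Lam : Type} [AddCommGroup P] [AddCommGroup Lam] (g : Germ P Lam)
    (NefG Big : P → Prop) (q : P → P → ℤ) (A : P) (Semi : P → Prop) (N : Type)
    [NormedAddCommGroup N] [NormedSpace ℝ N] extends VertGerm g NefG Big N where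
  /-- the dlt modification of the model `mu`; all multiples of the nef class `x` are Cartier and
  `x.x.A = 0` on the generic fibre -/
  fibre : ∀ mu x, g.Nef mu x → (∀ j : ℕ, g.Car mu (j • x)) → q (g.rho x) (g.rho x) = 0 →
    Fibre q A Semi (g.rho x)
  /-- the curve `C` is contained in a double surface, or is the image of a curve in one of the double
  surfaces after the base change -/
  active : ∀ mu x hn hc hq C, 0 < degD mu C (cl x) → ∃ e, (fibre mu x hn hc hq).act e

end SThreeOne

section STransfer

/-!
# MP_5ee2d0_ag: long liftings of sections give semiample classes; all types of special fibres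

`YY → Δ` is a model over the local ring of a prime divisor of the base as in `Run`, `t = 0` is
its special fibre `F = Σ V_i`, and `N`, a rational combination of an integral class and the `V_i`, is
nef on `YY` and its multiples have no sections on the generic fibre (below `n` runs through the
multiples of one number, so that `n N` is Cartier). Let `s` be a section of `n N` modulo `t^j` which is
not zero on `F`, `j > C n`. Then there are a base change `t = t'^d`, a model `YY''` and a class `N''`,
equal to `N` on the generic fibre, such that `N''` is nef and its restriction to the special fibre of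
`YY''` is semiample. The constant `C` depends only on `YY` and `N`; no property of the special fibre is
used.

The idea: the orders of `s` along the log canonical places of `(YY, F)` define a function on the dual
complex, which is made linear on the cells by a refinement; subtracting it from `N` gives a class `N'`
and a section `s'` which vanishes at no log canonical place. The program for `N'` changes the direct
images only by `t'^k` with `k = O(n d)`, so the section survives on all models, no component is
contracted, the program ends by `Run.false`, and abundance for semi log canonical threefolds applies.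
-/

/-- The refined model `YY'` over the base change `t = t'^d`, with the class `N'` and the section `s'`,
and the minimal model program for `N' + e H`, `e` decreasing to zero, `H` ample on `YY'`. There is a
crepant morphism from `YY'` to the base change of `YY`, so `N` is nef on `YY'`; `YY'` is a `Q`-factorial
dlt model with trivial canonical class and reduced special fibre `F'`, so it is terminal;
`N' = N - G/n` with a divisor `0 ≤ G ≤ d c n F'`. -/
structure Refined (n c j : ℕ) (Semi : Prop) where
  d : ℕ
  d_pos : 0 < d
  /-- the prime divisors over `YY'` with centre in the special fibre -/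
  Dv : Type
  /-- their multiplicities in the special fibre -/
  mult : Dv → ℕ
  mult_pos : ∀ v, 0 < mult v
  /-- log canonical places of `(YY', F')` -/
  Lc : Dv → Prop
  /-- the components of `F'` -/
  m : ℕ
  cmp : Fin m → Dv
  cmp_lc : ∀ V, Lc (cmp V)
  /-- the order of `s` along `v`, and the multiplicity of `G = Σ u(V) V` -/
  u : Dv → ℝ
  g : Dv → ℝ
  g_cmp : ∀ V, g (cmp V) = u (cmp V)
  /-- The pair has simple normal crossings at the general points of its log canonical centres, so `v` is
  a monomial valuation, with weights `w`, and `u` is linear on the cells of the dual complex. -/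
  lin : ∀ v, Lc v → ∃ w : Fin m → ℝ, u v = ∑ V, w V * u (cmp V) ∧ g v = ∑ V, w V * g (cmp V)
  /-- the models: `YY'` and the results of the steps of the program, up to the first model on which the
  program stops or contracts a divisor. All of them are small modifications of `YY'`. -/
  Mo : Type
  mu0 : Mo
  /-- the coefficients of the differences of the pull backs of `N'` (of `H`) from `YY'` and from `mu` -/
  E : Mo → Dv → ℝ
  EH : Mo → Dv → ℝ
  /-- negativity lemma -/
  E_nonneg : ∀ mu v, 0 ≤ E mu v
  /-- `E + e EH` is the difference of the asymptotic orders of `N' + e H` along `v` on `YY'` and on `mu`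
  (Nakayama 2004), so it is at most the first of them. Numerically `N' + e H` is the sum of the nef class
  `N + e H` and of the effective divisor `d c F' - G/n`, the coefficients of which are at most those
  of `d c F'`. -/
  E_le' : ∀ mu v e, 0 < e → E mu v + e * EH mu v ≤ d * c * mult v
  /-- the first direct image of `O(n N')` on `mu`, with its zero element and the multiplication by `t'`.
  As `n N'` has no sections on the generic fibre, a section of `O(n N')/t'^i` is an element `x` killed
  by `t'^i`. -/
  T : Mo → Type
  zero : ∀ mu, T mu
  tau : ∀ mu, T mu → T mu
  /-- the order along `v` of the section of `O(n N')/t'^i` given by `x`: the minimum of `i mult v` and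
  the order of a local lifting -/
  ord : ∀ mu, ℕ → T mu → Dv → ℝ
  ord_nonneg : ∀ mu i x v, (tau mu)^[i] x = zero mu → 0 ≤ ord mu i x v
  /-- the section `s'` given by `s` -/
  s : T mu0
  s_kill : (tau mu0)^[d * (j - c * n)] s = zero mu0
  ord_s : ∀ v, Lc v → ord mu0 (d * (j - c * n)) s v = u v - g v
  /-- Let `W` be a log resolution of `YY'` and `mu`, with the round up `A` (`B`) of `K_W` plus the
  pull back of `n N'` from `YY'` (from `mu`). By the vanishing theorem of Kawamata and Viehweg `O(A)`
  and `O(B)` have the same direct images as `O(n N')` on `YY'` and `mu`. If `n E + 1 ≤ k F'` on `W` then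
  the multiplication by `t'^k` maps `O(A)` to `O(B)`; otherwise the map is zero by definition. -/
  push : ∀ mu, ℕ → T mu0 → T mu
  push_zero : ∀ mu k, push mu k (zero mu0) = zero mu
  push_tau : ∀ mu k x, push mu k (tau mu0 x) = tau mu (push mu k x)
  /-- at the general points of the components of the special fibre `YY'` and `mu` are isomorphic -/
  push_cmp : ∀ mu (k : ℕ), (∀ v, n * E mu v + 1 ≤ k * mult v) → ∀ i x V,
    (tau mu0)^[i] x = zero mu0 → k ≤ i → k * mult (cmp V) ≤ ord mu i (push mu k x) (cmp V)
  /-- `O(n N')/t'^k` is Cohen-Macaulay since `mu` is klt and `N'` is `Q`-Cartier, so a section which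
  vanishes at the general points of the components is zero. The reduction modulo `t'^k` of `x` is given
  by `t'^(i-k) x`. -/
  no_emb : ∀ mu (i k : ℕ) x, k ≤ i → (tau mu)^[i] x = zero mu →
    (∀ V, k * mult (cmp V) ≤ ord mu i x (cmp V)) → (tau mu)^[i - k] x = zero mu
  /-- `t'^k` times the difference of the liftings of `x` and of `(push x)/t'^k` lies in `t'^i O(B)`
  (both give the element `push x`, and `n N'` has no sections); the coefficient of `K_W` in a log
  canonical place is `mult v - 1`, so the difference has order at least `(i - k - 1) mult v > 0` at `v` -/
  push_lc : ∀ mu (k : ℕ), (∀ v, n * E mu v + 1 ≤ k * mult v) → ∀ i x v, Lc v →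
    (tau mu0)^[i] x = zero mu0 → k + 2 ≤ i → (tau mu)^[i - k] (push mu k x) = zero mu →
    ord mu0 i x v = 0 → ord mu (i - k) (push mu k x) v = - (n * E mu v)
  /-- `N'` is nef on `mu` -/
  Nef : Mo → Prop
  /-- the next step contracts the component `V` -/
  Con : Mo → Fin m → Prop
  /-- Birkar, Cascini, Hacon, McKernan. If no divisor is contracted and the program does not stop then
  all the models are `Q`-factorial terminal, and the infinitely many steps give the data of `Run`. -/
  program : (∃ mu, Nef mu) ∨ (∃ mu V, Con mu V) ∨ Nonempty Run
  /-- the contracted curves cover `V`, and `N'` is negative on them -/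
  con : ∀ mu V, Con mu V → ∀ i x, 0 < i → (tau mu)^[i] x = zero mu → ord mu i x (cmp V) ≠ 0
  /-- The special fibre `X` of `mu` is semi log canonical with trivial canonical class. The zeros `R` of
  a section of a multiple of `N'|X` which is not zero at the general point of any log canonical centre
  give a semi log canonical pair `(X, ε R)`, so `N'|X` is semiample by the abundance theorem for semi
  log canonical threefolds (Keel, Matsuki, McKernan 1994; Abramovich, Fong, Kollár, McKernan 1992;
  Fujino 2000). -/
  abundance : ∀ mu, Nef mu →
    (∃ i x, 0 < i ∧ (tau mu)^[i] x = zero mu ∧ ∀ v, Lc v → ord mu i x v = 0) → Semi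

/-- The sections of the multiples of `N` modulo powers of `t`. Here `Lifts n j` means that there is a
section of `n N` modulo `t^j` which is not zero on the special fibre of `YY`, and `Semi` that for a
class `N''`, equal to `N` on the generic fibre, on some model over some base change the restriction to
the special fibre is semiample. -/
structure Transfer (Lifts : ℕ → ℕ → Prop) (Semi : Prop) where
  /-- the vertices of the dual complex: the components with log discrepancy zero of the special fibre
  of a log resolution of `(YY, F)`. Two of them are adjacent if they meet. The complex is connected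
  (Kollár, Shokurov). -/
  v : ℕ
  adj : Fin v → Fin v → Prop
  conn : ∀ a b, Relation.ReflTransGen adj a b
  /-- the sections of `n N` modulo `t^j` which are not zero on the special fibre -/
  Sec : ℕ → ℕ → Type
  sec : ∀ n j, Lifts n j → Nonempty (Sec n j)
  /-- the order of a section along a component -/
  ord : ∀ n j, Sec n j → Fin v → ℕ
  /-- it is zero for some component of the special fibre of `YY` -/
  start : ∀ n j s, ∃ a, ord n j s a = 0
  /-- Let `o` be the order of `s` along `a`. The initial form of `s` along `a` is a nonzero section of
  `n N - o a` on `a`; its order along the intersection with `b` (and its multiplicity along the smaller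
  strata) is at most the degree of `n N - o a` with respect to a very ample divisor; `c ≥ 1`. -/
  c : ℕ
  step : ∀ n j s a b, adj a b → ord n j s a < j → ord n j s b ≤ c * (n + ord n j s a)
  /-- Normalise the log canonical places `v` of `(YY, F)` by `v(t) = 1`. On a cell of the dual complex
  `v(s)` is the minimum of finitely many linear functions with rational coefficients (the monomials of
  a local equation), and at most `c (n + o)`, `o` the order along a vertex, by the same argument. There
  is a subdivision of the dual complex on the cells of which `v(s)` is linear, and a base change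
  `t = t'^d` such that the vertices are integral and the special fibre is reduced. After the base change the subdivision is the dual
  complex of a `Q`-factorial dlt model with trivial canonical class and reduced special fibre
  (Kempf, Knudsen, Mumford, Saint-Donat 1973; Birkar, Cascini, Hacon, McKernan 2010; de Fernex, Kollár,
  Xu 2017); `G` is the sum of the orders of `s` times the components. -/
  refine : ∀ n j (s : Sec n j) C, 0 < n → (∀ a, ord n j s a ≤ C * n) → c * (C + 1) * n < j →
    Nonempty (Refined n (c * (C + 1)) j Semi)

end STransfer

section SSlope

/-!
# MP_5ee2d0_ag, numerical dimension two: degrees on the base (Theorem H'')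

Setting. `Mbar` is a normal projective variety of dimension `r + 2`, a compactification of (a finite
covering of) the moduli space of a Calabi-Yau threefold, `λ` its Hodge bundle, `A` an ample class.
`π : Y → Mbar` is a family of `K`-trivial models over the complement of a subset of codimension two,
terminal and projective over the base, with reduced fibres over the generic points of the prime
divisors `b`; `N` is a Cartier divisor class of `Y`, nef over the base, whose restriction `L` to the
general fibre has numerical dimension two, `c₂.L = 0`, and no positive multiple of `L` is effective.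
(If models with `N` nef are given for each `b` in the finite set `S` separately, then one ample class
`δ` of the general fibre is chosen, and extended over every `b` in `S` to a class in the interior of
the movable cone. After flops over these `b`, which are trivial for `N`, the class `N + ε δ`, `ε` small,
is ample over the base at all `b` at the same time, so the models come from one projective `Y`; these
flops change neither the cohomology of `n N` on `X_b` nor its direct images.)
There are finitely many surfaces of the general fibre on which `L` is numerically trivial. On their
closures `G` in `Y` the class `N` is numerically trivial over the base (it is nef there; Zariski), so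
all steps of the program for `ε G` over the base are `N`-trivial, they change neither the direct
images of `n N` nor its cohomology on `X_b`, and `G` is contracted. We replace `Y` by a terminalisation
of the resulting model; then `N` and `H` are pull backs from this model, `H` is the pull back of five
times a relatively very ample class, `S` a general member of it.

For `n > 0` all direct images of `n N` are zero except the first, which is a torsion sheaf. `o b n`
is its length and `e b n` its exponent at `b`. We show that `e b n` is not `O(n)` at some `b` with
`λ^(r+1).b ≠ 0`. Otherwise the coefficient `β` of the determinant of cohomology is negative; but the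
classes `N + H / n + k F` are nef on the fourfold over a complete intersection curve for a small
`k`, by a comparison of slopes, and Miyaoka's inequality gives `β ≥ 0`.
-/

/-- The fourfold `Y_T` over a smooth complete curve `T`. -/
structure Over where
  /-- real classes of divisors of `Y_T` -/
  V : Type
  /-- the sum -/
  add : V → V → V
  /-- the product of a class and a real number -/
  smul : ℝ → V → V
  /-- the intersection number of two classes with the second Chern class -/
  C : V → V → ℝ
  C_add : ∀ a b x, C (add a b) x = C a x + C b x
  C_smul : ∀ (s : ℝ) a x, C (smul s a) x = s * C a x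
  C_symm : ∀ a b, C a b = C b a
  /-- nef classes -/
  Nef : V → Prop
  /-- Miyaoka 1987; `Y_T` is terminal and projective and `K` is nef, a positive multiple of a fibre
  (`A` is sufficiently ample) -/
  miyaoka : ∀ x, Nef x → 0 ≤ C x x
  /-- a fibre -/
  F : V
  C_FF : C F F = 0
  N : V
  /-- `c₂.L = 0` -/
  C_NF : C N F = 0
  H : V
  /-- the smallest slope of a quotient of the vector bundle `π_* O(n N + H)` -/
  mu : ℕ → ℝ
  /-- Kawamata, Viehweg and Castelnuovo, Mumford: `n N + H` is generated by its sections over `T`;
  Hartshorne: a vector bundle on a curve is nef if it has no quotient of negative slope. -/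
  gen : ∀ (n : ℕ) (k : ℝ), 0 < n → 0 ≤ mu n + n * k →
    Nef (add (add N (smul (1 / (n : ℝ)) H)) (smul k F))

/-- The degrees. `wt b` is `λ^(r+1).b`; `Lifts b n j` says that some section of `n N` on `X_b`,
not zero, is the restriction of a section on the subscheme `t ^ j = 0`. `T_m` is a very general
complete intersection curve of `r + 1` members of `|m λ + A|`; since `λ` is nef, `m λ + A` is
generated by its sections for all `m` if `A` is a large multiple of an ample class (Fujita). -/
structure Degrees (B : Type) (wt : B → ℚ) (Lifts : B → ℕ → ℕ → Prop) where
  /-- A finite set of prime divisors outside of which the model is smooth, `N` is nef (Wilson) and all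
  its positive multiples are acyclic on `X_b`. The structure is to be assumed only if this last
  property is known for the interior divisors where `N` is nef. -/
  S : Finset B
  /-- `λ` is nef -/
  wt_nonneg : ∀ b, 0 ≤ wt b
  /-- `λ^(r+2)` -/
  top : ℝ
  /-- Griffiths, local Torelli: `λ` is big -/
  top_pos : 0 < top
  /-- the length of the first direct image of `n N` at `b` -/
  o : B → ℕ → ℕ
  /-- its exponent -/
  e : B → ℕ → ℕ
  /-- the dimension of `H^0(X_b, n N)` -/
  h : B → ℕ → ℕ
  /-- the restriction of `N` to no component of `X_b` is big, since `L^3 = 0` -/
  growth : ∀ b, ∃ c : ℝ, ∀ n : ℕ, 0 < n → (h b n : ℝ) ≤ c * (n : ℝ) ^ 2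
  /-- `H^0(X_b, n N)` is the kernel of `t` on the first direct image -/
  o_le : ∀ b (n : ℕ), 0 < n → o b n ≤ h b n * e b n
  /-- The kernel of `t ^ j` consists of the sections on `t ^ j = 0`, and `t ^ (j - 1)` is the
  restriction to `X_b`. -/
  e_lifts : ∀ b (n : ℕ), 0 < n → e b n = 0 ∨ Lifts b n (e b n)
  /-- the numbers `a.λ^(r+1)` and `a'.λ^(r+1)` -/
  α : ℝ
  β : ℝ
  /-- Snapper; Knudsen, Mumford; Deligne: the determinant of the cohomology of `n N` is a polynomial
  of degree four in `n`, by duality it is even, and it is `λ` for `n = 0` (Kollár), so it is
  `n^4 a + n^2 a' + λ`; and it is minus the sum of the `o b n b`. -/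
  det : ∀ n : ℕ, 0 < n →
    α * (n : ℝ) ^ 4 + β * (n : ℝ) ^ 2 + top = - ∑ b ∈ S, (o b n : ℝ) * wt b
  /-- the dimension `h` of `Mbar` is `r + 2` -/
  r : ℕ
  /-- `T_m.b = (m λ + A)^(r+1).b` -/
  T : ℕ → B → ℝ
  T_nonneg : ∀ m b, 0 ≤ T m b
  T_le : ∀ b, ∃ c : ℝ, ∀ m : ℕ, 0 < m →
    T m b ≤ wt b * (m : ℝ) ^ (r + 1) + c * (m : ℝ) ^ r
  /-- the fourfold over `T_m` -/
  Y : ℕ → Over
  /-- the smallest slope of a quotient of the vector bundle `π_* O_S(n N + H)` on `T_m` -/
  muS : ℕ → ℕ → ℝ
  /-- `N` is ample on the general fibre of the image of `S` in the contraction (a general member of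
  `|H|` on the image contains no curve of degree zero), so `N + c m^(r+1) F` is nef on the part of `S`
  over `T_m` for some `c`, and relatively big. Fujita, Kawamata, Viehweg: the direct image of the
  product of the relative dualizing sheaf of `S`, which is `H + λ`, and a nef and relatively big line
  bundle is nef, it has no quotients of negative slope. -/
  kv : ∃ c : ℝ, ∀ m n : ℕ, 0 < m → 0 < n → - (c * n * (m : ℝ) ^ (r + 1)) ≤ muS m n
  /-- The first direct image of `n N` is the cokernel of the inclusion of `π_* O(n N + H)` in
  `π_* O_S(n N + H)`, also over `T_m`, which is very general, because the higher ones are zero; it is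
  killed by the product of the `e b n` th powers of the equations of the `b`, and a subsheaf of full
  rank has no larger minimal slope. -/
  sub : ∀ m n : ℕ, 0 < m → 0 < n → muS m n - ∑ b ∈ S, (e b n : ℝ) * T m b ≤ (Y m).mu n
  /-- Riemann-Roch on the fourfold over `T_m`: `c₂.N^2 = 24 a'.T_m` -/
  cNN : ∃ c : ℝ, ∀ m : ℕ, 0 < m →
    (Y m).C (Y m).N (Y m).N ≤ 24 * β * (m : ℝ) ^ (r + 1) + c * (m : ℝ) ^ r
  /-- degrees of divisor classes of `Mbar` on `T_m` -/
  cNH : ∃ c : ℝ, ∀ m : ℕ, 0 < m → (Y m).C (Y m).N (Y m).H ≤ c * (m : ℝ) ^ (r + 1)
  cHH : ∃ c : ℝ, ∀ m : ℕ, 0 < m → (Y m).C (Y m).H (Y m).H ≤ c * (m : ℝ) ^ (r + 1)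
  /-- `c₂.H` on the general fibre -/
  cHF : ∃ c : ℝ, ∀ m : ℕ, 0 < m → (Y m).C (Y m).H (Y m).F ≤ c

end SSlope

/-! ## Local -/

section SLocal

/-- The models over the local ring of one prime divisor `b` of the base, as in `NefGerm`; `Int`: `b` is
an interior divisor. `Semi` is explained in `SectAt`. The restriction to the generic fibre is onto and
`P` is torsion free, because the threefold is simply connected; after a finite covering of the base
there is no monodromy on `P`. -/
structure At {P Lam : Type} [AddCommGroup P] [AddCommGroup Lam] (g : Germ P Lam) (NefG : P → Prop)
    (Semi : P → Prop) (Int : Prop) (kind : ℕ) where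
  /-- the given smooth model if `b` is an interior divisor; one of the models otherwise -/
  mu0 : g.Mo
  /-- an additive section of `rho`; the closure of a divisor class of `G` if `b` is interior -/
  lift : P →+ Lam
  rho_lift : ∀ x, g.rho (lift x) = x
  car_int : ∀ x, Int → g.Car mu0 (lift x)
  /-- all models are `Q`-factorial -/
  qfac : ∀ mu x, ∃ k : ℕ, 0 < k ∧ ∀ j : ℕ, g.Car mu (j • k • x)
  nef_nsmul : ∀ mu x (k : ℕ), g.Nef mu x → g.Nef mu (k • x)
  semi : ∀ mu x, g.SA mu x → Semi (g.rho x)
  /-- the dimension of the space of the real classes of divisors over the local ring -/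
  dim : ℕ
  nef : NefGerm g NefG (EuclideanSpace ℝ (Fin dim))
  typeF : kind = 0 → TypeF g

/-- the extension of `L` to the given model is nef -/
def At.NefStd {P Lam : Type} [AddCommGroup P] [AddCommGroup Lam] {g : Germ P Lam}
    {NefG Semi : P → Prop} {Int : Prop} {kind : ℕ} (A : At g NefG Semi Int kind) (L : P) : Prop :=
  g.Nef A.mu0 (A.lift L)

/-- an extension of `m L` over the local ring of `b`, all positive multiples are Cartier classes -/
structure Ext {P Lam : Type} [AddCommGroup P] [AddCommGroup Lam] (g : Germ P Lam) (L : P)
    (m : ℕ) where
  mu : g.Mo
  x : Lam
  rho : g.rho x = m • L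
  car : ∀ j : ℕ, 0 < j → g.Car mu (j • x)

/-- the extension is nef -/
def Ext.Nef {P Lam : Type} [AddCommGroup P] [AddCommGroup Lam] {g : Germ P Lam} {L : P}
    {m : ℕ} (E : Ext g L m) : Prop := g.Nef E.mu E.x

/-- the multiple `k x` of the extension `x` is acyclic on the special fibre -/
def Ext.AcyclicAt {P Lam : Type} [AddCommGroup P] [AddCommGroup Lam] {g : Germ P Lam} {L : P}
    {m : ℕ} (E : Ext g L m) (k : ℕ) : Prop := g.Acyclic E.mu (k • E.x)

/-- the standard extension at an interior divisor -/
structure Ext.Std {P Lam : Type} [AddCommGroup P] [AddCommGroup Lam] {g : Germ P Lam} {L : P}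
    {m : ℕ} (E : Ext g L m) {NefG Semi : P → Prop} {Int : Prop} {kind : ℕ}
    (A : At g NefG Semi Int kind) : Prop where
  int : Int
  mu : E.mu = A.mu0
  x : E.x = m • A.lift L
  nef : A.NefStd L

/-- The prime divisors of the base `Mbar` of dimension `h`. -/
structure Divs (P : Type) [AddCommGroup P] (h : ℕ) where
  B : Type
  /-- interior divisors: the family is smooth over the local ring of `b` and the polarisation is
  ample there -/
  Int : B → Prop
  /-- the intersection number of `b` with the power `h - 1` of the Hodge bundle `λ` -/
  wt : B → ℚ
  hodge : HodgeTypes h B wt
  /-- no monodromy -/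
  int_kind : ∀ b, Int b → hodge.kind b = 0
  /-- see `SectAt` -/
  Semi : B → P → Prop
  semi_mul : ∀ b L (k : ℕ), 0 < k → Semi b (k • L) → Semi b L

/-- Models over all the prime divisors of the base, one model and all its small modifications over
each of them (Kempf, Knudsen, Mumford, Saint-Donat; Birkar, Cascini, Hacon, McKernan; after a finite
covering of the base). -/
structure Models {P : Type} [AddCommGroup P] {h : ℕ} (D : Divs P h) (NefG : P → Prop) where
  /-- the rank of the divisor class group, an extension of `P` by the free group of the components of the
  special fibre modulo their sum -/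
  rk : D.B → ℕ
  germ : ∀ b, Germ P (FreeAbelianGroup (Fin (rk b)))
  at' : ∀ b, At (germ b) NefG (D.Semi b) (D.Int b) (D.hodge.kind b)

/-- An extension of `m L` over all prime divisors, the standard one outside of the finite set `S`. -/
structure Family {P : Type} [AddCommGroup P] {h : ℕ} {D : Divs P h} {NefG : P → Prop}
    (M : Models D NefG) (L : P) where
  m : ℕ
  m_pos : 0 < m
  S : Finset D.B
  ext : ∀ b, Ext (M.germ b) L m
  std : ∀ b, b ∉ S → (ext b).Std (M.at' b)

end SLocal

/-! ## Join -/

section SJoin

/-- The geometric generic member `G` of the family of the deformations of the threefold `X`; its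
Picard group is the Picard group of `X`. -/
structure Gen {P : Type} [AddCommGroup P] (X : CY P) where
  /-- nef classes of `G` -/
  Nef : P → Prop
  /-- the dimension of `H^i(G, x)` -/
  h : ℕ → P → ℕ
  /-- ample classes of `X` are ample on `G`, nef classes are limits of ample ones -/
  nef : ∀ x, X.Nef x → Nef x
  /-- semicontinuity -/
  semi : ∀ (i : Fin 4) x, h i x ≤ X.h i x
  top : ∀ i x, 4 ≤ i → h i x = 0

/-- nef, not semiample classes of `X`, seen on `G` -/
structure Bad {P : Type} [AddCommGroup P] {X : CY P} (G : Gen X) (L : P) : Prop where
  nefX : X.Nef L
  nef : G.Nef L
  cube : X.T L L L = 0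
  c : X.c L = 0
  acyclic : ∀ k : ℕ, 0 < k → ∀ i, G.h i (k • L) = 0
  ne : ∀ k : ℕ, 0 < k → k • L ≠ 0

/-- numerical dimension one and second Chern class of degree zero -/
structure One {P : Type} [AddCommGroup P] (X : CY P) (L : P) : Prop where
  ne : ∀ k : ℕ, 0 < k → k • L ≠ 0
  sq : ∀ z, X.T L L z = 0
  c : X.c L = 0

/-- Numerical dimension one: data of the models over one prime divisor with `wt = λ^(h-1).b`, `F^3`
in `Gr_(3 + kind)`. -/
structure AtOne {P Lam : Type} [AddCommGroup P] [AddCommGroup Lam] (X : CY P) (NefG : P → Prop)
    (g : Germ P Lam) (Semi : P → Prop) (h : ℕ) (wt : ℚ) (kind : ℕ) where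
  two : kind = 1 → OneGerm g (One X) Semi
  /-- the dimension of the space of the real classes of divisors over the local ring -/
  dim : ℕ
  three : kind = 2 → h = 2 → wt ≠ 0 → ThreeOne g NefG (fun L => L ≠ 0) (fun x y => X.T X.H x y)
    X.H Semi (EuclideanSpace ℝ (Fin dim))

/-- Numerical dimension two: data of the models over one prime divisor. -/
structure AtTwo {P Lam : Type} [AddCommGroup P] [AddCommGroup Lam] (g : Germ P Lam)
    (Semi : P → Prop) (hG : ℕ → P → ℕ) where
  /-- some section of `n x` on the special fibre, `x` the given extension, not zero, is the restriction
  of a section on the subscheme `t ^ j = 0` -/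
  Lifts : ∀ {L : P} {m : ℕ}, Ext g L m → ℕ → ℕ → Prop
  /-- no positive multiple of `L` is effective, so a section of `n x` on the subscheme `t ^ j = 0` is an
  element of the first direct image which is killed by `t ^ j` -/
  transfer : ∀ (L : P) (m : ℕ) (E : Ext g L m), 0 < m → E.Nef →
    (∀ k : ℕ, 0 < k → hG 0 (k • L) = 0) → Transfer (Lifts E) (Semi L)

/-- The family of the deformations of the simply connected threefold `X`, `h = h^(2,1)(X)`: the base
`Mbar` is a finite covering of a compactification of the moduli space, of dimension `h`
(Bogomolov, Tian, Todorov). -/
structure Setup {P : Type} [AddCommGroup P] (X : CY P) (h : ℕ) where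
  gen : Gen X
  D : Divs P h
  sect : ∀ b, SectAt (D.Semi b) h (D.wt b) (D.hodge.kind b) gen.h
  /-- the models used for classes of numerical dimension one: for `kind = 1` canonical models whose
  special fibre has two components which meet in a surface which is not uniruled, terminal models
  otherwise -/
  one : Models D gen.Nef
  /-- the models used for classes of numerical dimension two: terminal -/
  two : Models D gen.Nef
  interior1 : Interior X D.B gen.Nef D.Int fun b L => (one.at' b).NefStd L
  interior2 : Interior X D.B gen.Nef D.Int fun b L => (two.at' b).NefStd L
  atOne : ∀ b, AtOne X gen.Nef (one.germ b) (D.Semi b) h (D.wt b) (D.hodge.kind b)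
  atTwo : ∀ b, AtTwo (two.germ b) (D.Semi b) gen.h
  /-- Numerical dimension two: the degrees on the base, for the models given by `F` after flops of curves
  of degree zero, which do not change the cohomology on `X_b` and the sections on the subschemes
  `t ^ j = 0` -/
  deg : ∀ L, Bad gen L → (∃ z, X.T L L z ≠ 0) → ∀ F : Family two L,
    (∀ b, (F.ext b).Nef) → (∀ b, b ∉ F.S → ∀ k : ℕ, 0 < k → (F.ext b).AcyclicAt k) →
      Nonempty (Degrees D.B D.wt fun b => (atTwo b).Lifts (F.ext b))
  /-- the self-intersection number `λ^h` of the Hodge bundle -/
  top : ℚ
  /-- Griffiths, local Torelli: the Hodge bundle is nef and big -/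
  top_pos : 0 < top
  /-- Degree of the determinant of cohomology (Snapper; Knudsen, Mumford; Kollár; Steenbrink): glue
  the models over the codimension one points to a proper family over the complement of a subset of
  codimension two. The determinant of `R π_* O(k x)` is a line bundle there, a polynomial of degree at
  most four in `k`; its intersection number `p k` with `λ^(h-1)` (with the power of `λ + ε A`, `A`
  ample, `ε` to zero: general complete intersection curves meet every `b` in general points only) is a
  polynomial of degree at most four, equal to `λ^h` for `k = 0`; if `k m L` is acyclic on `G` then it is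
  a sum of local contributions, zero at `b` if `k x` is acyclic on `X_b`. -/
  det : ∀ L (F : Family one L), ∃ p : Polynomial ℚ, p.natDegree ≤ 4 ∧ p.eval 0 = top ∧
    ∀ k : ℕ, 0 < k → (∀ i, gen.h i (k • F.m • L) = 0) →
      ∃ o : D.B →₀ ℚ, p.eval (k : ℚ) = o.sum (fun b c => c * D.wt b) ∧
        ∀ b, (F.ext b).AcyclicAt k → o b = 0

end SJoin

section SSplit

/-! Reduction to the irreducible factors: `X` is a projective manifold of any dimension with
`K_X ~ 0` and `H^1(X, O_X) = 0`. By Beauville and Bogomolov there is a finite étale Galois covering
`X' → X` with group `G` and `X' = A × Y_1 × ... × Y_n`, where `A` is an abelian variety and the `Y_i`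
are simply connected: K3 surfaces, and strict Calabi-Yau or hyperkähler manifolds of dimension at
least three. -/

/-- A nef line bundle `M` on `A`, invariant under `G`: the restriction of a line bundle of `X`. `K`
is the largest abelian subvariety on which `M` is numerically trivial (the neutral component of the
kernel of `φ_M : A → Pic^0(A)`). The group `G` acts on `A` (Beauville: the vector fields of the `Y_i`
are zero), and through the linear parts on `Pic^0(K)` and on the tangent spaces. -/
structure Flat (G : Type) [Group G] [Fintype G] where
  /-- `Pic^0(K)` -/
  Z : Type
  [grpZ : AddCommGroup Z]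
  act : G → Z → Z
  /-- `H^1(A, O_A)` and `H^1(K, O_K)`, the tangent spaces of `Pic^0(A)` and `Pic^0(K)` -/
  W : Type
  V : Type
  [grpW : AddCommGroup W]
  [grpV : AddCommGroup V]
  actW : G → W → W
  actV : G → V → V
  add_W : ∀ g, Add (actW g)
  mul_W : ∀ g g' w, actW (g * g') w = actW g (actW g' w)
  /-- the restriction is onto (Poincaré's complete reducibility) and equivariant -/
  r : W → V
  add_r : Add r
  r_onto : Function.Surjective r
  r_act : ∀ g w, r (actW g w) = actV g (r w)
  /-- `H^1(X, O_X) = 0` is the space of invariants of `H^1(X', O_(X')) = H^1(A, O_A)` -/
  inv : ∀ w, (∀ g, actW g w = w) → w = 0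
  /-- an endomorphism of an abelian variety with vanishing differential is zero -/
  rigid : (∀ v, ∑ g, actV g v = 0) → ∀ z, ∑ g, act g z = 0
  /-- the restriction of `M` to `K`; it does not depend on the translate of `K`, and `M` is
  invariant -/
  p : Z
  p_inv : ∀ g, act g p = p

attribute [instance] Flat.grpZ Flat.grpW Flat.grpV

/-- The data of `X` and `X' = A × Y_1 × ... × Y_n`. -/
structure Split where
  /-- the Picard groups of `X`, of `A` and of the `Y_i` -/
  P : Type
  R : Type
  I : Type
  Q : I → Type
  /-- nef and semiample classes -/
  Nef : P → Prop
  SA : P → Prop
  saA : R → Prop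
  nefY : ∀ i, Q i → Prop
  saY : ∀ i, Q i → Prop
  /-- restriction of the pull back to the factors -/
  res : ∀ i, P → Q i
  resA : P → R
  nef_res : ∀ x i, Nef x → nefY i (res i x)
  /-- The pull back of `x` is the sum of its restrictions to the factors (`Y_i` is simply connected),
  and semiampleness descends along finite coverings (norm). -/
  descent : ∀ x, (∀ i, saY i (res i x)) → saA (resA x) → SA x
  G : Type
  [grpG : Group G]
  [finG : Fintype G]
  /-- If a multiple of the restriction of `M` to `K` is trivial, a multiple of `M` is the pull back of
  an ample line bundle on `A/K`. -/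
  flat : ∀ x, Nef x → ∃ F : Flat G, ∀ n : ℕ, 0 < n → n • F.p = 0 → saA (resA x)

attribute [instance] Split.grpG Split.finG

end SSplit

/-! ## Final -/

section SFinal

/-- A smooth projective simply connected threefold `X` with trivial canonical class,
`h^(2,1)(X) = h21`; `P` is its Picard group. -/
structure Threefold (P : Type) [AddCommGroup P] where
  X : CY P
  h21 : ℕ
  /-- the family of all deformations -/
  setup : 2 ≤ h21 → Setup X h21
  /-- for a nef class `x` which is not semiample: the last model of the minimal model program which
  contracts the surfaces on which `x` is trivial; `x` has numerical dimension two if and only if `x^2`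
  is not zero -/
  last : h21 ≤ 1 → ∀ x, X.Nef x → ¬ X.SA x → Pool.Agent.H76.S.Last h21 (∃ z, X.T x x z ≠ 0)

/-- `X` is a projective manifold of any dimension with `K_X ~ 0` and `H^1(X, O_X) = 0`; each
irreducible factor of a finite étale covering of `X` is an abelian variety, a K3 surface, a hyperkähler
manifold of one of the known deformation types or a simply connected threefold (Beauville, Bogomolov).
In particular `X` can be any such manifold of dimension at most three. -/
structure Given extends Split where
  /-- `Y_i` is a threefold; the others are K3 surfaces or hyperkähler manifolds of the known deformation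
  types (Hilbert schemes of points of K3 surfaces, generalised Kummer varieties, O'Grady's types in
  dimension six and ten) -/
  Thr : I → Prop
  /-- Saint-Donat for K3 surfaces. Known deformation types: a nef divisor of positive square is semiample
  by the base point free theorem, of square zero by Bayer, Macrì 2014; Markman 2014; Matsushita 2017
  (K3^[n] type); Yoshioka 2016; Wieneck 2018 (Kummer type); Mongardi, Rapagnetta 2021 (dimension six);
  Mongardi, Onorati 2022 (dimension ten) -/
  known : ∀ i, ¬ Thr i → ∀ y, nefY i y → saY i y
  /-- the Picard number of the threefold -/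
  rk : I → ℕ
  thr : ∀ i, Thr i → Threefold (FreeAbelianGroup (Fin (rk i)))
  /-- the divisor classes -/
  cls : ∀ i, Q i → FreeAbelianGroup (Fin (rk i))
  nef_cls : ∀ i hi y, nefY i y → (thr i hi).X.Nef (cls i y)
  sa_cls : ∀ i hi y, (thr i hi).X.SA (cls i y) → saY i y

end SFinal

end Pool.Agent.H48.CYT
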