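import Pool.Agent.H48.CYT.Defs
import Pool.Agent.H76.S.Main

namespace Pool.Agent.H48.CYT

section SBase

namespace Germ

variable {P Lam : Type} [AddCommGroup P] [AddCommGroup Lam]

/-- some extension `x` of a positive multiple of `L` is a Cartier class on some model such that all
the positive multiples of `x` are acyclic on `X_b` -/
def Good (g : Germ P Lam) (L : P) : Prop :=
  ∃ (mu : g.Mo) (k : ℕ) (x : Lam), 0 < k ∧ g.rho x = k • L ∧
    ∀ j : ℕ, 0 < j → g.Car mu (j • x) ∧ g.Acyclic mu (j • x)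

end Germ

section

variable {A B : Type} [AddCommGroup A] [AddCommGroup B] {f : A → B}

lemma Add.zsmul (h : Add f) (k : ℤ) (x : A) : f (k • x) = k • f x :=
  map_zsmul (AddMonoidHom.mk' f h) k x

lemma Add.sub (h : Add f) (x y : A) : f (x - y) = f x - f y :=
  map_sub (AddMonoidHom.mk' f h) x y

end

namespace CY

variable {P : Type} [AddCommGroup P] (D : CY P)

lemma deg_pos (x : P) (hx : D.Nef x) (hx0 : x ≠ 0) (hsq : D.T D.H x x = 0) :
    0 < D.T D.H D.H x := by
  rcases (D.lines.nonneg _ _ _ D.lines.nef_H D.lines.nef_H hx).eq_or_lt with h | h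
  · exact absurd (D.lines.index x h.symm hsq) hx0
  · exact h

private lemma I_sub (j : ℕ) (a b c : D.G j) : D.I j (a - b) c = D.I j a c - D.I j b c := by
  rw [D.surfaces.symm, (D.surfaces.add_I j c).sub, D.surfaces.symm j c a, D.surfaces.symm j c b]

private lemma I_smul (j : ℕ) (k : ℤ) (a c : D.G j) : D.I j (k • a) c = k * D.I j a c := by
  rw [D.surfaces.symm, (D.surfaces.add_I j c).zsmul, D.surfaces.symm j c a, smul_eq_mul]

/-- If `x` is nef, `x^2 = 0` and `H^1(Y, -x) ≠ 0` then a positive rational multiple `y` of `x`, at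
most one half of `x`, is a Weil divisor class with effective restriction to `S`. -/
theorem destab (x : P) (hx : D.Nef x) (hsq : D.T D.H x x = 0) (hpos : 0 < D.T D.H D.H x)
    (h1 : D.h 1 (-x) ≠ 0) (j : ℕ) :
    ∃ (y : D.C) (a b : ℤ), 0 < b ∧ 2 * b ≤ a ∧ a • y = b • D.incl x ∧
      D.EffK j (D.resC j y) := by
  obtain ⟨E, hE1, hE2, hE⟩ := D.bundles.ext x hx h1
  have hst : ¬ D.Stable E := by
    intro hs
    have h2 := D.bundles.bog E hs
    rw [hE1, hE2, hsq] at h2
    simp at h2
  obtain ⟨F, w, hF, hdeg⟩ := D.bundles.unstable E hst j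
  rw [hE1] at hdeg hF
  have hch := D.surfaces.chern j _ _ F w hF
  rw [D.bundles.c2_res, hE2, mul_zero] at hch
  have hE := hE j F w hF
  have hAN : 0 < D.I j (D.res j D.H) (D.res j x) := by
    rw [D.restriction.form]
    exact mul_pos (by positivity) hpos
  have hNN : D.I j (D.res j x) (D.res j x) = 0 := by rw [D.restriction.form, hsq, mul_zero]
  obtain ⟨hZ, hne⟩ := hE (by linarith)
  obtain ⟨Z, hZd⟩ : ∃ Z, Z = D.res j x - F := ⟨_, rfl⟩
  have hFd : F = D.res j x - Z := by rw [hZd]; abel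
  have hS := D.surfaces.add_I j
  rw [← hZd] at hZ hch
  have hZ0 : Z ≠ 0 := by
    rw [hZd]
    exact sub_ne_zero.2 hne
  have e1 := D.surfaces.nef_eff j x Z hx hZ
  have e2 := D.surfaces.nef_eff j D.H Z D.lines.nef_H hZ
  rw [hFd, D.I_sub, D.surfaces.symm j Z] at hch
  rw [hFd, (hS _).sub] at hdeg
  have hw : (0 : ℤ) ≤ (w : ℤ) := Int.natCast_nonneg w
  have hZZ : D.I j (D.res j x) Z ≤ D.I j Z Z := by linarith
  have e3 : 0 < D.I j (D.res j D.H) Z := by
    rcases e2.eq_or_lt with h | h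
    · obtain ⟨k, hk, hkZ⟩ := D.surfaces.index j Z h.symm (e1.trans hZZ)
      exact absurd (D.surfaces.eff_tors j Z k hZ hk hkZ) hZ0
    · exact h
  obtain ⟨a, ha⟩ : ∃ a, a = D.I j (D.res j D.H) (D.res j x) := ⟨_, rfl⟩
  obtain ⟨b, hb⟩ : ∃ b, b = D.I j (D.res j D.H) Z := ⟨_, rfl⟩
  rw [← ha] at hdeg hAN
  rw [← hb] at hdeg e3
  have hab : 2 * b ≤ a := by linarith
  -- the class `a Z - b x` is orthogonal to `H` and has square at least zero
  obtain ⟨k, hk, hkY⟩ : ∃ k : ℤ, k ≠ 0 ∧ k • (a • Z - b • D.res j x) = 0 := by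
    apply D.surfaces.index
    · rw [(hS _).sub, (hS _).zsmul, (hS _).zsmul, ← ha, ← hb, smul_eq_mul, smul_eq_mul, mul_comm,
        sub_self]
    · have e4 : D.I j (a • Z - b • D.res j x) (a • Z - b • D.res j x) =
          a * a * D.I j Z Z - 2 * a * b * D.I j (D.res j x) Z +
            b * b * D.I j (D.res j x) (D.res j x) := by
        have e6 := fun u => (hS u).sub
        have e7 := fun u => (hS u).zsmul
        simp only [D.I_sub, D.I_smul, e6, e7, smul_eq_mul]
        rw [D.surfaces.symm j Z (D.res j x)]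
        ring
      rw [e4, hNN, mul_zero, add_zero]
      have e5 : a * a * D.I j (D.res j x) Z ≤ a * a * D.I j Z Z :=
        mul_le_mul_of_nonneg_left hZZ (mul_self_nonneg a)
      have e6 : 0 ≤ a * (a - 2 * b) * D.I j (D.res j x) Z :=
        mul_nonneg (mul_nonneg hAN.le (by linarith)) e1
      linarith
  have hkk : 0 < k * k := mul_self_pos.2 hk
  have hZx : (k * k * a) • Z = (k * k * b) • D.res j x := by
    have h2 : (k * k * a) • Z - (k * k * b) • D.res j x =
        k • (k • (a • Z - b • D.res j x)) := by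
      simp only [smul_sub, smul_smul, mul_assoc]
    rw [hkY, smul_zero] at h2
    exact sub_eq_zero.1 h2
  have hka : 0 < k * k * a := mul_pos hkk hAN
  have hkb : 0 < k * k * b := mul_pos hkk e3
  have hpush : (k * k * a) • D.push j Z = D.resC j ((k * k * b) • D.incl x) := by
    rw [← (D.restriction.add_push j).zsmul, hZx, (D.restriction.add_push j).zsmul,
      (D.restriction.add_resC j).zsmul, D.restriction.compat]
  obtain ⟨y, hy⟩ := D.restriction.sat j _ _ _ hka.ne' hpush
  refine ⟨y, k * k * a, k * k * b, hkb, ?_, ?_, ?_⟩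
  · have := mul_le_mul_of_nonneg_left hab hkk.le
    linarith
  · have h3 : D.resC j ((k * k * a) • y - (k * k * b) • D.incl x) = 0 := by
      rw [(D.restriction.add_resC j).sub, (D.restriction.add_resC j).zsmul, ← hy, hpush, sub_self]
    exact sub_eq_zero.1 (D.restriction.inj j _ h3)
  · rw [← hy]
    exact D.surfaces.push_eff j _ hZ

/-- the set of the Weil divisor classes `y` with `a y = b x`, `0 < 2 b ≤ a`, is finite -/
private lemma fin_set (x : P) (hpos : 0 < D.T D.H D.H x) :
    {y : D.C | ∃ a b : ℤ, 0 < b ∧ 2 * b ≤ a ∧ a • y = b • D.incl x}.Finite := by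
  have key : ∀ (y : D.C) (a b : ℤ), a • y = b • D.incl x →
      a * D.deg y = b * D.T D.H D.H x := by
    intro y a b h
    have h1 := congrArg D.deg h
    rw [D.weil.add_deg.zsmul, D.weil.add_deg.zsmul, D.weil.deg_incl, smul_eq_mul,
      smul_eq_mul] at h1
    exact h1
  refine Set.Finite.of_finite_fibers (f := fun y => D.deg y) ?_ ?_
  · refine (Set.finite_Icc (0 : ℤ) (D.T D.H D.H x)).subset ?_
    rintro _ ⟨y, ⟨a, b, hb, hab, h⟩, rfl⟩
    have h1 := key y a b h
    have ha : 0 < a := by linarith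
    constructor
    · by_contra hcon
      push Not at hcon
      have h2 : a * D.deg y < 0 := mul_neg_of_pos_of_neg ha hcon
      have h3 : 0 < b * D.T D.H D.H x := mul_pos hb hpos
      linarith
    · by_contra hcon
      push Not at hcon
      nlinarith
  · rintro _ ⟨y, ⟨a, b, hb, hab, h⟩, rfl⟩
    refine (D.weil.tors_fin.image fun t => y + t).subset ?_
    rintro y' ⟨⟨a', b', hb', hab', h'⟩, heq⟩
    simp only [Set.mem_preimage, Set.mem_singleton_iff] at heq
    refine ⟨y' - y, ?_, add_sub_cancel y y'⟩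
    have h1 := key y a b h
    have h2 := key y' a' b' h'
    rw [heq] at h2
    have h3 : a' * b = a * b' := by
      have h4 : D.T D.H D.H x * (a' * b - a * b') = 0 := by
        have h5 : a' * (b * D.T D.H D.H x) = a * (b' * D.T D.H D.H x) := by
          rw [← h1, ← h2]; ring
        linarith
      rcases mul_eq_zero.1 h4 with h5 | h5
      · exact absurd h5 hpos.ne'
      · linarith
    have ha : 0 < a := by linarith
    have ha' : 0 < a' := by linarith
    refine ⟨a * a', (mul_pos ha ha').ne', ?_⟩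
    have e1 : (a * a') • y = (a' * b) • D.incl x := by
      rw [mul_comm a a', mul_smul, h, smul_smul]
    have e2 : (a * a') • y' = (a * b') • D.incl x := by
      rw [mul_smul, h', smul_smul]
    rw [smul_sub, e1, e2, h3, sub_self]

/-- Numerical dimension one: if `H^1(Y, -x) ≠ 0` then `x` is semiample. -/
theorem dim_one (x : P) (hx : D.Nef x) (hx0 : x ≠ 0) (hsq : D.T D.H x x = 0)
    (h1 : D.h 1 (-x) ≠ 0) : D.SA x := by
  have hpos := D.deg_pos x hx hx0 hsq
  have hfin := D.fin_set x hpos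
  choose j0 hj0 using D.weil.lift
  obtain ⟨J, hJ⟩ := (hfin.image j0).bddAbove
  obtain ⟨y, a, b, hb, hab, hy, hyE⟩ := D.destab x hx hsq hpos h1 J
  have h2 : j0 y ≤ J := hJ ⟨y, ⟨a, b, hb, hab, hy⟩, rfl⟩
  have ha : 0 < a := by linarith
  have h3 := D.weil.eff_mul a y ha (hj0 y J h2 hyE)
  rw [hy, ← D.weil.add_incl.zsmul] at h3
  have h4 := D.coh.kmm (b • x) ((D.lines.nef_mul b x hb).2 hx) (D.weil.eff_incl _ h3)
  exact (D.lines.sa_mul b x hb).1 h4

/-- a nef class with `h^0 + h^2 ≠ 0` is semiample -/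
private lemma of_even (x : P) (hx : D.Nef x) (hx0 : x ≠ 0) (h : D.h 0 x ≠ 0 ∨ D.h 2 x ≠ 0) :
    D.SA x := by
  rcases h with h | h
  · exact D.coh.kmm x hx h
  · by_cases hsq : D.T D.H x x = 0
    · refine D.dim_one x hx hx0 hsq ?_
      rw [D.coh.serre]
      exact h
    · exact absurd (D.coh.kv x hx hsq) h

private lemma h3_zero (x : P) (hx : D.Nef x) (hx0 : x ≠ 0) : D.h 3 x = 0 := by
  have h := D.coh.serre 0 x
  rw [D.coh.h0_neg x hx hx0] at h
  exact h.symm

/-- If `x ≠ 0` is nef and `H^i(Y, x) ≠ 0` for some `i` then `x` is semiample. -/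
theorem of_any (x : P) (hx : D.Nef x) (hx0 : x ≠ 0) (i : Fin 4) (h : D.h i x ≠ 0) :
    D.SA x := by
  have h3 := D.h3_zero x hx hx0
  have hr := D.coh.rr x
  have hT := D.lines.nonneg x x x hx hx hx
  have hc := D.lines.miyaoka x hx
  rw [h3] at hr
  by_contra hcon
  have h0 : D.h 0 x = 0 := by
    by_contra h'
    exact hcon (D.of_even x hx hx0 (Or.inl h'))
  have h2 : D.h 2 x = 0 := by
    by_contra h'
    exact hcon (D.of_even x hx hx0 (Or.inr h'))
  have h1 : D.h 1 x = 0 := by
    rw [h0, h2] at hr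
    push_cast at hr
    have : (0 : ℤ) ≤ (D.h 1 x : ℤ) := Int.natCast_nonneg _
    have h5 : (D.h 1 x : ℤ) = 0 := by linarith
    exact_mod_cast h5
  fin_cases i
  · exact h h0
  · exact h h1
  · exact h h2
  · exact h h3

/-- A nef class which is not semiample: the cube and the degree of the second Chern class are zero,
and all nonzero multiples are acyclic. -/
theorem not_sa (x : P) (hx : D.Nef x) (hs : ¬ D.SA x) :
    D.T x x x = 0 ∧ D.c x = 0 ∧ ∀ (m : ℤ) (i : Fin 4), m ≠ 0 → D.h i (m • x) = 0 := by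
  have hx0 : x ≠ 0 := fun h => hs (h ▸ D.lines.sa_zero)
  have hz : ∀ i, D.h i x = 0 := by
    intro i
    by_contra h'
    exact hs (D.of_any x hx hx0 i h')
  have hr := D.coh.rr x
  have hT := D.lines.nonneg x x x hx hx hx
  have hc := D.lines.miyaoka x hx
  rw [hz, hz, hz, hz] at hr
  push_cast at hr
  refine ⟨by linarith, by linarith, ?_⟩
  have key : ∀ (i : Fin 4) (m : ℤ), 0 < m → D.h i (m • x) = 0 := by
    intro i m hm
    by_contra h
    have h1 : m • x ≠ 0 := by
      intro h'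
      apply hs
      rw [← D.lines.sa_mul m x hm, h']
      exact D.lines.sa_zero
    exact hs ((D.lines.sa_mul m x hm).1 (D.of_any _ ((D.lines.nef_mul m x hm).2 hx) h1 i h))
  intro m i hm
  rcases lt_or_gt_of_ne hm with h1 | h1
  · have h2 := key (Fin.rev i) (-m) (by linarith)
    rw [← D.coh.serre, neg_smul, neg_neg] at h2
    exact h2
  · exact key i m h1

end CY

/-- **Section 5 for germs of type F**: a nef Cartier class `x` is semiample on the special fibre, or
all its positive multiples are acyclic there. -/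
theorem TypeF.dichotomy {P Lam : Type} [AddCommGroup P] [AddCommGroup Lam] {g : Germ P Lam} (F : TypeF g) (mu : g.Mo)
    (x : Lam) (hcar : ∀ j : ℕ, 0 < j → g.Car mu (j • x)) (hx : g.Nef mu x) :
    g.SA mu x ∨ ∀ j : ℕ, 0 < j → g.Acyclic mu (j • x) := by
  have hc1 : g.Car mu x := by
    have := hcar 1 one_pos
    rwa [one_smul] at this
  by_cases hs : (F.fib mu).SA (F.cls mu x)
  · exact Or.inl (F.sa mu x hc1 hs)
  · right
    intro j hj i
    rcases Nat.lt_or_ge i 4 with hi | hi
    · have h1 := ((F.fib mu).not_sa _ (F.nef mu x hc1 hx) hs).2.2 (j : ℤ) ⟨i, hi⟩ (by omega)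
      rw [← F.cls_mul mu x j hc1 (hcar j hj)] at h1
      have h2 := F.h_eq mu (j • x) ⟨i, hi⟩ (hcar j hj)
      rw [h1] at h2
      exact h2
    · exact F.h_top mu _ i hi

end SBase

section SInterior

/-- A class which is nef on the generic fibre is nef on the fibre over the general point of all
but finitely many divisors of the base. -/
theorem Interior.finite {P : Type} [AddCommGroup P] {X : CY P} {B : Type} {NefG : P → Prop}
    {Inn : B → Prop} {NefB : B → P → Prop} (S : Interior X B NefG Inn NefB) (L : P) (hL : NefG L) :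
    {b : B | ¬ (Inn b ∧ NefB b L)}.Finite := by
  refine (S.bdry.union (S.chow (X.T S.A S.A L))).subset ?_
  intro b hb
  by_cases hI : Inn b
  · right
    have hN : ¬ NefB b L := fun h => hb ⟨hI, h⟩
    obtain ⟨E, l, hR, hl⟩ := S.wilson b L hI hL hN
    refine ⟨hI, E, l, hR, ?_⟩
    have h1 := S.pseff b L E l hI hL hR hl
    have h2 := S.pos b E l hR
    rw [X.lines.add_T, (X.lines.add_T _ _).zsmul, smul_eq_mul] at h1
    nlinarith
  · left
    exact hI

end SInterior

section SHodge

namespace HodgeTypes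

variable {h : ℕ} {B : Type} {wt : B → ℚ} (H : HodgeTypes h B wt)

/-- a prime divisor which meets the power `h - 1` of the Hodge bundle, `3 ≤ h`, has irreducible
fibres (`kind b = 0`), or `kind b = 1`, `h ≤ 20`; the double surfaces are of abelian type only if
`h ≤ 4` -/
theorem kinds (h3 : 3 ≤ h) (b : B) (hb : wt b ≠ 0) :
    H.kind b = 0 ∨ (H.kind b = 1 ∧ h ≤ 20 ∧ (5 ≤ h → ¬ H.Abel b)) := by
  have h1 := H.rank b hb
  have h2 := H.rk_le b
  have hline := H.line b
  have hk : H.kind b ≤ 3 := by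
    by_contra hcon
    rw [H.symm, H.le_three b _ _ (by omega)] at hline
    exact absurd hline (by norm_num)
  obtain ⟨k, hkd⟩ : ∃ k, k = H.kind b := ⟨_, rfl⟩
  rw [← hkd] at hk h2 hline ⊢
  interval_cases k
  · exact Or.inl rfl
  · refine Or.inr ⟨rfl, ?_, ?_⟩
    · have h4 := H.k3 b hkd.symm
      have h5 := H.symm b 1 3
      norm_num at h2
      omega
    · intro h5 ha
      have h4 := H.abel b hkd.symm ha
      have h6 := H.symm b 1 3
      norm_num at h2
      omega
  · exfalso
    norm_num at h2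
    rw [H.symm b 2 3, hline] at h2
    omega
  · exfalso
    norm_num at h2
    rw [H.symm b 2 4, H.le_three b 4 2 (by norm_num)] at h2
    omega

end HodgeTypes

end SHodge

section STerm

open Filter Topology

namespace Run

variable (R : Run)

/-- the multiplicity of the pull back of `N_j` -/
def m (j : ℕ) (E : R.A) : ℝ := R.ordL j E - ∑ i, R.s i * R.ordV j E i

theorem anti_m (E : R.A) : Antitone fun j => R.m j E :=
  antitone_nat_of_succ_le fun j => R.drop j E

/-- if the sums of the drops, weighted by `1 - d_K / d_i`, are bounded then the sums are -/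
theorem limit_bound (e : ℕ → ℝ) (he : ∀ i, 0 ≤ e i) (a b : ℝ)
    (h : ∀ K, ∑ i ∈ Finset.range K, (1 - R.d K / R.d i) * e i ≤ a + R.d K * b) (j : ℕ) :
    ∑ i ∈ Finset.range j, e i ≤ a := by
  have h5 : ∀ K, j ≤ K → ∑ i ∈ Finset.range j, (1 - R.d K / R.d i) * e i ≤ a + R.d K * b := by
    intro K hK
    refine le_trans (Finset.sum_le_sum_of_subset_of_nonneg (Finset.range_mono hK) ?_) (h K)
    intro i hi _
    have hjK : i < K := Finset.mem_range.1 hi
    have : R.d K / R.d i ≤ 1 := by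
      rw [div_le_one (R.pos i)]
      exact R.anti hjK.le
    exact mul_nonneg (by linarith) (he i)
  have h6 : Tendsto (fun K => ∑ i ∈ Finset.range j, (1 - R.d K / R.d i) * e i) atTop
      (𝓝 (∑ i ∈ Finset.range j, (1 - 0 / R.d i) * e i)) := by
    refine tendsto_finsetSum _ fun i _ => ?_
    exact ((tendsto_const_nhds.sub (R.lim.div_const _)).mul_const _)
  have h7 : Tendsto (fun K => a + R.d K * b) atTop (𝓝 (a + 0 * b)) :=
    tendsto_const_nhds.add (R.lim.mul_const _)
  have h8 := le_of_tendsto_of_tendsto h6 h7 (eventually_atTop.2 ⟨j, fun K hK => h5 K hK⟩)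
  simpa using h8

/-- the coefficient of `N_0 + d_j H_0` minus the pull back of `N_j + d_j H_j` -/
theorem coeff (E : R.A) (j K : ℕ) :
    (R.m 0 E + R.d K * R.ordH 0 E) - (R.m j E + R.d K * R.ordH j E) =
      ∑ i ∈ Finset.range j, (1 - R.d K / R.d i) * (R.m i E - R.m (i + 1) E) := by
  induction j with
  | zero => simp
  | succ j ih =>
    rw [Finset.sum_range_succ, ← ih]
    have h1 := R.triv j E
    have hp := (R.pos j).ne'
    have h2 : R.ordH (j + 1) E = R.ordH j E + (R.m j E - R.m (j + 1) E) / R.d j := by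
      field_simp
      unfold m
      linarith
    rw [h2]
    field_simp
    ring

theorem total (E : R.A) (j : ℕ) :
    ∑ i ∈ Finset.range j, (R.m i E - R.m (i + 1) E) = R.m 0 E - R.m j E := by
  induction j with
  | zero => simp
  | succ j ih => rw [Finset.sum_range_succ, ih]; ring

/-- the loss of one prime divisor is bounded -/
theorem bdd (E : R.A) : ∃ c : ℝ, ∀ j, R.m 0 E - R.m j E ≤ c := by
  obtain ⟨c, hc⟩ := R.zariski E
  refine ⟨c, fun j => ?_⟩
  rw [← total]
  refine R.limit_bound (fun i => R.m i E - R.m (i + 1) E)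
    (fun i => sub_nonneg.2 (R.anti_m E (Nat.le_succ i))) c 0 (fun K => ?_) j
  rw [← R.coeff E K K]
  have := hc K
  unfold m
  linarith

/-- the total loss of the surfaces of `YY_0` is bounded -/
theorem bdd_sum (i : R.I) (S : Finset R.A) (hS : ∀ E ∈ S, R.Surf 0 E ∧ R.On E i) (j : ℕ) :
    ∑ E ∈ S, (R.m 0 E - R.m j E) ≤ R.n i := by
  have h1 : ∑ E ∈ S, (R.m 0 E - R.m j E) =
      ∑ l ∈ Finset.range j, ∑ E ∈ S, (R.m l E - R.m (l + 1) E) := by
    rw [Finset.sum_comm]
    exact Finset.sum_congr rfl fun E _ => (R.total E j).symm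
  rw [h1]
  refine R.limit_bound (fun l => ∑ E ∈ S, (R.m l E - R.m (l + 1) E)) (fun l =>
    Finset.sum_nonneg fun E _ => sub_nonneg.2 (R.anti_m E (Nat.le_succ l))) (R.n i) (R.h i)
    (fun K => ?_) j
  have h2 : ∑ l ∈ Finset.range K, (1 - R.d K / R.d l) * ∑ E ∈ S, (R.m l E - R.m (l + 1) E) =
      ∑ E ∈ S, ((R.m 0 E + R.d K * R.ordH 0 E) - (R.m K E + R.d K * R.ordH K E)) := by
    rw [Finset.sum_congr rfl fun E _ => R.coeff E K K, Finset.sum_comm]
    exact Finset.sum_congr rfl fun l _ => Finset.mul_sum _ _ _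
  rw [h2]
  exact R.bound i K S hS

/-- the positive values of `z - Σ s_i v_i`, `|v_i| ≤ 2`, are bounded below by a positive number -/
theorem exists_gap : ∃ c : ℝ, 0 < c ∧ ∀ (z : ℤ) (v : R.I → ℤ), (∀ i, |v i| ≤ 2) →
    0 < (z : ℝ) - ∑ i, R.s i * v i → c ≤ (z : ℝ) - ∑ i, R.s i * v i := by
  classical
  have hfin : {f : R.I → ℤ | ∀ i, f i ∈ Set.Icc (-2 : ℤ) 2}.Finite :=
    Set.Finite.pi' fun _ => Set.finite_Icc _ _
  have h1 : ∀ r : ℝ, ∃ c : ℝ, 0 < c ∧ ∀ z : ℤ, 0 < (z : ℝ) - r → c ≤ (z : ℝ) - r := by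
    intro r
    refine ⟨(⌊r⌋ + 1 : ℤ) - r, ?_, fun z hz => ?_⟩
    · push_cast
      linarith [Int.lt_floor_add_one r]
    · have h2 : ⌊r⌋ < z := Int.floor_lt.2 (by linarith)
      have h3 : ⌊r⌋ + 1 ≤ z := h2
      have h4 : ((⌊r⌋ + 1 : ℤ) : ℝ) ≤ z := by exact_mod_cast h3
      linarith
  choose c hc0 hc using h1
  let T : Finset (R.I → ℤ) := hfin.toFinset
  have hT : T.Nonempty := ⟨0, hfin.mem_toFinset.2 fun i => by simp⟩
  refine ⟨T.inf' hT fun v => c (∑ i, R.s i * v i), ?_, ?_⟩
  · rw [Finset.lt_inf'_iff]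
    exact fun v _ => hc0 _
  · intro z v hv hpos
    have hvT : v ∈ T := hfin.mem_toFinset.2 fun i => abs_le.1 (hv i)
    exact (Finset.inf'_le _ hvT).trans (hc _ z hpos)

/-- between two times when the centre is a surface the loss is zero or at least `c` -/
theorem gap {c : ℝ} (hc : ∀ (z : ℤ) (v : R.I → ℤ), (∀ i, |v i| ≤ 2) →
    0 < (z : ℝ) - ∑ i, R.s i * v i → c ≤ (z : ℝ) - ∑ i, R.s i * v i) {i j : ℕ} {E : R.A}
    (hi : R.Surf i E) (hj : R.Surf j E) (h : R.m j E < R.m i E) : c ≤ R.m i E - R.m j E := by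
  obtain ⟨a, ha⟩ := R.intL i E hi
  obtain ⟨b, hb⟩ := R.intL j E hj
  have hv := fun k => R.intV i E k hi
  have hw := fun k => R.intV j E k hj
  choose v hv using hv
  choose w hw using hw
  have h1 : R.m i E - R.m j E = ((a - b : ℤ) : ℝ) - ∑ k, R.s k * ((v k - w k : ℤ) : ℝ) := by
    unfold m
    rw [ha, hb]
    have : ∑ k, R.s k * ((v k - w k : ℤ) : ℝ) =
        ∑ k, R.s k * R.ordV i E k - ∑ k, R.s k * R.ordV j E k := by
      rw [← Finset.sum_sub_distrib]
      refine Finset.sum_congr rfl fun k _ => ?_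
      rw [(hv k).1, (hw k).1]
      push_cast
      ring
    rw [this]
    push_cast
    ring
  rw [h1]
  refine hc _ (fun k => v k - w k) (fun k => ?_) ?_
  · have := (hv k).2
    have := (hw k).2
    rw [abs_le]
    constructor <;> omega
  · change 0 < ((a - b : ℤ) : ℝ) - ∑ k, R.s k * ((v k - w k : ℤ) : ℝ)
    rw [← h1]
    linarith

/-- the prime divisors which lose at least `c` are finitely many -/
theorem finite_losing {c : ℝ} (hc : 0 < c) :
    {E | ¬ R.Surf 0 E ∨ ∃ j, c ≤ R.m 0 E - R.m j E}.Finite := by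
  have h1 : ∀ i, {E | R.Surf 0 E ∧ R.On E i ∧ ∃ j, c ≤ R.m 0 E - R.m j E}.Finite := by
    intro i
    by_contra hinf
    obtain ⟨N, hN⟩ := exists_nat_gt (R.n i / c)
    obtain ⟨S, hS, hcard⟩ := (show Set.Infinite _ from hinf).exists_subset_card_eq N
    have hS' : ∀ E ∈ S, ∃ j, c ≤ R.m 0 E - R.m j E := fun E hE => (hS hE).2.2
    choose! k hk using hS'
    have h2 : (N : ℝ) * c ≤ ∑ E ∈ S, (R.m 0 E - R.m (S.sup k) E) := by
      rw [← hcard, ← nsmul_eq_mul]
      refine Finset.card_nsmul_le_sum _ _ _ fun E hE => ?_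
      have h3 : R.m (S.sup k) E ≤ R.m (k E) E := R.anti_m E (Finset.le_sup hE)
      linarith [hk E hE]
    have h3 := R.bdd_sum i S (fun E hE => ⟨(hS hE).1, (hS hE).2.1⟩) (S.sup k)
    rw [div_lt_iff₀ hc] at hN
    linarith
  refine (R.off.union (Set.finite_iUnion h1)).subset ?_
  rintro E (h | h)
  · exact Or.inl h
  · by_cases h0 : R.Surf 0 E
    · obtain ⟨i, hi⟩ := R.on E
      exact Or.inr (Set.mem_iUnion.2 ⟨i, h0, hi, h⟩)
    · exact Or.inl h0

/-- TERMINATION: there is no infinite sequence of steps. -/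
theorem false (R : Run) : False := by
  classical
  obtain ⟨c, hc0, hc⟩ := R.exists_gap
  -- each prime divisor: after finitely many steps its centre is not a surface after a step which
  -- involves it
  have h1 : ∀ E, ∃ J, ∀ j, J ≤ j → R.Inv j E → ∀ i, j < i → ¬ R.Surf i E := by
    intro E
    by_contra hcon
    push Not at hcon
    have h2 : ∀ k : ℕ, ∃ t, R.Surf t E ∧ (k : ℝ) * c ≤ R.m 0 E - R.m t E := by
      intro k
      induction k with
      | zero =>
        obtain ⟨j, -, -, i, -, hi⟩ := hcon 0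
        refine ⟨i, hi, ?_⟩
        have := R.anti_m E (Nat.zero_le i)
        simp only at this
        push_cast
        linarith
      | succ k ih =>
        obtain ⟨t, ht, hk⟩ := ih
        obtain ⟨j, hj, hinv, i, hji, hi⟩ := hcon t
        have h3 : R.m i E < R.m t E := by
          have h4 := R.anti_m E hj
          have h5 := R.anti_m E (show j + 1 ≤ i from hji)
          have h6 := R.drop_lt j E hinv
          simp only at h4 h5
          have h7 : R.m (j + 1) E < R.m j E := h6
          linarith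
        have h4 := R.gap hc ht hi h3
        refine ⟨i, hi, ?_⟩
        push_cast
        linarith
    obtain ⟨b, hb⟩ := R.bdd E
    obtain ⟨k, hk⟩ := exists_nat_gt (b / c)
    obtain ⟨t, -, ht⟩ := h2 k
    rw [div_lt_iff₀ hc0] at hk
    linarith [hb t]
  choose J hJ using h1
  -- a common bound
  have h2 : ∃ K, ∀ E, ∀ j, K ≤ j → R.Inv j E → ¬ R.Surf (j + 1) E := by
    let T := (R.finite_losing hc0).toFinset
    refine ⟨T.sup J, fun E j hj hinv hs => ?_⟩
    by_cases hE : E ∈ T
    · exact hJ E j ((Finset.le_sup hE).trans hj) hinv (j + 1) (Nat.lt_succ_self j) hs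
    · have hE' : ¬ (¬ R.Surf 0 E ∨ ∃ j, c ≤ R.m 0 E - R.m j E) := fun h =>
        hE ((R.finite_losing hc0).mem_toFinset.2 h)
      rw [not_or, not_not, not_exists] at hE'
      obtain ⟨h0, hlose⟩ := hE'
      have hex : ∃ j, R.Inv j E := ⟨j, hinv⟩
      have hle : Nat.find hex ≤ j := Nat.find_min' hex hinv
      have hsurf : ∀ i, i ≤ Nat.find hex → R.Surf i E := by
        intro i
        induction i with
        | zero => exact fun _ => h0
        | succ i ih => exact fun h => R.keep i E (Nat.find_min hex h) (ih (Nat.le_of_succ_le h))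
      have h3 := R.anti_m E (show Nat.find hex + 1 ≤ j + 1 by omega)
      have h4 : R.m (Nat.find hex + 1) E < R.m (Nat.find hex) E :=
        R.drop_lt _ E (Nat.find_spec hex)
      simp only at h3
      have h5 := R.gap hc (hsurf _ le_rfl) hs (lt_of_le_of_lt h3 h4)
      have h6 := R.anti_m E (Nat.zero_le (Nat.find hex))
      simp only at h6
      exact hlose (j + 1) (by linarith)
  obtain ⟨K, hK⟩ := h2
  have h3 : ∀ k, R.rk (K + k) + k ≤ R.rk K := by
    intro k
    induction k with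
    | zero => simp
    | succ k ih =>
      have := R.kmm (K + k) fun E hE => hK E (K + k) (Nat.le_add_right K k) hE
      have h4 : K + (k + 1) = K + k + 1 := rfl
      rw [h4]
      omega
  have := h3 (R.rk K + 1)
  omega

end Run

end STerm

section SRat

open scoped BigOperators

/-- The identity of finitely many real numbers is approximated by a `ℚ`-linear map `ℝ → ℚ` which
fixes `1`. -/
theorem exists_approx (S : Finset ℝ) (ε : ℝ) (hε : 0 < ε) :
    ∃ φ : ℝ →ₗ[ℚ] ℚ, φ 1 = 1 ∧ ∀ x ∈ S, |(φ x : ℝ) - x| < ε := by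
  classical
  have hli : LinearIndepOn ℚ id ({1} : Set ℝ) := by
    rw [linearIndepOn_singleton_iff]
    exact one_ne_zero
  let b := Module.Basis.extend hli
  have h1 : (1 : ℝ) ∈ hli.extend (Set.subset_univ _) :=
    hli.subset_extend _ (Set.mem_singleton 1)
  let i1 : ↥(hli.extend (Set.subset_univ _)) := ⟨1, h1⟩
  have hb : ∀ i, b i = (i : ℝ) := fun i => Module.Basis.extend_apply_self hli i
  -- a bound for the coordinates
  obtain ⟨K, hK0, hK⟩ : ∃ K : ℝ, 0 < K ∧ ∀ x ∈ S,
      ∑ i ∈ (b.repr x).support, |((b.repr x i : ℚ) : ℝ)| ≤ K := by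
    refine ⟨1 + ∑ x ∈ S, ∑ i ∈ (b.repr x).support, |((b.repr x i : ℚ) : ℝ)|, ?_, ?_⟩
    · have : 0 ≤ ∑ x ∈ S, ∑ i ∈ (b.repr x).support, |((b.repr x i : ℚ) : ℝ)| :=
        Finset.sum_nonneg fun x _ => Finset.sum_nonneg fun i _ => abs_nonneg _
      linarith
    · intro x hx
      have := Finset.single_le_sum (f := fun x => ∑ i ∈ (b.repr x).support,
        |((b.repr x i : ℚ) : ℝ)|) (fun y _ => Finset.sum_nonneg fun i _ => abs_nonneg _) hx
      linarith
  have happ : ∀ i : ↥(hli.extend (Set.subset_univ _)), ∃ q : ℚ, |(q : ℝ) - (i : ℝ)| < ε / (2 * K) ∧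
      (i = i1 → q = 1) := by
    intro i
    by_cases hi : i = i1
    · refine ⟨1, ?_, fun _ => rfl⟩
      rw [hi]
      simp only [i1, Rat.cast_one, sub_self, abs_zero]
      positivity
    · obtain ⟨q, hq1, hq2⟩ := exists_rat_btwn (show (i : ℝ) - ε / (2 * K) < (i : ℝ) by
        have : 0 < ε / (2 * K) := by positivity
        linarith)
      refine ⟨q, ?_, fun h => absurd h hi⟩
      rw [abs_lt]
      constructor <;> linarith
  choose q hq hq1 using happ
  let φ : ℝ →ₗ[ℚ] ℚ := b.constr ℚ q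
  have hφ : ∀ i : ↥(hli.extend (Set.subset_univ _)), φ (i : ℝ) = q i := by
    intro i
    rw [← hb i]
    exact b.constr_basis ℚ q i
  refine ⟨φ, ?_, ?_⟩
  · have := hφ i1
    rw [hq1 i1 rfl] at this
    exact this
  · intro x hx
    have hx1 : x = ∑ i ∈ (b.repr x).support, ((b.repr x i : ℚ) : ℝ) * (i : ℝ) := by
      conv_lhs => rw [← b.linearCombination_repr x, Finsupp.linearCombination_apply, Finsupp.sum]
      refine Finset.sum_congr rfl fun i _ => ?_
      rw [hb, Rat.smul_def]
    have hx2 : (φ x : ℝ) = ∑ i ∈ (b.repr x).support, ((b.repr x i : ℚ) : ℝ) * (q i : ℝ) := by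
      have : φ x = ∑ i ∈ (b.repr x).support, b.repr x i * q i := by
        conv_lhs => rw [← b.linearCombination_repr x, Finsupp.linearCombination_apply,
          Finsupp.sum, map_sum]
        refine Finset.sum_congr rfl fun i _ => ?_
        rw [map_smul, hb, hφ, smul_eq_mul]
      rw [this]
      push_cast
      rfl
    have hx3 : (φ x : ℝ) - x = ∑ i ∈ (b.repr x).support,
        ((b.repr x i : ℚ) : ℝ) * ((q i : ℝ) - (i : ℝ)) := by
      have hx4 : (φ x : ℝ) - x = (∑ i ∈ (b.repr x).support, ((b.repr x i : ℚ) : ℝ) * (q i : ℝ)) -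
          ∑ i ∈ (b.repr x).support, ((b.repr x i : ℚ) : ℝ) * (i : ℝ) := by
        rw [← hx1, hx2]
      rw [hx4, ← Finset.sum_sub_distrib]
      exact Finset.sum_congr rfl fun i _ => by ring
    rw [hx3]
    refine lt_of_le_of_lt (Finset.abs_sum_le_sum_abs _ _) ?_
    have h4 : ∑ i ∈ (b.repr x).support, |((b.repr x i : ℚ) : ℝ) * ((q i : ℝ) - (i : ℝ))| ≤
        ∑ i ∈ (b.repr x).support, |((b.repr x i : ℚ) : ℝ)| * (ε / (2 * K)) := by
      refine Finset.sum_le_sum fun i _ => ?_
      rw [abs_mul]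
      exact mul_le_mul_of_nonneg_left (hq i).le (abs_nonneg _)
    rw [← Finset.sum_mul] at h4
    have h5 := hK x hx
    have h6 : (∑ i ∈ (b.repr x).support, |((b.repr x i : ℚ) : ℝ)|) * (ε / (2 * K)) ≤
        K * (ε / (2 * K)) := mul_le_mul_of_nonneg_right h5 (by positivity)
    have h7 : K * (ε / (2 * K)) = ε / 2 := by field_simp
    linarith

/-- A finite system of linear inequalities with rational coefficients which has a real solution has
a rational solution. -/
theorem exists_rat_of_finite {ι J : Type} [Fintype ι] [Finite J] (a : J → ι → ℚ) (b : J → ℚ)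
    (s : ι → ℝ) (hs : ∀ j, ∑ i, (a j i : ℝ) * s i ≤ (b j : ℝ)) :
    ∃ q : ι → ℚ, ∀ j, ∑ i, a j i * q i ≤ b j := by
  classical
  have := Fintype.ofFinite J
  -- the smallest gap
  obtain ⟨g, hg0, hg⟩ : ∃ g : ℝ, 0 < g ∧ ∀ j, ∑ i, (a j i : ℝ) * s i < b j →
      g ≤ b j - ∑ i, (a j i : ℝ) * s i := by
    refine ⟨(insert 1 ((Finset.univ.filter fun j => ∑ i, (a j i : ℝ) * s i < b j).image
      fun j => (b j : ℝ) - ∑ i, (a j i : ℝ) * s i)).min' ⟨1, Finset.mem_insert_self _ _⟩, ?_, ?_⟩
    · rw [Finset.lt_min'_iff]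
      intro y hy
      rcases Finset.mem_insert.1 hy with rfl | hy
      · exact one_pos
      · obtain ⟨j, hj, rfl⟩ := Finset.mem_image.1 hy
        exact sub_pos.2 (Finset.mem_filter.1 hj).2
    · intro j hj
      refine Finset.min'_le _ _ (Finset.mem_insert_of_mem (Finset.mem_image.2 ⟨j, ?_, rfl⟩))
      exact Finset.mem_filter.2 ⟨Finset.mem_univ _, hj⟩
  let S : Finset ℝ := Finset.univ.image fun j => ∑ i, (a j i : ℝ) * s i
  obtain ⟨φ, hφ1, hφ⟩ := exists_approx S g hg0
  have hφq : ∀ c : ℚ, φ (c : ℝ) = c := by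
    intro c
    have : (c : ℝ) = c • (1 : ℝ) := by rw [Rat.smul_def, mul_one]
    rw [this, map_smul, hφ1, smul_eq_mul, mul_one]
  refine ⟨fun i => φ (s i), fun j => ?_⟩
  have h1 : ∑ i, a j i * φ (s i) = φ (∑ i, (a j i : ℝ) * s i) := by
    rw [map_sum]
    refine Finset.sum_congr rfl fun i _ => ?_
    rw [← Rat.smul_def, map_smul, smul_eq_mul]
  rw [h1]
  rcases eq_or_lt_of_le (hs j) with h2 | h2
  · rw [h2, hφq]
  · have h3 := hg j h2
    have h4 := hφ _ (Finset.mem_image.2 ⟨j, Finset.mem_univ _, rfl⟩)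
    have h5 := (abs_lt.1 h4).2
    have h6 : ((φ (∑ i, (a j i : ℝ) * s i) : ℚ) : ℝ) ≤ b j := by linarith
    exact_mod_cast h6

/-- **Rationality of the vertical coefficients.** Let `Φ` be a set of inequalities
`∑ v F i * s i ≤ l F` such that the vectors `v F` form a finite set of rational vectors and the
numbers `l F` have a common denominator. If there is a real solution then there is a rational
solution. -/
theorem exists_rat {ι Φ : Type} [Fintype ι] (v : Φ → ι → ℚ) (l : Φ → ℚ)
    (hv : (Set.range v).Finite) (m : ℕ) (hm : 0 < m) (hl : ∀ F, ∃ z : ℤ, (m : ℚ) * l F = z)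
    (s : ι → ℝ) (hs : ∀ F, ∑ i, (v F i : ℝ) * s i ≤ (l F : ℝ)) :
    ∃ q : ι → ℚ, ∀ F, ∑ i, v F i * q i ≤ l F := by
  classical
  -- for each vector the smallest constant
  have hmin : ∀ w : Set.range v, ∃ F : Φ, v F = w ∧ ∀ F', v F' = w → l F ≤ l F' := by
    rintro ⟨w, F0, hF0⟩
    choose z hz using hl
    -- the integers `z F` with `v F = w` are bounded below
    have hm' : (0 : ℝ) < m := by exact_mod_cast hm
    have hbd : ∀ F, v F = w → ⌊(m : ℝ) * ∑ i, (w i : ℝ) * s i⌋ ≤ z F := by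
      intro F hF
      have h1 := hs F
      rw [hF] at h1
      have h2 : (m : ℝ) * l F = z F := by exact_mod_cast hz F
      have h3 : (m : ℝ) * ∑ i, (w i : ℝ) * s i ≤ z F := by
        rw [← h2]
        exact mul_le_mul_of_nonneg_left h1 hm'.le
      have h4 := Int.floor_le ((m : ℝ) * ∑ i, (w i : ℝ) * s i)
      have h5 : ((⌊(m : ℝ) * ∑ i, (w i : ℝ) * s i⌋ : ℤ) : ℝ) ≤ (z F : ℝ) := le_trans h4 h3
      exact_mod_cast h5
    obtain ⟨y, ⟨F, hF, rfl⟩, hy⟩ := Int.exists_least_of_bdd
      (P := fun y => ∃ F, v F = w ∧ z F = y)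
      ⟨⌊(m : ℝ) * ∑ i, (w i : ℝ) * s i⌋, by rintro y ⟨F, hF, rfl⟩; exact hbd F hF⟩
      ⟨z F0, F0, hF0, rfl⟩
    refine ⟨F, hF, fun F' hF' => ?_⟩
    have h6 := hy (z F') ⟨F', hF', rfl⟩
    have h7 : (m : ℚ) * l F ≤ (m : ℚ) * l F' := by
      rw [hz, hz]
      exact_mod_cast h6
    have hm'' : (0 : ℚ) < m := by exact_mod_cast hm
    exact le_of_mul_le_mul_left h7 hm''
  choose F hF hFmin using hmin
  have : Finite (Set.range v) := hv.to_subtype
  obtain ⟨q, hq⟩ := exists_rat_of_finite (fun w : Set.range v => (w : ι → ℚ))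
    (fun w => l (F w)) s (fun w => by
      have := hs (F w)
      rw [hF w] at this
      exact this)
  exact ⟨q, fun G => (hq ⟨v G, G, rfl⟩).trans (hFmin ⟨v G, G, rfl⟩ G rfl)⟩

end SRat

section SNefModel

open Filter Topology

namespace NefGerm

variable {P Lam : Type} [AddCommGroup P] [AddCommGroup Lam] {g : Germ P Lam} {NefG : P → Prop}
  {N : Type} [NormedAddCommGroup N] [NormedSpace ℝ N] (S : NefGerm g NefG N)

/-- the vertical coefficients for which the class is movable after adding `d H` -/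
def K (x : Lam) (d : ℝ) : Set (Fin S.n → ℝ) := {s | S.tw x s d ∈ S.Mov}

theorem continuous_tw (x : Lam) (d : ℝ) : Continuous fun s => S.tw x s d := by
  simp only [S.tw_eq]
  fun_prop

theorem isClosed_K (x : Lam) (d : ℝ) : IsClosed (S.K x d) :=
  S.closed.preimage (S.continuous_tw x d)

theorem K_anti (x : Lam) {d e : ℝ} (h : d ≤ e) : S.K x d ⊆ S.K x e := by
  intro s hs
  have h1 := S.add_mem _ _ hs (S.smul_mem (e - d) S.H (sub_nonneg.2 h) S.H_mem)
  have h2 : S.tw x s d + (e - d) • S.H = S.tw x s e := by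
    simp only [S.tw_eq]
    rw [add_assoc, ← add_smul]
    congr 2
    ring
  rw [h2] at h1
  exact h1

/-- the vertical coefficients are bounded -/
theorem isBounded_K (x : Lam) (d : ℝ) : Bornology.IsBounded (S.K x d) := by
  by_contra hb
  -- a sequence of elements of norm at least `n + 1`
  have h1 : ∀ n : ℕ, ∃ s ∈ S.K x d, (n : ℝ) + 1 ≤ ‖s‖ := by
    intro n
    by_contra hcon
    push Not at hcon
    exact hb (isBounded_iff_forall_norm_le.2 ⟨(n : ℝ) + 1, fun s hs => (hcon s hs).le⟩)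
  choose s hs hn using h1
  have hpos : ∀ n, 0 < ‖s n‖ := fun n => lt_of_lt_of_le (by positivity) (hn n)
  -- the directions
  let u : ℕ → Fin S.n → ℝ := fun n => (‖s n‖)⁻¹ • s n
  have hu : ∀ n, u n ∈ Metric.sphere (0 : Fin S.n → ℝ) 1 := by
    intro n
    rw [mem_sphere_zero_iff_norm]
    simp only [u, norm_smul, norm_inv, norm_norm]
    exact inv_mul_cancel₀ (hpos n).ne'
  obtain ⟨v, hv, φ, hφ, hlim⟩ := (isCompact_sphere (0 : Fin S.n → ℝ) 1).tendsto_subseq hu
  have hinv : Tendsto (fun n => (‖s (φ n)‖)⁻¹) atTop (𝓝 0) := by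
    refine Tendsto.inv_tendsto_atTop (tendsto_atTop_mono (fun n => ?_)
      (tendsto_natCast_atTop_atTop (R := ℝ)))
    have h2 := hn (φ n)
    have h3 : (n : ℝ) ≤ φ n := by exact_mod_cast hφ.id_le n
    linarith
  have hmem : ∀ n, (‖s (φ n)‖)⁻¹ • S.cl x - ∑ i, u (φ n) i • S.cl (S.V i) +
      ((‖s (φ n)‖)⁻¹ * d) • S.H ∈ S.Mov := by
    intro n
    have h2 := S.smul_mem (‖s (φ n)‖)⁻¹ _ (inv_nonneg.2 (norm_nonneg _)) (hs (φ n))
    have h3 : (‖s (φ n)‖)⁻¹ • S.tw x (s (φ n)) d =
        (‖s (φ n)‖)⁻¹ • S.cl x - ∑ i, u (φ n) i • S.cl (S.V i) +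
          ((‖s (φ n)‖)⁻¹ * d) • S.H := by
      simp only [S.tw_eq, u, smul_add, smul_sub, Finset.smul_sum, smul_smul, Pi.smul_apply,
        smul_eq_mul]
    rw [h3] at h2
    exact h2
  have hl1 : Tendsto (fun n => (‖s (φ n)‖)⁻¹ • S.cl x - ∑ i, u (φ n) i • S.cl (S.V i) +
      ((‖s (φ n)‖)⁻¹ * d) • S.H) atTop
      (𝓝 ((0 : ℝ) • S.cl x - ∑ i, v i • S.cl (S.V i) + ((0 : ℝ) * d) • S.H)) := by
    refine Tendsto.add (Tendsto.sub (hinv.smul_const _) (tendsto_finsetSum _ fun i _ => ?_))
      ((hinv.mul_const d).smul_const _)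
    exact ((tendsto_pi_nhds.1 hlim) i).smul_const _
  have h4 := S.closed.mem_of_tendsto hl1 (Eventually.of_forall hmem)
  have h5 := S.neg v (by
    simp only [S.tw_eq]
    rw [zero_smul, zero_mul] at h4
    rw [map_zero]
    exact h4)
  have h6 : v = 0 := funext h5
  rw [h6, mem_sphere_zero_iff_norm, norm_zero] at hv
  exact zero_ne_one hv

theorem isCompact_K (x : Lam) (d : ℝ) : IsCompact (S.K x d) :=
  Metric.isCompact_of_isClosed_isBounded (S.isClosed_K x d) (S.isBounded_K x d)

/-- there are real vertical coefficients which are good for all `d > 0` -/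
theorem exists_real (x : Lam) (hx : NefG (g.rho x)) : ∃ s, ∀ d : ℝ, 0 < d → s ∈ S.K x d := by
  have h1 : (⋂ n : ℕ, S.K x (1 / ((n : ℝ) + 1))).Nonempty := by
    refine IsCompact.nonempty_iInter_of_sequence_nonempty_isCompact_isClosed _ ?_ ?_ ?_ ?_
    · intro n
      refine S.K_anti x ?_
      push_cast
      exact one_div_le_one_div_of_le (by positivity) (by linarith)
    · intro n
      obtain ⟨s, hs⟩ := S.gen x hx (n + 1) (Nat.succ_pos n)
      refine ⟨s, ?_⟩
      change S.tw x s (1 / ((n : ℝ) + 1)) ∈ S.Mov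
      push_cast at hs
      exact hs
    · exact S.isCompact_K x _
    · exact fun n => S.isClosed_K x _
  obtain ⟨s, hs⟩ := h1
  refine ⟨s, fun d hd => ?_⟩
  obtain ⟨n, hn⟩ := exists_nat_one_div_lt hd
  exact S.K_anti x hn.le (Set.mem_iInter.1 hs n)

/-- the intersection number as a linear form -/
noncomputable def lin (mu : g.Mo) (C : S.Ray mu) : N →ₗ[ℝ] ℝ where
  toFun := S.deg mu C
  map_add' := S.deg_add mu C
  map_smul' := S.deg_smul mu C

theorem deg_tw (mu : g.Mo) (C : S.Ray mu) (x : Lam) (s : Fin S.n → ℝ) :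
    S.deg mu C (S.tw x s 0) =
      S.deg mu C (S.cl x) - ∑ i, s i * S.deg mu C (S.cl (S.V i)) := by
  change S.lin mu C (S.tw x s 0) = S.lin mu C (S.cl x) - ∑ i, s i * S.lin mu C (S.cl (S.V i))
  simp only [S.tw_eq, map_add, map_sub, map_sum, map_smul, smul_eq_mul, zero_mul, add_zero]

/-- RATIONALITY: on the model on which `x - Σ s_i V_i` is nef there are rational coefficients. -/
theorem exists_rational (x : Lam) (mu : g.Mo) (s : Fin S.n → ℝ) (hs : S.NefR mu (S.tw x s 0)) :
    ∃ q : Fin S.n → ℚ, S.NefR mu (S.tw x (fun i => (q i : ℝ)) 0) := by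
  classical
  choose z hz using S.int mu
  have hm : (0 : ℝ) < S.ind mu := by exact_mod_cast S.ind_pos mu
  have hdeg : ∀ C y, S.deg mu C (S.cl y) = (((z C y : ℚ) / S.ind mu : ℚ) : ℝ) := by
    intro C y
    push_cast
    rw [eq_div_iff hm.ne', mul_comm]
    exact hz C y
  -- the real solution
  have h1 : ∀ C, ∑ i, ((((z C (S.V i) : ℚ) / S.ind mu : ℚ)) : ℝ) * s i ≤
      (((z C x : ℚ) / S.ind mu : ℚ) : ℝ) := by
    intro C
    have h3 := S.deg_nef mu C _ hs
    rw [deg_tw] at h3
    have h6 : ∑ i, ((((z C (S.V i) : ℚ) / S.ind mu : ℚ)) : ℝ) * s i =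
        ∑ i, s i * S.deg mu C (S.cl (S.V i)) := by
      refine Finset.sum_congr rfl fun i _ => ?_
      rw [hdeg, mul_comm]
    rw [h6, ← hdeg]
    linarith
  -- finitely many vectors
  have hfin : (Set.range fun (C : S.Ray mu) (i : Fin S.n) =>
      ((z C (S.V i) : ℚ) / S.ind mu : ℚ)).Finite := by
    have h2 : (Set.range fun (C : S.Ray mu) (i : Fin S.n) => ((z C (S.V i) : ℚ) / S.ind mu : ℚ)) ⊆
        {f | ∀ i, f i ∈ (fun y : ℤ => (y : ℚ) / S.ind mu) ''
          (Set.Icc (-(S.ind mu * 6 : ℤ)) (S.ind mu * 6 : ℤ))} := by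
      rintro w ⟨C, rfl⟩ i
      refine ⟨z C (S.V i), ?_, rfl⟩
      have h3 := abs_le.1 (S.bound mu C i)
      have h4 := hz C (S.V i)
      have h5 : (z C (S.V i) : ℝ) ≤ S.ind mu * 6 := by
        rw [← h4]
        exact mul_le_mul_of_nonneg_left h3.2 hm.le
      have h6 : -((S.ind mu : ℝ) * 6) ≤ z C (S.V i) := by
        rw [← h4, ← mul_neg]
        exact mul_le_mul_of_nonneg_left h3.1 hm.le
      constructor
      · have : ((-(S.ind mu * 6 : ℤ) : ℤ) : ℝ) ≤ (z C (S.V i) : ℝ) := by
          push_cast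
          exact h6
        exact_mod_cast this
      · have : (z C (S.V i) : ℝ) ≤ ((S.ind mu * 6 : ℤ) : ℝ) := by
          push_cast
          exact h5
        exact_mod_cast this
    exact (Set.Finite.pi' fun _ => (Set.finite_Icc _ _).image _).subset h2
  obtain ⟨q, hq⟩ := exists_rat
    (fun (C : S.Ray mu) (i : Fin S.n) => ((z C (S.V i) : ℚ) / S.ind mu : ℚ))
    (fun C => (z C x : ℚ) / S.ind mu) hfin (S.ind mu) (S.ind_pos mu)
    (fun C => ⟨z C x, by
      have : (S.ind mu : ℚ) ≠ 0 := by exact_mod_cast (S.ind_pos mu).ne'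
      field_simp⟩) s h1
  refine ⟨q, S.cone mu x s _ hs fun C => ?_⟩
  have h7 : ∑ i, (q i : ℝ) * S.deg mu C (S.cl (S.V i)) ≤ S.deg mu C (S.cl x) := by
    have h8 : ((∑ i, ((z C (S.V i) : ℚ) / S.ind mu : ℚ) * q i : ℚ) : ℝ) ≤
        (((z C x : ℚ) / S.ind mu : ℚ) : ℝ) := by exact_mod_cast hq C
    rw [hdeg C x]
    refine le_trans (le_of_eq ?_) h8
    rw [Rat.cast_sum]
    refine Finset.sum_congr rfl fun i _ => ?_
    rw [hdeg, Rat.cast_mul, mul_comm]
  rw [deg_tw]
  linarith

/-- finitely many rational numbers have a common denominator -/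
theorem exists_den {ι : Type} [Fintype ι] (q : ι → ℚ) :
    ∃ k : ℕ, 0 < k ∧ ∀ i, ∃ z : ℤ, (k : ℚ) * q i = z := by
  classical
  refine ⟨∏ i, (q i).den, Finset.prod_pos fun i _ => (q i).den_pos, fun i => ?_⟩
  obtain ⟨c, hc⟩ := Finset.dvd_prod_of_mem (fun i => (q i).den) (Finset.mem_univ i)
  refine ⟨c * (q i).num, ?_⟩
  rw [hc]
  push_cast
  have h1 : ((q i).den : ℚ) * q i = (q i).num := by
    rw [mul_comm]
    exact Rat.mul_den_eq_num (q i)
  calc ((q i).den : ℚ) * c * q i = c * (((q i).den : ℚ) * q i) := by ring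
    _ = c * (q i).num := by rw [h1]

include S in

/-- **Nef extension.** A positive multiple of a nef class `L` of the generic fibre extends to a
Cartier class of some model which is nef over the base. -/
theorem nef (L : P) (hL : NefG L) (y : Lam) (hy : g.rho y = L)
    (hq : ∀ mu x, ∃ k : ℕ, 0 < k ∧ ∀ j : ℕ, g.Car mu (j • k • x)) :
    ∃ (mu : g.Mo) (k : ℕ) (x : Lam), 0 < k ∧ g.rho x = k • L ∧ g.Nef mu x ∧
      ∀ j : ℕ, 0 < j → g.Car mu (j • x) := by
  obtain ⟨s, hs⟩ := S.exists_real y (by rw [hy]; exact hL)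
  rcases S.mmp y s (by rw [hy]; exact hL) hs with ⟨mu, hmu⟩ | ⟨⟨R⟩⟩
  swap
  · exact R.false.elim
  obtain ⟨q, hqn⟩ := S.exists_rational y mu s hmu
  obtain ⟨k, hk, hkz⟩ := exists_den q
  choose z hz using hkz
  -- an integral class
  obtain ⟨x, hxdef⟩ : ∃ x : Lam, x = k • y - ∑ i, z i • S.V i := ⟨_, rfl⟩
  have hx : g.rho x = k • L := by
    rw [hxdef]
    simp only [map_sub, map_nsmul, map_sum, map_zsmul, S.rho_V, smul_zero,
      Finset.sum_const_zero, sub_zero, hy]
  have hcl : S.cl x = (k : ℝ) • S.tw y (fun i => (q i : ℝ)) 0 := by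
    rw [hxdef]
    simp only [S.tw_eq, map_sub, map_nsmul, map_sum, map_zsmul, smul_sub, Finset.smul_sum,
      zero_smul, add_zero]
    rw [Nat.cast_smul_eq_nsmul ℝ k]
    congr 1
    refine Finset.sum_congr rfl fun i _ => ?_
    rw [smul_smul, ← Int.cast_smul_eq_zsmul ℝ (z i)]
    congr 1
    exact_mod_cast (hz i).symm
  obtain ⟨e, he, hcar⟩ := hq mu x
  refine ⟨mu, e * k, e • x, Nat.mul_pos he hk, ?_, ?_, fun j _ => hcar j⟩
  · rw [map_nsmul, hx, smul_smul]
  · refine S.nef_cl mu _ ?_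
    rw [map_nsmul, hcl, ← Nat.cast_smul_eq_nsmul ℝ e]
    exact S.nef_smul mu _ _ (Nat.cast_nonneg e) (S.nef_smul mu _ _ (Nat.cast_nonneg k) hqn)

end NefGerm

end SNefModel

section SWeights

/-- A nilpotent matrix with `M^3 = 0` and `M^2` of rank at least two on a space of dimension six: the
kernel of `M` is the image of `M^2`. -/
theorem ker_eq_range (M : Matrix (Fin 6) (Fin 6) ℂ) (h3 : M ^ 3 = 0) (h2 : 2 ≤ (M ^ 2).rank)
    (v : Fin 6 → ℂ) (hv : M.mulVec v = 0) : ∃ w, (M ^ 2).mulVec w = v := by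
  classical
  obtain ⟨f, hf⟩ : ∃ f : (Fin 6 → ℂ) →ₗ[ℂ] (Fin 6 → ℂ), f = M.mulVecLin := ⟨_, rfl⟩
  have hff : (M ^ 2).mulVecLin = f ∘ₗ f := by
    rw [hf, pow_two, Matrix.mulVecLin_mul]
  have hfff : ∀ u, f (f (f u)) = 0 := by
    intro u
    have h : (M ^ 3).mulVecLin u = 0 := by rw [h3]; simp
    have h' : (M ^ 3) = M * (M * M) := by rw [pow_succ, pow_two, Matrix.mul_assoc]
    rw [h', Matrix.mulVecLin_mul, Matrix.mulVecLin_mul] at h
    rw [hf]
    exact h
  -- the range of `f ∘ f`
  obtain ⟨K, hK⟩ : ∃ K : Submodule ℂ (Fin 6 → ℂ), K = LinearMap.range (f ∘ₗ f) := ⟨_, rfl⟩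
  have hKdim : 2 ≤ Module.finrank ℂ K := by
    have h : (M ^ 2).rank = Module.finrank ℂ (LinearMap.range (M ^ 2).mulVecLin) := rfl
    rw [h, hff, ← hK] at h2
    exact h2
  -- rank and nullity of `f`
  have hn := LinearMap.finrank_range_add_finrank_ker f
  rw [Module.finrank_fin_fun] at hn
  -- rank and nullity of `f` on its range
  have hg := LinearMap.finrank_range_add_finrank_ker (f.domRestrict (LinearMap.range f))
  have hgr : LinearMap.range (f.domRestrict (LinearMap.range f)) = K := by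
    rw [hK]
    ext y
    constructor
    · rintro ⟨⟨z, w, rfl⟩, rfl⟩
      exact ⟨w, rfl⟩
    · rintro ⟨w, rfl⟩
      exact ⟨⟨f w, w, rfl⟩, rfl⟩
  rw [hgr] at hg
  have hle : Module.finrank ℂ K ≤
      Module.finrank ℂ (LinearMap.ker (f.domRestrict (LinearMap.range f))) := by
    have hmem : ∀ y : K, (y : Fin 6 → ℂ) ∈ LinearMap.range f := by
      rintro ⟨y, hy⟩
      rw [hK] at hy
      obtain ⟨w, rfl⟩ := hy
      exact ⟨f w, rfl⟩
    have hker : ∀ y : K, f (y : Fin 6 → ℂ) = 0 := by
      rintro ⟨y, hy⟩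
      rw [hK] at hy
      obtain ⟨w, rfl⟩ := hy
      exact hfff w
    let φ : K →ₗ[ℂ] LinearMap.ker (f.domRestrict (LinearMap.range f)) :=
      { toFun := fun y => ⟨⟨y, hmem y⟩, by
          rw [LinearMap.mem_ker, LinearMap.domRestrict_apply]
          exact hker y⟩
        map_add' := fun y z => rfl
        map_smul' := fun c y => rfl }
    refine LinearMap.finrank_le_finrank_of_injective (f := φ) ?_
    intro y z hyz
    apply Subtype.ext
    have h1 := congrArg Subtype.val hyz
    have h2 := congrArg Subtype.val h1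
    exact h2
  have hkerle : K ≤ LinearMap.ker f := by
    intro y hy
    rw [hK] at hy
    obtain ⟨w, rfl⟩ := hy
    rw [LinearMap.mem_ker]
    exact hfff w
  have heq : K = LinearMap.ker f := by
    apply Submodule.eq_of_le_of_finrank_le hkerle
    omega
  have hvk : v ∈ LinearMap.ker f := by
    rw [LinearMap.mem_ker, hf]
    exact hv
  rw [← heq, hK, ← hff] at hvk
  obtain ⟨w, hw⟩ := hvk
  exact ⟨w, hw⟩

end SWeights

section SWeightsAll

namespace Sect

variable {Eff : Prop} (F : Sect Eff)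

/-- all the functions `f_a` vanish -/
def NoPeriods : Prop := ∀ n a, F.coef n a = 0

theorem ob_eq_zero (h0 : F.NoPeriods) (n : ℕ) (x : F.Lift n) : F.ob n x = 0 := by
  apply F.serre
  intro u
  obtain ⟨a, rfl⟩ := F.du_bois u
  rw [← F.taylor n x a]
  exact h0 _ a

include F in

/-- `s` lifts to all orders, so the class is effective on the generic member -/
theorem effective (h0 : F.NoPeriods) : Eff := by
  apply F.algebraize
  choose nxt hnxt using fun n (x : F.Lift n) => F.lift n x (F.ob_eq_zero h0 n x)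
  let x : ∀ n, F.Lift n := fun n => Nat.rec F.s (fun k y => nxt k y) n
  exact ⟨x, rfl, fun n => hnxt n (x n)⟩

end Sect

theorem NoClassOne.noPeriods {Eff : Prop} {F : Sect Eff} (C : NoClassOne F) : F.NoPeriods := by
  let _ := C.add
  intro n a
  let f : F.A →+ ℂ := AddMonoidHom.mk' (F.coef n) (C.coef_add n)
  have h : AddSubgroup.closure {c | ∃ g b, c = C.act g b - b} ≤ f.ker := by
    rw [AddSubgroup.closure_le]
    rintro c ⟨g, b, rfl⟩
    change f (C.act g b - b) = 0
    rw [map_sub]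
    change F.coef n (C.act g b) - F.coef n b = 0
    rw [C.coef_act, sub_self]
  exact h (C.coinv a)

theorem NoClassTwo.noPeriods {Eff : Prop} {F : Sect Eff} (C : NoClassTwo F) : F.NoPeriods :=
  fun n => C.span n fun a => C.coef_zero a (C.very_general _ (C.hodge a)) n

theorem NoClassThree.noPeriods {Eff : Prop} {F : Sect Eff} (C : NoClassThree F) :
    F.NoPeriods := by
  intro n a
  obtain ⟨w, hw⟩ := ker_eq_range C.M C.cube C.two (C.gysin a) (C.inv a)
  exact C.coef_zero a (C.strict a w hw) n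

/-- Which types meet the Hodge bundle, for `h ≥ 2`. -/
theorem kinds_two {h : ℕ} {B : Type} {wt : B → ℚ} (H : HodgeTypes h B wt)
    (h2 : 2 ≤ h) (b : B) (hb : wt b ≠ 0) :
    H.kind b = 0 ∨ H.kind b = 1 ∨ (H.kind b = 2 ∧ h = 2) := by
  have h1 := H.rank b hb
  have h3 := H.rk_le b
  have hline := H.line b
  have hk : H.kind b ≤ 3 := by
    by_contra hcon
    rw [H.symm, H.le_three b _ _ (by omega)] at hline
    exact absurd hline (by norm_num)
  obtain ⟨k, hkd⟩ : ∃ k, k = H.kind b := ⟨_, rfl⟩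
  rw [← hkd] at hk h3 hline ⊢
  interval_cases k
  · exact Or.inl rfl
  · exact Or.inr (Or.inl rfl)
  · refine Or.inr (Or.inr ⟨rfl, ?_⟩)
    norm_num at h3
    rw [H.symm b 2 3, hline] at h3
    omega
  · exfalso
    norm_num at h3
    rw [H.symm b 2 4, H.le_three b 4 2 (by norm_num)] at h3
    omega

/-- If a multiple of `L` extends to a class on a model which is semiample on the special fibre, then
a positive multiple of `L` is effective. -/
theorem SectAt.effective {P : Type} [AddCommGroup P] {Semi : P → Prop} {h : ℕ} {wt : ℚ} {kind : ℕ}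
    {hG : ℕ → P → ℕ} (C : SectAt Semi h wt kind hG)
    (hk : kind = 0 ∨ (kind = 1 ∧ wt ≠ 0) ∨ (kind = 2 ∧ h = 2)) (L : P) (hsa : Semi L) :
    ∃ k : ℕ, 0 < k ∧ 0 < hG 0 (k • L) := by
  rcases hk with h0 | ⟨h1, hw⟩ | ⟨h2, hh⟩
  · obtain ⟨k, hk, F, ⟨Z⟩⟩ := C.zero h0 L hsa
    exact ⟨k, hk, F.effective Z.noPeriods⟩
  · obtain ⟨k, hk, F, ⟨Z⟩⟩ := C.one h1 hw L hsa
    exact ⟨k, hk, F.effective Z.noPeriods⟩
  · obtain ⟨k, hk, F, ⟨Z⟩⟩ := C.two h2 hh L hsa
    exact ⟨k, hk, F.effective Z.noPeriods⟩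

end SWeightsAll

section SOne

section Tor

variable {C : Type} [AddCommGroup C]

lemma Tor.neg {z : C} (h : Tor z) : Tor (-z) := by
  obtain ⟨k, hk, h⟩ := h
  exact ⟨k, hk, by rw [smul_neg, h, neg_zero]⟩

lemma Tor.add {z y : C} (h : Tor z) (h' : Tor y) : Tor (z + y) := by
  obtain ⟨k, hk, h⟩ := h
  obtain ⟨l, hl, h'⟩ := h'
  refine ⟨k * l, Nat.mul_pos hk hl, ?_⟩
  rw [smul_add, mul_comm, mul_smul, h, smul_zero, zero_add, mul_comm, mul_smul, h', smul_zero]

lemma Tor.sub {z y : C} (h : Tor z) (h' : Tor y) : Tor (z - y) := by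
  rw [sub_eq_add_neg]
  exact h.add h'.neg

lemma Tor.nsmul {z : C} (h : Tor z) (n : ℕ) : Tor (n • z) := by
  obtain ⟨k, hk, h⟩ := h
  exact ⟨k, hk, by rw [smul_comm, h, smul_zero]⟩

lemma Tor.of_nsmul {z : C} {n : ℕ} (hn : 0 < n) (h : Tor (n • z)) : Tor z := by
  obtain ⟨k, hk, h⟩ := h
  exact ⟨k * n, Nat.mul_pos hk hn, by rw [mul_smul, h]⟩

end Tor

namespace Surf

variable (S : Surf)

lemma null_add' (w w' : S.P) (h : S.Null w) (h' : S.Null w') : S.Null (w + w') :=
  S.null_add w w' h h'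

lemma null_neg' (w : S.P) (h : S.Null w) : S.Null (-w) := S.null_neg w h

lemma null_acyclic' (hA : S.Ab) (w : S.P) (h : S.Null w) (h0 : w ≠ 0) (q : ℕ) : S.h w q = 0 :=
  S.null_acyclic hA w h h0 q

lemma null_succ {v : S.P} (hv : S.Null v) (n : ℕ) : S.Null ((n + 1) • v) := by
  induction n with
  | zero => simpa using hv
  | succ n ih => rw [add_smul _ 1, one_smul]; exact S.null_add' _ _ ih hv

end Surf

namespace Comp

variable {S : Surf} (X : Comp S)

lemma r_add' (z y : X.C) : X.r (z + y) = X.r z + X.r y := X.r_add z y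

lemma pic0_add' (z y : X.C) (h : X.Pic0 z) (h' : X.Pic0 y) : X.Pic0 (z + y) := X.pic0_add z y h h'

lemma pic0_neg' (z : X.C) (h : X.Pic0 z) : X.Pic0 (-z) := X.pic0_neg z h

lemma seq' (z : X.C) (h : ∀ q, S.h (X.r z) q = 0) (h' : ∀ q, X.h (z - X.D) q = 0) (q : ℕ) :
    X.h z q = 0 := X.seq z h h' q

lemma sec' (z : X.C) (h : X.r z = 0) (h' : X.h (z - X.D) 1 = 0) : X.Sec z := X.sec z h h'

lemma abundance' (k : ℕ) (z : X.C) (hk : 0 < k) (hz : X.Pic0 z) (h : X.Sec (k • X.D - z)) :
    Tor z := X.abundance k z hk hz h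

lemma r_zero : X.r 0 = 0 := by
  have := X.r_add' 0 0
  rw [add_zero] at this
  exact left_eq_add.1 this

lemma r_nsmul (n : ℕ) (z : X.C) : X.r (n • z) = n • X.r z := by
  induction n with
  | zero => rw [zero_smul, zero_smul, X.r_zero]
  | succ n ih => rw [add_smul, one_smul, X.r_add', ih, add_smul, one_smul]

lemma r_neg (z : X.C) : X.r (-z) = -X.r z := by
  have := X.r_add' z (-z)
  rw [add_neg_cancel, X.r_zero] at this
  exact (neg_eq_of_add_eq_zero_right this.symm).symm

lemma r_sub (z y : X.C) : X.r (z - y) = X.r z - X.r y := by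
  rw [sub_eq_add_neg, X.r_add', X.r_neg, sub_eq_add_neg]

lemma pic0_nsmul (n : ℕ) (hn : 0 < n) (z : X.C) (hz : X.Pic0 z) : X.Pic0 (n • z) := by
  induction n, hn using Nat.le_induction with
  | base => simpa using hz
  | succ n hn ih => rw [add_smul, one_smul]; exact X.pic0_add' _ _ ih hz

/-- If a positive multiple of the normal bundle of `D` is the restriction of a class of `Pic^0(V)` then
this class is torsion. -/
theorem tor_of_eq (hA : S.Ab) (hv : S.Null (X.r X.D)) (k : ℕ) (hk : 0 < k) (p : X.C)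
    (hp : X.Pic0 p) (h : k • X.r X.D = X.r p) : Tor p := by
  classical
  -- the least such `k`
  have hex : ∃ k : ℕ, 0 < k ∧ ∃ p, X.Pic0 p ∧ k • X.r X.D = X.r p := ⟨k, hk, p, hp, h⟩
  obtain ⟨hm, q, hq, hmq⟩ := Nat.find_spec hex
  have hmin := fun n (hn : n < Nat.find hex) => Nat.find_min hex hn
  generalize Nat.find hex = m at hm hmq hmin
  -- the class `q` for the least `k` is torsion
  have hT : Tor q := by
    by_contra hcon
    have hnq : ¬ Tor (-q) := fun h => hcon (by simpa using h.neg)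
    -- `jD - q` is acyclic for `j < m`
    have hac : ∀ j : ℕ, j < m → ∀ i, X.h (j • X.D - q) i = 0 := by
      intro j
      induction j with
      | zero =>
        intro _ i
        rw [zero_smul, zero_sub]
        exact X.simpson _ (X.pic0_neg' _ hq) hnq i
      | succ j ih =>
        intro hj i
        refine X.seq' _ ?_ ?_ i
        · have hne : X.r ((j + 1) • X.D - q) ≠ 0 := by
            intro h0
            refine hmin (j + 1) hj ⟨Nat.succ_pos j, q, hq, ?_⟩
            rw [X.r_sub, X.r_nsmul, sub_eq_zero] at h0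
            exact h0
          refine S.null_acyclic' hA _ ?_ hne
          rw [X.r_sub, X.r_nsmul, sub_eq_add_neg]
          exact S.null_add' _ _ (S.null_succ hv j) (S.null_neg' _ (X.pic0_null _ hq))
        · intro i
          have e : (j + 1) • X.D - q - X.D = j • X.D - q := by
            rw [add_smul, one_smul]; abel
          rw [e]
          exact ih (Nat.lt_of_succ_lt hj) i
    refine hcon (X.abundance' m q hm hq (X.sec' _ ?_ ?_))
    · rw [X.r_sub, X.r_nsmul, hmq, sub_self]
    · obtain ⟨j, rfl⟩ : ∃ j, m = j + 1 := ⟨m - 1, by omega⟩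
      have e : (j + 1) • X.D - q - X.D = j • X.D - q := by
        rw [add_smul, one_smul]; abel
      rw [e]
      exact hac j (Nat.lt_succ_self j) 1
  -- `v` is torsion
  have hv' : Tor (X.r X.D) := by
    obtain ⟨l, hl, hl0⟩ := hT
    refine ⟨l * m, Nat.mul_pos hl hm, ?_⟩
    rw [mul_smul, hmq, ← X.r_nsmul, hl0, X.r_zero]
  apply X.pic0_ker p hp
  rw [← h]
  exact hv'.nsmul k

/-- a class `aD + p` with `p` in `Pic^0(V)` not torsion is acyclic for `a ≥ 0` -/
theorem acyclic (hA : S.Ab) (hv : S.Null (X.r X.D)) (p : X.C) (hp : X.Pic0 p) (ht : ¬ Tor p)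
    (a : ℕ) : ∀ q, X.h (a • X.D + p) q = 0 := by
  induction a with
  | zero =>
    intro q
    rw [zero_smul, zero_add]
    exact X.simpson p hp ht q
  | succ a ih =>
    intro q
    refine X.seq' _ ?_ ?_ q
    · have hne : X.r ((a + 1) • X.D + p) ≠ 0 := by
        intro h0
        rw [X.r_add', X.r_nsmul] at h0
        have h1 : (a + 1) • X.r X.D = X.r (-p) := by
          rw [X.r_neg]
          exact eq_neg_of_add_eq_zero_left h0
        have h2 := X.tor_of_eq hA hv (a + 1) (Nat.succ_pos a) (-p) (X.pic0_neg' p hp) h1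
        exact ht (by simpa using h2.neg)
      refine S.null_acyclic' hA _ ?_ hne
      rw [X.r_add', X.r_nsmul]
      exact S.null_add' _ _ (S.null_succ hv a) (X.pic0_null _ hp)
    · intro i
      have e : (a + 1) • X.D + p - X.D = a • X.D + p := by
        rw [add_smul, one_smul]; abel
      rw [e]
      exact ih i

/-- The alternative for a class which is `A_i D + P_i` on `V_i`, `A_i > 0` and `P_i` in `Pic^0(V_i)`,
for both `i`. -/
theorem pair (X0 X1 : Comp S) (hnm : X1.r X1.D = -X0.r X0.D) (hnull0 : S.Null (X0.r X0.D))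
    (hnull1 : S.Null (X1.r X1.D))
    (hdir : ∀ p p', X0.Pic0 p → X1.Pic0 p' → Tor (X0.r p - X1.r p') → Tor p ∧ Tor p')
    (A0 A1 : ℕ) (hA0 : 0 < A0) (hA1 : 0 < A1) (P0 : X0.C) (P1 : X1.C) (hP0 : X0.Pic0 P0)
    (hP1 : X1.Pic0 P1) (hrel : X0.r (A0 • X0.D + P0) = X1.r (A1 • X1.D + P1)) :
    (Tor (X0.r X0.D) ∧ Tor P0 ∧ Tor P1) ∨
      ∀ j : ℕ, 0 < j → (∀ q, X0.h (j • (A0 • X0.D + P0)) q = 0) ∧
        (∀ q, X1.h (j • (A1 • X1.D + P1)) q = 0) ∧
        ∀ q, S.h (X0.r (j • (A0 • X0.D + P0))) q = 0 := by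
  rw [X0.r_add', X1.r_add', X0.r_nsmul, X1.r_nsmul, hnm] at hrel
  -- `(A0 + A1) v = P1 - P0` on `D`
  have hrel' : (A0 + A1) • X0.r X0.D = X1.r P1 - X0.r P0 := by
    rw [add_smul, eq_sub_iff_add_eq]
    calc A0 • X0.r X0.D + A1 • X0.r X0.D + X0.r P0
        = (A0 • X0.r X0.D + X0.r P0) + A1 • X0.r X0.D := by abel
      _ = (A1 • -X0.r X0.D + X1.r P1) + A1 • X0.r X0.D := by rw [hrel]
      _ = X1.r P1 := by rw [smul_neg]; abel
  by_cases hv : Tor (X0.r X0.D)
  · -- the normal bundle is torsion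
    left
    have hT : Tor (X0.r P0 - X1.r P1) := by
      have h1 : X0.r P0 - X1.r P1 = -((A0 + A1) • X0.r X0.D) := by rw [hrel']; abel
      rw [h1]
      exact (hv.nsmul _).neg
    exact ⟨hv, hdir P0 P1 hP0 hP1 hT⟩
  · -- the normal bundle is not torsion, `D` is abelian
    right
    have hA : S.Ab := by
      by_contra hcon
      exact hv (S.null_tor hcon _ hnull0)
    have hT0 : ¬ Tor P0 := by
      rintro ⟨l, hl, h0⟩
      have e : (l * (A0 + A1)) • X1.r X1.D = X1.r (-(l • P1)) := by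
        rw [hnm, smul_neg, X1.r_neg, X1.r_nsmul, mul_smul, hrel', smul_sub, ← X0.r_nsmul, h0,
          X0.r_zero, sub_zero]
      have h1 := X1.tor_of_eq hA hnull1 (l * (A0 + A1))
        (Nat.mul_pos hl (by omega)) _ (X1.pic0_neg' _ (X1.pic0_nsmul _ hl _ hP1)) e
      have h2 : Tor P1 := Tor.of_nsmul hl (by simpa using h1.neg)
      apply hv
      refine Tor.of_nsmul (n := A0 + A1) (by omega) ?_
      rw [hrel']
      obtain ⟨m, hm, hm0⟩ := h2
      have h3 : Tor (X1.r P1) := ⟨m, hm, by rw [← X1.r_nsmul, hm0, X1.r_zero]⟩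
      have h4 : Tor (X0.r P0) := ⟨l, hl, by rw [← X0.r_nsmul, h0, X0.r_zero]⟩
      exact h3.sub h4
    have hT1 : ¬ Tor P1 := by
      rintro ⟨l, hl, h0⟩
      have e : (l * (A0 + A1)) • X0.r X0.D = X0.r (-(l • P0)) := by
        rw [X0.r_neg, X0.r_nsmul, mul_smul, hrel', smul_sub, ← X1.r_nsmul, h0,
          X1.r_zero, zero_sub]
      have h1 := X0.tor_of_eq hA hnull0 (l * (A0 + A1))
        (Nat.mul_pos hl (by omega)) _ (X0.pic0_neg' _ (X0.pic0_nsmul _ hl _ hP0)) e
      exact hT0 (Tor.of_nsmul hl (by simpa using h1.neg))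
    intro j hj
    have hne : X0.r (j • (A0 • X0.D + P0)) ≠ 0 := by
      intro h0
      rw [smul_add, ← mul_smul, X0.r_add', X0.r_nsmul] at h0
      have h1 : (j * A0) • X0.r X0.D = X0.r (-(j • P0)) := by
        rw [X0.r_neg]
        exact eq_neg_of_add_eq_zero_left h0
      have h2 := X0.tor_of_eq hA hnull0 (j * A0) (Nat.mul_pos hj hA0) _
        (X0.pic0_neg' _ (X0.pic0_nsmul _ hj _ hP0)) h1
      exact hT0 (Tor.of_nsmul hj (by simpa using h2.neg))
    refine ⟨?_, ?_, ?_⟩
    · rw [smul_add, ← mul_smul]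
      exact X0.acyclic hA hnull0 _ (X0.pic0_nsmul _ hj _ hP0)
        (fun h => hT0 (Tor.of_nsmul hj h)) _
    · rw [smul_add, ← mul_smul]
      exact X1.acyclic hA hnull1 _ (X1.pic0_nsmul _ hj _ hP1)
        (fun h => hT1 (Tor.of_nsmul hj h)) _
    · refine S.null_acyclic' hA _ ?_ hne
      rw [smul_add, ← mul_smul, X0.r_add', X0.r_nsmul]
      refine S.null_add' _ _ ?_ (X0.pic0_null _ (X0.pic0_nsmul _ hj _ hP0))
      obtain ⟨n, hn'⟩ : ∃ n, j * A0 = n + 1 := ⟨j * A0 - 1, by
        have := Nat.mul_pos hj hA0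
        omega⟩
      rw [hn']
      exact S.null_succ hnull0 n

end Comp

/-- Two elements of square one which generate a finite group modulo the centre: a power of the
product is trivial. -/
theorem exists_pow_of_involutions {G : Type} [Group G] (hG : FinMod G) (a b : G)
    (ha : a * a = 1) (hb : b * b = 1) : Fin2 a b := by
  classical
  obtain ⟨S, hS⟩ := hG
  choose f hf hc using hS
  -- two powers with the same representative
  have hni : ¬ Function.Injective fun k : ℕ => f ((a * b) ^ k) := by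
    intro hinj
    refine Set.infinite_range_of_injective hinj (S.finite_toSet.subset ?_)
    rintro _ ⟨k, rfl⟩
    exact hf _
  rw [Function.not_injective_iff] at hni
  obtain ⟨i, j, hij, hne⟩ := hni
  have key : ∀ i j : ℕ, i < j → f ((a * b) ^ i) = f ((a * b) ^ j) →
      ∃ k : ℕ, 0 < k ∧ (a * b) ^ k = 1 := by
    intro i j hij h
    obtain ⟨k, rfl⟩ := Nat.exists_eq_add_of_lt hij
    have hcen : ∀ w, (a * b) ^ (k + 1) * w = w * (a * b) ^ (k + 1) := by
      have h1 := hc ((a * b) ^ i)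
      have h2 := hc ((a * b) ^ (i + k + 1))
      rw [← h] at h2
      generalize f ((a * b) ^ i) = v at h1 h2
      have e : (a * b) ^ (k + 1) = (v⁻¹ * (a * b) ^ i)⁻¹ * (v⁻¹ * (a * b) ^ (i + k + 1)) := by
        have e3 : (a * b) ^ (i + k + 1) = (a * b) ^ i * (a * b) ^ (k + 1) := by
          rw [← pow_add, add_assoc]
        rw [e3, mul_inv_rev, inv_inv, mul_assoc, mul_inv_cancel_left, inv_mul_cancel_left]
      intro w
      rw [e]
      have h1' : (v⁻¹ * (a * b) ^ i)⁻¹ * w = w * (v⁻¹ * (a * b) ^ i)⁻¹ := by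
        have := h1 w
        calc (v⁻¹ * (a * b) ^ i)⁻¹ * w
            = (v⁻¹ * (a * b) ^ i)⁻¹ * (w * (v⁻¹ * (a * b) ^ i)) * (v⁻¹ * (a * b) ^ i)⁻¹ := by
              group
          _ = (v⁻¹ * (a * b) ^ i)⁻¹ * ((v⁻¹ * (a * b) ^ i) * w) * (v⁻¹ * (a * b) ^ i)⁻¹ := by
              rw [this]
          _ = w * (v⁻¹ * (a * b) ^ i)⁻¹ := by group
      rw [mul_assoc, h2, ← mul_assoc, h1', mul_assoc]
    have e1 : a⁻¹ = a := inv_eq_of_mul_eq_one_left ha
    have e2 : b⁻¹ = b := inv_eq_of_mul_eq_one_left hb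
    have hconj : a * (a * b) * a⁻¹ = (a * b)⁻¹ := by
      rw [mul_inv_rev, e1, e2, ← mul_assoc, ha, one_mul]
    have h3 : a * (a * b) ^ (k + 1) * a⁻¹ = ((a * b) ^ (k + 1))⁻¹ := by
      rw [← conj_pow, hconj, inv_pow]
    have h4 : (a * b) ^ (k + 1) = ((a * b) ^ (k + 1))⁻¹ := by
      rw [← h3, ← hcen a, mul_assoc, mul_inv_cancel, mul_one]
    refine ⟨(k + 1) + (k + 1), by omega, ?_⟩
    rw [pow_add]
    nth_rewrite 1 [h4]
    exact inv_mul_cancel _
  rcases Nat.lt_or_gt_of_ne hne with h | h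
  · exact key i j h hij
  · exact key j i h hij.symm

namespace OneGerm

variable {P Lam : Type} [AddCommGroup P] [AddCommGroup Lam] {g : Germ P Lam} {One Semi : P → Prop} (T : OneGerm g One Semi)

lemma normal' (mu : g.Mo) :
    (T.comp mu true).r (T.comp mu true).D = -(T.comp mu false).r (T.comp mu false).D := T.normal mu

lemma res_nsmul' (mu : g.Mo) (i : Bool) (x : Lam) (n : ℕ) (h : g.Car mu x) :
    T.res mu i (n • x) = n • T.res mu i x := T.res_nsmul mu i x n h

lemma insert' (mu : g.Mo) (x : Lam) (hx : g.Nef mu x) (hc : g.Car mu x)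
    (hv : Tor ((T.comp mu false).r (T.comp mu false).D))
    (h : ∀ i, ∃ n a : ℕ, 0 < n ∧ 0 < a ∧ n • T.res mu i x = a • (T.comp mu i).D) :
    Semi (g.rho x) := T.insert mu x hx hc hv h

lemma V_add' : T.V false + T.V true = 0 := T.V_add

lemma rho_V' (i : Bool) : g.rho (T.V i) = 0 := T.rho_V i

include T in

lemma nef_add' (mu : g.Mo) (x y : Lam) (hx : g.Nef mu x) (hy : g.Nef mu y) : g.Nef mu (x + y) :=
  T.nef_add mu x y hx hy

lemma q_add1 (mu : g.Mo) (i : Bool) (x y z : Lam) :
    T.q mu i (x + y) z = T.q mu i x z + T.q mu i y z := T.q_add mu i x y z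

lemma d_add' (mu : g.Mo) (i : Bool) (x y : Lam) : T.d mu i (x + y) = T.d mu i x + T.d mu i y :=
  T.d_add mu i x y

lemma hodge' (mu : g.Mo) (i : Bool) (y : Lam) (hy : g.Nef mu y) (h1 : T.q mu i y y = 0)
    (h2 : T.q mu i y (T.V i) = 0) (h3 : T.q mu i (T.V i) (T.V i) = 0) (h4 : T.d mu i y ≠ 0) :
    (T.S mu).Null ((T.comp mu i).r (T.comp mu i).D) ∧ ∃ (n a : ℕ) (p : (T.comp mu i).C),
      0 < n ∧ 0 < a ∧ (T.comp mu i).Pic0 p ∧ (∀ j : ℕ, g.Car mu (j • n • y)) ∧
        T.res mu i (n • y) = a • (T.comp mu i).D + p := T.hodge mu i y hy h1 h2 h3 h4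

lemma mmp' (mu : g.Mo) (i : Bool) (x : Lam) (hx : g.Nef mu x)
    (h : ∀ mu', g.Nef mu' x → ∀ j : ℕ, ¬ g.Nef mu' (j • x + T.V i)) : T.Fib i x :=
  T.mmp mu i x hx h

lemma fib_nsmul' (i : Bool) (x : Lam) (k : ℕ) (h : T.Fib i x) : T.Fib i (k • x) :=
  T.fib_nsmul i x k h

lemma mumford' (mu : g.Mo) (x : Lam) (hx : g.Nef mu x) (hq : T.q mu false x x = 0)
    (hc : ∀ j : ℕ, g.Car mu (j • x)) :
    (∀ j : ℕ, 0 < j → ∀ q, (T.S mu).h ((T.comp mu false).r (T.res mu false (j • x))) q = 0) ∨
      T.SAD mu x := T.mumford mu x hx hq hc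

lemma q_add' (mu : g.Mo) (i : Bool) (x y z : Lam) :
    T.q mu i z (x + y) = T.q mu i z x + T.q mu i z y := by
  rw [T.q_symm, T.q_add1, T.q_symm mu i x, T.q_symm mu i y]

lemma V_not (i : Bool) : T.V (!i) = -T.V i := by
  have h := T.V_add'
  cases i
  · exact (neg_eq_of_add_eq_zero_right h).symm
  · exact (neg_eq_of_add_eq_zero_left h).symm

include T in

lemma nef_nsmul (mu : g.Mo) (x : Lam) (hx : g.Nef mu x) (n : ℕ) : g.Nef mu ((n + 1) • x) := by
  induction n with
  | zero => simpa using hx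
  | succ n ih => rw [add_smul _ 1, one_smul]; exact T.nef_add' _ _ _ ih hx

/-- The result for a class `y` in the interior. -/
theorem aux (mu : g.Mo) (y : Lam) (hn : ∀ i, T.d mu i y ≠ 0) (hy : g.Nef mu y)
    (hyy : ∀ i, T.q mu i y y = 0) (hyV : ∀ i, T.q mu i y (T.V i) = 0)
    (hVV : ∀ i, T.q mu i (T.V i) (T.V i) = 0) :
    ∃ k : ℕ, 0 < k ∧ ((∀ j : ℕ, 0 < j → g.Car mu (j • k • y) ∧ g.Acyclic mu (j • k • y)) ∨
      Semi (g.rho (k • y))) := by
  obtain ⟨hnull0, n0, a0, p0, hn0, ha0, hp0, hc0, hr0⟩ :=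
    T.hodge' mu false y hy (hyy _) (hyV _) (hVV _) (hn _)
  obtain ⟨hnull1, n1, a1, p1, hn1, ha1, hp1, hc1, hr1⟩ :=
    T.hodge' mu true y hy (hyy _) (hyV _) (hVV _) (hn _)
  -- the common multiple `Y`
  have hk : 0 < n0 * n1 := Nat.mul_pos hn0 hn1
  have hC : ∀ j : ℕ, g.Car mu (j • (n0 * n1) • y) := by
    intro j
    have h := hc0 (j * n1)
    rwa [mul_smul, smul_comm n1, ← mul_smul n0] at h
  have hC1 : g.Car mu ((n0 * n1) • y) := by simpa using hC 1
  have hCn0 : g.Car mu (n0 • y) := by simpa using hc0 1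
  have hCn1 : g.Car mu (n1 • y) := by simpa using hc1 1
  have hR0 : T.res mu false ((n0 * n1) • y) =
      (n1 * a0) • (T.comp mu false).D + n1 • p0 := by
    rw [mul_comm, mul_smul, T.res_nsmul' mu false _ _ hCn0, hr0, smul_add, mul_smul]
  have hR1 : T.res mu true ((n0 * n1) • y) = (n0 * a1) • (T.comp mu true).D + n0 • p1 := by
    rw [mul_smul, T.res_nsmul' mu true _ _ hCn1, hr1, smul_add, mul_smul]
  have hP0 := (T.comp mu false).pic0_nsmul _ hn1 _ hp0
  have hP1 := (T.comp mu true).pic0_nsmul _ hn0 _ hp1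
  have hA0 : 0 < n1 * a0 := Nat.mul_pos hn1 ha0
  have hA1 : 0 < n0 * a1 := Nat.mul_pos hn0 ha1
  have hrel := T.res_D mu _ hC1
  rw [hR0, hR1] at hrel
  refine ⟨n0 * n1, hk, ?_⟩
  rcases Comp.pair (T.comp mu false) (T.comp mu true)
    (T.normal' mu) hnull0 hnull1 (T.direct mu) _ _ hA0 hA1 _ _ hP0 hP1 hrel with h | h
  · right
    obtain ⟨hv, ⟨l0, hl0, h0⟩, ⟨l1, hl1, h1⟩⟩ := h
    have hnef : g.Nef mu ((n0 * n1) • y) := by
      obtain ⟨k, hk'⟩ : ∃ k, n0 * n1 = k + 1 := ⟨n0 * n1 - 1, by omega⟩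
      rw [hk']
      exact T.nef_nsmul mu y hy k
    refine T.insert' mu _ hnef hC1 hv ?_
    intro i
    cases i
    · refine ⟨l0, l0 * (n1 * a0), hl0, Nat.mul_pos hl0 hA0, ?_⟩
      rw [hR0, smul_add, h0, add_zero, mul_smul l0]
    · refine ⟨l1, l1 * (n0 * a1), hl1, Nat.mul_pos hl1 hA1, ?_⟩
      rw [hR1, smul_add, h1, add_zero, mul_smul l1]
  · left
    intro j hj
    obtain ⟨h0, h1, h2⟩ := h j hj
    refine ⟨hC j, T.mayer mu _ (hC j) ?_ ?_⟩
    · intro i
      cases i
      · rw [T.res_nsmul' mu false _ _ hC1, hR0]; exact h0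
      · rw [T.res_nsmul' mu true _ _ hC1, hR1]; exact h1
    · rw [T.res_nsmul' mu false _ _ hC1, hR0]; exact h2

/-- If `x` and `j x + V_i` are nef on the same model, `x` of numerical dimension one on the generic
fibre. -/
theorem inner (hon : ∀ (L : P) (k : ℕ), 0 < k → One L → One (k • L))
    (hse : ∀ (L : P) (k : ℕ), 0 < k → Semi (k • L) → Semi L) (mu : g.Mo) (x : Lam)
    (hx : g.Nef mu x) (h1 : One (g.rho x)) (j : ℕ) (i0 : Bool)
    (hj : g.Nef mu (j • x + T.V i0)) : g.Good (g.rho x) ∨ Semi (g.rho x) := by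
  -- `w = (j + 1) x + V`, `y = (j + 1) x + w`
  obtain ⟨w, hw⟩ : ∃ w, w = (j + 1) • x + T.V i0 := ⟨_, rfl⟩
  have hwn : g.Nef mu w := by
    have e : w = x + (j • x + T.V i0) := by rw [hw, add_smul, one_smul]; abel
    rw [e]
    exact T.nef_add' _ _ _ hx hj
  obtain ⟨y, hy⟩ : ∃ y, y = (j + 1) • x + w := ⟨_, rfl⟩
  have hxj := T.nef_nsmul mu x hx j
  have hyn : g.Nef mu y := by rw [hy]; exact T.nef_add' _ _ _ hxj hwn
  have hplus : g.Nef mu (y + y + T.V i0) := by
    have e : y + y + T.V i0 = (j + 1) • x + (w + w + w) := by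
      rw [hy, hw]; abel
    rw [e]
    exact T.nef_add' _ _ _ hxj (T.nef_add' _ _ _ (T.nef_add' _ _ _ hwn hwn) hwn)
  have hminus : g.Nef mu (y + y + T.V (!i0)) := by
    have e : y + y + T.V (!i0) = (j + 1) • x + (j + 1) • x + (j + 1) • x + w := by
      rw [hy, hw, T.V_not]; abel
    rw [e]
    exact T.nef_add' _ _ _ (T.nef_add' _ _ _ (T.nef_add' _ _ _ hxj hxj) hxj) hwn
  have hboth : ∀ i, g.Nef mu (y + y + T.V i) := by
    intro i
    cases i <;> cases i0 <;> assumption
  -- restrictions to the generic fibre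
  have hrV : ∀ i, g.rho (T.V i) = 0 := T.rho_V'
  have hrw : g.rho w = (j + 1) • g.rho x := by
    rw [hw, map_add, map_nsmul, hrV, add_zero]
  have hry : g.rho y = (2 * (j + 1)) • g.rho x := by
    rw [hy, map_add, map_nsmul, hrw, ← add_smul]
    congr 1
    omega
  have hone : One (g.rho y) := by
    rw [hry]
    exact hon _ _ (by omega) h1
  have hone2 : ∀ i, One (g.rho (y + y + T.V i)) := by
    intro i
    have : g.rho (y + y + T.V i) = (2 * (2 * (j + 1))) • g.rho x := by
      rw [map_add, map_add, hrV, add_zero, hry, ← add_smul]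
      congr 1
      omega
    rw [this]
    exact hon _ _ (by omega) h1
  -- squares are zero
  have hsq : ∀ z, g.Nef mu z → One (g.rho z) → ∀ i, T.q mu i z z = 0 := by
    intro z hz hz1 i
    have h := T.q_sum mu z hz1
    have ha := T.q_nonneg mu false z hz
    have hb := T.q_nonneg mu true z hz
    cases i <;> linarith
  have hyy := hsq y hyn hone
  have hexp : ∀ i e, T.q mu i (y + y + T.V e) (y + y + T.V e) =
      4 * T.q mu i y y + 4 * T.q mu i y (T.V e) + T.q mu i (T.V e) (T.V e) := by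
    intro i e
    simp only [T.q_add1, T.q_add']
    rw [T.q_symm mu i (T.V e) y]
    ring
  have hqz : ∀ i z, T.q mu i z (-T.V i0) = -T.q mu i z (T.V i0) := by
    intro i z
    have h1 := T.q_add' mu i (T.V i0) (-T.V i0) z
    have h2 := T.q_add' mu i 0 0 z
    rw [add_neg_cancel] at h1
    rw [add_zero] at h2
    linarith
  have hqz' : ∀ i z, T.q mu i (-T.V i0) z = -T.q mu i (T.V i0) z := by
    intro i z
    rw [T.q_symm, hqz, T.q_symm]
  have hyV0 : ∀ i, T.q mu i y (T.V i0) = 0 ∧ T.q mu i (T.V i0) (T.V i0) = 0 := by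
    intro i
    have e1 := hexp i i0
    have e2 := hexp i (!i0)
    rw [hsq _ hplus (hone2 _) i, hyy i] at e1
    rw [hsq _ hminus (hone2 _) i, hyy i, T.V_not, hqz, hqz, hqz'] at e2
    constructor <;> linarith
  have hyV : ∀ i, T.q mu i y (T.V i) = 0 ∧ T.q mu i (T.V i) (T.V i) = 0 := by
    intro i
    by_cases h : i = i0
    · rw [h]; exact hyV0 i0
    · have e : T.V i = -T.V i0 := by
        have hi : i = !i0 := Bool.eq_not_of_ne h
        rw [hi, T.V_not]
      rw [e, hqz, hqz, hqz', (hyV0 i).1, (hyV0 i).2]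
      simp
  -- the degrees are positive
  have hd : ∀ i, T.d mu i y ≠ 0 := by
    intro i h0
    have h := T.d_nonneg mu i _ (hboth i)
    rw [T.d_add', T.d_add', h0] at h
    have := T.d_neg mu i
    linarith
  obtain ⟨k, hk, h⟩ := T.aux mu y hd hyn hyy (fun i => (hyV i).1) (fun i => (hyV i).2)
  have hK : 0 < k * (2 * (j + 1)) := by positivity
  have hrk : g.rho (k • y) = (k * (2 * (j + 1))) • g.rho x := by
    rw [map_nsmul, hry, smul_smul]
  rcases h with h | h
  · exact Or.inl ⟨mu, k * (2 * (j + 1)), k • y, hK, hrk, h⟩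
  · rw [hrk] at h
    exact Or.inr (hse _ _ hK h)

include T in

/-- Let `x` be nef on a model, of numerical dimension one on the generic fibre. Then an extension of
a multiple of `x` is acyclic on `X_b` with all its multiples, or a multiple of `x` is semiample on the
special fibre of a suitable model. -/
theorem result (hon : ∀ (L : P) (k : ℕ), 0 < k → One L → One (k • L))
    (hse : ∀ (L : P) (k : ℕ), 0 < k → Semi (k • L) → Semi L)
    (hqf : ∀ mu x, ∃ k : ℕ, 0 < k ∧ ∀ j : ℕ, g.Car mu (j • k • x)) (mu : g.Mo) (x : Lam)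
    (hx : g.Nef mu x) (h1 : One (g.rho x)) : g.Good (g.rho x) ∨ Semi (g.rho x) := by
  by_cases h : ∃ i mu', g.Nef mu' x ∧ ∃ j : ℕ, g.Nef mu' (j • x + T.V i)
  · obtain ⟨i, mu', hx', j, hj⟩ := h
    exact T.inner hon hse mu' x hx' h1 j i hj
  · push Not at h
    have hF : ∀ i, T.Fib i x := fun i => T.mmp' mu i x hx (h i)
    obtain ⟨k, hk, hcar⟩ := hqf mu x
    -- the Cartier multiple `y = k x`
    obtain ⟨n, rfl⟩ : ∃ n, k = n + 1 := ⟨k - 1, by omega⟩
    have hy : g.Nef mu ((n + 1) • x) := T.nef_nsmul mu x hx n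
    have hFy : ∀ i, T.Fib i ((n + 1) • x) := fun i => T.fib_nsmul' i x _ (hF i)
    have hry : g.rho ((n + 1) • x) = (n + 1) • g.rho x := map_nsmul _ _ _
    have hone : One (g.rho ((n + 1) • x)) := by
      rw [hry]
      exact hon _ _ (Nat.succ_pos n) h1
    generalize (n + 1) • x = y at hcar hy hFy hone hry
    have hcar' : ∀ j : ℕ, g.Car mu (j • y) := hcar
    have hq : T.q mu false y y = 0 := by
      have h := T.q_sum mu y hone
      have ha := T.q_nonneg mu false y hy
      have hb := T.q_nonneg mu true y hy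
      linarith
    rcases T.mumford' mu y hy hq hcar' with h0 | h0
    · left
      refine ⟨mu, n + 1, y, Nat.succ_pos n, hry, fun j hj => ?_⟩
      have hnefj : g.Nef mu (j • y) := by
        obtain ⟨m, rfl⟩ : ∃ m, j = m + 1 := ⟨j - 1, by omega⟩
        exact T.nef_nsmul mu y hy m
      refine ⟨hcar' j, T.mayer mu _ (hcar' j) (fun i => ?_) (h0 j hj)⟩
      exact T.fib_acyclic mu i _ hnefj (hcar' j) (T.fib_nsmul' i y j (hFy i)) (h0 j hj)
    · right
      choose l hl hl2 using fun i => T.cover mu i y hy h0 (hFy i)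
      have hs : Semi (g.rho y) := T.glue mu y hy h0 hone hFy l hl
        (exists_pow_of_involutions (T.lin_fin mu y hy h0 hone hFy) (l false) (l true) (hl2 false)
          (hl2 true))
      rw [hry] at hs
      exact hse _ _ (Nat.succ_pos n) hs

end OneGerm

end SOne

section SP1Split

open Matrix

/-- A matrix with image in the line of `w` which kills `w` has trace zero. -/
theorem trace_eq_zero_of_line {n : ℕ} {w : Fin n → ℂ} (hw : w ≠ 0)
    {F : Matrix (Fin n) (Fin n) ℂ} (h0 : F.mulVec w = 0)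
    (him : ∀ v, ∃ c : ℂ, F.mulVec v = c • w) : F.trace = 0 := by
  choose c hc using him
  have hF : ∀ i j, F i j = c (Pi.single j 1) * w i := by
    intro i j
    have h := congrFun (hc (Pi.single j 1)) i
    rw [Matrix.mulVec_single_one] at h
    simpa [Matrix.col_apply] using h
  obtain ⟨i0, hi0⟩ : ∃ i, w i ≠ 0 := by
    by_contra h
    push Not at h
    exact hw (funext h)
  have h1 : w i0 * ∑ j, c (Pi.single j 1) * w j = 0 := by
    have h := congrFun h0 i0
    simp only [Matrix.mulVec, dotProduct, Pi.zero_apply] at h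
    rw [Finset.mul_sum, ← h]
    refine Finset.sum_congr rfl fun j _ => ?_
    rw [hF i0 j]; ring
  have h2 : ∑ j, c (Pi.single j 1) * w j = 0 := by
    rcases mul_eq_zero.mp h1 with h | h
    · exact absurd h hi0
    · exact h
  rw [Matrix.trace, ← h2]
  exact Finset.sum_congr rfl fun j _ => by rw [Matrix.diag_apply, hF j j]

/-- **Trace of a split extension.**  If the multiple `δ • 1` of the identity is the sum of a
rational matrix and an element of `F^0`, then `δ` is rational. -/
theorem rational_of_split {n : ℕ} (hn : 0 < n) {w : Fin n → ℂ} (hw : w ≠ 0)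
    {F : Matrix (Fin n) (Fin n) ℂ} (h0 : F.mulVec w = 0)
    (him : ∀ v, ∃ c : ℂ, F.mulVec v = c • w) {R : Matrix (Fin n) (Fin n) ℚ} {δ : ℂ}
    (h : δ • (1 : Matrix (Fin n) (Fin n) ℂ) = R.map (fun q : ℚ => (q : ℂ)) + F) :
    ∃ q : ℚ, δ = q := by
  have ht := congrArg Matrix.trace h
  rw [Matrix.trace_smul, Matrix.trace_one, Matrix.trace_add, trace_eq_zero_of_line hw h0 him,
    add_zero, smul_eq_mul, Fintype.card_fin] at ht
  have hR : (R.map (fun q : ℚ => (q : ℂ))).trace = ((R.trace : ℚ) : ℂ) := by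
    simp [Matrix.trace]
  rw [hR] at ht
  have hn' : (n : ℂ) ≠ 0 := by exact_mod_cast hn.ne'
  refine ⟨R.trace / n, ?_⟩
  push_cast
  rw [eq_div_iff hn', ht]

/-- The exponential of a rational multiple of `2 π i` is a root of unity. -/
theorem root_of_rational {c δ : ℂ} (hc : c = Complex.exp (2 * Real.pi * Complex.I * δ))
    (hδ : ∃ q : ℚ, δ = q) : ∃ k : ℕ, 0 < k ∧ c ^ k = 1 := by
  obtain ⟨q, hq⟩ := hδ
  refine ⟨q.den, q.den_pos, ?_⟩
  rw [hc, hq, ← Complex.exp_nat_mul]
  have h : ((q.den : ℕ) : ℂ) * (2 * Real.pi * Complex.I * (q : ℂ)) =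
      (q.num : ℂ) * (2 * Real.pi * Complex.I) := by
    have h1 : (q : ℂ) * (q.den : ℂ) = (q.num : ℂ) := by
      exact_mod_cast congrArg (fun x : ℚ => (x : ℂ)) (Rat.mul_den_eq_num q)
    calc ((q.den : ℕ) : ℂ) * (2 * Real.pi * Complex.I * (q : ℂ))
        = ((q : ℂ) * (q.den : ℂ)) * (2 * Real.pi * Complex.I) := by ring
      _ = _ := by rw [h1]
  rw [h]
  exact Complex.exp_int_mul_two_pi_mul_I q.num

/-- The two together: the holonomy `c = exp (2 π i δ)` of a split extension is a root of unity. -/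
theorem root_of_split {n : ℕ} (hn : 0 < n) {w : Fin n → ℂ} (hw : w ≠ 0)
    {F : Matrix (Fin n) (Fin n) ℂ} (h0 : F.mulVec w = 0)
    (him : ∀ v, ∃ c : ℂ, F.mulVec v = c • w) {R : Matrix (Fin n) (Fin n) ℚ} {c δ : ℂ}
    (h : δ • (1 : Matrix (Fin n) (Fin n) ℂ) = R.map (fun q : ℚ => (q : ℂ)) + F)
    (hc : c = Complex.exp (2 * Real.pi * Complex.I * δ)) : ∃ k : ℕ, 0 < k ∧ c ^ k = 1 :=
  root_of_rational hc (rational_of_split hn hw h0 him h)

end SP1Split

section SP1Groups

/-- Roots of unity: a common exponent for finitely many elements. -/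
theorem exists_common_exponent {K : Type*} [CommMonoid K] {ι : Type*} (s : Finset ι) (f : ι → K)
    (h : ∀ i ∈ s, ∃ k : ℕ, 0 < k ∧ f i ^ k = 1) : ∃ d : ℕ, 0 < d ∧ ∀ i ∈ s, f i ^ d = 1 := by
  classical
  induction s using Finset.induction_on with
  | empty => exact ⟨1, one_pos, by simp⟩
  | insert a s ha ih =>
      obtain ⟨d, hd, hd'⟩ := ih fun i hi => h i (Finset.mem_insert_of_mem hi)
      obtain ⟨k, hk, hk'⟩ := h a (Finset.mem_insert_self a s)
      refine ⟨d * k, Nat.mul_pos hd hk, fun i hi => ?_⟩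
      rcases Finset.mem_insert.mp hi with rfl | hi
      · rw [mul_comm, pow_mul, hk', one_pow]
      · rw [pow_mul, hd' i hi, one_pow]

/-- **Invariant function of a group of monomial maps.**  `ι` indexes the generators; `e i = true`
means `z ↦ c i * z`, `e i = false` means `z ↦ c i / z`.  If the `c i` with `e i = true` and the
quotients `c i / c j` with `e i = e j = false` are roots of unity, there are `d > 0` and `a ≠ 0`
such that `z ^ d + a / z ^ d` is invariant under the maps of the second kind and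
`z ^ d` and `a / z ^ d` under the maps of the first kind. -/
theorem exists_invariant {K : Type*} [Field K] {ι : Type*} [Finite ι] (c : ι → K)
    (e : ι → Bool) (hc : ∀ i, c i ≠ 0)
    (h1 : ∀ i, e i = true → ∃ k : ℕ, 0 < k ∧ c i ^ k = 1)
    (h2 : ∀ i j, e i = false → e j = false → ∃ k : ℕ, 0 < k ∧ (c i / c j) ^ k = 1) :
    ∃ (d : ℕ) (a : K), 0 < d ∧ a ≠ 0 ∧
      (∀ i, e i = true → ∀ z : K, (c i * z) ^ d = z ^ d) ∧
      (∀ i, e i = false → ∀ z : K, z ≠ 0 →
        (c i / z) ^ d = a / z ^ d ∧ a / (c i / z) ^ d = z ^ d) := by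
  classical
  have _ := Fintype.ofFinite ι
  obtain ⟨d1, hd1, hd1'⟩ := exists_common_exponent
    (Finset.univ.filter fun i => e i = true) c (by
      intro i hi
      exact h1 i (Finset.mem_filter.mp hi).2)
  obtain ⟨d2, hd2, hd2'⟩ := exists_common_exponent
    ((Finset.univ : Finset (ι × ι)).filter fun p => e p.1 = false ∧ e p.2 = false)
    (fun p => c p.1 / c p.2) (by
      intro p hp
      have hp' := (Finset.mem_filter.mp hp).2
      exact h2 p.1 p.2 hp'.1 hp'.2)
  by_cases hex : ∃ j, e j = false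
  · obtain ⟨j, hj⟩ := hex
    refine ⟨d1 * d2, c j ^ (d1 * d2), Nat.mul_pos hd1 hd2, pow_ne_zero _ (hc j), ?_, ?_⟩
    · intro i hi z
      rw [mul_pow, pow_mul, hd1' i (by simp [hi]), one_pow, one_mul]
    · intro i hi z hz
      have h3 : (c i / c j) ^ (d1 * d2) = 1 := by
        rw [mul_comm, pow_mul, hd2' (i, j) (by simp [hi, hj]), one_pow]
      have h4 : c i ^ (d1 * d2) = c j ^ (d1 * d2) := by
        rw [div_pow, div_eq_one_iff_eq (pow_ne_zero _ (hc j))] at h3
        exact h3
      have hzd : z ^ (d1 * d2) ≠ 0 := pow_ne_zero _ hz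
      have hcd : c j ^ (d1 * d2) ≠ 0 := pow_ne_zero _ (hc j)
      constructor
      · rw [div_pow, h4]
      · rw [div_pow, h4]
        field_simp
  · push Not at hex
    refine ⟨d1, 1, hd1, one_ne_zero, ?_, ?_⟩
    · intro i hi z
      rw [mul_pow, hd1' i (by simp [hi]), one_mul]
    · intro i hi
      exact absurd hi (hex i)

/-- An affine map `z ↦ a z + b` which permutes a finite set with at least two points: `a` is a
root of unity whose order divides a number which depends on the set only, and the iterate with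
this number is the identity. -/
theorem affine_pow_eq_id {K : Type*} [Field K] (S : Finset K) (hS : 2 ≤ S.card) :
    ∃ k : ℕ, 0 < k ∧ ∀ a b : K, (∀ z ∈ S, a * z + b ∈ S) → a ≠ 0 →
      (fun z : K => a * z + b)^[k] = id := by
  classical
  refine ⟨S.card.factorial, Nat.factorial_pos _, fun a b h ha => ?_⟩
  have hinj : Function.Injective (fun z : K => a * z + b) := by
    intro x y hxy
    exact mul_left_cancel₀ ha (add_right_cancel hxy)
  let σ : S → S := fun z => ⟨a * z + b, h z z.2⟩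
  have hσ : Function.Injective σ := by
    intro x y hxy
    have := congrArg Subtype.val hxy
    exact Subtype.ext (hinj this)
  let τ : Equiv.Perm S := Equiv.ofBijective σ (Finite.injective_iff_bijective.mp hσ)
  have hτ : τ ^ S.card.factorial = 1 := by
    have h1 : Fintype.card (Equiv.Perm S) = S.card.factorial := by
      rw [Fintype.card_perm, Fintype.card_coe]
    rw [← h1]
    exact pow_card_eq_one
  have hit : ∀ (m : ℕ) (z : S), (((τ ^ m) z : S) : K) = (fun z : K => a * z + b)^[m] z := by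
    intro m
    induction m with
    | zero => intro z; simp
    | succ m ih =>
        intro z
        rw [pow_succ', Equiv.Perm.mul_apply, Function.iterate_succ_apply', ← ih z]
        rfl
  have hfix : ∀ z ∈ S, (fun z : K => a * z + b)^[S.card.factorial] z = z := by
    intro z hz
    rw [← hit _ ⟨z, hz⟩, hτ]
    rfl
  have haff : ∀ m : ℕ, ∃ a' b' : K, ∀ z, (fun z : K => a * z + b)^[m] z = a' * z + b' := by
    intro m
    induction m with
    | zero => exact ⟨1, 0, fun z => by simp⟩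
    | succ m ih =>
        obtain ⟨a', b', h'⟩ := ih
        refine ⟨a * a', a * b' + b, fun z => ?_⟩
        rw [Function.iterate_succ_apply', h' z]
        ring
  obtain ⟨a', b', hab⟩ := haff S.card.factorial
  obtain ⟨x, hx, y, hy, hxy⟩ := Finset.one_lt_card.mp (by omega : 1 < S.card)
  have e1 : a' * x + b' = x := by rw [← hab x]; exact hfix x hx
  have e2 : a' * y + b' = y := by rw [← hab y]; exact hfix y hy
  have e3 : (a' - 1) * (x - y) = 0 := by linear_combination e1 - e2
  have e4 : a' = 1 := by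
    rcases mul_eq_zero.mp e3 with h' | h'
    · exact sub_eq_zero.mp h'
    · exact absurd (sub_eq_zero.mp h') hxy
  have e5 : b' = 0 := by rw [e4] at e1; linear_combination e1
  funext z
  rw [hab z, e4, e5]
  simp

/-- The group of the affine maps which permute a finite set with at least two points is finite.
-/
theorem affine_finite {K : Type*} [Field K] (S : Finset K) (hS : 2 ≤ S.card) :
    {p : K × K | p.1 ≠ 0 ∧ ∀ z ∈ S, p.1 * z + p.2 ∈ S}.Finite := by
  classical
  obtain ⟨x, hx, y, hy, hxy⟩ := Finset.one_lt_card.mp (by omega : 1 < S.card)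
  have hinj : Set.InjOn (fun p : K × K => (p.1 * x + p.2, p.1 * y + p.2))
      {p : K × K | p.1 ≠ 0 ∧ ∀ z ∈ S, p.1 * z + p.2 ∈ S} := by
    rintro ⟨a, b⟩ _ ⟨a', b'⟩ _ h
    simp only [Prod.mk.injEq] at h
    have e1 : (a - a') * (x - y) = 0 := by linear_combination h.1 - h.2
    have e2 : a = a' := by
      rcases mul_eq_zero.mp e1 with h' | h'
      · exact sub_eq_zero.mp h'
      · exact absurd (sub_eq_zero.mp h') hxy
    subst e2
    have e3 : b = b' := by linear_combination h.1
    rw [e3]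
  refine Set.Finite.of_finite_image (Set.Finite.subset (S ×ˢ S).finite_toSet ?_) hinj
  rintro _ ⟨p, hp, rfl⟩
  simp only [Finset.coe_product, Set.mem_prod, Finset.mem_coe]
  exact ⟨hp.2 x hx, hp.2 y hy⟩

/-- A finitely generated torsion subgroup of an abelian group is finite. -/
theorem closure_finite {A : Type*} [AddCommGroup A] (s : Set A) (hs : s.Finite)
    (ht : ∀ x ∈ s, ∃ k : ℕ, 0 < k ∧ k • x = 0) : (AddSubgroup.closure s : Set A).Finite := by
  classical
  have : AddGroup.FG (AddSubgroup.closure s) := by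
    rw [AddGroup.fg_iff_addSubgroup_fg]
    exact ⟨hs.toFinset, by simp⟩
  have htor : IsAddTorsion (AddSubgroup.closure s) := by
    rintro ⟨x, hx⟩
    rw [isOfFinAddOrder_iff_nsmul_eq_zero]
    refine AddSubgroup.closure_induction (p := fun x hx => ∃ n : ℕ, 0 < n ∧
      n • (⟨x, hx⟩ : AddSubgroup.closure s) = 0) ?_ ?_ ?_ ?_ hx
    · intro y hy
      obtain ⟨k, hk, hk'⟩ := ht y hy
      exact ⟨k, hk, Subtype.ext (by simpa using hk')⟩
    · exact ⟨1, one_pos, by simp⟩
    · rintro y z hy hz ⟨k, hk, hk'⟩ ⟨l, hl, hl'⟩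
      refine ⟨k * l, Nat.mul_pos hk hl, ?_⟩
      have e : (⟨y + z, AddSubgroup.add_mem _ hy hz⟩ : AddSubgroup.closure s) =
          ⟨y, hy⟩ + ⟨z, hz⟩ := rfl
      rw [e, nsmul_add, mul_nsmul, hk', mul_comm, mul_nsmul, hl']
      simp
    · rintro y hy ⟨k, hk, hk'⟩
      refine ⟨k, hk, ?_⟩
      have e : (⟨-y, AddSubgroup.neg_mem _ hy⟩ : AddSubgroup.closure s) = -⟨y, hy⟩ := rfl
      rw [e, smul_neg, hk', neg_zero]
  have : Finite (AddSubgroup.closure s) := AddCommGroup.finite_of_fg_isAddTorsion _ htor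
  exact Set.toFinite _

/-- **Finite groups on an elliptic curve.**  Finitely many maps `x ↦ h x + t` of an abelian group,
`h` in a finite group `H` of automorphisms and `t` torsion, generate a finite group. -/
theorem finite_of_torsion {A : Type*} [AddCommGroup A] (H : Set (A ≃+ A)) (hH : H.Finite)
    (H1 : AddEquiv.refl A ∈ H) (Hmul : ∀ k ∈ H, ∀ l ∈ H, l.trans k ∈ H)
    (Hinv : ∀ k ∈ H, k.symm ∈ H)
    {ι : Type*} [Finite ι] (h : ι → A ≃+ A) (hh : ∀ i, h i ∈ H) (t : ι → A)
    (ht : ∀ i, ∃ k : ℕ, 0 < k ∧ k • t i = 0) (g : ι → Equiv.Perm A)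
    (hg : ∀ i x, g i x = h i x + t i) : Finite (Subgroup.closure (Set.range g)) := by
  classical
  have : Finite H := hH.to_subtype
  set s : Set A := {x | ∃ (k : A ≃+ A) (i : ι), k ∈ H ∧ x = k (t i)} with hs
  have hsf : s.Finite := by
    have : s ⊆ Set.range (fun p : H × ι => (p.1 : A ≃+ A) (t p.2)) := by
      rintro x ⟨k, i, hk, rfl⟩
      exact ⟨(⟨k, hk⟩, i), rfl⟩
    exact Set.Finite.subset (Set.finite_range _) this
  have hst : ∀ x ∈ s, ∃ k : ℕ, 0 < k ∧ k • x = 0 := by
    rintro x ⟨k, i, _, rfl⟩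
    obtain ⟨n, hn, hn'⟩ := ht i
    exact ⟨n, hn, by rw [← map_nsmul, hn', map_zero]⟩
  have hTf := closure_finite s hsf hst
  set T := AddSubgroup.closure s with hT
  have hTH : ∀ k ∈ H, ∀ x ∈ T, k x ∈ T := by
    intro k hk x hx
    refine AddSubgroup.closure_induction (p := fun x _ => k x ∈ T) ?_ ?_ ?_ ?_ hx
    · rintro y ⟨k', i, hk', rfl⟩
      exact AddSubgroup.subset_closure ⟨k'.trans k, i, Hmul k hk k' hk', rfl⟩
    · rw [map_zero]; exact T.zero_mem
    · intro y z _ _ hy hz
      rw [map_add]; exact T.add_mem hy hz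
    · intro y _ hy
      rw [map_neg]; exact T.neg_mem hy
  -- the group of the maps `x ↦ k x + u`
  let G : Subgroup (Equiv.Perm A) :=
    { carrier := {f | ∃ k ∈ H, ∃ u ∈ T, ∀ x, f x = k x + u}
      one_mem' := ⟨AddEquiv.refl A, H1, 0, T.zero_mem, fun x => by simp⟩
      mul_mem' := by
        rintro f f' ⟨k, hk, u, hu, hf⟩ ⟨k', hk', u', hu', hf'⟩
        refine ⟨k'.trans k, Hmul k hk k' hk', k u' + u, T.add_mem (hTH k hk u' hu') hu,
          fun x => ?_⟩
        rw [Equiv.Perm.mul_apply, hf, hf', map_add, add_assoc, AddEquiv.trans_apply]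
      inv_mem' := by
        rintro f ⟨k, hk, u, hu, hf⟩
        refine ⟨k.symm, Hinv k hk, -(k.symm u), T.neg_mem (hTH _ (Hinv k hk) u hu),
          fun x => ?_⟩
        rw [Equiv.Perm.inv_eq_iff_eq, hf, map_add, map_neg, AddEquiv.apply_symm_apply,
          AddEquiv.apply_symm_apply]
        abel }
  have hGf : (G : Set (Equiv.Perm A)).Finite := by
    have : Finite T := hTf.to_subtype
    let F : H × T → Set (Equiv.Perm A) := fun p => {f | ∀ x, f x = (p.1 : A ≃+ A) x + (p.2 : A)}
    have hsub : (G : Set (Equiv.Perm A)) ⊆ ⋃ p : H × T, F p := by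
      rintro f ⟨k, hk, u, hu, hf⟩
      exact Set.mem_iUnion.mpr ⟨(⟨k, hk⟩, ⟨u, hu⟩), hf⟩
    refine Set.Finite.subset (Set.finite_iUnion fun p => ?_) hsub
    refine Set.Subsingleton.finite ?_
    intro f hf f' hf'
    exact Equiv.ext fun x => (hf x).trans (hf' x).symm
  have hle : Subgroup.closure (Set.range g) ≤ G := by
    rw [Subgroup.closure_le]
    rintro _ ⟨i, rfl⟩
    exact ⟨h i, hh i, t i, AddSubgroup.subset_closure ⟨AddEquiv.refl A, i, H1, rfl⟩, hg i⟩
  exact (hGf.subset hle).to_subtype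

end SP1Groups

section SP1Dihedral

/-- Two involutions whose product has finite order generate a finite group. -/
theorem dihedral_finite {Y : Type*} (B S : Equiv.Perm Y) (hB : B * B = 1) (hS : S * S = 1)
    {m : ℕ} (hm : 0 < m) (h : (B * S) ^ m = 1) :
    Finite (Subgroup.closure {B, S} : Subgroup (Equiv.Perm Y)) := by
  classical
  have hBi : B⁻¹ = B := inv_eq_of_mul_eq_one_right hB
  have hSi : S⁻¹ = S := inv_eq_of_mul_eq_one_right hS
  set F : Equiv.Perm Y := B * S with hF
  have hord : ∀ k : ℤ, ∃ n : ℕ, n < m ∧ F ^ k = F ^ n := by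
    intro k
    refine ⟨(k % m).toNat, ?_, ?_⟩
    · have h1 : 0 ≤ k % m := Int.emod_nonneg _ (by omega)
      have h2 : k % m < m := Int.emod_lt_of_pos _ (by exact_mod_cast hm)
      omega
    · have h1 : 0 ≤ k % m := Int.emod_nonneg _ (by omega)
      have e1 : F ^ ((k % m).toNat) = F ^ (k % (m : ℤ)) := by
        conv_rhs => rw [← Int.toNat_of_nonneg h1]
        rw [zpow_natCast]
      rw [e1]
      conv_lhs => rw [← Int.emod_add_mul_ediv k m]
      rw [zpow_add, zpow_mul, zpow_natCast, h, one_zpow, mul_one]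
  have hSF : ∀ k : ℤ, S * F ^ k = F ^ (-k) * S := by
    intro k
    have e1 : S * F * S⁻¹ = F⁻¹ := by
      rw [hF, mul_inv_rev, hBi, hSi]
      group
      have : S * (B * (S * S)) = S * B := by rw [hS, mul_one]
      simpa [mul_assoc, pow_two] using this
    have e2 : S * F ^ k * S⁻¹ = F ^ (-k) := by
      rw [← conj_zpow, e1, inv_zpow, zpow_neg]
    rw [← e2]
    group
  let G : Subgroup (Equiv.Perm Y) :=
    { carrier := {f | ∃ k : ℤ, f = F ^ k ∨ f = F ^ k * S}
      one_mem' := ⟨0, Or.inl (by simp)⟩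
      mul_mem' := by
        rintro a b ⟨k, hk⟩ ⟨l, hl⟩
        rcases hk with rfl | rfl <;> rcases hl with rfl | rfl
        · exact ⟨k + l, Or.inl (by rw [zpow_add])⟩
        · exact ⟨k + l, Or.inr (by rw [zpow_add, mul_assoc])⟩
        · refine ⟨k + -l, Or.inr ?_⟩
          rw [mul_assoc, hSF, ← mul_assoc, zpow_add]
        · refine ⟨k + -l, Or.inl ?_⟩
          rw [mul_assoc, ← mul_assoc S, hSF, mul_assoc, hS, mul_one, zpow_add]
      inv_mem' := by
        rintro a ⟨k, rfl | rfl⟩
        · exact ⟨-k, Or.inl (by rw [zpow_neg])⟩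
        · refine ⟨k, Or.inr ?_⟩
          rw [mul_inv_rev, hSi, ← zpow_neg, hSF, neg_neg] }
  have hBG : B ∈ G := by
    refine ⟨1, Or.inr ?_⟩
    rw [zpow_one, hF, mul_assoc, hS, mul_one]
  have hSG : S ∈ G := ⟨0, Or.inr (by simp)⟩
  have hGf : (G : Set (Equiv.Perm Y)).Finite := by
    have hsub : (G : Set (Equiv.Perm Y)) ⊆
        ((fun n : ℕ => F ^ n) '' Set.Iio m) ∪ ((fun n : ℕ => F ^ n * S) '' Set.Iio m) := by
      rintro f ⟨k, rfl | rfl⟩
      · obtain ⟨n, hn, hn'⟩ := hord k
        exact Or.inl ⟨n, hn, hn'.symm⟩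
      · obtain ⟨n, hn, hn'⟩ := hord k
        exact Or.inr ⟨n, hn, by rw [hn']⟩
    exact Set.Finite.subset (((Set.finite_Iio m).image _).union ((Set.finite_Iio m).image _)) hsub
  have hle : (Subgroup.closure {B, S} : Subgroup (Equiv.Perm Y)) ≤ G := by
    rw [Subgroup.closure_le]
    rintro f (rfl | rfl)
    · exact hBG
    · exact hSG
  exact (hGf.subset hle).to_subtype

/-- The equivalence classes of the relation generated by a set of permutations which generates a
finite group are finite. -/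
theorem eqvGen_finite_of_group {Y : Type*} (s : Set (Equiv.Perm Y))
    (h : Finite (Subgroup.closure s)) (y : Y) :
    {z | Relation.EqvGen (fun a b => ∃ f ∈ s, b = f a) y z}.Finite := by
  have hsub : {z | Relation.EqvGen (fun a b => ∃ f ∈ s, b = f a) y z} ⊆
      Set.range (fun f : Subgroup.closure s => (f : Equiv.Perm Y) y) := by
    intro z hz
    have key : ∀ a b, Relation.EqvGen (fun a b => ∃ f ∈ s, b = f a) a b →
        ∃ f ∈ Subgroup.closure s, b = f a := by
      intro a b hab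
      induction hab with
      | rel a b h =>
          obtain ⟨f, hf, hb⟩ := h
          exact ⟨f, Subgroup.subset_closure hf, hb⟩
      | refl a => exact ⟨1, Subgroup.one_mem _, rfl⟩
      | symm a b _ ih =>
          obtain ⟨f, hf, hb⟩ := ih
          exact ⟨f⁻¹, Subgroup.inv_mem _ hf, by rw [hb]; simp⟩
      | trans a b c _ _ ih1 ih2 =>
          obtain ⟨f, hf, hb⟩ := ih1
          obtain ⟨f', hf', hb'⟩ := ih2
          exact ⟨f' * f, Subgroup.mul_mem _ hf' hf, by rw [hb', hb]; rfl⟩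
    obtain ⟨f, hf, hb⟩ := key y z hz
    exact ⟨⟨f, hf⟩, hb.symm⟩
  exact Set.Finite.subset (Set.finite_range _) hsub

variable {D X : Type*}

/-- One step of the walk: through the vertex of the dart `d` and across the next edge. -/
def step (bar σ : Equiv.Perm D) (d : D) : D := bar (σ d)

/-- The holonomy of `n` steps of the walk from `d`. -/
def hol (bar σ : Equiv.Perm D) (g : D → Equiv.Perm X) : ℕ → D → Equiv.Perm X
  | 0, _ => 1
  | n + 1, d => g ((step bar σ)^[n] d) * hol bar σ g n d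

/-- The involution which exchanges the two ends of an edge. -/
def cross (bar : Equiv.Perm D) : Equiv.Perm (D × X) := Equiv.prodCongr bar (Equiv.refl X)

/-- The gluing at the vertex of a dart. -/
def glue (σ : Equiv.Perm D) (g : D → Equiv.Perm X) : Equiv.Perm (D × X) where
  toFun p := (σ p.1, g p.1 p.2)
  invFun p := (σ.symm p.1, (g (σ.symm p.1)).symm p.2)
  left_inv := by rintro ⟨d, x⟩; simp
  right_inv := by rintro ⟨d, x⟩; simp

theorem walk_pow (bar σ : Equiv.Perm D) (g : D → Equiv.Perm X) (n : ℕ) (d : D) (x : X) :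
    ((cross bar * glue σ g : Equiv.Perm (D × X)) ^ n) (d, x) = ((step bar σ)^[n] d, hol bar σ g n d x) := by
  induction n with
  | zero => rfl
  | succ n ih =>
      rw [pow_succ', Equiv.Perm.mul_apply, ih, Function.iterate_succ_apply']
      rfl

theorem hol_add (bar σ : Equiv.Perm D) (g : D → Equiv.Perm X) (n m : ℕ) (d : D) :
    hol bar σ g (n + m) d = hol bar σ g n ((step bar σ)^[m] d) * hol bar σ g m d := by
  induction n with
  | zero => simp [hol]
  | succ n ih =>
      rw [Nat.add_right_comm]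
      change g ((step bar σ)^[n + m] d) * hol bar σ g (n + m) d = _
      rw [ih, Function.iterate_add_apply, ← mul_assoc]
      rfl

theorem hol_mul (bar σ : Equiv.Perm D) (g : D → Equiv.Perm X) (n : ℕ) {d : D}
    (hd : (step bar σ)^[n] d = d) (k : ℕ) :
    hol bar σ g (n * k) d = hol bar σ g n d ^ k := by
  induction k with
  | zero => simp [hol]
  | succ k ih =>
      have e : (step bar σ)^[n] d = d := hd
      rw [Nat.mul_succ, add_comm, hol_add]
      have e2 : (step bar σ)^[n * k] d = d := by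
        rw [Function.iterate_mul]
        exact Function.iterate_fixed (f := (step bar σ)^[n]) hd k
      rw [e2, ih, pow_succ']

/-- **The classes of a chain are finite** if the holonomy of every closed walk has finite order.
-/
theorem walk_finite [Finite D] (bar σ : Equiv.Perm D) (hbar : bar * bar = 1) (hσ : σ * σ = 1)
    (g : D → Equiv.Perm X) (hg : ∀ d, g (σ d) = (g d)⁻¹)
    (H : ∀ d n, 0 < n → (step bar σ)^[n] d = d → ∃ k : ℕ, 0 < k ∧ hol bar σ g n d ^ k = 1) :
    Finite (Subgroup.closure {cross bar, glue σ g} : Subgroup (Equiv.Perm (D × X))) := by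
  classical
  have _ := Fintype.ofFinite D
  have hB : (cross bar : Equiv.Perm (D × X)) * cross bar = 1 := by
    refine Equiv.ext ?_
    rintro ⟨d, x⟩
    have h1 : bar (bar d) = d := by
      have := congrArg (fun f : Equiv.Perm D => f d) hbar
      simpa using this
    simp [cross, h1]
  have hS : (glue σ g : Equiv.Perm (D × X)) * glue σ g = 1 := by
    refine Equiv.ext ?_
    rintro ⟨d, x⟩
    have h1 : σ (σ d) = d := by
      have := congrArg (fun f : Equiv.Perm D => f d) hσ
      simpa using this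
    simp [glue, h1, hg]
  -- the walk on the darts has finite order
  set τ : Equiv.Perm D := bar * σ with hτ
  have hτs : ∀ n d, (step bar σ)^[n] d = (τ ^ n) d := by
    intro n
    induction n with
    | zero => intro d; rfl
    | succ n ih =>
        intro d
        rw [Function.iterate_succ_apply', ih, pow_succ', Equiv.Perm.mul_apply]
        rfl
  set N := orderOf τ with hN
  have hNpos : 0 < N := orderOf_pos τ
  have hNd : ∀ d, (step bar σ)^[N] d = d := by
    intro d
    rw [hτs, hN, pow_orderOf_eq_one]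
    rfl
  choose k hk hk' using fun d => H d N hNpos (hNd d)
  refine dihedral_finite (cross bar) (glue σ g) hB hS (m := N * ∏ d, k d)
    (Nat.mul_pos hNpos (Finset.prod_pos fun d _ => hk d)) ?_
  refine Equiv.ext ?_
  rintro ⟨d, x⟩
  rw [walk_pow]
  have e1 : (step bar σ)^[N * ∏ d, k d] d = d := by
    rw [Function.iterate_mul]
    exact Function.iterate_fixed (f := (step bar σ)^[N]) (hNd d) _
  have e2 : hol bar σ g (N * ∏ d, k d) d = 1 := by
    rw [hol_mul bar σ g N (hNd d)]
    obtain ⟨c, hc⟩ := Finset.dvd_prod_of_mem k (Finset.mem_univ d)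
    rw [hc, pow_mul, hk' d, one_pow]
  rw [e1, e2]
  rfl

/-- Holonomies of affine maps which preserve finite sets with at least two points (the critical
values of rational elliptic surfaces besides the polar fibre, which is at infinity). -/
theorem walk_finite_of_affine {K : Type*} [Field K] [Finite D] (bar σ : Equiv.Perm D)
    (hbar : bar * bar = 1) (hσ : σ * σ = 1) (g : D → Equiv.Perm K)
    (hg : ∀ d, g (σ d) = (g d)⁻¹) (a b : D → K) (ha : ∀ d, a d ≠ 0)
    (hab : ∀ d z, g d z = a d * z + b d) (S : D → Finset K) (hS : ∀ d, 2 ≤ (S d).card)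
    (hbarS : ∀ d, S (bar d) = S d) (hgS : ∀ d, ∀ z ∈ S d, g d z ∈ S (σ d)) :
    Finite (Subgroup.closure {cross bar, glue σ g} : Subgroup (Equiv.Perm (D × K))) := by
  refine walk_finite bar σ hbar hσ g hg ?_
  intro d n hn hd
  have haff : ∀ n d, ∃ a' b' : K, a' ≠ 0 ∧ ∀ z, hol bar σ g n d z = a' * z + b' := by
    intro n d
    induction n with
    | zero => exact ⟨1, 0, one_ne_zero, fun z => by simp [hol]⟩
    | succ n ih =>
        obtain ⟨a', b', ha', h'⟩ := ih
        refine ⟨a ((step bar σ)^[n] d) * a', a ((step bar σ)^[n] d) * b' +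
          b ((step bar σ)^[n] d), mul_ne_zero (ha _) ha', fun z => ?_⟩
        change g _ (hol bar σ g n d z) = _
        rw [h', hab]
        ring
  have hmem : ∀ n d, ∀ z ∈ S d, hol bar σ g n d z ∈ S ((step bar σ)^[n] d) := by
    intro n d
    induction n with
    | zero => intro z hz; exact hz
    | succ n ih =>
        intro z hz
        rw [Function.iterate_succ_apply']
        change g _ (hol bar σ g n d z) ∈ S (bar (σ _))
        rw [hbarS]
        exact hgS _ _ (ih z hz)
  obtain ⟨a', b', ha', h'⟩ := haff n d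
  obtain ⟨k, hk, hk'⟩ := affine_pow_eq_id (S d) (hS d)
  refine ⟨k, hk, Equiv.ext fun z => ?_⟩
  have e1 : (fun z : K => a' * z + b')^[k] = id := by
    refine hk' a' b' ?_ ha'
    intro z hz
    rw [← h' z]
    have := hmem n d z hz
    rwa [hd] at this
  have e2 : ∀ m : ℕ, ∀ z, ((hol bar σ g n d) ^ m) z = (fun z : K => a' * z + b')^[m] z := by
    intro m
    induction m with
    | zero => intro z; rfl
    | succ m ih =>
        intro z
        rw [pow_succ', Equiv.Perm.mul_apply, ih, Function.iterate_succ_apply', h']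
  rw [e2, e1]
  rfl

/-- The sign of a monomial map `z ↦ c z` (`false`) or `z ↦ c / z` (`true`). -/
def mono {K : Type*} [Field K] (c : Kˣ) : Bool → Equiv.Perm Kˣ
  | false => Equiv.mulLeft c
  | true => (Equiv.inv Kˣ).trans (Equiv.mulLeft c)

theorem mono_true_sq {K : Type*} [Field K] (c : Kˣ) : mono c true * mono c true = 1 := by
  refine Equiv.ext fun z => ?_
  simp [mono]

theorem mono_mul {K : Type*} [Field K] (c c' : Kˣ) (s s' : Bool) :
    mono c s * mono c' s' = mono (if s then c * c'⁻¹ else c * c') (s ^^ s') := by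
  refine Equiv.ext fun z => ?_
  cases s <;> cases s' <;> simp [mono, mul_comm]

/-- Holonomies of monomial maps `z ↦ c z` and `z ↦ c / z` of the multiplicative group (double
surfaces over an elliptic curve, the poles are at `0` and `∞`): the second kind are involutions,
so only the multipliers of the first kind have to be roots of unity. -/
theorem walk_finite_of_mono {K : Type*} [Field K] [Finite D] (bar σ : Equiv.Perm D)
    (hbar : bar * bar = 1) (hσ : σ * σ = 1) (g : D → Equiv.Perm Kˣ)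
    (hg : ∀ d, g (σ d) = (g d)⁻¹) (c : D → Kˣ) (s : D → Bool)
    (hgc : ∀ d, g d = mono (c d) (s d))
    (H : ∀ d n, 0 < n → (step bar σ)^[n] d = d → ∀ lam : Kˣ,
      hol bar σ g n d = mono lam false → ∃ k : ℕ, 0 < k ∧ lam ^ k = 1) :
    Finite (Subgroup.closure {cross bar, glue σ g} : Subgroup (Equiv.Perm (D × Kˣ))) := by
  refine walk_finite bar σ hbar hσ g hg ?_
  intro d n hn hd
  have hmono : ∀ n d, ∃ (lam : Kˣ) (t : Bool), hol bar σ g n d = mono lam t := by
    intro n d
    induction n with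
    | zero =>
        refine ⟨1, false, Equiv.ext fun z => ?_⟩
        simp [hol, mono]
    | succ n ih =>
        obtain ⟨lam, t, h⟩ := ih
        refine ⟨if s ((step bar σ)^[n] d) then c ((step bar σ)^[n] d) * lam⁻¹
            else c ((step bar σ)^[n] d) * lam, s ((step bar σ)^[n] d) ^^ t, ?_⟩
        change g _ * hol bar σ g n d = _
        rw [h, hgc, mono_mul]
  obtain ⟨lam, t, h⟩ := hmono n d
  cases t with
  | false =>
      obtain ⟨k, hk, hk'⟩ := H d n hn hd lam h
      refine ⟨k, hk, ?_⟩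
      rw [h]
      have e : ∀ m : ℕ, (mono lam false : Equiv.Perm Kˣ) ^ m = mono (lam ^ m) false := by
        intro m
        induction m with
        | zero => refine Equiv.ext fun z => ?_; simp [mono]
        | succ m ih =>
            rw [pow_succ', ih, mono_mul]
            simp [pow_succ']
      rw [e, hk']
      refine Equiv.ext fun z => ?_
      simp [mono]
  | true =>
      refine ⟨2, two_pos, ?_⟩
      rw [h, pow_two, mono_true_sq]

end SP1Dihedral

section SP1Gluing

/-- If every vertex has at most two darts, there is an involution of the darts which preserves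
the vertex and moves a dart exactly if its vertex has another dart. -/
theorem exists_swap {D J : Type*} (vert : D → J)
    (h : ∀ d a b, vert a = vert d → vert b = vert d → a ≠ d → b ≠ d → a = b) :
    ∃ σ : Equiv.Perm D, σ * σ = 1 ∧ (∀ d, vert (σ d) = vert d) ∧
      (∀ d a, vert a = vert d → a ≠ d → σ d = a) ∧
      (∀ d, (∀ a, vert a = vert d → a = d) → σ d = d) := by
  classical
  let f : D → D := fun d => if hd : ∃ a, vert a = vert d ∧ a ≠ d then hd.choose else d
  have f1 : ∀ d a, vert a = vert d → a ≠ d → f d = a := by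
    intro d a ha hne
    have hd : ∃ a, vert a = vert d ∧ a ≠ d := ⟨a, ha, hne⟩
    have e : f d = hd.choose := dif_pos hd
    rw [e]
    exact h d _ a hd.choose_spec.1 ha hd.choose_spec.2 hne
  have f2 : ∀ d, (∀ a, vert a = vert d → a = d) → f d = d := by
    intro d hd
    have hn : ¬ ∃ a, vert a = vert d ∧ a ≠ d := by
      rintro ⟨a, ha, hne⟩
      exact hne (hd a ha)
    exact dif_neg hn
  have f3 : ∀ d, f (f d) = d := by
    intro d
    by_cases hd : ∃ a, vert a = vert d ∧ a ≠ d
    · obtain ⟨a, ha, hne⟩ := hd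
      rw [f1 d a ha hne]
      exact f1 a d ha.symm (Ne.symm hne)
    · push Not at hd
      rw [f2 d hd, f2 d hd]
  have f4 : ∀ d, vert (f d) = vert d := by
    intro d
    by_cases hd : ∃ a, vert a = vert d ∧ a ≠ d
    · obtain ⟨a, ha, hne⟩ := hd
      rw [f1 d a ha hne, ha]
    · push Not at hd
      rw [f2 d hd]
  refine ⟨⟨f, f, f3, f3⟩, ?_, f4, f1, f2⟩
  refine Equiv.ext fun d => ?_
  exact f3 d

/-- A function with equal values at the ends of every edge is constant on a connected graph. -/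
theorem eq_of_connected {V R : Type*} (adj : V → V → Prop)
    (hconn : ∀ v w, Relation.EqvGen adj v w) (r : V → R) (h : ∀ v w, adj v w → r v = r w)
    (v w : V) : r v = r w := by
  induction hconn v w with
  | rel a b hab => exact h a b hab
  | refl a => rfl
  | symm a b _ ih => exact ih.symm
  | trans a b c _ _ ih1 ih2 => exact ih1.trans ih2

/-- **Chains over an elliptic curve.**  The base curves of the double surfaces of a chain are
`P^1` with the two poles `0` and `∞`, the gluing maps are monomial.  If for every closed walk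
whose holonomy is `z ↦ lam z` a positive power of `lam` is `exp (2 π i δ)`, where `δ • 1` is the
sum of a rational matrix and an element of `F^0` of `Hom (H^1(E)(-1), H^1(E))`, then the group
of the gluing is finite. -/
theorem walk_finite_of_hodge {D : Type*} [Finite D] (bar σ : Equiv.Perm D)
    (hbar : bar * bar = 1) (hσ : σ * σ = 1) (g : D → Equiv.Perm ℂˣ)
    (hg : ∀ d, g (σ d) = (g d)⁻¹) (c : D → ℂˣ) (s : D → Bool)
    (hgc : ∀ d, g d = mono (c d) (s d)) (w : Fin 2 → ℂ) (hw : w ≠ 0)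
    (H : ∀ d n, 0 < n → (step bar σ)^[n] d = d → ∀ lam : ℂˣ,
      hol bar σ g n d = mono lam false → ∃ (m : ℕ) (δ : ℂ) (R : Matrix (Fin 2) (Fin 2) ℚ)
        (F : Matrix (Fin 2) (Fin 2) ℂ), 0 < m ∧
        (lam : ℂ) ^ m = Complex.exp (2 * Real.pi * Complex.I * δ) ∧
        δ • (1 : Matrix (Fin 2) (Fin 2) ℂ) = R.map (fun q : ℚ => (q : ℂ)) + F ∧
        F.mulVec w = 0 ∧ ∀ v, ∃ a : ℂ, F.mulVec v = a • w) :
    Finite (Subgroup.closure {cross bar, glue σ g} : Subgroup (Equiv.Perm (D × ℂˣ))) := by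
  refine walk_finite_of_mono bar σ hbar hσ g hg c s hgc ?_
  intro d n hn hd lam hlam
  obtain ⟨m, δ, R, F, hm, he, hs, h0, him⟩ := H d n hn hd lam hlam
  obtain ⟨k, hk, hk'⟩ := root_of_split (by norm_num : 0 < 2) hw h0 him hs he
  refine ⟨m * k, Nat.mul_pos hm hk, Units.ext ?_⟩
  push_cast
  rw [pow_mul, hk']

/-- Finitely many sheets `P`, all identified with one set `X`, glued by maps in a finite group:
the classes are finite. -/
theorem classes_finite {P X : Type*} [Finite P] (G : Subgroup (Equiv.Perm X)) [Finite G]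
    (rel : P × X → P × X → Prop) (h : ∀ a b, rel a b → ∃ f ∈ G, b.2 = f a.2) (a : P × X) :
    {b | Relation.EqvGen rel a b}.Finite := by
  have key : ∀ a b, Relation.EqvGen rel a b → ∃ f ∈ G, b.2 = f a.2 := by
    intro a b hab
    induction hab with
    | rel a b hab => exact h a b hab
    | refl a => exact ⟨1, G.one_mem, rfl⟩
    | symm a b _ ih =>
        obtain ⟨f, hf, hb⟩ := ih
        exact ⟨f⁻¹, G.inv_mem hf, by rw [hb]; simp⟩
    | trans a b c _ _ ih1 ih2 =>
        obtain ⟨f, hf, hb⟩ := ih1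
        obtain ⟨f', hf', hb'⟩ := ih2
        exact ⟨f' * f, G.mul_mem hf' hf, by rw [hb', hb]; rfl⟩
  have hsub : {b | Relation.EqvGen rel a b} ⊆
      Set.range (fun q : P × G => ((q.1, (q.2 : Equiv.Perm X) a.2) : P × X)) := by
    rintro ⟨p, x⟩ hb
    obtain ⟨f, hf, hx⟩ := key a _ hb
    exact ⟨(p, ⟨f, hf⟩), Prod.ext rfl hx.symm⟩
  exact Set.Finite.subset (Set.finite_range _) hsub

/-- A point `t` such that `r t` is torsion, `r > 0`, is torsion. -/
theorem torsion_of_nsmul {A : Type*} [AddCommGroup A] {r : ℕ} (hr : 0 < r) {t : A}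
    (h : ∃ k : ℕ, 0 < k ∧ k • (r • t) = 0) : ∃ k : ℕ, 0 < k ∧ k • t = 0 := by
  obtain ⟨k, hk, h⟩ := h
  exact ⟨r * k, Nat.mul_pos hr hk, by rw [mul_nsmul, h]⟩

/-- **The case of positive degree.**  Finitely many sheets, each identified with the elliptic
curve `A` such that the line bundle becomes `r [0]` up to torsion; the gluing maps are
`x ↦ h x + t` with `h` in the finite group `H` of automorphisms, and they preserve the class of
the bundle up to torsion, so `r t` is torsion.  Then the classes are finite. -/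
theorem classes_finite_of_torsion {A P : Type*} [AddCommGroup A] [Finite P]
    (H : Set (A ≃+ A)) (hH : H.Finite) (H1 : AddEquiv.refl A ∈ H)
    (Hmul : ∀ k ∈ H, ∀ l ∈ H, l.trans k ∈ H) (Hinv : ∀ k ∈ H, k.symm ∈ H) {r : ℕ} (hr : 0 < r)
    {ι : Type*} [Finite ι] (h : ι → A ≃+ A) (hh : ∀ i, h i ∈ H) (t : ι → A)
    (ht : ∀ i, ∃ k : ℕ, 0 < k ∧ k • (r • t i) = 0)
    (rel : P × A → P × A → Prop) (hrel : ∀ a b, rel a b → ∃ i, b.2 = h i a.2 + t i)
    (a : P × A) : {b | Relation.EqvGen rel a b}.Finite := by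
  let g : ι → Equiv.Perm A := fun i => (h i).toEquiv.trans (Equiv.addRight (t i))
  have hfin := finite_of_torsion H hH H1 Hmul Hinv h hh t (fun i => torsion_of_nsmul hr (ht i)) g
    (fun i x => rfl)
  refine classes_finite (Subgroup.closure (Set.range g)) rel ?_ a
  intro a b hab
  obtain ⟨i, hi⟩ := hrel a b hab
  exact ⟨g i, Subgroup.subset_closure ⟨i, rfl⟩, hi⟩

end SP1Gluing

section SThreePure

/-- The splitting of the extension gives a rational matrix `R` such that `μ • 1 + R` is in `F^0`: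
it kills `w` and its image is in the line of `w`.  Then `exp (2 π i μ)` is a root of unity. -/
theorem root_of_unity_of_ret (mu : ℂ) (R : Matrix (Fin 2) (Fin 2) ℚ) (w : Fin 2 → ℂ) (hw : w ≠ 0)
    (h1 : (mu • (1 : Matrix (Fin 2) (Fin 2) ℂ) + R.map (fun q => (q : ℂ))).mulVec w = 0)
    (h2 : ∀ y, ∃ s : ℂ,
      (mu • (1 : Matrix (Fin 2) (Fin 2) ℂ) + R.map (fun q => (q : ℂ))).mulVec y = s • w) :
    ∃ k : ℕ, 0 < k ∧ Complex.exp (2 * Real.pi * Complex.I * mu) ^ k = 1 := by
  refine root_of_rational rfl ?_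
  refine rational_of_split (n := 2) (by norm_num) hw h1 h2 (R := -R) (δ := mu) ?_
  ext i j
  simp only [Matrix.add_apply, Matrix.map_apply, Matrix.neg_apply, Rat.cast_neg]
  ring

/-- The same without the hypothesis `w ≠ 0`: if `w = 0` then `μ • 1 = -R`. -/
theorem root_of_unity_of_ret' (mu : ℂ) (R : Matrix (Fin 2) (Fin 2) ℚ) (w : Fin 2 → ℂ)
    (h1 : (mu • (1 : Matrix (Fin 2) (Fin 2) ℂ) + R.map (fun q => (q : ℂ))).mulVec w = 0)
    (h2 : ∀ y, ∃ s : ℂ,
      (mu • (1 : Matrix (Fin 2) (Fin 2) ℂ) + R.map (fun q => (q : ℂ))).mulVec y = s • w) :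
    ∃ k : ℕ, 0 < k ∧ Complex.exp (2 * Real.pi * Complex.I * mu) ^ k = 1 := by
  by_cases hw : w = 0
  · refine root_of_rational rfl ⟨-(R 0 0), ?_⟩
    obtain ⟨s, hs⟩ := h2 (Pi.single 0 1)
    rw [hw, smul_zero, Matrix.mulVec_single_one] at hs
    have h := congrFun hs 0
    simp only [Matrix.col_apply, Matrix.add_apply, Matrix.smul_apply, Matrix.one_apply_eq,
      smul_eq_mul, mul_one, Matrix.map_apply, Pi.zero_apply] at h
    push_cast
    linear_combination h
  · exact root_of_unity_of_ret mu R w hw h1 h2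

/-- Finitely many maps `x ↦ l x + t` of an abelian group, the linear parts in a finite group `U`
of automorphisms and the translations torsion: the classes of the relation which they generate are
finite. -/
theorem finite_classes {E ι : Type*} [AddCommGroup E] [Finite ι] (U : Set (E ≃+ E))
    (hU : U.Finite) (h1 : AddEquiv.refl E ∈ U) (hmul : ∀ k ∈ U, ∀ l ∈ U, l.trans k ∈ U)
    (hinv : ∀ k ∈ U, k.symm ∈ U) (lin : ι → E ≃+ E) (hl : ∀ i, lin i ∈ U) (t : ι → E)
    (ht : ∀ i, ∃ k : ℕ, 0 < k ∧ k • t i = 0) (x : E) :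
    {y | Relation.EqvGen (fun x y => ∃ i, y = lin i x + t i) x y}.Finite := by
  let g : ι → Equiv.Perm E := fun i => (lin i).toEquiv.trans (Equiv.addRight (t i))
  have hfin := finite_of_torsion U hU h1 hmul hinv lin hl t ht g (fun i x => rfl)
  have h2 := eqvGen_finite_of_group (Set.range g) hfin x
  refine h2.subset ?_
  intro y hy
  have key : ∀ a b, Relation.EqvGen (fun x y => ∃ i, y = lin i x + t i) a b →
      Relation.EqvGen (fun a b => ∃ f ∈ Set.range g, b = f a) a b := by
    intro a b hab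
    induction hab with
    | rel a b h =>
        obtain ⟨i, hi⟩ := h
        exact Relation.EqvGen.rel _ _ ⟨g i, ⟨i, rfl⟩, hi⟩
    | refl a => exact Relation.EqvGen.refl a
    | symm a b _ ih => exact Relation.EqvGen.symm _ _ ih
    | trans a b c _ _ ih1 ih2 => exact Relation.EqvGen.trans _ _ _ ih1 ih2
  exact key x y hy

/-- `finite_classes` for a finite subgroup of `AddAut E` (an additive group in Mathlib, the sum is
the composition). -/
theorem finite_classes' {E ι : Type*} [AddCommGroup E] [Finite ι] (U : AddSubgroup (AddAut E))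
    (hU : (U : Set (AddAut E)).Finite) (lin : ι → AddAut E) (hl : ∀ i, lin i ∈ U) (t : ι → E)
    (ht : ∀ i, ∃ k : ℕ, 0 < k ∧ k • t i = 0) (x : E) :
    {y | Relation.EqvGen (fun x y => ∃ i, y = lin i x + t i) x y}.Finite :=
  finite_classes (U : Set (AddAut E)) hU U.zero_mem (fun _ hk _ hl => U.add_mem hk hl)
    (fun _ hk => U.neg_mem hk) lin hl t ht x

end SThreePure

section SKerN

/-- The homology of `X_t` and its limit periods. -/
structure LimH3 where
  /-- `H_3(X_t, ℚ)` -/
  H : Type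
  [grp : AddCommGroup H]
  [mod : Module ℚ H]
  [fin : FiniteDimensional ℚ H]
  /-- `h^(3,0) = h^(0,3) = 1`, `h^(2,1) = h^(1,2) = 2` -/
  dim : Module.finrank ℚ H = 6
  /-- the logarithm of the monodromy -/
  N : H →ₗ[ℚ] H
  /-- there is no point where four components meet -/
  cube : N ∘ₗ N ∘ₗ N = 0
  /-- type III: `N² ≠ 0` is an isomorphism from `Gr_5` to `Gr_1`, and the Hodge number `h^(3,2)` of
  `Gr_5` is one, since the only Hodge numbers of `Gr_5` are `h^(3,2) = h^(2,3)` -/
  square : 2 ≤ Module.finrank ℚ (LinearMap.range (N ∘ₗ N))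
  /-- the limits of the periods of the holomorphic 3-forms over invariant cycles -/
  per : LinearMap.ker N →ₗ[ℚ] ℂ
  /-- the periods of the elliptic curve `E` -/
  w : Fin 2 → ℂ
  /-- the periods generate a lattice -/
  indep : LinearIndependent ℝ w
  /-- the products of the 1-cycles of a triple curve with its vanishing torus are invariant cycles -/
  torus : (Fin 2 → ℚ) →ₗ[ℚ] LinearMap.ker N
  /-- the triple residue of the holomorphic 3-form is the invariant differential of `E` -/
  per_torus : ∀ c, per (torus c) = (2 * Real.pi * Complex.I) ^ 2 * (c 0 * w 0 + c 1 * w 1)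

attribute [instance] LimH3.grp LimH3.mod LimH3.fin

namespace LimH3

variable (L : LimH3)

/-- the kernel of `N` has dimension at most two -/
theorem finrank_ker_le : Module.finrank ℚ (LinearMap.ker L.N) ≤ 2 := by
  have h1 := LinearMap.finrank_range_add_finrank_ker L.N
  rw [L.dim] at h1
  -- the restriction of `N` to its image
  have h2 := LinearMap.finrank_range_add_finrank_ker (L.N.domRestrict (LinearMap.range L.N))
  have h3 : LinearMap.range (L.N.domRestrict (LinearMap.range L.N)) =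
      LinearMap.range (L.N ∘ₗ L.N) := by
    ext x
    constructor
    · rintro ⟨⟨_, y, rfl⟩, rfl⟩
      exact ⟨y, rfl⟩
    · rintro ⟨y, rfl⟩
      exact ⟨⟨L.N y, y, rfl⟩, rfl⟩
  rw [h3] at h2
  have h4 : Module.finrank ℚ (LinearMap.range (L.N ∘ₗ L.N)) ≤
      Module.finrank ℚ (LinearMap.ker (L.N.domRestrict (LinearMap.range L.N))) := by
    let f : LinearMap.range (L.N ∘ₗ L.N) →ₗ[ℚ]
        LinearMap.ker (L.N.domRestrict (LinearMap.range L.N)) :=
      { toFun := fun x => ⟨⟨x.1, by
          obtain ⟨y, hy⟩ := x.2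
          exact ⟨L.N y, hy⟩⟩, by
          obtain ⟨y, hy⟩ := x.2
          rw [LinearMap.mem_ker]
          change L.N x.1 = 0
          rw [← hy]
          exact LinearMap.congr_fun L.cube y⟩
        map_add' := fun x y => rfl
        map_smul' := fun c x => rfl }
    refine LinearMap.finrank_le_finrank_of_injective (f := f) ?_
    intro x y hxy
    have h5 := congrArg (fun z => z.1.1) hxy
    exact Subtype.ext h5
  have h5 := L.square
  omega

/-- rational combinations of the periods -/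
theorem coeff_zero {c : Fin 2 → ℚ} (h : (c 0 : ℂ) * L.w 0 + c 1 * L.w 1 = 0) : c = 0 := by
  have h1 := (Fintype.linearIndependent_iff (R := ℝ) (v := L.w)).1 L.indep (fun i => (c i : ℝ)) (by
    rw [Fin.sum_univ_two, Complex.real_smul, Complex.real_smul]
    push_cast
    exact h)
  funext i
  exact_mod_cast h1 i

theorem two_pi_I_sq_ne : (2 * Real.pi * Complex.I : ℂ) ^ 2 ≠ 0 :=
  pow_ne_zero 2 Complex.two_pi_I_ne_zero

theorem torus_injective : Function.Injective L.torus := by
  rw [← LinearMap.ker_eq_bot, LinearMap.ker_eq_bot']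
  intro c hc
  have h1 := L.per_torus c
  rw [hc, map_zero] at h1
  exact L.coeff_zero ((mul_eq_zero.1 h1.symm).resolve_left two_pi_I_sq_ne)

/-- the products with the vanishing torus span the kernel of `N` -/
theorem torus_surjective : Function.Surjective L.torus := by
  have h1 : Module.finrank ℚ (Fin 2 → ℚ) = Module.finrank ℚ (LinearMap.ker L.N) := by
    refine le_antisymm (LinearMap.finrank_le_finrank_of_injective L.torus_injective) ?_
    rw [Module.finrank_fin_fun]
    exact L.finrank_ker_le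
  exact (LinearMap.injective_iff_surjective_of_finrank_eq_finrank h1).1 L.torus_injective

/-- **Limit periods of invariant cycles.** -/
theorem exists_per (z : LinearMap.ker L.N) :
    ∃ a b : ℚ, L.per z = (2 * Real.pi * Complex.I) ^ 2 * (a * L.w 0 + b * L.w 1) := by
  obtain ⟨c, rfl⟩ := L.torus_surjective z
  exact ⟨c 0, c 1, L.per_torus c⟩

theorem exists_coeff {z : LinearMap.ker L.N} {u : ℂ}
    (h : L.per z = (2 * Real.pi * Complex.I) ^ 2 * u) : ∃ a b : ℚ, u = a * L.w 0 + b * L.w 1 := by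
  obtain ⟨a, b, hab⟩ := L.exists_per z
  rw [h] at hab
  exact ⟨a, b, mul_left_cancel₀ two_pi_I_sq_ne hab⟩

/-- If the limit period of an invariant cycle (the circle bundle of a 2-cycle of a double surface) is
`(2 π i)² u`, where `u` represents the Abel-Jacobi image of a line bundle of degree zero on `E`, then
this line bundle is torsion. -/
theorem torsion {z : LinearMap.ker L.N} {u : ℂ}
    (h : L.per z = (2 * Real.pi * Complex.I) ^ 2 * u) :
    ∃ n : ℕ, 0 < n ∧ ∃ a b : ℤ, (n : ℂ) * u = a * L.w 0 + b * L.w 1 := by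
  obtain ⟨a, b, hab⟩ := L.exists_coeff h
  refine ⟨a.den * b.den, Nat.mul_pos a.den_pos b.den_pos, a.num * b.den, b.num * a.den, ?_⟩
  have ha : (a : ℂ) * a.den = a.num := by exact_mod_cast Rat.mul_den_eq_num a
  have hb : (b : ℂ) * b.den = b.num := by exact_mod_cast Rat.mul_den_eq_num b
  rw [hab]
  push_cast
  linear_combination (b.den : ℂ) * L.w 0 * ha + (a.den : ℂ) * L.w 1 * hb

/-- `E` has no complex multiplication, and `lam = exp (2 π i δ)` is the multiplier of a closed walk of
double surfaces: the 3-cycles which are swept out by the annuli over the 1-cycles of `E` with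
periods `w₁`, `w₂` are invariant and have limit periods `(2 π i)² δ w_i`. Then `δ` is rational. -/
theorem rational (hcm : ∀ a b c : ℚ, (a : ℂ) * L.w 1 ^ 2 + b * (L.w 0 * L.w 1) + c * L.w 0 ^ 2 = 0 →
    a = 0) {δ : ℂ} (z : Fin 2 → LinearMap.ker L.N)
    (hz : ∀ i, L.per (z i) = (2 * Real.pi * Complex.I) ^ 2 * (δ * L.w i)) : ∃ q : ℚ, δ = q := by
  obtain ⟨a, b, hab⟩ := L.exists_coeff (hz 0)
  obtain ⟨c, d, hcd⟩ := L.exists_coeff (hz 1)
  have h : (b : ℂ) * L.w 1 ^ 2 + ((a - d : ℚ) : ℂ) * (L.w 0 * L.w 1) +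
      ((-c : ℚ) : ℂ) * L.w 0 ^ 2 = 0 := by
    push_cast
    linear_combination L.w 0 * hcd - L.w 1 * hab
  have hb : b = 0 := hcm b (a - d) (-c) h
  have h0 : L.w 0 ≠ 0 := by
    intro h0
    have h1 : (fun i : Fin 2 => if i = 0 then (1 : ℚ) else 0) = 0 := L.coeff_zero (by simp [h0])
    have h2 := congrFun h1 0
    simp at h2
  refine ⟨a, mul_right_cancel₀ h0 ?_⟩
  rw [hab, hb]
  simp

/-- the multiplier is a root of unity -/
theorem root_of_unity (hcm : ∀ a b c : ℚ,
    (a : ℂ) * L.w 1 ^ 2 + b * (L.w 0 * L.w 1) + c * L.w 0 ^ 2 = 0 → a = 0) {lam δ : ℂ} {m : ℕ}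
    (hm : 0 < m) (hlam : lam ^ m = Complex.exp (2 * Real.pi * Complex.I * δ))
    (z : Fin 2 → LinearMap.ker L.N)
    (hz : ∀ i, L.per (z i) = (2 * Real.pi * Complex.I) ^ 2 * (δ * L.w i)) :
    ∃ k : ℕ, 0 < k ∧ lam ^ k = 1 := by
  obtain ⟨q, hq⟩ := L.rational hcm z hz
  refine ⟨m * q.den, Nat.mul_pos hm q.den_pos, ?_⟩
  rw [pow_mul, hlam, ← Complex.exp_nat_mul, hq, Complex.exp_eq_one_iff]
  refine ⟨q.num, ?_⟩
  have h1 : (q : ℂ) * q.den = q.num := by exact_mod_cast Rat.mul_den_eq_num q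
  linear_combination (2 * Real.pi * Complex.I : ℂ) * h1

end LimH3

end SKerN

section SThree

namespace Periods

variable (D : Periods)

/-- the linear form given by the limit periods -/
noncomputable def form : (Fin 6 → ℚ) →ₗ[ℚ] ℂ where
  toFun v := ∑ i, (v i : ℂ) * D.om i
  map_add' v w := by
    rw [← Finset.sum_add_distrib]
    refine Finset.sum_congr rfl fun i _ => ?_
    rw [Pi.add_apply, Rat.cast_add, add_mul]
  map_smul' c v := by
    rw [Finset.smul_sum]
    refine Finset.sum_congr rfl fun i _ => ?_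
    rw [Pi.smul_apply, smul_eq_mul, Rat.cast_mul, mul_assoc, RingHom.id_apply, Rat.smul_def]

/-- the data of the kernel of the monodromy logarithm -/
noncomputable def lim : LimH3 where
  H := Fin 6 → ℚ
  dim := by simp
  N := D.M.mulVecLin
  cube := by
    rw [← Matrix.mulVecLin_mul, ← Matrix.mulVecLin_mul, ← mul_assoc]
    have h : D.M * D.M * D.M = 0 := by
      rw [← D.cube, pow_succ, pow_succ, pow_one]
    rw [h]
    exact Matrix.mulVecLin_zero
  square := by
    rw [← Matrix.mulVecLin_mul]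
    have h := D.two
    rw [pow_two] at h
    exact h
  per := D.form ∘ₗ (LinearMap.ker D.M.mulVecLin).subtype
  w := ![D.w1, D.w2]
  indep := by
    rw [Fintype.linearIndependent_iff]
    intro g hg
    rw [Fin.sum_univ_two, Complex.real_smul, Complex.real_smul] at hg
    obtain ⟨h0, h1⟩ := D.indep (g 0) (g 1) hg
    intro i
    fin_cases i
    · exact h0
    · exact h1
  torus :=
    { toFun := fun c => ⟨c 0 • D.c1 + c 1 • D.c2, by
        rw [LinearMap.mem_ker, map_add, map_smul, map_smul, Matrix.mulVecLin_apply,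
          Matrix.mulVecLin_apply, D.inv1, D.inv2, smul_zero, smul_zero, add_zero]⟩
      map_add' := fun x y => by
        apply Subtype.ext
        simp only [Pi.add_apply, add_smul, Submodule.coe_add]
        abel
      map_smul' := fun r x => by
        apply Subtype.ext
        simp only [Pi.smul_apply, smul_eq_mul, mul_smul, RingHom.id_apply,
          Submodule.coe_smul, smul_add] }
  per_torus := by
    intro c
    change D.form (c 0 • D.c1 + c 1 • D.c2) = _
    rw [map_add, map_smul, map_smul]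
    have h1 : D.form D.c1 = (2 * Real.pi * Complex.I) ^ 2 * D.w1 := D.per1
    have h2 : D.form D.c2 = (2 * Real.pi * Complex.I) ^ 2 * D.w2 := D.per2
    rw [h1, h2, Rat.smul_def, Rat.smul_def]
    simp only [Matrix.cons_val_zero, Matrix.cons_val_one]
    ring

/-- all limit periods of invariant classes are in the span of the periods of `E` -/
theorem per (c : ℂ) (hc : D.Per c) : Span D.w1 D.w2 (c / (2 * Real.pi * Complex.I) ^ 2) := by
  obtain ⟨v, hv, rfl⟩ := hc
  obtain ⟨a, b, hab⟩ := D.lim.exists_per ⟨v, hv⟩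
  refine ⟨a, b, ?_⟩
  rw [div_eq_iff (pow_ne_zero _ Complex.two_pi_I_ne_zero), mul_comm]
  exact hab

end Periods

section Orbit

variable {X : Type} (A B : Equiv.Perm X)

/-- If `A` and `B` are involutions and all points are periodic for `A B`, then the classes of the
equivalence relation generated by `A` and `B` are finite. -/
theorem finite_of_periodic (hA : ∀ x, A (A x) = x) (hB : ∀ x, B (B x) = x)
    (hT : ∀ x, ∃ n : ℕ, 0 < n ∧ ((A * B) ^ n) x = x) (x : X) :
    {y | Relation.EqvGen (fun x y => y = A x ∨ y = B x) x y}.Finite := by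
  -- the orbits of `A B` are finite
  have hfin : ∀ x, {y | ∃ k : ℤ, y = ((A * B) ^ k) x}.Finite := by
    intro x
    obtain ⟨n, hn, hnx⟩ := hT x
    have hn0 : (n : ℤ) ≠ 0 := by omega
    refine (Set.finite_range fun i : Fin n => ((A * B) ^ (i : ℕ)) x).subset ?_
    rintro y ⟨k, rfl⟩
    have h0 := Int.emod_nonneg k hn0
    have h1 := Int.emod_lt_of_pos k (Int.natCast_pos.2 hn)
    obtain ⟨r, hr⟩ := Int.eq_ofNat_of_zero_le h0
    have hrn : r < n := by
      rw [hr] at h1
      exact_mod_cast h1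
    refine ⟨⟨r, hrn⟩, ?_⟩
    have hk : k = r + n * (k / n) := by
      have h2 := Int.emod_add_mul_ediv k n
      have hr' : k % (n : ℤ) = (r : ℤ) := hr
      rw [hr'] at h2
      exact h2.symm
    have h3 : ((A * B) ^ ((n : ℤ) * (k / n))) x = x := by
      rw [zpow_mul]
      refine Equiv.Perm.zpow_apply_eq_self_of_apply_eq_self ?_ _
      rw [zpow_natCast]
      exact hnx
    change ((A * B) ^ r) x = ((A * B) ^ k) x
    rw [hk, zpow_add, Equiv.Perm.mul_apply, h3, zpow_natCast]
  have hAA : A * A = 1 := Equiv.ext hA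
  have hBB : B * B = 1 := Equiv.ext hB
  have hAi : A⁻¹ = A := inv_eq_of_mul_eq_one_left hAA
  have hBi : B⁻¹ = B := inv_eq_of_mul_eq_one_left hBB
  have hconj : A * (A * B) * A⁻¹ = (A * B)⁻¹ := by
    rw [mul_inv_rev, hAi, hBi, ← mul_assoc, hAA, one_mul]
  have hpow : ∀ k : ℤ, A * (A * B) ^ k = (A * B) ^ (-k) * A := by
    intro k
    have h : A * (A * B) ^ k * A⁻¹ = (A * B) ^ (-k) := by
      rw [← conj_zpow, hconj, inv_zpow, zpow_neg]
    rw [← h, inv_mul_cancel_right]
  have hB' : B = A * (A * B) := by rw [← mul_assoc, hAA, one_mul]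
  -- the set of the elements of both orbits is closed
  have hclosed : ∀ z y, (y = A z ∨ y = B z) →
      ((∃ k : ℤ, z = ((A * B) ^ k) x) ∨ ∃ k : ℤ, z = ((A * B) ^ k) (A x)) →
      ((∃ k : ℤ, y = ((A * B) ^ k) x) ∨ ∃ k : ℤ, y = ((A * B) ^ k) (A x)) := by
    intro z y hy hz
    have hstep : ∀ w (k : ℤ), A (((A * B) ^ k) w) = ((A * B) ^ (-k)) (A w) := by
      intro w k
      have := congrArg (fun e : Equiv.Perm X => e w) (hpow k)
      simpa [Equiv.Perm.mul_apply] using this
    have hstepB : ∀ w (k : ℤ), B (((A * B) ^ k) w) = ((A * B) ^ (-(1 + k))) (A w) := by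
      intro w k
      have h1 : B (((A * B) ^ k) w) = A (((A * B) ^ (1 + k)) w) := by
        rw [zpow_add, zpow_one, Equiv.Perm.mul_apply, Equiv.Perm.mul_apply, hA]
      rw [h1, hstep]
    rcases hy with rfl | rfl
    · rcases hz with ⟨k, rfl⟩ | ⟨k, rfl⟩
      · exact Or.inr ⟨-k, hstep x k⟩
      · refine Or.inl ⟨-k, ?_⟩
        rw [hstep, hA]
    · rcases hz with ⟨k, rfl⟩ | ⟨k, rfl⟩
      · exact Or.inr ⟨-(1 + k), hstepB x k⟩
      · refine Or.inl ⟨-(1 + k), ?_⟩
        rw [hstepB, hA]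
  have hiff : ∀ z y, Relation.EqvGen (fun x y => y = A x ∨ y = B x) z y →
      (((∃ k : ℤ, z = ((A * B) ^ k) x) ∨ ∃ k : ℤ, z = ((A * B) ^ k) (A x)) ↔
      ((∃ k : ℤ, y = ((A * B) ^ k) x) ∨ ∃ k : ℤ, y = ((A * B) ^ k) (A x))) := by
    intro z y h
    induction h with
    | rel z y h =>
      refine ⟨hclosed z y h, hclosed y z ?_⟩
      rcases h with rfl | rfl
      · exact Or.inl (hA z).symm
      · exact Or.inr (hB z).symm
    | refl z => exact Iff.rfl
    | symm z y _ ih => exact ih.symm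
    | trans z y w _ _ ih1 ih2 => exact ih1.trans ih2
  refine ((hfin x).union (hfin (A x))).subset ?_
  intro y hy
  exact (hiff x y hy).1 (Or.inl ⟨0, by simp⟩)

end Orbit

namespace Bands

variable {D : Periods} {Map : Prop} (W : Bands D Map)

/-- the permutation `(f, z) ↦ (alpha f, z)` -/
def A : Equiv.Perm (W.F × ℂ) where
  toFun x := (W.alpha x.1, x.2)
  invFun x := (W.alpha x.1, x.2)
  left_inv x := by simp [W.alpha_alpha]
  right_inv x := by simp [W.alpha_alpha]

/-- the permutation `(f, z) ↦ (beta f, phi f z)` -/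
def B : Equiv.Perm (W.F × ℂ) where
  toFun x := (W.beta x.1, W.phi x.1 x.2)
  invFun x := (W.beta x.1, W.phi x.1 x.2)
  left_inv x := by simp [W.beta_beta, W.phi_beta]
  right_inv x := by simp [W.beta_beta, W.phi_beta]

lemma A_apply (x : W.F × ℂ) : W.A x = (W.alpha x.1, x.2) := rfl

lemma B_apply (x : W.F × ℂ) : W.B x = (W.beta x.1, W.phi x.1 x.2) := rfl

lemma AB_apply (x : W.F × ℂ) : (W.A * W.B) x = (W.alpha (W.beta x.1), W.phi x.1 x.2) := rfl

/-- the permutation `alpha beta` of the set of flags -/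
def sig : Equiv.Perm W.F where
  toFun f := W.alpha (W.beta f)
  invFun f := W.beta (W.alpha f)
  left_inv f := by simp [W.alpha_alpha, W.beta_beta]
  right_inv f := by simp [W.alpha_alpha, W.beta_beta]

lemma pow_fst (n : ℕ) (x : W.F × ℂ) : (((W.A * W.B) ^ n) x).1 = (W.sig ^ n) x.1 := by
  induction n with
  | zero => rfl
  | succ n ih =>
    rw [pow_succ' (W.A * W.B), pow_succ' W.sig]
    change W.alpha (W.beta (((W.A * W.B) ^ n) x).1) = W.sig ((W.sig ^ n) x.1)
    rw [ih]
    rfl

lemma rat_sig {f : W.F} (h : W.Rat f) (n : ℕ) : W.Rat ((W.sig ^ n) f) := by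
  induction n with
  | zero => exact h
  | succ n ih =>
    rw [pow_succ', Equiv.Perm.mul_apply]
    exact W.rat_alpha _ (W.rat_beta _ ih)

lemma not_rat_sig {f : W.F} (h : ¬ W.Rat f) (n : ℕ) : ¬ W.Rat ((W.sig ^ n) f) := by
  induction n with
  | zero => exact h
  | succ n ih =>
    rw [pow_succ', Equiv.Perm.mul_apply]
    intro h'
    apply ih
    have h1 := W.rat_beta _ (W.rat_alpha _ h')
    have e : W.beta (W.alpha (W.sig ((W.sig ^ n) f))) = (W.sig ^ n) f := by
      change W.beta (W.alpha (W.alpha (W.beta ((W.sig ^ n) f)))) = _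
      rw [W.alpha_alpha, W.beta_beta]
    rwa [e] at h1

/-- rational surfaces: all maps are affine -/
lemma pow_affine {f : W.F} (h : W.Rat f) (n : ℕ) :
    ∃ a b : ℂ, ∀ z, (((W.A * W.B) ^ n) (f, z)).2 = a * z + b := by
  induction n with
  | zero => exact ⟨1, 0, fun z => by simp⟩
  | succ n ih =>
    obtain ⟨a, b, hab⟩ := ih
    obtain ⟨c, d, hcd⟩ := W.affine _ (W.rat_sig h n)
    refine ⟨c * a, c * b + d, fun z => ?_⟩
    rw [pow_succ', Equiv.Perm.mul_apply, W.AB_apply]
    change W.phi (((W.A * W.B) ^ n) (f, z)).1 (((W.A * W.B) ^ n) (f, z)).2 = _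
    rw [W.pow_fst, hcd, hab]
    ring

/-- irrational surfaces: all maps are multiples of `z` or of `1/z` -/
lemma pow_mono {f : W.F} (h : ¬ W.Rat f) (n : ℕ) :
    ∃ c : ℂ, c ≠ 0 ∧ ((∀ z, (((W.A * W.B) ^ n) (f, z)).2 = c * z) ∨
      ∀ z, (((W.A * W.B) ^ n) (f, z)).2 = c / z) := by
  induction n with
  | zero => exact ⟨1, one_ne_zero, Or.inl fun z => by simp⟩
  | succ n ih =>
    obtain ⟨c, hc, hab⟩ := ih
    obtain ⟨d, hd, hcd⟩ := W.mono _ (W.not_rat_sig h n)
    have e : ∀ z, (((W.A * W.B) ^ (n + 1)) (f, z)).2 =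
        W.phi ((W.sig ^ n) f) (((W.A * W.B) ^ n) (f, z)).2 := by
      intro z
      rw [pow_succ', Equiv.Perm.mul_apply, W.AB_apply]
      change W.phi (((W.A * W.B) ^ n) (f, z)).1 (((W.A * W.B) ^ n) (f, z)).2 = _
      rw [W.pow_fst]
    rcases hab with hab | hab <;> rcases hcd with hcd | hcd
    · refine ⟨d * c, mul_ne_zero hd hc, Or.inl fun z => ?_⟩
      rw [e, hab, hcd, mul_assoc]
    · refine ⟨d / c, div_ne_zero hd hc, Or.inr fun z => ?_⟩
      rw [e, hab, hcd, div_div]
    · refine ⟨d * c, mul_ne_zero hd hc, Or.inr fun z => ?_⟩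
      rw [e, hab, hcd, mul_div_assoc]
    · refine ⟨d / c, div_ne_zero hd hc, Or.inl fun z => ?_⟩
      rw [e, hab, hcd, div_div_eq_mul_div, div_mul_eq_mul_div]

lemma A_A (x : W.F × ℂ) : W.A (W.A x) = x := by
  simp [A_apply, W.alpha_alpha]

lemma B_B (x : W.F × ℂ) : W.B (W.B x) = x := by
  simp [B_apply, W.beta_beta, W.phi_beta]

/-- An injective map of a finite set into itself. -/
lemma periodic_of_finite {X : Type} (T : Equiv.Perm X) (S : Set X) (hS : S.Finite)
    (hT : ∀ x ∈ S, T x ∈ S) (x : X) (hx : x ∈ S) : ∃ n : ℕ, 0 < n ∧ (T ^ n) x = x := by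
  have hmem : ∀ n : ℕ, (T ^ n) x ∈ S := by
    intro n
    induction n with
    | zero => exact hx
    | succ n ih =>
      rw [pow_succ', Equiv.Perm.mul_apply]
      exact hT _ ih
  obtain ⟨i, j, hij, he⟩ : ∃ i j : ℕ, i < j ∧ (T ^ i) x = (T ^ j) x := by
    have hni : ¬ Function.Injective fun n : ℕ => (T ^ n) x := by
      intro hinj
      refine Set.infinite_range_of_injective hinj (hS.subset ?_)
      rintro _ ⟨n, rfl⟩
      exact hmem n
    rw [Function.not_injective_iff] at hni
    obtain ⟨i, j, h, hne⟩ := hni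
    rcases Nat.lt_or_gt_of_ne hne with hlt | hlt
    · exact ⟨i, j, hlt, h⟩
    · exact ⟨j, i, hlt, h.symm⟩
  obtain ⟨k, rfl⟩ := Nat.exists_eq_add_of_lt hij
  refine ⟨k + 1, Nat.succ_pos k, ?_⟩
  have e : T ^ (i + k + 1) = T ^ i * T ^ (k + 1) := by rw [← pow_add, add_assoc]
  rw [e, Equiv.Perm.mul_apply] at he
  exact ((T ^ i).injective he).symm

lemma pow_mul_fix {X : Type} (T : Equiv.Perm X) (x : X) (n k : ℕ) (h : (T ^ n) x = x) :
    (T ^ (n * k)) x = x := by
  induction k with
  | zero => simp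
  | succ k ih => rw [Nat.mul_succ, pow_add, Equiv.Perm.mul_apply, h, ih]

/-- rational surfaces -/
lemma periodic_rat {f : W.F} (h : W.Rat f) (z : ℂ) :
    ∃ n : ℕ, 0 < n ∧ ((W.A * W.B) ^ n) (f, z) = (f, z) := by
  classical
  have := W.fin
  let S : Set (W.F × ℂ) := {x | W.Rat x.1 ∧ x.2 ∈ W.crit x.1}
  have hS : S.Finite := by
    have h1 : (⋃ g : W.F, (fun z : ℂ => (g, z)) '' (W.crit g : Set ℂ)).Finite :=
      Set.finite_iUnion fun g => (W.crit g).finite_toSet.image _
    refine h1.subset ?_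
    rintro ⟨g, w⟩ ⟨_, hw⟩
    exact Set.mem_iUnion.2 ⟨g, w, hw, rfl⟩
  have hT : ∀ x ∈ S, (W.A * W.B) x ∈ S := by
    rintro ⟨g, w⟩ ⟨hg, hw⟩
    refine ⟨W.rat_alpha _ (W.rat_beta _ hg), ?_⟩
    change W.phi g w ∈ W.crit (W.alpha (W.beta g))
    rw [W.crit_alpha]
    exact W.crit_beta g hg w hw
  obtain ⟨c, d, hc, hd, hcd⟩ := Finset.one_lt_card_iff.1 (Nat.lt_of_succ_le (W.crit_two f h))
  obtain ⟨n, hn, hcn⟩ := periodic_of_finite (W.A * W.B) S hS hT (f, c) ⟨h, hc⟩
  obtain ⟨m, hm, hdm⟩ := periodic_of_finite (W.A * W.B) S hS hT (f, d) ⟨h, hd⟩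
  have hcN := pow_mul_fix _ _ n m hcn
  have hdN := pow_mul_fix _ _ m n hdm
  rw [mul_comm m n] at hdN
  obtain ⟨a, b, hab⟩ := W.pow_affine h (n * m)
  refine ⟨n * m, Nat.mul_pos hn hm, ?_⟩
  have h1 : a * c + b = c := by rw [← hab c, hcN]
  have h2 : a * d + b = d := by rw [← hab d, hdN]
  have ha : a = 1 := by
    have h3 : (a - 1) * (c - d) = 0 := by linear_combination h1 - h2
    rcases mul_eq_zero.1 h3 with h4 | h4
    · exact sub_eq_zero.1 h4
    · exact absurd (sub_eq_zero.1 h4) hcd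
  have hb : b = 0 := by rw [ha] at h1; linear_combination h1
  have hfst : (((W.A * W.B) ^ (n * m)) (f, z)).1 = f := by
    rw [W.pow_fst]
    have := W.pow_fst (n * m) (f, c)
    rw [hcN] at this
    exact this.symm
  have hsnd : (((W.A * W.B) ^ (n * m)) (f, z)).2 = z := by rw [hab, ha, hb]; ring
  exact Prod.ext hfst hsnd

/-- the multiplier of a closed sequence is a root of unity -/
lemma root (f : W.F) (n : ℕ) (lam : ℂ) (hf : ¬ W.Rat f) (hn : 0 < n)
    (hin : ∀ k : ℕ, W.In ((fun f => W.alpha (W.beta f))^[k] f))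
    (hz : ∀ z, (fun x : W.F × ℂ => (W.alpha (W.beta x.1), W.phi x.1 x.2))^[n] (f, z) =
      (f, lam * z)) : ∃ k : ℕ, 0 < k ∧ lam ^ k = 1 := by
  obtain ⟨mu, m, hm, he, h1, h2⟩ := W.cyc f n lam hf hn hin hz
  have hpi : (2 * Real.pi * Complex.I : ℂ) ≠ 0 := Complex.two_pi_I_ne_zero
  have hm0 : (m : ℂ) ≠ 0 := by exact_mod_cast hm.ne'
  have key : ∀ w : ℂ, D.Per (2 * Real.pi * Complex.I * (mu / m * w)) →
      Span D.w1 D.w2 (mu / m / (2 * Real.pi * Complex.I) * w) := by
    intro w hw
    have h3 := D.per _ hw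
    have e : 2 * Real.pi * Complex.I * (mu / m * w) / (2 * Real.pi * Complex.I) ^ 2 =
        mu / m / (2 * Real.pi * Complex.I) * w := by
      field_simp
    rwa [e] at h3
  obtain ⟨q, hq⟩ := D.noCM (mu / m / (2 * Real.pi * Complex.I)) (key _ h1) (key _ h2)
  refine ⟨(m * q : ℚ).den, (m * q : ℚ).pos, ?_⟩
  have h3 : mu = ((m * q : ℚ) : ℂ) * (2 * Real.pi * Complex.I) := by
    rw [div_eq_iff hpi, div_eq_iff hm0] at hq
    rw [hq]
    push_cast
    ring
  rw [← he, ← Complex.exp_nat_mul, h3, Complex.exp_eq_one_iff]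
  refine ⟨(m * q : ℚ).num, ?_⟩
  have h5 := Rat.mul_den_eq_num (m * q : ℚ)
  have h6 : (((m * q : ℚ) * ((m * q : ℚ).den : ℚ) : ℚ) : ℂ) =
      (((m * q : ℚ).num : ℚ) : ℂ) := by
    rw [h5]
  rw [Rat.cast_mul] at h6
  rw [← mul_assoc, mul_comm (((m * q : ℚ).den : ℂ))]
  congr 1

/-- irrational surfaces -/
lemma periodic_irrat {f : W.F} (h : ¬ W.Rat f) (z : ℂ) :
    ∃ n : ℕ, 0 < n ∧ ((W.A * W.B) ^ n) (f, z) = (f, z) := by
  classical
  have := W.fin
  let N := orderOf W.sig
  have hN : 0 < N := orderOf_pos W.sig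
  have hN1 : W.sig ^ N = 1 := pow_orderOf_eq_one W.sig
  have hfst : ∀ g w, (((W.A * W.B) ^ N) (g, w)).1 = g := by
    intro g w
    rw [W.pow_fst, hN1]
    rfl
  -- the inversion has order two
  have hinv : ∀ g c, c ≠ 0 → (∀ w, (((W.A * W.B) ^ N) (g, w)).2 = c / w) →
      ∀ w, ((W.A * W.B) ^ (N * 2)) (g, w) = (g, w) := by
    intro g c hc hg w
    have e : ∀ w, ((W.A * W.B) ^ N) (g, w) = (g, c / w) := fun w =>
      Prod.ext (hfst g w) (hg w)
    rw [Nat.mul_succ, Nat.mul_one, pow_add, Equiv.Perm.mul_apply, e, e]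
    congr 1
    by_cases hw : w = 0
    · rw [hw]; simp
    · field_simp
  obtain ⟨c, hc, hm | hm⟩ := W.pow_mono h N
  · by_cases hin : ∀ k : ℕ, W.In ((W.sig ^ k) f)
    · -- all vertices are inner
      have hk : ∀ (k : ℕ) (x : W.F × ℂ),
          (fun x : W.F × ℂ => (W.alpha (W.beta x.1), W.phi x.1 x.2))^[k] x =
            ((W.A * W.B) ^ k) x := by
        intro k x
        induction k generalizing x with
        | zero => rfl
        | succ k ih =>
          rw [Function.iterate_succ, Function.comp_apply, ih, pow_succ, Equiv.Perm.mul_apply]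
          rfl
      have hs : ∀ (k : ℕ), (fun f => W.alpha (W.beta f))^[k] f = (W.sig ^ k) f := by
        intro k
        induction k with
        | zero => rfl
        | succ k ih => rw [Function.iterate_succ', Function.comp_apply, ih, pow_succ']; rfl
      obtain ⟨k, hk0, hk1⟩ := W.root f N c h hN (fun k => by rw [hs]; exact hin k) (fun w => by
        rw [hk]
        exact Prod.ext (hfst f w) (hm w))
      refine ⟨N * k, Nat.mul_pos hN hk0, ?_⟩
      have e : ∀ j : ℕ, ((W.A * W.B) ^ (N * j)) (f, z) = (f, c ^ j * z) := by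
        intro j
        induction j with
        | zero => simp
        | succ j ih =>
          rw [Nat.mul_succ, add_comm, pow_add, Equiv.Perm.mul_apply, ih]
          refine Prod.ext (hfst f _) ?_
          rw [hm]
          change c * (c ^ j * z) = c ^ (j + 1) * z
          ring
      rw [e, hk1, one_mul]
    · -- a boundary vertex
      push Not at hin
      obtain ⟨k, hk⟩ := hin
      have hgr := W.not_rat_sig h k
      -- it is a fold
      have hfold : W.beta ((W.sig ^ k) f) = (W.sig ^ k) f := by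
        by_contra hne
        exact hk (W.link _ hgr hne)
      obtain ⟨a, haa, hneg⟩ := W.fold _ hgr hfold hk
      have hkey : ∀ w, ((W.A * W.B) ^ (N * 2)) ((W.sig ^ k) f, w) = ((W.sig ^ k) f, w) := by
        generalize (W.sig ^ k) f = g at hk hgr hfold hneg
        obtain ⟨c', hc', hm' | hm'⟩ := W.pow_mono hgr N
        · intro w
          have e : ∀ w, ((W.A * W.B) ^ N) (g, w) = (g, c' * w) := fun w =>
            Prod.ext (hfst g w) (hm' w)
          have hBg : ∀ w, W.B (g, w) = (g, a * w) := by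
            intro w
            rw [W.B_apply]
            change (W.beta g, W.phi g w) = _
            rw [hfold, hneg]
          -- conjugation by `B`
          have hBB : W.B * W.B = 1 := Equiv.ext W.B_B
          have hAA : W.A * W.A = 1 := Equiv.ext W.A_A
          have hBi : W.B⁻¹ = W.B := inv_eq_of_mul_eq_one_left hBB
          have hAi : W.A⁻¹ = W.A := inv_eq_of_mul_eq_one_left hAA
          have hconj : W.B * (W.A * W.B) * W.B⁻¹ = (W.A * W.B)⁻¹ := by
            rw [mul_inv_rev, hAi, hBi, mul_assoc, mul_assoc, hBB, mul_one]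
          have hconjN : W.B * (W.A * W.B) ^ N * W.B⁻¹ = ((W.A * W.B) ^ N)⁻¹ := by
            rw [← conj_pow, hconj, inv_pow]
          have h1 : (W.B * (W.A * W.B) ^ N * W.B⁻¹) (g, w) = (g, c' * w) := by
            rw [hBi, Equiv.Perm.mul_apply, Equiv.Perm.mul_apply, hBg, e, hBg]
            congr 1
            linear_combination (c' * w) * haa
          rw [hconjN, Equiv.Perm.inv_eq_iff_eq] at h1
          rw [Nat.mul_succ, Nat.mul_one, pow_add, Equiv.Perm.mul_apply, e, ← h1]
        · exact hinv g c' hc' hm'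
      refine ⟨N * 2, Nat.mul_pos hN two_pos, ?_⟩
      have h2 : ((W.A * W.B) ^ k) (f, z) = ((W.sig ^ k) f, (((W.A * W.B) ^ k) (f, z)).2) :=
        Prod.ext (W.pow_fst k (f, z)) rfl
      have h3 := hkey (((W.A * W.B) ^ k) (f, z)).2
      rw [← h2, ← Equiv.Perm.mul_apply, ← pow_add, add_comm, pow_add,
        Equiv.Perm.mul_apply] at h3
      exact ((W.A * W.B) ^ k).injective h3
  · exact ⟨N * 2, Nat.mul_pos hN two_pos, hinv f c hc hm z⟩

include W in

/-- The relation is finite. -/
theorem result : Map := by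
  refine W.glue fun x => ?_
  have h := finite_of_periodic W.A W.B W.A_A W.B_B (fun y => by
    obtain ⟨f, z⟩ := y
    by_cases hf : W.Rat f
    · exact W.periodic_rat hf z
    · exact W.periodic_irrat hf z) x
  exact h

end Bands

/-- The relation is finite: a finitely generated group of maps `x ↦ ± x + t` with torsion
translations is finite. -/
theorem Moves.result {E : Type} [AddCommGroup E] {r : ℤ} {Map : Prop} (hr : 0 < r)
    (M : Moves E r Map) : Map := by
  have := M.fin
  refine M.glue fun x => ?_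
  have ht : ∀ i, ∃ k : ℕ, 0 < k ∧ k • M.t i = 0 := by
    intro i
    obtain ⟨k, hk, h⟩ := M.keep i
    obtain ⟨n, rfl⟩ := Int.eq_ofNat_of_zero_le hr.le
    have hn : 0 < n := by exact_mod_cast hr
    refine ⟨k * n, Nat.mul_pos hk hn, ?_⟩
    rw [mul_smul]
    simpa using h
  have h := finite_classes ({AddEquiv.refl E, AddEquiv.neg E} : Set (E ≃+ E))
    (Set.toFinite _) (by simp) (by
      intro k hk l hl
      simp only [Set.mem_insert_iff, Set.mem_singleton_iff] at hk hl ⊢
      rcases hk with rfl | rfl <;> rcases hl with rfl | rfl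
      · left; rfl
      · right; rfl
      · right; rfl
      · left
        ext y
        simp) (by
      intro k hk
      simp only [Set.mem_insert_iff, Set.mem_singleton_iff] at hk ⊢
      rcases hk with rfl | rfl
      · left; rfl
      · right
        ext y
        rfl)
    (fun i => if M.sgn i then AddEquiv.refl E else AddEquiv.neg E) (by
      intro i
      by_cases hi : M.sgn i <;> simp [hi]) M.t ht x
  have e : (fun x y => ∃ i, y = (if M.sgn i then AddEquiv.refl E else AddEquiv.neg E) x + M.t i) =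
      fun x y => ∃ i, y = if M.sgn i then x + M.t i else M.t i - x := by
    funext x y
    apply propext
    constructor
    · rintro ⟨i, hi⟩
      refine ⟨i, ?_⟩
      by_cases hs : M.sgn i
      · simpa [hs] using hi
      · rw [if_neg hs] at hi ⊢
        rw [hi, AddEquiv.neg_apply]
        abel
    · rintro ⟨i, hi⟩
      refine ⟨i, ?_⟩
      by_cases hs : M.sgn i
      · simpa [hs] using hi
      · rw [if_neg hs] at hi ⊢
        rw [hi, AddEquiv.neg_apply]
        abel
  rwa [e] at h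

section Span

variable {w1 w2 : ℂ}

lemma Span.add {x y : ℂ} (hx : Span w1 w2 x) (hy : Span w1 w2 y) : Span w1 w2 (x + y) := by
  obtain ⟨a, b, rfl⟩ := hx
  obtain ⟨c, d, rfl⟩ := hy
  exact ⟨a + c, b + d, by push_cast; ring⟩

lemma Span.neg {x : ℂ} (hx : Span w1 w2 x) : Span w1 w2 (-x) := by
  obtain ⟨a, b, rfl⟩ := hx
  exact ⟨-a, -b, by push_cast; ring⟩

lemma Span.sub {x y : ℂ} (hx : Span w1 w2 x) (hy : Span w1 w2 y) : Span w1 w2 (x - y) := by
  rw [sub_eq_add_neg]
  exact hx.add hy.neg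

end Span

namespace Fibre

variable {P : Type} [AddCommGroup P] {q : P → P → ℤ} {A : P} {Semi : P → Prop} {L : P}
  (G : Fibre q A Semi L)

/-- the period of an invariant class of this form is in the span -/
lemma span_of_per {x : ℂ} (h : ∃ s, Span G.D.w1 G.D.w2 s ∧
    G.D.Per ((2 * Real.pi * Complex.I) ^ 2 * (x + s))) : Span G.D.w1 G.D.w2 x := by
  obtain ⟨s, hs, hp⟩ := h
  have h1 := G.D.per _ hp
  have hpi : ((2 * Real.pi * Complex.I) ^ 2 : ℂ) ≠ 0 := pow_ne_zero _ Complex.two_pi_I_ne_zero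
  rw [mul_div_cancel_left₀ _ hpi] at h1
  have h2 := h1.sub hs
  rwa [add_sub_cancel_right] at h2

/-- the degrees on the triple curves are equal -/
theorem deg_const (p p' : G.T) : G.deg p = G.deg p' := by
  induction G.conn p p' with
  | refl => rfl
  | tail _ h ih =>
    obtain ⟨e, h1, h2⟩ := h
    rw [ih]
    exact G.level e _ _ h1 h2

/-- **Lemma T.** If the degrees are zero, the restriction of `N` to every triple curve is torsion. -/
theorem torsion (h0 : ∀ p, G.deg p = 0) (p : G.T) : Span G.D.w1 G.D.w2 (G.aj p) := by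
  classical
  obtain ⟨e, he⟩ := G.bdy
  obtain ⟨p0, hp0⟩ := G.tri e
  have h1 : Span G.D.w1 G.D.w2 (G.aj p0) :=
    G.span_of_per (G.aj_one e p0 hp0 (fun p' hp' => he p' p0 hp' hp0) (h0 p0))
  induction G.conn p0 p with
  | refl => exact h1
  | tail _ h ih =>
    rename_i b c _
    obtain ⟨e', hb, hc⟩ := h
    by_cases hbc : b = c
    · rwa [← hbc]
    · have h2 := G.span_of_per (G.aj_two e' b c hb hc hbc (h0 b) (h0 c))
      have h3 := ih.sub h2
      rwa [sub_sub_cancel] at h3

/-- there is a morphism to a curve -/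
theorem exists_map (hact : ∃ e, G.act e) : G.Map := by
  classical
  -- the products with the movable class are zero
  have hnn : ∀ v, G.nn v = 0 := by
    intro v
    exact (Finset.sum_eq_zero_iff_of_nonneg fun v _ => G.nn_nonneg v).1 G.nn_sum v
      (Finset.mem_univ v)
  have hfib : (∀ e, G.act e → G.Pen e) → ∀ e v, G.In e v → G.act e → G.Fib v := by
    intro hpen e v hev hae
    refine G.fib v ⟨e, hev, hae⟩ (fun n hn => ?_) fun e' _ h' => hpen e' h'
    have h1 := G.psef v n hn
    have h2 := G.nd_pos e v hev hae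
    rw [hnn, mul_zero] at h1
    linarith
  obtain ⟨e0, he0⟩ := hact
  obtain ⟨p0, hp0⟩ := G.tri e0
  have hconst : ∀ p, G.deg p = G.deg p0 := fun p => G.deg_const p p0
  rcases (G.deg_nonneg p0).eq_or_lt with h0 | hpos
  · -- degree zero
    have hz : ∀ p, G.deg p = 0 := fun p => by rw [hconst, ← h0]
    have hpen : ∀ e, G.act e → G.Pen e := by
      intro e hae
      obtain ⟨n, hn, hle⟩ := G.onto e hae fun p _ => ⟨hz p, G.torsion hz p⟩
      have h2 := G.rr e n hae (fun p _ => hz p) hn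
      exact G.pen_zero e n hae hn (by omega)
    obtain ⟨W⟩ := G.zero hz hpen (hfib hpen) ⟨e0, he0⟩
    exact W.result
  · -- positive degree
    have hact : ∀ e, G.act e := by
      intro e
      obtain ⟨p, hp⟩ := G.tri e
      exact G.act_of e p hp (by rw [hconst]; exact hpos)
    have hpen : ∀ e, G.Pen e := by
      intro e
      obtain ⟨p, hp⟩ := G.tri e
      exact G.pen_pos e p hp (by rw [hconst]; exact hpos)
    obtain ⟨E, _, ⟨M⟩⟩ := G.pos (G.deg p0) hpos hconst hpen fun e v hev =>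
      hfib (fun e _ => hpen e) e v hev (hact e)
    exact M.result hpos

/-- A multiple of `L` is semiample on the special fibre of a suitable model. -/
theorem result (hact : ∃ e, G.act e) (add : ∀ x y z, q (x + y) z = q x z + q y z)
    (symm : ∀ x y, q x y = q y x) (index : ∀ x, q x A = 0 → q x x = 0 → x = 0)
    (semi_mul : ∀ L (k : ℕ), 0 < k → Semi (k • L) → Semi L) (hLL : q L L = 0)
    (hLA : 0 < q L A) : Semi L := by
  obtain ⟨M, hM, hMM, hML, hMA⟩ := G.lift (G.exists_map hact)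
  -- the form is bilinear
  have hz : ∀ z, q 0 z = 0 := fun z => by
    have h := add 0 0 z
    rw [add_zero] at h
    linarith
  have hn : ∀ (n : ℕ) x z, q (n • x) z = n * q x z := by
    intro n x z
    induction n with
    | zero => rw [zero_smul, hz]; simp
    | succ n ih => rw [succ_nsmul, add, ih]; push_cast; ring
  have hneg : ∀ x z, q (-x) z = -q x z := by
    intro x z
    have h := add x (-x) z
    rw [add_neg_cancel, hz] at h
    linarith
  obtain ⟨a, ha⟩ := Int.eq_ofNat_of_zero_le hLA.le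
  obtain ⟨c, hc⟩ := Int.eq_ofNat_of_zero_le hMA.le
  have ha0 : 0 < a := by rw [ha] at hLA; exact_mod_cast hLA
  have hc0 : 0 < c := by rw [hc] at hMA; exact_mod_cast hMA
  -- Hodge index theorem
  have hx : a • M + -(c • L) = 0 := by
    apply index
    · rw [add, hneg, hn, hn, ha, hc]
      ring
    · have h1 : q (a • M + -(c • L)) (a • M + -(c • L)) =
          a * (a * q M M) - 2 * (a * (c * q M L)) + c * (c * q L L) := by
        rw [add, hneg, hn, hn, symm M, symm L, add, add, hneg, hneg, hn, hn, hn, hn, symm L M]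
        ring
      rw [h1, hMM, hML, hLL]
      ring
  have hac : a • M = c • L := by
    rw [← sub_eq_add_neg, sub_eq_zero] at hx
    exact hx
  apply semi_mul L c hc0
  rw [← hac]
  exact hM a ha0

end Fibre

end SThree

section SVert

open Filter Topology

namespace VertGerm

variable {P Lam : Type} [AddCommGroup P] [AddCommGroup Lam] {g : Germ P Lam} {NefG Nonzero : P → Prop}
  {N : Type} [NormedAddCommGroup N] [NormedSpace ℝ N] (S : VertGerm g NefG Nonzero N)

theorem tf_eq' (x : Lam) (t : Option (Fin S.n) → ℝ) : S.tf x t =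
    S.cl x - ∑ i, (t (some i) - t none) • S.cl (S.V i) + (0 : ℝ) • S.H := by
  rw [S.tf_eq, S.tw_eq]

/-- the intersection number with a curve in a double surface as a linear form -/
noncomputable def lin (mu : g.Mo) (C : S.CurD mu) : N →ₗ[ℝ] ℝ where
  toFun := S.degD mu C
  map_add' := S.degD_add mu C
  map_smul' := S.degD_smul mu C

theorem deg_tf (mu : g.Mo) (C : S.CurD mu) (x : Lam) (t : Option (Fin S.n) → ℝ) :
    S.degD mu C (S.tf x t) =
      S.degD mu C (S.cl x) - ∑ i, (t (some i) - t none) * S.degD mu C (S.cl (S.V i)) := by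
  change S.lin mu C (S.tf x t) =
    S.lin mu C (S.cl x) - ∑ i, (t (some i) - t none) * S.lin mu C (S.cl (S.V i))
  simp only [S.tf_eq', map_add, map_sub, map_sum, map_smul, smul_eq_mul, zero_mul, add_zero]

/-- all vertical coefficients for which the class is movable -/
def KK (x : Lam) : Set (Option (Fin S.n) → ℝ) := {t | S.tf x t ∈ S.Mov}

theorem continuous_tf (x : Lam) : Continuous fun t => S.tf x t := by
  simp only [S.tf_eq']
  fun_prop

theorem isClosed_KK (x : Lam) : IsClosed (S.KK x) := S.closed.preimage (S.continuous_tf x)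

theorem tf_add_const (x : Lam) (t : Option (Fin S.n) → ℝ) (c : ℝ) :
    S.tf x (fun i => t i + c) = S.tf x t := by
  rw [S.tf_eq, S.tf_eq]
  congr 1
  funext i
  ring

theorem tf_comb (x : Lam) (t t' : Option (Fin S.n) → ℝ) (a b : ℝ) (hab : a + b = 1) :
    S.tf x (a • t + b • t') = a • S.tf x t + b • S.tf x t' := by
  rw [S.tf_eq', S.tf_eq', S.tf_eq']
  have h1 : ∑ i, ((a • t + b • t') (some i) - (a • t + b • t') none) • S.cl (S.V i) =
      a • ∑ i, (t (some i) - t none) • S.cl (S.V i) +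
        b • ∑ i, (t' (some i) - t' none) • S.cl (S.V i) := by
    rw [Finset.smul_sum, Finset.smul_sum, ← Finset.sum_add_distrib]
    refine Finset.sum_congr rfl fun i _ => ?_
    rw [smul_smul, smul_smul, ← add_smul]
    congr 1
    simp only [Pi.add_apply, Pi.smul_apply, smul_eq_mul]
    ring
  rw [h1]
  have h2 : S.cl x = a • S.cl x + b • S.cl x := by rw [← add_smul, hab, one_smul]
  simp only [zero_smul, add_zero, smul_sub]
  nth_rewrite 1 [h2]
  abel

theorem convex_KK (x : Lam) : Convex ℝ (S.KK x) := by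
  intro t ht t' ht' a b ha hb hab
  change S.tf x (a • t + b • t') ∈ S.Mov
  rw [S.tf_comb x t t' a b hab]
  exact S.add_mem _ _ (S.smul_mem a _ ha ht) (S.smul_mem b _ hb ht')

/-- there are movable extensions -/
theorem nonempty_KK (x : Lam) (hx : NefG (g.rho x)) : (S.KK x).Nonempty := by
  obtain ⟨s, hs⟩ := S.exists_real x hx
  refine ⟨fun i => match i with | some i => s i | none => 0, ?_⟩
  change S.tf x _ ∈ S.Mov
  have h1 : ∀ n : ℕ, S.tw x s (1 / ((n : ℝ) + 1)) ∈ S.Mov := fun n =>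
    hs (1 / ((n : ℝ) + 1)) (by positivity)
  have h2 : Tendsto (fun n : ℕ => S.tw x s (1 / ((n : ℝ) + 1))) atTop (𝓝 (S.tw x s 0)) := by
    simp only [S.tw_eq]
    refine Tendsto.add tendsto_const_nhds ?_
    exact (tendsto_one_div_add_atTop_nhds_zero_nat).smul_const _
  have h3 := S.closed.mem_of_tendsto h2 (Eventually.of_forall h1)
  have h4 : S.tf x (fun i => match i with | some i => s i | none => 0) =
      S.tw x s 0 := by
    rw [S.tf_eq]
    simp only [sub_zero]
  rw [h4]
  exact h3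

/-- movable extensions are nef on some model -/
theorem exists_nef (x : Lam) (hx : NefG (g.rho x)) (t : Option (Fin S.n) → ℝ) (ht : t ∈ S.KK x) :
    ∃ mu, S.NefR mu (S.tf x t) := by
  have h1 : ∀ d : ℝ, 0 < d → S.tw x (fun i => t (some i) - t none) d ∈ S.Mov := by
    intro d hd
    have h2 := S.add_mem _ _ ht (S.smul_mem d S.H hd.le S.H_mem)
    rw [S.tf_eq'] at h2
    rw [S.tw_eq]
    rw [zero_smul, add_zero] at h2
    exact h2
  rcases S.mmp x _ hx h1 with ⟨mu, hmu⟩ | ⟨⟨R⟩⟩
  · exact ⟨mu, by rw [S.tf_eq]; exact hmu⟩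
  · exact R.false.elim

/-- the least element with `k`-th coefficient zero -/
theorem exists_least (x : Lam) (hx : NefG (g.rho x)) (k : Option (Fin S.n)) :
    ∃ t ∈ S.KK x, t k = 0 ∧ ∀ t' ∈ S.KK x, t' k = 0 → t ≤ t' := by
  classical
  -- the set is compact
  obtain ⟨T, hT⟩ : ∃ T : Set (Option (Fin S.n) → ℝ), T = {t | t ∈ S.KK x ∧ t k = 0} := ⟨_, rfl⟩
  have hclosed : IsClosed T := by
    rw [hT]
    exact (S.isClosed_KK x).inter (isClosed_eq (continuous_apply k) continuous_const)
  obtain ⟨c, hc⟩ := (S.isBounded_K x 0).exists_norm_le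
  have hbd : Bornology.IsBounded T := by
    refine isBounded_iff_forall_norm_le.2 ⟨2 * |c|, fun t ht => ?_⟩
    rw [hT] at ht
    have h1 : ‖fun i => t (some i) - t none‖ ≤ c := by
      refine hc _ ?_
      have h0 := ht.1
      change S.tf x t ∈ S.Mov at h0
      rw [S.tf_eq] at h0
      exact h0
    have h2 : ∀ i, |t (some i) - t none| ≤ |c| := fun i =>
      ((norm_le_pi_norm (fun i => t (some i) - t none) i).trans h1).trans (le_abs_self c)
    have h3 : |t none| ≤ |c| := by
      cases hk : k with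
      | none =>
        have := ht.2
        rw [hk] at this
        rw [this, abs_zero]
        exact abs_nonneg c
      | some i =>
        have h4 := h2 i
        have h5 := ht.2
        rw [hk] at h5
        rw [h5, zero_sub, abs_neg] at h4
        exact h4
    refine (pi_norm_le_iff_of_nonneg (by positivity)).2 fun j => ?_
    rw [Real.norm_eq_abs]
    cases j with
    | none => linarith [abs_nonneg c]
    | some i =>
      have h4 := h2 i
      have h5 : t (some i) = (t (some i) - t none) + t none := by ring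
      rw [h5]
      exact (abs_add_le _ _).trans (by linarith)
  have hcomp : IsCompact T := Metric.isCompact_of_isClosed_isBounded hclosed hbd
  have hne : T.Nonempty := by
    obtain ⟨t, ht⟩ := S.nonempty_KK x hx
    refine ⟨fun i => t i + (- t k), ?_⟩
    rw [hT]
    refine ⟨?_, by simp⟩
    change S.tf x _ ∈ S.Mov
    rw [S.tf_add_const]
    exact ht
  obtain ⟨t, ht, hmin⟩ := hcomp.exists_isMinOn hne
    (f := fun t : Option (Fin S.n) → ℝ => ∑ i, t i) (by fun_prop)
  rw [hT] at ht
  refine ⟨t, ht.1, ht.2, fun t' ht' hk' => ?_⟩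
  have h1 : (fun i => min (t i) (t' i)) ∈ T := by
    rw [hT]
    refine ⟨S.inf_mem x t t' ht.1 ht', ?_⟩
    change min (t k) (t' k) = 0
    rw [ht.2, hk', min_self]
  have h2 : ∑ i, t i ≤ ∑ i, min (t i) (t' i) := hmin h1
  by_contra hle
  rw [Pi.le_def] at hle
  push Not at hle
  obtain ⟨i, hi⟩ := hle
  have h3 : ∑ i, min (t i) (t' i) < ∑ i, t i :=
    Finset.sum_lt_sum (fun j _ => min_le_left _ _)
      ⟨i, Finset.mem_univ i, by rw [min_eq_right hi.le]; exact hi⟩
  exact absurd h2 (not_le.2 h3)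

/-- **Step 1.** Some nef extension is not trivial on all double surfaces. -/
theorem exists_pos_real (x : Lam) (hx : NefG (g.rho x)) (hbig : Nonzero (g.rho x)) :
    ∃ mu t, S.NefR mu (S.tf x t) ∧ ∃ C, S.degD mu C (S.tf x t) ≠ 0 := by
  classical
  by_contra hcon
  push Not at hcon
  -- the least elements can be lowered
  have h1 : ∀ k, ∃ t ∈ S.KK x, ∃ t' ∈ S.KK x, t' k < t k ∧ ∀ i, i ≠ k → t' i = t i := by
    intro k
    obtain ⟨t, ht, htk, hleast⟩ := S.exists_least x hx k
    refine ⟨t, ht, ?_⟩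
    by_contra hno
    push Not at hno
    obtain ⟨mu, hmu⟩ := S.exists_nef x hx t ht
    obtain ⟨j, hj⟩ := S.not_null mu x t hbig hmu
    refine hj (S.cover mu x t j hmu ?_ (hcon mu t hmu))
    intro t' hlt heq hmem
    by_cases hjk : j = k
    · subst hjk
      obtain ⟨i, hi, hne⟩ := hno t' hmem hlt
      exact hne (heq i hi)
    · have h2 := hleast t' hmem (by rw [heq k (Ne.symm hjk)]; exact htk) j
      linarith
  -- the set has interior points
  have h2 : affineSpan ℝ (S.KK x) = ⊤ := by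
    obtain ⟨t0, ht0⟩ := S.nonempty_KK x hx
    have hdir : (affineSpan ℝ (S.KK x)).direction = ⊤ := by
      rw [eq_top_iff]
      intro v _
      have hv : v = ∑ k, v k • Pi.single k (1 : ℝ) := by
        funext j
        simp [Finset.sum_apply, Pi.single_apply]
      rw [hv]
      refine Submodule.sum_mem _ fun k _ => Submodule.smul_mem _ _ ?_
      obtain ⟨t, ht, t', ht', hlt, heq⟩ := h1 k
      have h3 := AffineSubspace.vsub_mem_direction (subset_affineSpan ℝ _ ht)
        (subset_affineSpan ℝ _ ht')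
      have h4 : t -ᵥ t' = (t k - t' k) • Pi.single k (1 : ℝ) := by
        funext j
        rw [vsub_eq_sub, Pi.sub_apply, Pi.smul_apply, smul_eq_mul]
        by_cases hjk : j = k
        · subst hjk
          rw [Pi.single_eq_same, mul_one]
        · rw [heq j hjk, Pi.single_eq_of_ne hjk]
          ring
      rw [h4] at h3
      have h5 := Submodule.smul_mem (affineSpan ℝ (S.KK x)).direction (t k - t' k)⁻¹ h3
      rw [smul_smul, inv_mul_cancel₀ (sub_pos.2 hlt).ne', one_smul] at h5
      exact h5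
    exact (AffineSubspace.direction_eq_top_iff_of_nonempty
      ⟨t0, subset_affineSpan ℝ _ ht0⟩).1 hdir
  have h3 : (interior (S.KK x)).Nonempty :=
    ((S.convex_KK x).interior_nonempty_iff_affineSpan_eq_top).2 h2
  -- one model is good for an open set
  obtain ⟨mu, U, hUo, hUne, hU⟩ : ∃ (mu : g.Mo) (U : Set (Option (Fin S.n) → ℝ)), IsOpen U ∧
      U.Nonempty ∧ ∀ t ∈ U, S.NefR mu (S.tf x t) := by
    have := S.cnt
    have : BaireSpace (interior (S.KK x)) := isOpen_interior.baireSpace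
    have : Nonempty (interior (S.KK x)) := h3.to_subtype
    obtain ⟨mu, hmu⟩ := nonempty_interior_of_iUnion_of_closed
      (f := fun mu : g.Mo => {t : interior (S.KK x) | S.NefR mu (S.tf x t)})
      (fun mu => (S.nef_closed mu).preimage
        ((S.continuous_tf x).comp continuous_subtype_val)) (by
        rw [Set.eq_univ_iff_forall]
        rintro ⟨t, ht⟩
        obtain ⟨mu, hmu⟩ := S.exists_nef x hx t (interior_subset ht)
        exact Set.mem_iUnion.2 ⟨mu, hmu⟩)
    refine ⟨mu, Subtype.val '' interior {t : interior (S.KK x) |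
      S.NefR mu (S.tf x t)}, ?_, hmu.image _, ?_⟩
    · exact isOpen_interior.isOpenMap_subtype_val _ isOpen_interior
    · rintro _ ⟨t, ht, rfl⟩
      have h4 : t ∈ {t : interior (S.KK x) | S.NefR mu (S.tf x t)} :=
        interior_subset ht
      exact h4
  -- all components are trivial on the double surfaces
  have h4 : ∀ C i, S.degD mu C (S.cl (S.V i)) = 0 := by
    intro C i
    obtain ⟨t, ht⟩ := hUne
    have h5 : Tendsto (fun ε : ℝ => Function.update t (some i) (t (some i) + ε)) (𝓝 0)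
        (𝓝 t) := by
      have h6 : Continuous fun ε : ℝ => Function.update t (some i) (t (some i) + ε) := by
        fun_prop
      have h7 := h6.tendsto 0
      simpa using h7
    have h6 := h5.eventually (hUo.mem_nhds ht)
    obtain ⟨ε, hε, hmem⟩ : ∃ ε : ℝ, 0 < ε ∧
        Function.update t (some i) (t (some i) + ε) ∈ U := by
      obtain ⟨δ, hδ, hball⟩ := Metric.eventually_nhds_iff.1 h6
      refine ⟨δ / 2, by linarith, hball ?_⟩
      rw [Real.dist_0_eq_abs, abs_of_pos (by linarith)]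
      linarith
    have h7 := hcon mu t (hU t ht) C
    have h8 := hcon mu _ (hU _ hmem) C
    rw [deg_tf] at h7 h8
    have h9 : ∑ j, (Function.update t (some i) (t (some i) + ε) (some j) -
        Function.update t (some i) (t (some i) + ε) none) * S.degD mu C (S.cl (S.V j)) =
        ∑ j, (t (some j) - t none) * S.degD mu C (S.cl (S.V j)) +
          ε * S.degD mu C (S.cl (S.V i)) := by
      have h10 : ∀ j, (Function.update t (some i) (t (some i) + ε) (some j) -
          Function.update t (some i) (t (some i) + ε) none) * S.degD mu C (S.cl (S.V j)) =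
          (t (some j) - t none) * S.degD mu C (S.cl (S.V j)) +
            if j = i then ε * S.degD mu C (S.cl (S.V i)) else 0 := by
        intro j
        rw [Function.update_of_ne (by simp : (none : Option (Fin S.n)) ≠ some i)]
        by_cases hji : j = i
        · subst hji
          rw [Function.update_self, if_pos rfl]
          ring
        · rw [Function.update_of_ne (by simpa using hji), if_neg hji, add_zero]
      rw [Finset.sum_congr rfl fun j _ => h10 j, Finset.sum_add_distrib]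
      simp
    rw [h9] at h8
    have h10 : ε * S.degD mu C (S.cl (S.V i)) = 0 := by linarith
    exact (mul_eq_zero.1 h10).resolve_left hε.ne'
  have h5 : ∀ C l, S.degD mu C (S.cl (S.W l)) = 0 := by
    intro C l
    cases l with
    | some i => rw [S.W_some]; exact h4 C i
    | none =>
      rw [eq_neg_of_add_eq_zero_left S.W_none]
      change S.lin mu C (S.cl (-∑ i, S.V i)) = 0
      rw [map_neg, map_neg, map_sum, map_sum, neg_eq_zero]
      exact Finset.sum_eq_zero fun i _ => h4 C i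
  -- the supports on the boundary of `V_j`
  obtain ⟨j, l, hlj, ⟨e, he⟩, e', he'⟩ := S.link mu
  have h6 : ∀ e₁ e₂, Relation.ReflTransGen (S.Adj mu j) e₁ e₂ → S.a mu j l e₁ = 0 →
      S.a mu j l e₂ = 0 := by
    intro e₁ e₂ h h0
    induction h with
    | refl => exact h0
    | tail _ hadj ih =>
      rename_i b c _
      by_contra hne
      have hpos : 0 < S.a mu j l c := lt_of_le_of_ne (S.a_nonneg mu j l c hlj) (Ne.symm hne)
      obtain ⟨C, hC⟩ := S.pos mu j l b c hlj (Or.inl hadj) ih hpos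
      exact hC (h5 C l)
  have h7 := h6 e e' (S.conn mu j e e') he
  linarith

/-- rational coefficients for the same model -/
theorem exists_rational_pos (x : Lam) (mu : g.Mo) (s : Fin S.n → ℝ)
    (hs : S.NefR mu (S.tw x s 0)) (C : S.CurD mu) (hC : S.degD mu C (S.tw x s 0) ≠ 0) :
    ∃ q : Fin S.n → ℚ, S.NefR mu (S.tw x (fun i => (q i : ℝ)) 0) ∧
      0 < S.degD mu C (S.tw x (fun i => (q i : ℝ)) 0) := by
  classical
  choose z hz using S.int mu
  choose w hw using S.intD mu C
  have hm : (0 : ℝ) < S.ind mu := by exact_mod_cast S.ind_pos mu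
  have hdeg : ∀ C y, S.deg mu C (S.cl y) = (((z C y : ℚ) / S.ind mu : ℚ) : ℝ) := by
    intro C y
    push_cast
    rw [eq_div_iff hm.ne', mul_comm]
    exact hz C y
  have hdegD : ∀ y, S.degD mu C (S.cl y) = (((w y : ℚ) / S.ind mu : ℚ) : ℝ) := by
    intro y
    push_cast
    rw [eq_div_iff hm.ne', mul_comm]
    exact hw y
  have htw : ∀ s : Fin S.n → ℝ, S.degD mu C (S.tw x s 0) =
      S.degD mu C (S.cl x) - ∑ i, s i * S.degD mu C (S.cl (S.V i)) := by
    intro s
    change S.lin mu C (S.tw x s 0) = S.lin mu C (S.cl x) - ∑ i, s i * S.lin mu C (S.cl (S.V i))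
    simp only [S.tw_eq, map_add, map_sub, map_sum, map_smul, smul_eq_mul, zero_mul, add_zero]
  have hpos : 0 < S.degD mu C (S.tw x s 0) :=
    lt_of_le_of_ne (S.degD_nef mu C _ hs) (Ne.symm hC)
  obtain ⟨δ, hδ0, hδ⟩ := exists_rat_btwn hpos
  have hδ0' : (0 : ℚ) < δ := by exact_mod_cast hδ0
  -- the inequalities
  obtain ⟨v, hv⟩ : ∃ v : Option (S.Ray mu) → Fin S.n → ℚ, v = fun F i => match F with
      | some C => (z C (S.V i) : ℚ) / S.ind mu
      | none => (w (S.V i) : ℚ) / S.ind mu := ⟨_, rfl⟩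
  obtain ⟨l, hl⟩ : ∃ l : Option (S.Ray mu) → ℚ, l = fun F => match F with
      | some C => (z C x : ℚ) / S.ind mu
      | none => (w x : ℚ) / S.ind mu - δ := ⟨_, rfl⟩
  have hvs : ∀ C i, v (some C) i = (z C (S.V i) : ℚ) / S.ind mu := fun C i => by rw [hv]
  have hvn : ∀ i, v none i = (w (S.V i) : ℚ) / S.ind mu := fun i => by rw [hv]
  have hls : ∀ C, l (some C) = (z C x : ℚ) / S.ind mu := fun C => by rw [hl]
  have hln : l none = (w x : ℚ) / S.ind mu - δ := by rw [hl]
  have h1 : ∀ F, ∑ i, (v F i : ℝ) * s i ≤ (l F : ℝ) := by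
    intro F
    cases F with
    | some C =>
      have h3 := S.deg_nef mu C _ hs
      rw [NefGerm.deg_tw] at h3
      have h6 : ∑ i, (v (some C) i : ℝ) * s i = ∑ i, s i * S.deg mu C (S.cl (S.V i)) := by
        refine Finset.sum_congr rfl fun i _ => ?_
        rw [hdeg, hvs, mul_comm]
      rw [h6, hls, ← hdeg]
      linarith
    | none =>
      rw [htw] at hδ
      have h6 : ∑ i, (v none i : ℝ) * s i = ∑ i, s i * S.degD mu C (S.cl (S.V i)) := by
        refine Finset.sum_congr rfl fun i _ => ?_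
        rw [hdegD, hvn, mul_comm]
      rw [h6, hln, Rat.cast_sub, ← hdegD]
      linarith
  have hfin : (Set.range v).Finite := by
    have h2 : Set.range v ⊆ {f | ∀ i, f i ∈ (fun y : ℤ => (y : ℚ) / S.ind mu) ''
          (Set.Icc (-(S.ind mu * 6 : ℤ)) (S.ind mu * 6 : ℤ))} ∪ {v none} := by
      rintro f ⟨F, rfl⟩
      cases F with
      | none => exact Or.inr rfl
      | some C =>
        refine Or.inl fun i => ⟨z C (S.V i), ?_, (hvs C i).symm⟩
        have h3 := abs_le.1 (S.bound mu C i)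
        have h4 := hz C (S.V i)
        have h5 : (z C (S.V i) : ℝ) ≤ S.ind mu * 6 := by
          rw [← h4]
          exact mul_le_mul_of_nonneg_left h3.2 hm.le
        have h6 : -((S.ind mu : ℝ) * 6) ≤ z C (S.V i) := by
          rw [← h4, ← mul_neg]
          exact mul_le_mul_of_nonneg_left h3.1 hm.le
        constructor
        · have : ((-(S.ind mu * 6 : ℤ) : ℤ) : ℝ) ≤ (z C (S.V i) : ℝ) := by
            push_cast
            exact h6
          exact_mod_cast this
        · have : (z C (S.V i) : ℝ) ≤ ((S.ind mu * 6 : ℤ) : ℝ) := by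
            push_cast
            exact h5
          exact_mod_cast this
    exact ((Set.Finite.pi' fun _ => (Set.finite_Icc _ _).image _).union
      (Set.finite_singleton _)).subset h2
  have hmq : (S.ind mu : ℚ) ≠ 0 := by exact_mod_cast (S.ind_pos mu).ne'
  obtain ⟨q, hq⟩ := exists_rat v l hfin (S.ind mu * δ.den)
    (Nat.mul_pos (S.ind_pos mu) δ.den_pos) (fun F => by
      cases F with
      | some C =>
        refine ⟨z C x * δ.den, ?_⟩
        rw [hls]
        push_cast
        field_simp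
      | none =>
        refine ⟨w x * δ.den - S.ind mu * δ.num, ?_⟩
        rw [hln]
        have h2 : (δ.den : ℚ) * δ = δ.num := Rat.den_mul_eq_num δ
        push_cast
        rw [← h2]
        field_simp) s h1
  refine ⟨q, S.cone mu x s _ hs fun C' => ?_, ?_⟩
  · have h7 : ∑ i, (q i : ℝ) * S.deg mu C' (S.cl (S.V i)) ≤ S.deg mu C' (S.cl x) := by
      have h8 : ((∑ i, v (some C') i * q i : ℚ) : ℝ) ≤ ((l (some C') : ℚ) : ℝ) := by
        exact_mod_cast hq (some C')
      rw [hls, ← hdeg] at h8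
      refine le_trans (le_of_eq ?_) h8
      rw [Rat.cast_sum]
      refine Finset.sum_congr rfl fun i _ => ?_
      rw [hdeg, Rat.cast_mul, hvs, mul_comm]
    rw [NefGerm.deg_tw]
    linarith
  · have h8 : ((∑ i, v none i * q i : ℚ) : ℝ) ≤ ((l none : ℚ) : ℝ) := by
      exact_mod_cast hq none
    rw [hln, Rat.cast_sub, ← hdegD] at h8
    have h9 : ((∑ i, v none i * q i : ℚ) : ℝ) = ∑ i, (q i : ℝ) * S.degD mu C (S.cl (S.V i)) := by
      rw [Rat.cast_sum]
      refine Finset.sum_congr rfl fun i _ => ?_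
      rw [hdegD, Rat.cast_mul, hvn, mul_comm]
    rw [h9] at h8
    rw [htw]
    linarith

include S in

/-- A positive multiple of a nef class `L` which is not numerically trivial extends to a Cartier
class of some model which is nef over the base and has positive degree on a curve in a double surface
of the dlt modification. -/
theorem nef_pos (L : P) (hL : NefG L) (hbig : Nonzero L) (y : Lam) (hy : g.rho y = L)
    (hq : ∀ mu x, ∃ k : ℕ, 0 < k ∧ ∀ j : ℕ, g.Car mu (j • k • x)) :
    ∃ (mu : g.Mo) (k : ℕ) (x : Lam), 0 < k ∧ g.rho x = k • L ∧ g.Nef mu x ∧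
      (∀ j : ℕ, g.Car mu (j • x)) ∧ ∃ C, 0 < S.degD mu C (S.cl x) := by
  obtain ⟨mu, t, hmu, C, hC⟩ := S.exists_pos_real y (by rw [hy]; exact hL) (by rw [hy]; exact hbig)
  rw [S.tf_eq] at hmu hC
  obtain ⟨q, hqn, hqC⟩ := S.exists_rational_pos y mu _ hmu C hC
  obtain ⟨k, hk, hkz⟩ := NefGerm.exists_den q
  choose z hz using hkz
  -- an integral class
  obtain ⟨x, hxdef⟩ : ∃ x : Lam, x = k • y - ∑ i, z i • S.V i := ⟨_, rfl⟩
  have hx : g.rho x = k • L := by
    rw [hxdef]
    simp only [map_sub, map_nsmul, map_sum, map_zsmul, S.rho_V, smul_zero,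
      Finset.sum_const_zero, sub_zero, hy]
  have hcl : S.cl x = (k : ℝ) • S.tw y (fun i => (q i : ℝ)) 0 := by
    rw [hxdef]
    simp only [S.tw_eq, map_sub, map_nsmul, map_sum, map_zsmul, smul_sub, Finset.smul_sum,
      zero_smul, add_zero]
    rw [Nat.cast_smul_eq_nsmul ℝ k]
    congr 1
    refine Finset.sum_congr rfl fun i _ => ?_
    rw [smul_smul, ← Int.cast_smul_eq_zsmul ℝ (z i)]
    congr 1
    exact_mod_cast (hz i).symm
  obtain ⟨e, he, hcar⟩ := hq mu x
  have hcl2 : S.cl (e • x) = ((e : ℝ) * k) • S.tw y (fun i => (q i : ℝ)) 0 := by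
    rw [map_nsmul, hcl, ← Nat.cast_smul_eq_nsmul ℝ e, smul_smul]
  refine ⟨mu, e * k, e • x, Nat.mul_pos he hk, ?_, ?_, hcar, C, ?_⟩
  · rw [map_nsmul, hx, smul_smul]
  · refine S.nef_cl mu _ ?_
    rw [hcl2]
    exact S.nef_smul mu _ _ (by positivity) hqn
  · rw [hcl2, S.degD_smul]
    have h1 : (0 : ℝ) < e := by exact_mod_cast he
    have h2 : (0 : ℝ) < k := by exact_mod_cast hk
    positivity

end VertGerm

end SVert

section SThreeOne

/-- Let `L` be a nef class of numerical dimension one. Then a multiple of `L` is semiample on the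
special fibre of a suitable model. -/
theorem ThreeOne.result {P Lam : Type} [AddCommGroup P] [AddCommGroup Lam] {g : Germ P Lam}
    {NefG Big : P → Prop} {q : P → P → ℤ} {A : P} {Semi : P → Prop} {N : Type}
    [NormedAddCommGroup N] [NormedSpace ℝ N] (S : ThreeOne g NefG Big q A Semi N) (add : ∀ x y z, q (x + y) z = q x z + q y z)
    (symm : ∀ x y, q x y = q y x) (index : ∀ x, q x A = 0 → q x x = 0 → x = 0)
    (semi_mul : ∀ L (k : ℕ), 0 < k → Semi (k • L) → Semi L) (L : P) (hL : NefG L)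
    (hbig : Big L) (hLL : q L L = 0) (hLA : 0 < q L A) (y : Lam) (hy : g.rho y = L)
    (hq : ∀ mu x, ∃ k : ℕ, 0 < k ∧ ∀ j : ℕ, g.Car mu (j • k • x)) : Semi L := by
  obtain ⟨mu, k, x, hk, hx, hn, hcar, C, hC⟩ := S.nef_pos L hL hbig y hy hq
  have hz : ∀ z, q 0 z = 0 := fun z => by
    have h := add 0 0 z
    rw [add_zero] at h
    linarith
  have hmul : ∀ (n : ℕ) x z, q (n • x) z = n * q x z := by
    intro n x z
    induction n with
    | zero => rw [zero_smul, hz]; simp
    | succ n ih => rw [succ_nsmul, add, ih]; push_cast; ring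
  have hxx : q (g.rho x) (g.rho x) = 0 := by
    rw [hx, hmul, symm, hmul, hLL, mul_zero, mul_zero]
  have hxA : 0 < q (g.rho x) A := by
    rw [hx, hmul]
    exact mul_pos (by exact_mod_cast hk) hLA
  have h := (S.fibre mu x hn hcar hxx).result (S.active mu x hn hcar hxx C hC) add symm index
    semi_mul hxx hxA
  rw [hx] at h
  exact semi_mul L k hk h

end SThreeOne

section STransfer

namespace Refined

variable {n c j : ℕ} {Semi : Prop} (R : Refined n c j Semi)

/-- the bound for the difference of the pull backs does not depend on the steps -/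
theorem E_le (mu : R.Mo) (v : R.Dv) : R.E mu v ≤ R.d * c * R.mult v := by
  by_contra hcon
  rw [not_le] at hcon
  rcases le_or_gt 0 (R.EH mu v) with h | h
  · have h1 := R.E_le' mu v 1 one_pos
    linarith
  · have h2 : 0 < (R.E mu v - R.d * c * R.mult v) / (2 * -R.EH mu v) :=
      div_pos (by linarith) (by linarith)
    have h1 := R.E_le' mu v _ h2
    have h4 : (R.E mu v - R.d * c * R.mult v) / (2 * -R.EH mu v) * R.EH mu v =
        - ((R.E mu v - R.d * c * R.mult v) / 2) := by
      have : R.EH mu v ≠ 0 := h.ne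
      field_simp
    rw [h4] at h1
    linarith

/-- the section vanishes at no log canonical place -/
theorem ord_s_lc (v : R.Dv) (hv : R.Lc v) : R.ord R.mu0 (R.d * (j - c * n)) R.s v = 0 := by
  obtain ⟨w, h1, h2⟩ := R.lin v hv
  rw [R.ord_s v hv, h1, h2, sub_eq_zero]
  exact Finset.sum_congr rfl fun V _ => by rw [R.g_cmp]

theorem push_kill (mu : R.Mo) (k i : ℕ) (x : R.T R.mu0) (hx : (R.tau R.mu0)^[i] x = R.zero R.mu0) :
    (R.tau mu)^[i] (R.push mu k x) = R.zero mu := by
  have h : ∀ i x, (R.tau mu)^[i] (R.push mu k x) = R.push mu k ((R.tau R.mu0)^[i] x) := by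
    intro i
    induction i with
    | zero => intro x; rfl
    | succ i ih => intro x; rw [Function.iterate_succ_apply, Function.iterate_succ_apply,
        ← R.push_tau, ih]
  rw [h, hx, R.push_zero]

/-- TRANSFER: on every model there is a section which vanishes at no log canonical place -/
theorem transfer (hj : 2 * c * n + 2 < j) (mu : R.Mo) :
    ∃ i x, 0 < i ∧ (R.tau mu)^[i] x = R.zero mu ∧ ∀ v, R.Lc v → R.ord mu i x v = 0 := by
  have hd := R.d_pos
  have hok : ∀ v, n * R.E mu v + 1 ≤ ((R.d * c * n + 1 : ℕ) : ℝ) * R.mult v := by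
    intro v
    have h1 := mul_le_mul_of_nonneg_left (R.E_le mu v) (Nat.cast_nonneg (α := ℝ) n)
    have h2 : (1 : ℝ) ≤ R.mult v := by exact_mod_cast R.mult_pos v
    push_cast
    nlinarith
  have hle : R.d * c * n + 1 + 2 ≤ R.d * (j - c * n) := by
    have h1 : c * n + 3 ≤ j - c * n := by
      have : 2 * c * n = c * n + c * n := by ring
      omega
    calc R.d * c * n + 1 + 2 = R.d * (c * n) + 3 := by ring
      _ ≤ R.d * (c * n) + R.d * 3 := by omega
      _ = R.d * (c * n + 3) := by ring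
      _ ≤ _ := Nat.mul_le_mul_left _ h1
  have hkill := R.push_kill mu (R.d * c * n + 1) _ _ R.s_kill
  have hk := R.no_emb mu (R.d * (j - c * n)) (R.d * c * n + 1) (R.push mu (R.d * c * n + 1) R.s)
    (by omega) hkill (fun V => R.push_cmp mu _ hok _ _ V R.s_kill (by omega))
  refine ⟨R.d * (j - c * n) - (R.d * c * n + 1), R.push mu (R.d * c * n + 1) R.s, by omega, hk,
    fun v hv => ?_⟩
  have h1 := R.push_lc mu _ hok _ _ v hv R.s_kill hle hk (R.ord_s_lc v hv)
  have h2 := R.ord_nonneg mu _ _ v hk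
  have h3 := mul_nonneg (Nat.cast_nonneg (α := ℝ) n) (R.E_nonneg mu v)
  linarith

include R in

/-- some model has a semiample restriction -/
theorem semi (hj : 2 * c * n + 2 < j) : Semi := by
  rcases R.program with ⟨mu, h⟩ | ⟨mu, V, h⟩ | ⟨⟨Q⟩⟩
  · exact R.abundance mu h (R.transfer hj mu)
  · obtain ⟨i, x, hi, hx, hord⟩ := R.transfer hj mu
    exact absurd (hord _ (R.cmp_lc V)) (R.con mu V h i x hi hx)
  · exact Q.false.elim

end Refined

namespace Transfer

variable {Lifts : ℕ → ℕ → Prop} {Semi : Prop} (S : Transfer Lifts Semi)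

/-- the orders of a section which can be lifted far grow at most linearly -/
theorem exists_bound : ∃ C : ℕ, ∀ n j (s : S.Sec n j), C * n < j → ∀ a, S.ord n j s a ≤ C * n := by
  classical
  have h1 : ∀ p : Fin S.v × Fin S.v, ∃ C : ℕ, ∀ n j (s : S.Sec n j), C * n < j →
      S.ord n j s p.1 = 0 → S.ord n j s p.2 ≤ C * n := by
    rintro ⟨a, b⟩
    have h := S.conn a b
    induction h with
    | refl => exact ⟨0, fun n j s _ h0 => by simp only at h0 ⊢; omega⟩
    | tail _ hadj ih =>
      obtain ⟨C, hC⟩ := ih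
      refine ⟨C + S.c * (1 + C), fun n j s hj h0 => ?_⟩
      simp only at h0 hC ⊢
      have e1 : (C + S.c * (1 + C)) * n = C * n + S.c * (n + C * n) := by ring
      rw [e1] at hj ⊢
      have h2 := hC n j s (by omega) h0
      refine (S.step n j s _ _ hadj (by omega)).trans ?_
      have h3 := Nat.mul_le_mul_left S.c (Nat.add_le_add_left h2 n)
      omega
  choose C hC using h1
  obtain ⟨M, hM⟩ := (Set.finite_range C).bddAbove
  refine ⟨M, fun n j s hj b => ?_⟩
  obtain ⟨a, ha⟩ := S.start n j s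
  have h2 := Nat.mul_le_mul_right n (hM ⟨(a, b), rfl⟩ : C (a, b) ≤ M)
  exact (hC (a, b) n j s (by omega) ha).trans h2

include S in

/-- **Proposition S.** -/
theorem semi : ∃ C : ℕ, ∀ n j, 0 < n → C * n < j → Lifts n j → Semi := by
  obtain ⟨C, hC⟩ := S.exists_bound
  refine ⟨C + 2 * (S.c * (C + 1)) + 2, fun n j hn hj hL => ?_⟩
  obtain ⟨s⟩ := S.sec n j hL
  have e1 : (C + 2 * (S.c * (C + 1)) + 2) * n = C * n + 2 * (S.c * (C + 1)) * n + 2 * n := by ring
  rw [e1] at hj
  have h1 := hC n j s (by omega)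
  have e2 : 2 * (S.c * (C + 1)) * n = S.c * (C + 1) * n + S.c * (C + 1) * n := by ring
  obtain ⟨R⟩ := S.refine n j s C hn h1 (by omega)
  exact R.semi (by omega)

include S in

/-- the lengths of the liftings grow at most linearly, or there is a semiample class -/
theorem bound_or : (∃ c : ℕ, ∀ n j, 0 < n → Lifts n j → j ≤ c * n) ∨ Semi := by
  obtain ⟨C, hC⟩ := S.semi
  by_cases h : Semi
  · exact Or.inr h
  · exact Or.inl ⟨C, fun n j hn hL => not_lt.1 fun hj => h (hC n j hn hj hL)⟩

end Transfer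

end STransfer

section SSlope

/-- If the smallest slope is at least `- n k` then Miyaoka's inequality holds for `N + H / n + k F`. -/
theorem Over.ineq (Y : Over) (n : ℕ) (hn : 0 < n) (k : ℝ) (hk : 0 ≤ Y.mu n + n * k) :
    0 ≤ Y.C Y.N Y.N + 2 / n * Y.C Y.N Y.H + 1 / (n : ℝ) ^ 2 * Y.C Y.H Y.H +
      2 * k / n * Y.C Y.H Y.F := by
  have h := Y.miyaoka _ (Y.gen n k hn hk)
  have key : ∀ x, Y.C (Y.add (Y.add Y.N (Y.smul (1 / (n : ℝ)) Y.H)) (Y.smul k Y.F)) x =
      Y.C Y.N x + 1 / n * Y.C Y.H x + k * Y.C Y.F x := by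
    intro x
    rw [Y.C_add, Y.C_add, Y.C_smul, Y.C_smul]
  rw [key, Y.C_symm Y.N (Y.add _ _), Y.C_symm Y.H (Y.add _ _), Y.C_symm Y.F (Y.add _ _), key, key,
    key,
    Y.C_symm Y.H Y.N, Y.C_symm Y.F Y.N, Y.C_symm Y.F Y.H, Y.C_NF, Y.C_FF] at h
  have hn0 : (n : ℝ) ≠ 0 := by exact_mod_cast hn.ne'
  have e : Y.C Y.N Y.N + 1 / n * Y.C Y.N Y.H + k * 0 +
      1 / n * (Y.C Y.N Y.H + 1 / n * Y.C Y.H Y.H + k * Y.C Y.H Y.F) +
      k * (0 + 1 / n * Y.C Y.H Y.F + k * 0) =
      Y.C Y.N Y.N + 2 / n * Y.C Y.N Y.H + 1 / (n : ℝ) ^ 2 * Y.C Y.H Y.H +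
        2 * k / n * Y.C Y.H Y.F := by
    field_simp
    ring
  rw [← e]
  exact h

namespace Degrees

variable {B : Type} {wt : B → ℚ} {Lifts : B → ℕ → ℕ → Prop}

/-- a common positive bound -/
theorem exists_bound (s : Finset B) (c : B → ℝ) : ∃ g : ℝ, 0 < g ∧ ∀ i ∈ s, c i ≤ g := by
  refine ⟨∑ i ∈ s, |c i| + 1, by positivity, fun i hi => ?_⟩
  have h1 : |c i| ≤ ∑ i ∈ s, |c i| :=
    Finset.single_le_sum (f := fun i => |c i|) (fun _ _ => abs_nonneg _) hi
  have h2 := le_abs_self (c i)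
  linarith

variable (D : Degrees B wt Lifts)

include D in

theorem wt0 (b : B) : (0 : ℝ) ≤ wt b := by exact_mod_cast D.wt_nonneg b

/-- If the exponents at the divisors of positive weight are `O(n)`, then `β < 0`. -/
theorem beta_neg (he : ∀ b, wt b ≠ 0 → ∃ c : ℝ, ∀ n : ℕ, 0 < n → (D.e b n : ℝ) ≤ c * n) :
    D.β < 0 := by
  -- the sum is `O(n^3)`
  have h1 : ∀ b, ∃ c : ℝ, ∀ n : ℕ, 0 < n → (D.o b n : ℝ) * wt b ≤ c * (n : ℝ) ^ 3 := by
    intro b
    by_cases hb : wt b = 0
    · refine ⟨0, fun n _ => ?_⟩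
      rw [hb]
      simp
    · obtain ⟨c, hc⟩ := he b hb
      obtain ⟨g, hg⟩ := D.growth b
      refine ⟨|g| * |c| * wt b, fun n hn => ?_⟩
      have h2 : (D.o b n : ℝ) ≤ (D.h b n : ℝ) * (D.e b n : ℝ) := by
        exact_mod_cast D.o_le b n hn
      have hn0 : (0 : ℝ) ≤ n := Nat.cast_nonneg n
      have h3 : (D.h b n : ℝ) ≤ |g| * (n : ℝ) ^ 2 :=
        (hg n hn).trans (mul_le_mul_of_nonneg_right (le_abs_self g) (sq_nonneg _))
      have h4 : (D.e b n : ℝ) ≤ |c| * n :=
        (hc n hn).trans (mul_le_mul_of_nonneg_right (le_abs_self c) hn0)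
      have h5 : (D.h b n : ℝ) * (D.e b n : ℝ) ≤ (|g| * (n : ℝ) ^ 2) * (|c| * n) :=
        mul_le_mul h3 h4 (Nat.cast_nonneg _) (by positivity)
      have h6 : (D.o b n : ℝ) ≤ |g| * |c| * (n : ℝ) ^ 3 := by
        refine (h2.trans h5).trans (le_of_eq ?_)
        ring
      calc (D.o b n : ℝ) * wt b ≤ |g| * |c| * (n : ℝ) ^ 3 * wt b :=
            mul_le_mul_of_nonneg_right h6 (D.wt0 b)
        _ = |g| * |c| * wt b * (n : ℝ) ^ 3 := by ring
  choose c hc using h1
  obtain ⟨g, hg0, hg⟩ := exists_bound D.S c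
  have hlow : ∀ n : ℕ, 0 < n → - (D.S.card * g * (n : ℝ) ^ 3) ≤
      D.α * (n : ℝ) ^ 4 + D.β * (n : ℝ) ^ 2 + D.top := by
    intro n hn
    rw [D.det n hn]
    have h2 : ∑ b ∈ D.S, (D.o b n : ℝ) * wt b ≤ ∑ _b ∈ D.S, g * (n : ℝ) ^ 3 := by
      refine Finset.sum_le_sum fun b hb => (hc b n hn).trans ?_
      exact mul_le_mul_of_nonneg_right (hg b hb) (by positivity)
    rw [Finset.sum_const, nsmul_eq_mul] at h2
    linarith
  have hup : ∀ n : ℕ, 0 < n → D.α * (n : ℝ) ^ 4 + D.β * (n : ℝ) ^ 2 + D.top ≤ 0 := by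
    intro n hn
    rw [D.det n hn]
    have : 0 ≤ ∑ b ∈ D.S, (D.o b n : ℝ) * wt b :=
      Finset.sum_nonneg fun b _ => mul_nonneg (Nat.cast_nonneg _) (D.wt0 b)
    linarith
  have htop := D.top_pos
  -- the leading coefficient is zero
  have h0 : D.α = 0 := by
    rcases lt_trichotomy D.α 0 with hneg | h | hpos
    · exfalso
      set G : ℝ := D.S.card * g with hG
      have hG0 : 0 ≤ G := by positivity
      obtain ⟨n, hn⟩ := exists_nat_gt (max 1 ((G + |D.β| + D.top) / (- D.α)))
      have hn1 : (1 : ℝ) < n := (le_max_left _ _).trans_lt hn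
      have hn2 : (G + |D.β| + D.top) / (- D.α) < n := (le_max_right _ _).trans_lt hn
      rw [div_lt_iff₀ (by linarith)] at hn2
      have hn0 : 0 < n := by
        have : (0 : ℝ) < n := by linarith
        exact_mod_cast this
      have h := hlow n hn0
      have h3 : (0 : ℝ) < (n : ℝ) ^ 3 := by positivity
      have h4 : D.β * (n : ℝ) ^ 2 ≤ |D.β| * (n : ℝ) ^ 3 := by
        have h5 : D.β * (n : ℝ) ^ 2 ≤ |D.β| * (n : ℝ) ^ 2 :=
          mul_le_mul_of_nonneg_right (le_abs_self _) (sq_nonneg _)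
        have h6 : (n : ℝ) ^ 2 ≤ (n : ℝ) ^ 3 := pow_le_pow_right₀ hn1.le (by norm_num)
        exact h5.trans (mul_le_mul_of_nonneg_left h6 (abs_nonneg _))
      have h7 : D.top ≤ D.top * (n : ℝ) ^ 3 :=
        le_mul_of_one_le_right htop.le (one_le_pow₀ hn1.le)
      have h8 : (G + |D.β| + D.top) * (n : ℝ) ^ 3 < (n * - D.α) * (n : ℝ) ^ 3 :=
        mul_lt_mul_of_pos_right hn2 h3
      have h9 : (n * - D.α) * (n : ℝ) ^ 3 = - (D.α * (n : ℝ) ^ 4) := by ring
      linarith
    · exact h
    · exfalso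
      obtain ⟨n, hn⟩ := exists_nat_gt (max 1 (|D.β| / D.α))
      have hn1 : (1 : ℝ) < n := (le_max_left _ _).trans_lt hn
      have hn2 : |D.β| / D.α < n := (le_max_right _ _).trans_lt hn
      rw [div_lt_iff₀ hpos] at hn2
      have hn0 : 0 < n := by
        have : (0 : ℝ) < n := by linarith
        exact_mod_cast this
      have h := hup n hn0
      have h3 : - (|D.β| * (n : ℝ) ^ 2) ≤ D.β * (n : ℝ) ^ 2 := by
        have := mul_le_mul_of_nonneg_right (neg_abs_le D.β) (sq_nonneg (n : ℝ))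
        linarith
      have h4 : |D.β| * (n : ℝ) ^ 2 ≤ (n * D.α) * (n : ℝ) ^ 2 :=
        mul_le_mul_of_nonneg_right hn2.le (sq_nonneg _)
      have h5 : (n * D.α) * (n : ℝ) ^ 2 ≤ D.α * (n : ℝ) ^ 4 := by
        have h6 : (n : ℝ) ^ 3 ≤ (n : ℝ) ^ 4 := pow_le_pow_right₀ hn1.le (by norm_num)
        have h7 := mul_le_mul_of_nonneg_left h6 hpos.le
        calc (n * D.α) * (n : ℝ) ^ 2 = D.α * (n : ℝ) ^ 3 := by ring
          _ ≤ _ := h7
      linarith
  have h := hup 1 one_pos
  rw [h0] at h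
  simp only [Nat.cast_one, one_pow, mul_one, zero_add] at h
  linarith

/-- The exponents cannot be `O(n)` at all the divisors of positive weight. -/
theorem false_of_exponents
    (he : ∀ b, wt b ≠ 0 → ∃ c : ℝ, ∀ n : ℕ, 0 < n → (D.e b n : ℝ) ≤ c * n) : False := by
  have hβ := D.beta_neg he
  obtain ⟨k₁, hk₁⟩ := D.kv
  obtain ⟨c₁, hc₁⟩ := D.cNN
  obtain ⟨c₂, hc₂⟩ := D.cNH
  obtain ⟨c₃, hc₃⟩ := D.cHH
  obtain ⟨c₄, hc₄⟩ := D.cHF
  choose t ht using D.T_le
  -- the sum over the divisors
  have h1 : ∀ b, ∃ g : ℝ, ∃ E : ℕ → ℝ, 0 ≤ g ∧ (∀ n, 0 ≤ E n) ∧ ∀ m n : ℕ, 0 < m → 0 < n →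
      (D.e b n : ℝ) * D.T m b ≤ g * n * (m : ℝ) ^ (D.r + 1) + E n * (m : ℝ) ^ D.r := by
    intro b
    by_cases hb : wt b = 0
    · refine ⟨0, fun n => D.e b n * |t b|, le_rfl, fun n => by positivity, fun m n hm hn => ?_⟩
      have h2 := ht b m hm
      rw [hb, Rat.cast_zero, zero_mul, zero_add] at h2
      have h3 : D.T m b ≤ |t b| * (m : ℝ) ^ D.r := by
        have h4 : t b * (m : ℝ) ^ D.r ≤ |t b| * (m : ℝ) ^ D.r :=
          mul_le_mul_of_nonneg_right (le_abs_self _) (by positivity)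
        linarith
      have h5 := mul_le_mul_of_nonneg_left h3 (Nat.cast_nonneg (D.e b n) : (0 : ℝ) ≤ D.e b n)
      refine h5.trans (le_of_eq ?_)
      ring
    · obtain ⟨c, hc⟩ := he b hb
      refine ⟨|c| * (wt b + |t b|), fun _ => 0, ?_, fun _ => le_rfl, fun m n hm hn => ?_⟩
      · have := D.wt0 b
        positivity
      · have hm1 : (1 : ℝ) ≤ m := by exact_mod_cast hm
        have h2 : D.T m b ≤ (wt b + |t b|) * (m : ℝ) ^ (D.r + 1) := by
          have h3 := ht b m hm
          have h4 : t b * (m : ℝ) ^ D.r ≤ |t b| * (m : ℝ) ^ (D.r + 1) := by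
            have h5 : t b * (m : ℝ) ^ D.r ≤ |t b| * (m : ℝ) ^ D.r :=
              mul_le_mul_of_nonneg_right (le_abs_self _) (by positivity)
            have h6 : (m : ℝ) ^ D.r ≤ (m : ℝ) ^ (D.r + 1) :=
              pow_le_pow_right₀ hm1 (Nat.le_succ _)
            exact h5.trans (mul_le_mul_of_nonneg_left h6 (abs_nonneg _))
          rw [add_mul]
          linarith
        have h3 : (D.e b n : ℝ) ≤ |c| * n :=
          (hc n hn).trans (mul_le_mul_of_nonneg_right (le_abs_self c) (Nat.cast_nonneg _))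
        have h4 := mul_le_mul h3 h2 (D.T_nonneg m b) (by positivity)
        refine h4.trans (le_of_eq ?_)
        ring
  choose g E hg0 hE0 hgE using h1
  set G : ℝ := ∑ b ∈ D.S, g b with hG
  have hG0 : 0 ≤ G := Finset.sum_nonneg fun b _ => hg0 b
  let EE : ℕ → ℝ := fun n => ∑ b ∈ D.S, E b n
  have hEE0 : ∀ n, 0 ≤ EE n := fun n => Finset.sum_nonneg fun b _ => hE0 b n
  have hsum : ∀ m n : ℕ, 0 < m → 0 < n → ∑ b ∈ D.S, (D.e b n : ℝ) * D.T m b ≤
      G * n * (m : ℝ) ^ (D.r + 1) + EE n * (m : ℝ) ^ D.r := by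
    intro m n hm hn
    refine (Finset.sum_le_sum fun b _ => hgE b m n hm hn).trans (le_of_eq ?_)
    rw [Finset.sum_add_distrib, hG, Finset.sum_mul, Finset.sum_mul, Finset.sum_mul]
  -- the inequality of Miyaoka on the fourfold over `T_m`
  have hmain : ∀ m n : ℕ, 0 < m → 0 < n →
      0 ≤ 24 * D.β * (m : ℝ) ^ (D.r + 1) + |c₁| * (m : ℝ) ^ D.r +
        2 / n * (|c₂| * (m : ℝ) ^ (D.r + 1)) + 1 / n * (|c₃| * (m : ℝ) ^ (D.r + 1)) +
        2 / n * (((|k₁| + G) * (m : ℝ) ^ (D.r + 1) + EE n * (m : ℝ) ^ D.r) * |c₄|) := by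
    intro m n hm hn
    have hn1 : (1 : ℝ) ≤ n := by exact_mod_cast hn
    have hn0 : (0 : ℝ) < n := by linarith
    have hM : (0 : ℝ) ≤ (m : ℝ) ^ (D.r + 1) := by positivity
    have hM' : (0 : ℝ) ≤ (m : ℝ) ^ D.r := by positivity
    set K : ℝ := (|k₁| + G) * (m : ℝ) ^ (D.r + 1) + EE n * (m : ℝ) ^ D.r with hK
    have hK0 : 0 ≤ K := by
      have := hEE0 n
      positivity
    have hmu : 0 ≤ (D.Y m).mu n + n * K := by
      have a1 := D.sub m n hm hn
      have a2 := hk₁ m n hm hn
      have a3 := hsum m n hm hn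
      have a4 : k₁ * n * (m : ℝ) ^ (D.r + 1) ≤ |k₁| * n * (m : ℝ) ^ (D.r + 1) := by
        have : k₁ ≤ |k₁| := le_abs_self _
        gcongr
      have a5 : EE n * (m : ℝ) ^ D.r ≤ n * (EE n * (m : ℝ) ^ D.r) :=
        le_mul_of_one_le_left (mul_nonneg (hEE0 n) hM') hn1
      have a6 : n * K = |k₁| * n * (m : ℝ) ^ (D.r + 1) + G * n * (m : ℝ) ^ (D.r + 1) +
          n * (EE n * (m : ℝ) ^ D.r) := by
        rw [hK]
        ring
      rw [a6]
      linarith
    have h := (D.Y m).ineq n hn K hmu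
    have b1 := hc₁ m hm
    have b1' : c₁ * (m : ℝ) ^ D.r ≤ |c₁| * (m : ℝ) ^ D.r :=
      mul_le_mul_of_nonneg_right (le_abs_self _) hM'
    have b2 : 2 / n * (D.Y m).C (D.Y m).N (D.Y m).H ≤ 2 / n * (|c₂| * (m : ℝ) ^ (D.r + 1)) := by
      refine mul_le_mul_of_nonneg_left ((hc₂ m hm).trans ?_) (by positivity)
      exact mul_le_mul_of_nonneg_right (le_abs_self _) hM
    have b3 : 1 / (n : ℝ) ^ 2 * (D.Y m).C (D.Y m).H (D.Y m).H ≤
        1 / n * (|c₃| * (m : ℝ) ^ (D.r + 1)) := by
      have b4 : (D.Y m).C (D.Y m).H (D.Y m).H ≤ |c₃| * (m : ℝ) ^ (D.r + 1) :=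
        (hc₃ m hm).trans (mul_le_mul_of_nonneg_right (le_abs_self _) hM)
      have b5 : 1 / (n : ℝ) ^ 2 ≤ 1 / n := by
        apply one_div_le_one_div_of_le hn0
        nlinarith
      calc 1 / (n : ℝ) ^ 2 * (D.Y m).C (D.Y m).H (D.Y m).H
          ≤ 1 / (n : ℝ) ^ 2 * (|c₃| * (m : ℝ) ^ (D.r + 1)) :=
            mul_le_mul_of_nonneg_left b4 (by positivity)
        _ ≤ 1 / n * (|c₃| * (m : ℝ) ^ (D.r + 1)) :=
            mul_le_mul_of_nonneg_right b5 (by positivity)
    have b6 : 2 * K / n * (D.Y m).C (D.Y m).H (D.Y m).F ≤ 2 / n * (K * |c₄|) := by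
      have b7 : (D.Y m).C (D.Y m).H (D.Y m).F ≤ |c₄| := (hc₄ m hm).trans (le_abs_self _)
      calc 2 * K / n * (D.Y m).C (D.Y m).H (D.Y m).F ≤ 2 * K / n * |c₄| :=
            mul_le_mul_of_nonneg_left b7 (by positivity)
        _ = 2 / n * (K * |c₄|) := by ring
    linarith
  -- choose `n`, then `m`
  obtain ⟨n, hn⟩ := exists_nat_gt (max 1 ((2 * |c₂| + |c₃| + 2 * (|k₁| + G) * |c₄|) / (- 8 * D.β)))
  have hn1 : (1 : ℝ) < n := (le_max_left _ _).trans_lt hn
  have hn2 := (le_max_right _ _).trans_lt hn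
  rw [div_lt_iff₀ (by linarith)] at hn2
  have hn0 : 0 < n := by
    have : (0 : ℝ) < n := by linarith
    exact_mod_cast this
  obtain ⟨m, hm⟩ := exists_nat_gt (max 1 ((|c₁| + 2 / n * (EE n * |c₄|)) / (- 8 * D.β)))
  have hm1 : (1 : ℝ) < m := (le_max_left _ _).trans_lt hm
  have hm2 := (le_max_right _ _).trans_lt hm
  rw [div_lt_iff₀ (by linarith)] at hm2
  have hm0 : 0 < m := by
    have : (0 : ℝ) < m := by linarith
    exact_mod_cast this
  have h := hmain m n hm0 hn0
  have hnR : (0 : ℝ) < n := by linarith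
  have hM' : (0 : ℝ) < (m : ℝ) ^ D.r := by positivity
  have hM : (m : ℝ) ^ (D.r + 1) = m * (m : ℝ) ^ D.r := by ring
  have hMpos : (0 : ℝ) < (m : ℝ) ^ (D.r + 1) := by positivity
  have e1 : (2 * |c₂| + |c₃| + 2 * (|k₁| + G) * |c₄|) / n ≤ - 8 * D.β := by
    rw [div_le_iff₀ hnR]
    linarith
  have e2 : (2 * |c₂| + |c₃| + 2 * (|k₁| + G) * |c₄|) / n * (m : ℝ) ^ (D.r + 1) ≤
      - 8 * D.β * (m : ℝ) ^ (D.r + 1) := mul_le_mul_of_nonneg_right e1 hMpos.le
  have e3 : (|c₁| + 2 / n * (EE n * |c₄|)) * (m : ℝ) ^ D.r ≤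
      - 8 * D.β * (m : ℝ) ^ (D.r + 1) := by
    have := mul_le_mul_of_nonneg_right hm2.le hM'.le
    rw [hM]
    calc _ ≤ _ := this
      _ = _ := by ring
  have e4 : 24 * D.β * (m : ℝ) ^ (D.r + 1) + |c₁| * (m : ℝ) ^ D.r +
        2 / n * (|c₂| * (m : ℝ) ^ (D.r + 1)) + 1 / n * (|c₃| * (m : ℝ) ^ (D.r + 1)) +
        2 / n * (((|k₁| + G) * (m : ℝ) ^ (D.r + 1) + EE n * (m : ℝ) ^ D.r) * |c₄|) =
      24 * D.β * (m : ℝ) ^ (D.r + 1) +
        (2 * |c₂| + |c₃| + 2 * (|k₁| + G) * |c₄|) / n * (m : ℝ) ^ (D.r + 1) +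
        (|c₁| + 2 / n * (EE n * |c₄|)) * (m : ℝ) ^ D.r := by
    ring
  rw [e4] at h
  have e5 : D.β * (m : ℝ) ^ (D.r + 1) < 0 := mul_neg_of_neg_of_pos hβ hMpos
  linarith

include D in

/-- If at every prime divisor of nonzero weight the orders to which sections of `n N` lift are `O(n)`,
there is a contradiction. -/
theorem false (he : ∀ b, wt b ≠ 0 → ∃ c : ℕ, ∀ n j : ℕ, 0 < n → Lifts b n j → j ≤ c * n) :
    False := by
  refine D.false_of_exponents fun b hb => ?_
  obtain ⟨c, hc⟩ := he b hb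
  refine ⟨c, fun n hn => ?_⟩
  rcases D.e_lifts b n hn with h | h
  · rw [h]
    simp only [Nat.cast_zero]
    positivity
  · exact_mod_cast hc n _ hn h

end Degrees

end SSlope

section SLocal

section

variable {P Lam : Type} [AddCommGroup P] [AddCommGroup Lam] {g : Germ P Lam} {L : P}
  {NefG Semi : P → Prop} {Int : Prop} {kind : ℕ} (A : At g NefG Semi Int kind)

/-- the standard extension -/
def At.std (hI : Int) (m : ℕ) (L : P) : Ext g L m where
  mu := A.mu0
  x := m • A.lift L
  rho := by rw [map_nsmul, A.rho_lift]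
  car := by
    intro j _
    rw [smul_smul, ← map_nsmul]
    exact A.car_int _ hI

/-- multiples of extensions -/
def Ext.mul {m : ℕ} (E : Ext g L m) (c : ℕ) (hc : 0 < c) : Ext g L (c * m) where
  mu := E.mu
  x := c • E.x
  rho := by rw [map_nsmul, E.rho, smul_smul]
  car := by
    intro j hj
    rw [smul_smul]
    exact E.car _ (Nat.mul_pos hj hc)

/-- equality of the multiplicities -/
def Ext.cast {m m' : ℕ} (E : Ext g L m) (h : m = m') : Ext g L m' where
  mu := E.mu
  x := E.x
  rho := h ▸ E.rho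
  car := E.car

include A in

lemma At.exists_nef (hL : NefG L) : ∃ (k : ℕ) (E : Ext g L k), 0 < k ∧ g.Nef E.mu E.x := by
  obtain ⟨mu, k, x, hk, hx, hn, hcar⟩ := A.nef.nef L hL _ (A.rho_lift L) A.qfac
  exact ⟨k, ⟨mu, x, hx, hcar⟩, hk, hn⟩

include A in

lemma At.semi' {m : ℕ} (E : Ext g L m) (h : g.SA E.mu E.x) : Semi (m • L) := by
  have := A.semi E.mu E.x h
  rwa [E.rho] at this

end

/-- A family with given extensions at the exceptional divisors. -/
theorem Models.exists_family {P : Type} [AddCommGroup P] {h : ℕ} {D : Divs P h}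
    {NefG : P → Prop} (M : Models D NefG) (L : P)
    (hfin : {b | ¬ (D.Int b ∧ (M.at' b).NefStd L)}.Finite)
    (Q : ∀ b m, Ext (M.germ b) L m → Prop)
    (hQ : ∀ b m E c (hc : 0 < c), Q b m E → Q b (c * m) (E.mul c hc))
    (hex : ∀ b, ∃ (k : ℕ) (E : Ext (M.germ b) L k), 0 < k ∧ Q b k E)
    (hstd : ∀ b (hI : D.Int b), (M.at' b).NefStd L →
      ∀ m, 0 < m → Q b m ((M.at' b).std hI m L)) :
    ∃ F : Family M L, ∀ b, Q b F.m (F.ext b) := by
  classical
  choose k E hk hE using hex
  let S : Finset D.B := hfin.toFinset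
  have hS : ∀ b, b ∉ S → D.Int b ∧ (M.at' b).NefStd L := by
    intro b hb
    by_contra hcon
    exact hb (hfin.mem_toFinset.2 hcon)
  let m : ℕ := ∏ b ∈ S, k b
  have hm : 0 < m := Finset.prod_pos fun b _ => hk b
  have hdvd : ∀ b ∈ S, ∃ c : ℕ, 0 < c ∧ c * k b = m := by
    intro b hb
    obtain ⟨c, hc⟩ := Finset.dvd_prod_of_mem k hb
    refine ⟨c, ?_, by rw [mul_comm]; exact hc.symm⟩
    rcases Nat.eq_zero_or_pos c with h0 | h0
    · exfalso
      rw [h0, mul_zero] at hc
      have : m = 0 := hc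
      omega
    · exact h0
  have hch : ∀ b, ∃ F : Ext (M.germ b) L m, Q b m F ∧ (b ∉ S → F.Std (M.at' b)) := by
    intro b
    by_cases hb : b ∈ S
    · obtain ⟨c, hc, hcm⟩ := hdvd b hb
      have h1 := hQ b _ (E b) c hc (hE b)
      have h2 : ∃ F : Ext (M.germ b) L m, Q b m F := by
        rw [← hcm]
        exact ⟨_, h1⟩
      obtain ⟨F, hF⟩ := h2
      exact ⟨F, hF, fun h => absurd hb h⟩
    · exact ⟨(M.at' b).std (hS b hb).1 m L, hstd b (hS b hb).1 (hS b hb).2 m hm,
        fun _ => ⟨(hS b hb).1, rfl, rfl, (hS b hb).2⟩⟩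
  choose F hF hF' using hch
  exact ⟨⟨m, hm, S, F, hF'⟩, hF⟩

end SLocal

section SJoin

theorem Gen.bad {P : Type} [AddCommGroup P] {X : CY P} (G : Gen X) (L : P) (hL : X.Nef L)
    (hs : ¬ X.SA L) : Bad G L := by
  obtain ⟨hT, hc, hac⟩ := X.not_sa L hL hs
  refine ⟨hL, G.nef L hL, hT, hc, ?_, ?_⟩
  · intro k hk i
    rcases Nat.lt_or_ge i 4 with hi | hi
    · have h2 := G.semi ⟨i, hi⟩ (k • L)
      have h3 := hac (k : ℤ) ⟨i, hi⟩ (by omega)
      rw [natCast_zsmul] at h3
      rw [h3] at h2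
      exact Nat.le_zero.1 h2
    · exact G.top i _ hi
  · intro k hk h
    apply hs
    rw [← X.lines.sa_mul k L (by omega), natCast_zsmul, h]
    exact X.lines.sa_zero

namespace Setup

variable {P : Type} [AddCommGroup P] {X : CY P} {h : ℕ} (S : Setup X h)

/-- the types with a nonzero weight -/
lemma kind_ok (h2 : 2 ≤ h) (b : S.D.B) (hb : S.D.wt b ≠ 0) : S.D.hodge.kind b = 0 ∨
    (S.D.hodge.kind b = 1 ∧ S.D.wt b ≠ 0) ∨ (S.D.hodge.kind b = 2 ∧ h = 2) := by
  rcases kinds_two S.D.hodge h2 b hb with h | h | h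
  · exact Or.inl h
  · exact Or.inr (Or.inl ⟨h, hb⟩)
  · exact Or.inr (Or.inr h)

/-- a bad class is not semiample on a special fibre -/
lemma not_semi' {L : P} (hL : Bad S.gen L) (b : S.D.B) (hk : S.D.hodge.kind b = 0 ∨
    (S.D.hodge.kind b = 1 ∧ S.D.wt b ≠ 0) ∨ (S.D.hodge.kind b = 2 ∧ h = 2))
    (hs : S.D.Semi b L) : False := by
  obtain ⟨m, hm, hpos⟩ := (S.sect b).effective hk L hs
  rw [hL.acyclic m hm 0] at hpos
  exact lt_irrefl _ hpos

lemma not_semi {L : P} (hL : Bad S.gen L) (b : S.D.B) (hk : S.D.hodge.kind b = 0 ∨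
    (S.D.hodge.kind b = 1 ∧ S.D.wt b ≠ 0) ∨ (S.D.hodge.kind b = 2 ∧ h = 2)) (k : ℕ) (hk0 : 0 < k)
    (hs : S.D.Semi b (k • L)) : False := S.not_semi' hL b hk (S.D.semi_mul b L k hk0 hs)

/-- divisors with irreducible fibres -/
lemma acyclic_zero (M : Models S.D S.gen.Nef) {L : P} (hL : Bad S.gen L)
    (b : S.D.B) (hb : S.D.hodge.kind b = 0) {m : ℕ} (hm : 0 < m) (E : Ext (M.germ b) L m)
    (hn : E.Nef) : ∀ k : ℕ, 0 < k → E.AcyclicAt k := by
  rcases ((M.at' b).typeF hb).dichotomy E.mu E.x E.car hn with h | h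
  · exact (S.not_semi hL b (Or.inl hb) m hm ((M.at' b).semi' E h)).elim
  · exact h

/-- numerical dimension two -/
theorem main_two (h2 : 2 ≤ h) {L : P} (hL : Bad S.gen L) (hT : ∃ z, X.T L L z ≠ 0) : False := by
  obtain ⟨F, hF⟩ := S.two.exists_family L (S.interior2.finite L hL.nef)
    (fun b _ E => E.Nef)
    (fun b m E c _ hE => (S.two.at' b).nef_nsmul _ _ _ hE)
    (fun b => (S.two.at' b).exists_nef hL.nef)
    (fun b _ hN m _ => (S.two.at' b).nef_nsmul _ _ _ hN)
  obtain ⟨D⟩ := S.deg L hL hT F hF (fun b hb => S.acyclic_zero S.two hL b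
    (S.D.int_kind b (F.std b hb).int) F.m_pos _ (hF b))
  refine D.false fun b hb => ?_
  rcases ((S.atTwo b).transfer L _ (F.ext b) F.m_pos (hF b)
    fun k hk => hL.acyclic k hk 0).bound_or with h | h
  · exact h
  · exact (S.not_semi' hL b (S.kind_ok h2 b hb) h).elim

lemma T_smul (x y z : P) (k : ℕ) : X.T x y (k • z) = (k : ℤ) * X.T x y z := by
  have h := (X.lines.add_T x y).zsmul (k : ℤ) z
  rw [natCast_zsmul] at h
  rw [h, smul_eq_mul]

lemma c_smul (x : P) (k : ℕ) : X.c (k • x) = (k : ℤ) * X.c x := by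
  have h := X.lines.add_c.zsmul (k : ℤ) x
  rw [natCast_zsmul] at h
  rw [h, smul_eq_mul]

lemma two_smul (L : P) (k : ℕ) (z : P) : X.T (k • L) (k • L) z =
    (k : ℤ) ^ 2 * X.T L L z := by
  rw [X.lines.symm23, T_smul, X.lines.symm23 (k • L) z L, X.lines.symm12 (k • L) L z,
    X.lines.symm23 L (k • L) z, T_smul, X.lines.symm23 L z L]
  ring

lemma one_mul (L : P) (k : ℕ) (hk : 0 < k) (h : One X L) : One X (k • L) :=
  ⟨fun j hj => by rw [smul_smul]; exact h.ne _ (Nat.mul_pos hj hk),
    fun z => by rw [two_smul, h.sq, mul_zero], by rw [c_smul, h.c, mul_zero]⟩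

/-- divisors of positive weight, numerical dimension one -/
lemma good_one (h2 : 2 ≤ h) {L : P} (hL : Bad S.gen L) (hT : ∀ z, X.T L L z = 0) (b : S.D.B)
    (hb : S.D.wt b ≠ 0) :
    ∃ (k : ℕ) (E : Ext (S.one.germ b) L k), 0 < k ∧ ∀ j : ℕ, 0 < j → E.AcyclicAt j := by
  rcases S.kind_ok h2 b hb with h0 | h1 | h1
  · obtain ⟨k, E, hk, hn⟩ := (S.one.at' b).exists_nef hL.nef
    exact ⟨k, E, hk, S.acyclic_zero S.one hL b h0 hk E hn⟩
  · obtain ⟨k, E, hk, hn⟩ := (S.one.at' b).exists_nef hL.nef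
    have hone : One X (k • L) := one_mul L k hk ⟨hL.ne, hT, hL.c⟩
    rw [← E.rho] at hone
    have h := ((S.atOne b).two h1.1).result one_mul (S.D.semi_mul b) (S.one.at' b).qfac E.mu E.x
      hn hone
    rw [E.rho] at h
    rcases h with h | h
    · obtain ⟨mu, j, x, hj, hx, h⟩ := h
      exact ⟨j * k, ⟨mu, x, by rw [hx, smul_smul], fun i hi => (h i hi).1⟩, Nat.mul_pos hj hk,
        fun i hi => (h i hi).2⟩
    · exact (S.not_semi hL b (S.kind_ok h2 b hb) k hk h).elim
  · exfalso
    have hL0 : L ≠ 0 := by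
      have := hL.ne 1 one_pos
      rwa [one_smul] at this
    have hLL : X.T X.H L L = 0 := by rw [X.lines.symm12, X.lines.symm23, hT]
    have hLA : 0 < X.T X.H L X.H := by
      rw [X.lines.symm23]
      exact X.deg_pos L hL.nefX hL0 hLL
    refine S.not_semi' hL b (Or.inr (Or.inr h1)) (((S.atOne b).three h1.1 h1.2 hb).result
      ?_ ?_ ?_ (S.D.semi_mul b) L hL.nef hL0 hLL hLA _ ((S.one.at' b).rho_lift L)
      (S.one.at' b).qfac)
    · intro x y z
      change X.T X.H (x + y) z = X.T X.H x z + X.T X.H y z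
      rw [X.lines.symm23, X.lines.add_T, X.lines.symm23 X.H z x, X.lines.symm23 X.H z y]
    · intro x y
      exact X.lines.symm23 _ _ _
    · intro x h1 h2
      refine X.lines.index x ?_ h2
      rw [X.lines.symm23]
      exact h1

/-- numerical dimension one -/
theorem main_one (h2 : 2 ≤ h) {L : P} (hL : Bad S.gen L) (hT : ∀ z, X.T L L z = 0) : False := by
  obtain ⟨F, hF⟩ := S.one.exists_family L (S.interior1.finite L hL.nef)
    (fun b _ E => S.D.wt b ≠ 0 → ∀ j : ℕ, 0 < j → E.AcyclicAt j)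
    (fun b m E c hc hE hw j hj => by
      have h := hE hw (j * c) (Nat.mul_pos hj hc)
      change (S.one.germ b).Acyclic E.mu (j • c • E.x)
      rw [smul_smul]
      exact h)
    (fun b => by
      by_cases hb : S.D.wt b = 0
      · obtain ⟨k, E, hk, _⟩ := (S.one.at' b).exists_nef hL.nef
        exact ⟨k, E, hk, fun h => absurd hb h⟩
      · obtain ⟨k, E, hk, hE⟩ := S.good_one h2 hL hT b hb
        exact ⟨k, E, hk, fun _ => hE⟩)
    (fun b hI hN m hm _ => S.acyclic_zero S.one hL b (S.D.int_kind b hI) hm _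
      ((S.one.at' b).nef_nsmul _ _ _ hN))
  obtain ⟨p, -, hp0, hp⟩ := S.det L F
  -- all values at positive integers vanish
  have hzero : ∀ n : ℕ, 0 < n → p.eval (n : ℚ) = 0 := by
    intro n hn
    obtain ⟨o, ho, ho'⟩ := hp n hn
      (fun i => by rw [smul_smul]; exact hL.acyclic _ (Nat.mul_pos hn F.m_pos) i)
    rw [ho, Finsupp.sum]
    refine Finset.sum_eq_zero fun b _ => ?_
    by_cases hw : S.D.wt b = 0
    · rw [hw, mul_zero]
    · rw [ho' b (hF b hw n hn), zero_mul]
  have hpz : p = 0 := by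
    refine Polynomial.eq_zero_of_infinite_isRoot p ?_
    refine Set.infinite_of_injective_forall_mem (f := fun n : ℕ => ((n + 1 : ℕ) : ℚ)) ?_ ?_
    · intro a b hab
      have h : ((a + 1 : ℕ) : ℚ) = ((b + 1 : ℕ) : ℚ) := hab
      have h' : a + 1 = b + 1 := by exact_mod_cast h
      omega
    · intro n
      exact hzero (n + 1) (Nat.succ_pos n)
  have htop := S.top_pos
  rw [← hp0, hpz] at htop
  simp at htop

include S in

theorem main (h2 : 2 ≤ h) (L : P) (hL : X.Nef L) : X.SA L := by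
  by_contra hs
  have hb := S.gen.bad L hL hs
  by_cases hT : ∃ z, X.T L L z ≠ 0
  · exact S.main_two h2 hb hT
  · push Not at hT
    exact S.main_one h2 hb hT

end Setup

end SJoin

section SSplit

/-- the restriction of the line bundle to `K` is torsion -/
theorem Flat.torsion {G : Type} [Group G] [Fintype G] (F : Flat G) : Fintype.card G • F.p = 0 := by
  have h1 : ∀ w, ∑ g, F.actW g w = 0 := by
    intro w
    refine F.inv _ fun g => ?_
    have h := map_sum (AddMonoidHom.mk' (F.actW g) (F.add_W g)) (fun x => F.actW x w) Finset.univ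
    refine h.trans ?_
    calc ∑ x, F.actW g (F.actW x w) = ∑ x, F.actW (g * x) w :=
          Finset.sum_congr rfl fun x _ => (F.mul_W g x w).symm
      _ = ∑ x, F.actW x w := Fintype.sum_equiv (Equiv.mulLeft g) _ _ fun x => rfl
  have h2 : ∀ v, ∑ g, F.actV g v = 0 := by
    intro v
    obtain ⟨w, rfl⟩ := F.r_onto v
    have h := map_sum (AddMonoidHom.mk' F.r F.add_r) (fun x => F.actW x w) Finset.univ
    calc ∑ g, F.actV g (F.r w) = ∑ g, F.r (F.actW g w) :=
          Finset.sum_congr rfl fun g _ => (F.r_act g w).symm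
      _ = F.r (∑ g, F.actW g w) := h.symm
      _ = 0 := by rw [h1]; exact map_zero (AddMonoidHom.mk' F.r F.add_r)
  have h3 := F.rigid h2 F.p
  rw [Finset.sum_congr rfl fun g _ => F.p_inv g] at h3
  simpa using h3

/-- nef classes on `X` are semiample if this is true for the irreducible factors -/
theorem Split.semiample (D : Split) (h : ∀ i y, D.nefY i y → D.saY i y) (x : D.P)
    (hx : D.Nef x) : D.SA x := by
  refine D.descent x (fun i => h i _ (D.nef_res x i hx)) ?_
  obtain ⟨F, hF⟩ := D.flat x hx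
  exact hF _ Fintype.card_pos F.torsion

end SSplit

section SFinal

/-- nef classes on Calabi-Yau threefolds are semiample -/
theorem Threefold.semiample {P : Type} [AddCommGroup P] (Y : Threefold P) (x : P)
    (hx : Y.X.Nef x) : Y.X.SA x := by
  rcases Nat.lt_or_ge Y.h21 2 with h | h
  · by_contra hs
    have := Pool.Agent.H76.S.Last.le (Y.last (by omega) x hx hs)
    omega
  · exact (Y.setup h).main h x hx

end SFinal

end Pool.Agent.H48.CYT
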